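import Pool.Agent.H.MP_81d9be_nt.Tools

/-!
# MP_81d9be_nt: four squares in arithmetic progression, as a descent on
`f ^ 2 + g ^ 2 = □`, `f ^ 2 + 4 g ^ 2 = □`
-/

set_option autoImplicit false

namespace GF2

/-- Four numbers. -/
theorem ap_four {c b x y : ℕ} (hc : 0 < c) (h : c * b = x * y) :
    ∃ e f g h : ℕ, c = f * h ∧ b = e * g ∧ x = e * f ∧ y = g * h ∧ Nat.Coprime h e := by
  obtain ⟨h1, e, hcop, e1, e2⟩ := Nat.exists_coprime c x
  obtain ⟨f, hf⟩ : ∃ f, f = Nat.gcd c x := ⟨_, rfl⟩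
  rw [← hf] at e1 e2
  have hf0 : 0 < f := by
    rw [hf]
    exact Nat.gcd_pos_of_pos_left _ hc
  have h2 : h1 * b = e * y := by
    have : f * (h1 * b) = f * (e * y) := by
      calc f * (h1 * b) = (h1 * f) * b := by ring
        _ = c * b := by rw [← e1]
        _ = x * y := h
        _ = (e * f) * y := by rw [← e2]
        _ = f * (e * y) := by ring
    exact Nat.eq_of_mul_eq_mul_left hf0 this
  have h3 : h1 ∣ e * y := ⟨b, h2.symm⟩
  obtain ⟨g, hg⟩ := hcop.dvd_of_dvd_mul_left h3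
  have hh0 : 0 < h1 := by
    rcases Nat.eq_zero_or_pos h1 with h0 | h0
    · rw [h0, zero_mul] at e1
      omega
    · exact h0
  refine ⟨e, f, g, h1, by rw [mul_comm f h1]; exact e1, ?_, e2, by rw [hg, mul_comm], hcop⟩
  rw [hg] at h2
  have : h1 * b = h1 * (e * g) := by rw [h2]; ring
  exact Nat.eq_of_mul_eq_mul_left hh0 this

/-- A common divisor up to `3`. -/
theorem ap_three {p q t : ℕ} (h : Nat.Coprime p q) (h1 : t ∣ 3 * p ^ 2) (h2 : t ∣ 3 * q ^ 2) :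
    t = 1 ∨ t = 3 := by
  have h3 : t ∣ 3 := by
    have h4 : Nat.gcd (3 * p ^ 2) (3 * q ^ 2) = 3 := by
      rw [Nat.gcd_mul_left, (Nat.Coprime.pow 2 2 h : Nat.gcd (p ^ 2) (q ^ 2) = 1), mul_one]
    rw [← h4]
    exact Nat.dvd_gcd h1 h2
  exact (Nat.dvd_prime Nat.prime_three).1 h3

theorem ap_mod3 {p q r : ℕ} (h : Nat.Coprime p q) (e : p ^ 2 + q ^ 2 = r * 3) : False := by
  rcases sq3 p with ⟨h1, h2⟩ | ⟨h1, h2⟩
  · rcases sq3 q with ⟨h3, h4⟩ | ⟨h3, h4⟩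
    · exact cop_not3 h h2 h4
    · omega
  · rcases sq3 q with ⟨h3, h4⟩ | ⟨h3, h4⟩ <;> omega

/-- The step. -/
theorem ap_step {c b x y : ℕ} (hc0 : 0 < c) (hb0 : 0 < b) (hx : 0 < x) (hy : 0 < y)
    (hcb : Nat.Coprime c b) (h1 : c * b = 2 * (x * y)) (h2 : c ^ 2 + y ^ 2 = b ^ 2 + x ^ 2) :
    ∃ f g E H : ℕ, 0 < f ∧ 0 < g ∧ Nat.Coprime f g ∧ f ^ 2 + g ^ 2 = E ^ 2 ∧
      f ^ 2 + 4 * g ^ 2 = H ^ 2 ∧ f * g ≤ x * y := by
  have hev : c % 2 = 0 ∨ b % 2 = 0 := by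
    rcases Nat.mod_two_eq_zero_or_one c with h | h
    · exact Or.inl h
    · right
      have h3 : 2 ∣ c * b := ⟨_, h1⟩
      rcases (Nat.Prime.dvd_mul Nat.prime_two).1 h3 with h4 | h4 <;> omega
  rcases hev with hev | hev
  · obtain ⟨c', rfl⟩ : ∃ c', c = 2 * c' := ⟨c / 2, by omega⟩
    have h3 : b * c' = x * y := by nlinarith
    obtain ⟨e, f, g, h, e1, e2, e3, e4, hcop⟩ := ap_four hb0 h3
    subst e1 e2 e3 e4
    have he0 : 0 < e := Nat.pos_of_ne_zero (by rintro rfl; simp at hx)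
    have hf0 : 0 < f := Nat.pos_of_ne_zero (by rintro rfl; simp at hx)
    have hg0 : 0 < g := Nat.pos_of_ne_zero (by rintro rfl; simp at hy)
    have hh0 : 0 < h := Nat.pos_of_ne_zero (by rintro rfl; simp at hy)
    have hfg : Nat.Coprime f g := by
      have h4 : Nat.Coprime (2 * (e * g)) (f * h) := hcb
      exact ((h4.coprime_dvd_left ⟨2 * e, by ring⟩).coprime_dvd_right ⟨h, rfl⟩ :
        Nat.Coprime g f).symm
    have h4 : g ^ 2 * (4 * e ^ 2 + h ^ 2) = f ^ 2 * (h ^ 2 + e ^ 2) := by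
      nlinarith
    have h5 : g ^ 2 ∣ h ^ 2 + e ^ 2 := by
      have h6 : g ^ 2 ∣ f ^ 2 * (h ^ 2 + e ^ 2) := ⟨_, h4.symm⟩
      exact (Nat.Coprime.pow 2 2 hfg.symm).dvd_of_dvd_mul_left h6
    obtain ⟨t, ht⟩ := h5
    have h6 : 4 * e ^ 2 + h ^ 2 = f ^ 2 * t := by
      have h7 : g ^ 2 * (4 * e ^ 2 + h ^ 2) = g ^ 2 * (f ^ 2 * t) := by
        rw [h4, ht]
        ring
      exact Nat.eq_of_mul_eq_mul_left (by positivity) h7
    have t1 : t ∣ 3 * e ^ 2 := by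
      have h7 : t ∣ f ^ 2 * t - g ^ 2 * t := Nat.dvd_sub ⟨f ^ 2, by ring⟩ ⟨g ^ 2, by ring⟩
      have h8 : f ^ 2 * t - g ^ 2 * t = 3 * e ^ 2 := by omega
      rwa [h8] at h7
    have t2 : t ∣ 3 * h ^ 2 := by
      have h7 : t ∣ 4 * (g ^ 2 * t) - f ^ 2 * t :=
        Nat.dvd_sub ⟨4 * g ^ 2, by ring⟩ ⟨f ^ 2, by ring⟩
      have h8 : 4 * (g ^ 2 * t) - f ^ 2 * t = 3 * h ^ 2 := by omega
      rwa [h8] at h7
    rcases ap_three hcop t2 t1 with rfl | rfl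
    · refine ⟨h, e, g, f, hh0, he0, hcop, by omega, by omega, ?_⟩
      calc h * e = 1 * (h * e) := (one_mul _).symm
        _ ≤ (f * g) * (h * e) := Nat.mul_le_mul_right _ (Nat.mul_pos hf0 hg0)
        _ = e * f * (g * h) := by ring
    · exact (ap_mod3 hcop ht).elim
  · obtain ⟨b', rfl⟩ : ∃ b', b = 2 * b' := ⟨b / 2, by omega⟩
    have h3 : c * b' = x * y := by nlinarith
    obtain ⟨e, f, g, h, e1, e2, e3, e4, hcop⟩ := ap_four hc0 h3
    subst e1 e2 e3 e4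
    have he0 : 0 < e := Nat.pos_of_ne_zero (by rintro rfl; simp at hx)
    have hf0 : 0 < f := Nat.pos_of_ne_zero (by rintro rfl; simp at hx)
    have hg0 : 0 < g := Nat.pos_of_ne_zero (by rintro rfl; simp at hy)
    have hh0 : 0 < h := Nat.pos_of_ne_zero (by rintro rfl; simp at hy)
    have hfg : Nat.Coprime f g := by
      have h4 : Nat.Coprime (f * h) (2 * (e * g)) := hcb
      exact (h4.coprime_dvd_left ⟨h, rfl⟩).coprime_dvd_right ⟨2 * e, by ring⟩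
    have h4 : h ^ 2 * (f ^ 2 + g ^ 2) = e ^ 2 * (f ^ 2 + 4 * g ^ 2) := by
      nlinarith
    have h5 : e ^ 2 ∣ f ^ 2 + g ^ 2 := by
      have h6 : e ^ 2 ∣ h ^ 2 * (f ^ 2 + g ^ 2) := ⟨_, h4⟩
      exact (Nat.Coprime.pow 2 2 hcop.symm).dvd_of_dvd_mul_left h6
    obtain ⟨t, ht⟩ := h5
    have h6 : f ^ 2 + 4 * g ^ 2 = h ^ 2 * t := by
      have h7 : e ^ 2 * (f ^ 2 + 4 * g ^ 2) = e ^ 2 * (h ^ 2 * t) := by
        rw [← h4, ht]
        ring
      exact Nat.eq_of_mul_eq_mul_left (by positivity) h7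
    have t1 : t ∣ 3 * g ^ 2 := by
      have h7 : t ∣ h ^ 2 * t - e ^ 2 * t := Nat.dvd_sub ⟨h ^ 2, by ring⟩ ⟨e ^ 2, by ring⟩
      have h8 : h ^ 2 * t - e ^ 2 * t = 3 * g ^ 2 := by omega
      rwa [h8] at h7
    have t2 : t ∣ 3 * f ^ 2 := by
      have h7 : t ∣ 4 * (e ^ 2 * t) - h ^ 2 * t :=
        Nat.dvd_sub ⟨4 * e ^ 2, by ring⟩ ⟨h ^ 2, by ring⟩
      have h8 : 4 * (e ^ 2 * t) - h ^ 2 * t = 3 * f ^ 2 := by omega
      rwa [h8] at h7
    rcases ap_three hfg t2 t1 with rfl | rfl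
    · refine ⟨f, g, e, h, hf0, hg0, hfg, by omega, by omega, ?_⟩
      calc f * g = 1 * (f * g) := (one_mul _).symm
        _ ≤ (e * h) * (f * g) := Nat.mul_le_mul_right _ (Nat.mul_pos he0 hh0)
        _ = e * f * (g * h) := by ring
    · exact (ap_mod3 hfg ht).elim

/-- The descent. -/
theorem ap_desc : ∀ K F G E H : ℕ, F * G = K → 0 < F → 0 < G → Nat.Coprime F G →
    F ^ 2 + G ^ 2 = E ^ 2 → F ^ 2 + 4 * G ^ 2 = H ^ 2 → False := by
  intro K
  induction K using Nat.strong_induction_on with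
  | _ K ih =>
  intro F G E H hK hF hG hc h1 h2
  rcases Nat.mod_two_eq_zero_or_one F with hF2 | hF2
  · obtain ⟨F', rfl⟩ : ∃ F', F = 2 * F' := ⟨F / 2, by omega⟩
    have hH : H % 2 = 0 := by
      by_contra hH
      have k1 := sq8o (n := H) (by omega)
      have k2 : (2 * F') ^ 2 = 4 * F' ^ 2 := by ring
      omega
    obtain ⟨h, rfl⟩ : ∃ h, H = 2 * h := ⟨H / 2, by omega⟩
    refine ih (G * F') ?_ G F' h E rfl hG (by omega) ?_ ?_ ?_
    · rw [← hK]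
      have : 0 < G * F' := Nat.mul_pos hG (by omega)
      nlinarith
    · exact (hc.coprime_dvd_left ⟨2, by ring⟩).symm
    · nlinarith
    · nlinarith
  · have hG2 : G % 2 = 0 := by
      by_contra hG2
      have k1 := sq8o hF2
      have k2 := sq8o (n := G) (by omega)
      have k3 := sq8 E
      omega
    obtain ⟨v, w, hv, hw, hvw, hw2, e1, e2, e3⟩ := pyth h1 hc hF2 hG
    have hc2 : Nat.Coprime F (2 * G) := by
      have h3 : Nat.Coprime F 2 := by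
        rw [Nat.coprime_comm, Nat.prime_two.coprime_iff_not_dvd]
        omega
      exact h3.mul_right hc
    obtain ⟨v', w', hv', hw', hvw', hw2', e1', e2', e3'⟩ :=
      pyth (m := F) (n := 2 * G) (b := H) (by rw [← h2]; ring) hc2 hF2 (by omega)
    have h3 : (v' + w') * v' = 2 * ((v + w) * v) := by nlinarith
    have h4 : (v' + w') ^ 2 + v ^ 2 = v' ^ 2 + (v + w) ^ 2 := by nlinarith
    obtain ⟨f, g, E', H', hf, hg, hfg, h5, h6, h7⟩ :=
      ap_step (c := v' + w') (b := v') (x := v + w) (y := v) (by omega) hv' (by omega) hv hvw' h3 h4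
    refine ih (f * g) ?_ f g E' H' rfl hf hg hfg h5 h6
    rw [← hK]
    have h8 : (v + w) * v < G := by
      have : 0 < (v + w) * v := Nat.mul_pos (by omega) hv
      nlinarith
    calc f * g ≤ (v + w) * v := h7
      _ < G := h8
      _ = 1 * G := (one_mul _).symm
      _ ≤ F * G := Nat.mul_le_mul_right _ hF

/-- The middle system. -/
theorem ap_mid {X Y Z W : ℕ} (hX : 0 < X) (hY : 0 < Y) (hZ : 0 < Z) (hW : 0 < W)
    (hXY : Nat.Coprime X Y) (hZW : Nat.Coprime Z W) (h1 : X ^ 2 = Y ^ 2 + Z * W)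
    (h2 : Z ^ 2 = W ^ 2 + 2 * (X * Y)) : False := by
  have hpos : 0 < X * Y := Nat.mul_pos hX hY
  have hZW2 : W < Z := by nlinarith
  have hodd : Z % 2 = 1 ∧ W % 2 = 1 := by
    have k1 : Z ^ 2 % 2 = Z % 2 := by
      rcases Nat.mod_two_eq_zero_or_one Z with h | h <;> simp [Nat.pow_mod, h]
    have k2 : W ^ 2 % 2 = W % 2 := by
      rcases Nat.mod_two_eq_zero_or_one W with h | h <;> simp [Nat.pow_mod, h]
    rcases Nat.mod_two_eq_zero_or_one Z with h | h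
    · exact (cop_not2 hZW h (by omega)).elim
    · omega
  obtain ⟨y, hy⟩ : ∃ y, Z = W + 2 * y := ⟨(Z - W) / 2, by omega⟩
  have hy0 : 0 < y := by omega
  subst hy
  have h3 : X * Y = 2 * ((W + y) * y) := by nlinarith
  have h4 : X ^ 2 + y ^ 2 = Y ^ 2 + (W + y) ^ 2 := by nlinarith
  obtain ⟨f, g, E', H', hf, hg, hfg, h5, h6, -⟩ :=
    ap_step hX hY (by omega) hy0 hXY h3 h4
  exact ap_desc _ f g E' H' rfl hf hg hfg h5 h6

/-- `u v = c d` and `u ^ 2 + v ^ 2 = (c - d) ^ 2`. -/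
theorem ap_uv {u v c d : ℕ} (hu : 0 < u) (hv : 0 < v) (hc : 0 < c) (hd : 0 < d)
    (huv : Nat.Coprime u v) (hcd : Nat.Coprime c d) (h1 : u * v = c * d)
    (h2 : u ^ 2 + v ^ 2 + 2 * (c * d) = c ^ 2 + d ^ 2) : False := by
  obtain ⟨β, α, δ, γ', e1, e2, e3, e4, hcop⟩ : ∃ β α δ γ : ℕ, u = α * β ∧ v = γ * δ ∧
      c = α * γ ∧ d = β * δ ∧ Nat.Coprime β γ := by
    obtain ⟨e, f, g, h, e1, e2, e3, e4, hcop⟩ := ap_four hu h1
    exact ⟨h, f, g, e, e1, e2, by rw [e3, mul_comm], by rw [e4, mul_comm], hcop⟩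
  subst e1 e2 e3 e4
  have hα0 : 0 < α := Nat.pos_of_ne_zero (by rintro rfl; simp at hu)
  have hβ0 : 0 < β := Nat.pos_of_ne_zero (by rintro rfl; simp at hu)
  have hγ0 : 0 < γ' := Nat.pos_of_ne_zero (by rintro rfl; simp at hv)
  have hδ0 : 0 < δ := Nat.pos_of_ne_zero (by rintro rfl; simp at hv)
  have hαδ : Nat.Coprime α δ :=
    (huv.coprime_dvd_left ⟨β, rfl⟩).coprime_dvd_right ⟨γ', by ring⟩
  have key : ((α : ℤ) ^ 2 - δ ^ 2) * (γ' ^ 2 - β ^ 2) = 2 * (α * δ) * (β * γ') := by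
    have : ((α : ℤ) * β) ^ 2 + (γ' * δ) ^ 2 + 2 * (α * γ' * (β * δ)) =
        (α * γ') ^ 2 + (β * δ) ^ 2 := by exact_mod_cast h2
    linear_combination -this
  have cop : ∀ a b : ℕ, Nat.Coprime a b → IsCoprime ((a : ℤ) * b) ((a : ℤ) ^ 2 - b ^ 2) := by
    intro a b hab
    have h3 : IsCoprime (a : ℤ) (b : ℤ) := Nat.isCoprime_iff_coprime.2 hab
    have h4 : IsCoprime (a : ℤ) ((a : ℤ) ^ 2 - b ^ 2) := by
      have h5 : IsCoprime (a : ℤ) (-(b : ℤ) ^ 2) := (h3.pow_right).neg_right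
      have h6 := h5.add_mul_left_right (a : ℤ)
      have h7 : -(b : ℤ) ^ 2 + a * a = (a : ℤ) ^ 2 - b ^ 2 := by ring
      rwa [h7] at h6
    have h5 : IsCoprime (b : ℤ) ((a : ℤ) ^ 2 - b ^ 2) := by
      have h5 : IsCoprime (b : ℤ) ((a : ℤ) ^ 2) := h3.symm.pow_right
      have h6 := h5.add_mul_left_right (-(b : ℤ))
      have h7 : (a : ℤ) ^ 2 + b * (-b) = (a : ℤ) ^ 2 - b ^ 2 := by ring
      rwa [h7] at h6
    exact h4.mul_left h5
  have h3 : ((α : ℤ) * δ) ∣ γ' ^ 2 - β ^ 2 := by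
    have h4 : ((α : ℤ) * δ) ∣ (α ^ 2 - δ ^ 2) * (γ' ^ 2 - β ^ 2) :=
      ⟨2 * (β * γ'), by rw [key]; ring⟩
    exact (cop α δ hαδ).dvd_of_dvd_mul_left h4
  have h4 : ((γ' : ℤ) * β) ∣ α ^ 2 - δ ^ 2 := by
    have h4 : ((γ' : ℤ) * β) ∣ (α ^ 2 - δ ^ 2) * (γ' ^ 2 - β ^ 2) :=
      ⟨2 * (α * δ), by rw [key]; ring⟩
    exact (cop γ' β hcop.symm).dvd_of_dvd_mul_right h4
  obtain ⟨k, hk⟩ := h3
  obtain ⟨l, hl⟩ := h4
  have hkl : l * k = 2 := by
    rw [hk, hl] at key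
    have h5 : ((α : ℤ) * δ * (β * γ')) ≠ 0 := by positivity
    have h6 : ((α : ℤ) * δ * (β * γ')) * (l * k) = ((α : ℤ) * δ * (β * γ')) * 2 := by
      linear_combination key
    exact mul_left_cancel₀ h5 h6
  have hl2 : l ∣ 2 := ⟨k, hkl.symm⟩
  have hl3 : l = 1 ∨ l = -1 ∨ l = 2 ∨ l = -2 := by
    have h5 : l ≤ 2 := Int.le_of_dvd (by norm_num) hl2
    have h6 : -l ≤ 2 := Int.le_of_dvd (by norm_num) (neg_dvd.2 hl2)
    have h7 : l ≠ 0 := by
      rintro rfl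
      norm_num at hkl
    omega
  rcases hl3 with rfl | rfl | rfl | rfl
  · -- `k = 2`
    have hk2 : k = 2 := by linarith
    subst hk2
    refine ap_mid (X := α) (Y := δ) (Z := γ') (W := β) hα0 hδ0 hγ0 hβ0 hαδ hcop.symm ?_ ?_
    · zify
      linarith
    · zify
      linarith
  · have hk2 : k = -2 := by linarith
    subst hk2
    refine ap_mid (X := δ) (Y := α) (Z := β) (W := γ') hδ0 hα0 hβ0 hγ0 hαδ.symm hcop ?_ ?_
    · zify
      linarith
    · zify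
      linarith
  · have hk2 : k = 1 := by linarith
    subst hk2
    refine ap_mid (X := γ') (Y := β) (Z := α) (W := δ) hγ0 hβ0 hα0 hδ0 hcop.symm hαδ ?_ ?_
    · zify
      linarith
    · zify
      linarith
  · have hk2 : k = -1 := by linarith
    subst hk2
    refine ap_mid (X := β) (Y := γ') (Z := δ) (W := α) hβ0 hγ0 hδ0 hα0 hcop hαδ.symm ?_ ?_
    · zify
      linarith
    · zify
      linarith

end GF2
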