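import Pool.Agent.H.MP_81d9be_nt.T2

/-!
# MP_81d9be_nt: `y ^ 8 + 2 z ^ 4 = x ^ 3`, the arithmetic part
-/

set_option autoImplicit false

namespace GF2

theorem pp4 : IsPrimePow 4 := by
  have h : (4 : ℕ) = 2 ^ 2 := by norm_num
  rw [h]
  exact Nat.prime_two.isPrimePow.pow (by norm_num)

theorem ei32 {n : ℕ} (h : n % 2 = 1) : n ^ 8 % 32 = 1 := by
  obtain ⟨k, hk⟩ : ∃ k, n ^ 4 = 16 * k + 1 := ⟨n ^ 4 / 16, by have := fo16 h; omega⟩
  have h1 : n ^ 8 = 32 * (8 * k ^ 2 + k) + 1 := by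
    calc n ^ 8 = (n ^ 4) ^ 2 := by ring
      _ = (16 * k + 1) ^ 2 := by rw [hk]
      _ = 32 * (8 * k ^ 2 + k) + 1 := by ring
  rw [h1]
  omega

theorem prod_odd {u v w : ℕ} (e : u * v = w) (hw : w % 2 = 1) : u % 2 = 1 ∧ v % 2 = 1 := by
  subst e
  exact Nat.odd_mul.1 (Nat.odd_iff.2 hw) |>.imp Nat.odd_iff.1 Nat.odd_iff.1

theorem pow_cancel {x u v a K n : ℕ} (hK : 0 < K) (hn : n ≠ 0) (e1 : x = K * (u * v) ^ n)
    (e2 : x = K * a ^ n) : u * v = a :=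
  (Nat.pow_left_injective hn) (Nat.eq_of_mul_eq_mul_left hK (e1.symm.trans e2))

theorem last8fin {u e f : ℕ} (hu : u ^ 2 % 8 = 1) (he : e % 2 = 1) (hf : f % 2 = 1)
    (h : 4 * u ^ 2 = 243 * e ^ 8 + f ^ 8) : False := by
  have h3 := ei32 he
  have h4 := ei32 hf
  omega

/-- `t ^ 4 + 243 m ^ 8 = 4 u ^ 4` is impossible for odd coprime `t`, `m`. -/
theorem last8 {t m u : ℕ} (ht : t % 2 = 1) (hm : m % 2 = 1) (hu : u % 2 = 1) (ht3 : t % 3 ≠ 0)
    (hc : Nat.Coprime t m) (h : t ^ 4 + 243 * m ^ 8 = 4 * u ^ 4) : False := by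
  have hm0 : 0 < m := by omega
  have hlt : t ^ 2 < 2 * u ^ 2 := by
    refine lt_of_pow_lt_pow_left₀ 2 (Nat.zero_le _) ?_
    have h1 : 0 < m ^ 8 := by positivity
    have h2 : (t ^ 2) ^ 2 = t ^ 4 := by ring
    have h3 : (2 * u ^ 2) ^ 2 = 4 * u ^ 4 := by ring
    rw [h2, h3, ← h]
    exact Nat.lt_add_of_pos_right (by positivity)
  obtain ⟨w, hw⟩ : ∃ w, 2 * u ^ 2 = t ^ 2 + w := ⟨2 * u ^ 2 - t ^ 2, by omega⟩
  have ht8 := sq8o ht
  have hu8 := sq8o hu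
  have hwo : w % 2 = 1 := by
    clear h hlt
    omega
  have h1 : (2 * t ^ 2 + w) * w = 243 * m ^ 8 := by
    have h2 : t ^ 4 + (2 * t ^ 2 + w) * w = t ^ 4 + 243 * m ^ 8 := by
      calc t ^ 4 + (2 * t ^ 2 + w) * w = (t ^ 2 + w) ^ 2 := by ring
        _ = (2 * u ^ 2) ^ 2 := by rw [hw]
        _ = 4 * u ^ 4 := by ring
        _ = t ^ 4 + 243 * m ^ 8 := h.symm
    exact Nat.add_left_cancel h2
  have hcw : Nat.Coprime (2 * t ^ 2 + w) w := by
    rw [Nat.coprime_add_self_left]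
    refine Nat.Coprime.mul_left ?_ (Nat.Coprime.pow_left 2 ?_)
    · rw [Nat.coprime_two_left]
      exact Nat.odd_iff.2 hwo
    · by_contra hng
      obtain ⟨l, hl, h2, h3⟩ := Nat.Prime.not_coprime_iff_dvd.1 hng
      have h4 : l ∣ 243 * m ^ 8 := by
        rw [← h1]
        exact Dvd.dvd.mul_left h3 _
      rcases (Nat.Prime.dvd_mul hl).1 h4 with h5 | h5
      · have h6 : l = 3 := dvd3 hl (k := 5) (by simpa using h5)
        rw [h6] at h2
        exact ht3 (Nat.mod_eq_zero_of_dvd h2)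
      · exact cop_no hc hl h2 (hl.dvd_of_dvd_pow h5)
  have hodd : ∀ e f : ℕ, (243 * e ^ 8) * f ^ 8 = 243 * m ^ 8 → e % 2 = 1 ∧ f % 2 = 1 := by
    intro e f h2
    have h4 : e * f = m := pow_cancel (K := 243) (n := 8) (by norm_num) (by norm_num)
      (by ring) h2
    exact prod_odd h4 hm
  rcases spl pp243 hcw h1 with ⟨e, f, h2, h3⟩ | ⟨e, f, h2, h3⟩
  · obtain ⟨he, hf⟩ := hodd e f (by rw [← h2, ← h3, h1])
    refine last8fin hu8 he hf ?_
    rw [← h2, ← h3]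
    clear h h1 h2 h3 hcw
    omega
  · obtain ⟨he, hf⟩ := hodd f e (by rw [← h2, ← h3, mul_comm, h1])
    refine last8fin hu8 he hf ?_
    rw [← h2, ← h3]
    clear h h1 h2 h3 hcw
    omega

theorem cop4 {M N u v : ℕ} (e : Nat.Coprime (M * u ^ 4) (N * v ^ 4)) : Nat.Coprime u v :=
  Nat.Coprime.coprime_dvd_left ⟨M * u ^ 3, by ring⟩
    (Nat.Coprime.coprime_dvd_right ⟨N * v ^ 3, by ring⟩ e)

theorem n1 {x y z : ℕ} (hx : x % 16 = 1) (hy : y % 16 = 1) (hz : z % 16 = 1)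
    (h : z + 3 * (2 * x) = 2 * y) : False := by omega

theorem n2 {x y z : ℕ} (hx : x % 16 = 1) (hy : y % 16 = 1) (hz : z % 16 = 1)
    (h : z + 2 * x = 2 * (3 * y)) : False := by omega

theorem n3 {x y z : ℕ} (hx : x % 16 = 1) (hy : y % 16 = 1) (hz : z % 16 = 1)
    (h : z + x = 2 * (3 * (2 * y))) : False := by omega

theorem n4 {x y z : ℕ} (hx : x % 16 = 1) (hy : y % 16 = 1) (hz : z % 16 = 1)
    (h : 4 * z + 3 * (2 * x) = 2 * y) : False := by omega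

theorem n5 {x y z : ℕ} (hx : x % 16 = 1) (hy : y % 16 = 1) (hz : z % 16 = 1)
    (h : 4 * z + 3 * x = 2 * (2 * y)) : False := by omega

theorem n6 {x y z : ℕ} (hx : x % 16 = 1) (hy : y % 16 = 1) (hz : z % 16 = 1)
    (h : 4 * z + x = 2 * (3 * (2 * y))) : False := by omega

/-- The two splittings lead to `τ ^ 4 + 3 β ^ 4 = 4 α ^ 4`. -/
theorem bgfin {a b X1 X2 Y1 Y2 : ℕ} (ha : a % 2 = 1) (hb : b % 2 = 1)
    (hX : X1 * X2 = 3 * (2 * a ^ 4)) (hY : Y1 * Y2 = 4 * b ^ 4) (e1 : Y1 + X2 = 2 * X1)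
    (e2 : Y2 + X1 = 2 * X2) (hcX : Nat.Coprime X1 X2) (hcY : Nat.Coprime Y1 Y2) :
    ∃ α β τ σ : ℕ, α * β = a ∧ τ * σ = b ∧ Nat.Coprime α β ∧
      τ ^ 4 + 3 * β ^ 4 = 4 * α ^ 4 := by
  have hX' : X1 * X2 = 6 * a ^ 4 := by rw [hX]; ring
  rcases spl pp4 hcY hY with ⟨s, t, k1, k2⟩ | ⟨s, t, k1, k2⟩
  · have kb : s * t = b := pow_cancel (K := 4) (n := 4) (by norm_num) (by norm_num)
      (by rw [k1, k2]; ring) hY
    obtain ⟨ks, kt⟩ := prod_odd kb hb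
    have kt16 := fo16 kt
    rcases spl2 pp3 pp2 hcX hX with ⟨u, v, k3, k4⟩ | ⟨u, v, k3, k4⟩ | ⟨u, v, k3, k4⟩ |
      ⟨u, v, k3, k4⟩
    · have ka : u * v = a := pow_cancel (K := 6) (n := 4) (by norm_num) (by norm_num)
        (by rw [k3, k4]; ring) hX'
      obtain ⟨ku, kv⟩ := prod_odd ka ha
      rw [k2, k3, k4] at e2
      exact (n1 (fo16 ku) (fo16 kv) kt16 e2).elim
    · have ka : u * v = a := pow_cancel (K := 6) (n := 4) (by norm_num) (by norm_num)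
        (by rw [k3, k4]; ring) hX'
      rw [k2, k3, k4] at e2
      rw [k3, k4] at hcX
      refine ⟨v, u, t, s, by rw [mul_comm]; exact ka, by rw [mul_comm]; exact kb,
        (cop4 hcX).symm, ?_⟩
      rw [e2]
      ring
    · have ka : u * v = a := pow_cancel (K := 6) (n := 4) (by norm_num) (by norm_num)
        (by rw [k3, k4]; ring) hX'
      obtain ⟨ku, kv⟩ := prod_odd ka ha
      rw [k2, k3, k4] at e2
      exact (n2 (fo16 ku) (fo16 kv) kt16 e2).elim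
    · have ka : u * v = a := pow_cancel (K := 6) (n := 4) (by norm_num) (by norm_num)
        (by rw [k3, k4]; ring) hX'
      obtain ⟨ku, kv⟩ := prod_odd ka ha
      rw [k2, k3, k4] at e2
      exact (n3 (fo16 ku) (fo16 kv) kt16 e2).elim
  · have kb : s * t = b := pow_cancel (K := 4) (n := 4) (by norm_num) (by norm_num)
      (by rw [k1, k2]; ring) hY
    obtain ⟨ks, kt⟩ := prod_odd kb hb
    have kt16 := fo16 kt
    rcases spl2 pp3 pp2 hcX hX with ⟨u, v, k3, k4⟩ | ⟨u, v, k3, k4⟩ | ⟨u, v, k3, k4⟩ |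
      ⟨u, v, k3, k4⟩
    · have ka : u * v = a := pow_cancel (K := 6) (n := 4) (by norm_num) (by norm_num)
        (by rw [k3, k4]; ring) hX'
      obtain ⟨ku, kv⟩ := prod_odd ka ha
      rw [k2, k3, k4] at e2
      exact (n4 (fo16 ku) (fo16 kv) kt16 e2).elim
    · have ka : u * v = a := pow_cancel (K := 6) (n := 4) (by norm_num) (by norm_num)
        (by rw [k3, k4]; ring) hX'
      obtain ⟨ku, kv⟩ := prod_odd ka ha
      rw [k2, k3, k4] at e2
      exact (n5 (fo16 ku) (fo16 kv) kt16 e2).elim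
    · have ka : u * v = a := pow_cancel (K := 6) (n := 4) (by norm_num) (by norm_num)
        (by rw [k3, k4]; ring) hX'
      rw [k1, k3, k4] at e1
      rw [k3, k4] at hcX
      refine ⟨u, v, s, t, ka, kb, cop4 hcX, ?_⟩
      rw [e1]
      ring
    · have ka : u * v = a := pow_cancel (K := 6) (n := 4) (by norm_num) (by norm_num)
        (by rw [k3, k4]; ring) hX'
      obtain ⟨ku, kv⟩ := prod_odd ka ha
      rw [k2, k3, k4] at e2
      exact (n6 (fo16 ku) (fo16 kv) kt16 e2).elim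

/-- No solution of `τ ^ 4 + 3 β ^ 4 = 4 α ^ 4` with `α β = 3 g ^ 2`. -/
theorem bgend {b g α β τ σ : ℕ} (hb : b % 2 = 1) (hb3 : b % 3 ≠ 0)
    (hc : Nat.Coprime (3 * g ^ 2) b) (ha : 3 * g ^ 2 % 2 = 1) (e1 : α * β = 3 * g ^ 2)
    (e2 : τ * σ = b) (e3 : Nat.Coprime α β) (e4 : τ ^ 4 + 3 * β ^ 4 = 4 * α ^ 4) : False := by
  obtain ⟨hαo, hβo⟩ := prod_odd e1 ha
  obtain ⟨hτo, -⟩ := prod_odd e2 hb
  have hτ3 : τ % 3 ≠ 0 := by
    intro h0
    apply hb3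
    rw [← e2, Nat.mul_mod, h0, zero_mul, Nat.zero_mod]
  have hα3 : α % 3 ≠ 0 := by
    have k1 := fo3' τ
    have k2 := fo3' α
    clear e1 e2 hc
    omega
  have h3a : 3 ∣ β := by
    have k1 : 3 ∣ α * β := by
      rw [e1]
      exact ⟨g ^ 2, rfl⟩
    refine (Nat.Coprime.dvd_mul_left (Nat.prime_three.coprime_iff_not_dvd.2 ?_)).1 k1
    intro h0
    exact hα3 (Nat.mod_eq_zero_of_dvd h0)
  obtain ⟨β', rfl⟩ := h3a
  have k1 : β' * α = g ^ 2 := by
    have k0 : 3 * (β' * α) = 3 * g ^ 2 := by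
      rw [← e1]
      ring
    exact Nat.eq_of_mul_eq_mul_left (by norm_num) k0
  have k2 : Nat.Coprime β' α := (Nat.Coprime.coprime_dvd_right ⟨3, by ring⟩ e3).symm
  obtain ⟨⟨m, rfl⟩, -⟩ := pw k2 k1
  have hmo : m % 2 = 1 := by
    have k4 : (m ^ 2) % 2 = 1 := (prod_odd (u := 3) (v := m ^ 2) rfl hβo).2
    exact odd_of_pow two_ne_zero k4
  have k3 : Nat.Coprime τ m := by
    have k4 : Nat.Coprime (3 * m ^ 2) b :=
      Nat.Coprime.coprime_dvd_left ⟨α, by rw [← e1]; ring⟩ hc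
    have k5 : Nat.Coprime m τ :=
      Nat.Coprime.coprime_dvd_left ⟨3 * m, by ring⟩
        (Nat.Coprime.coprime_dvd_right ⟨σ, e2.symm⟩ k4)
    exact k5.symm
  exact last8 hτo hmo hαo hτ3 k3 (by rw [← e4]; ring)

theorem sub_sq {A B a b : ℕ} (h1 : 3 * a ^ 4 = 2 * b ^ 4 + A ^ 2)
    (h2 : 27 * a ^ 4 = 2 * b ^ 4 + B ^ 2) : B ^ 2 = A ^ 2 + 24 * a ^ 4 ∧
      B ^ 2 = 9 * A ^ 2 + 16 * b ^ 4 := by omega

theorem bg {a b A B y : ℕ} (ha : a % 2 = 1) (hb : b % 2 = 1) (hb3 : b % 3 ≠ 0)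
    (hc : Nat.Coprime a b) (h1 : 3 * a ^ 4 = 2 * b ^ 4 + A ^ 2)
    (h2 : 27 * a ^ 4 = 2 * b ^ 4 + B ^ 2) (hy : 3 * a * A = y ^ 2) : False := by
  have ha0 : 0 < a := by omega
  have hb0 : 0 < b := by omega
  obtain ⟨h8, h9⟩ := sub_sq h1 h2
  have hAo : A % 2 = 1 := by
    have ha16 := fo16 ha
    have : A ^ 2 % 2 = 1 := by
      clear h2 h8 h9 hy
      omega
    exact odd_of_pow two_ne_zero this
  have hBo : B % 2 = 1 := by
    have ha16 := fo16 ha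
    have : B ^ 2 % 2 = 1 := by
      clear h1 h8 h9 hy
      omega
    exact odd_of_pow two_ne_zero this
  have hA3 : A % 3 ≠ 0 := by
    have h3 := fo3' b
    have h4 := sq3 A
    clear h2 h8 h9 hy
    omega
  have hcaA : Nat.Coprime a A := by
    by_contra hng
    obtain ⟨l, hl, h3, h4⟩ := Nat.Prime.not_coprime_iff_dvd.1 hng
    have h5 : l ∣ 2 * b ^ 4 := by
      have h6 : l ∣ 2 * b ^ 4 + A ^ 2 := by
        rw [← h1]
        exact Dvd.dvd.mul_left (dvd_pow h3 (by norm_num)) 3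
      exact (Nat.dvd_add_left (dvd_pow h4 two_ne_zero)).1 h6
    rcases (Nat.Prime.dvd_mul hl).1 h5 with h6 | h6
    · have h7 : l = 2 := dvd2 hl (k := 1) (by simpa using h6)
      rw [h7] at h3
      have := Nat.mod_eq_zero_of_dvd h3
      omega
    · exact cop_no hc hl h3 (hl.dvd_of_dvd_pow h6)
  -- `a = 3 g ^ 2`
  have hc3A : Nat.Coprime (3 * a) A := by
    refine Nat.Coprime.mul_left ?_ hcaA
    rw [Nat.prime_three.coprime_iff_not_dvd]
    intro h0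
    exact hA3 (Nat.mod_eq_zero_of_dvd h0)
  obtain ⟨⟨g, hg⟩, -⟩ := pw hc3A hy
  obtain ⟨g', rfl⟩ : 3 ∣ g := by
    refine Nat.prime_three.dvd_of_dvd_pow (n := 2) ?_
    rw [← hg]
    exact ⟨a, rfl⟩
  have ha3 : a = 3 * g' ^ 2 := by
    have k0 : 3 * a = 3 * (3 * g' ^ 2) := by
      rw [hg]
      ring
    exact Nat.eq_of_mul_eq_mul_left (by norm_num) k0
  -- first splitting
  have hBA : A < B := by
    refine lt_of_pow_lt_pow_left₀ 2 (Nat.zero_le _) ?_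
    rw [h8]
    exact Nat.lt_add_of_pos_right (by positivity)
  obtain ⟨r, hr⟩ : ∃ r, B = A + 2 * r := ⟨(B - A) / 2, by clear h1 h2 h8 h9 hy hg ha3; omega⟩
  have h3 : (A + r) * r = 3 * (2 * a ^ 4) := by
    have k0 : A ^ 2 + 4 * ((A + r) * r) = A ^ 2 + 4 * (3 * (2 * a ^ 4)) := by
      calc A ^ 2 + 4 * ((A + r) * r) = (A + 2 * r) ^ 2 := by ring
        _ = B ^ 2 := by rw [hr]
        _ = A ^ 2 + 24 * a ^ 4 := h8
        _ = A ^ 2 + 4 * (3 * (2 * a ^ 4)) := by ring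
    exact Nat.eq_of_mul_eq_mul_left (by norm_num) (Nat.add_left_cancel k0)
  have hcr : Nat.Coprime (A + r) r := by
    rw [Nat.coprime_add_self_left]
    by_contra hng
    obtain ⟨l, hl, h4, h5⟩ := Nat.Prime.not_coprime_iff_dvd.1 hng
    have h6 : l ∣ 3 * (2 * a ^ 4) := by
      rw [← h3]
      exact Dvd.dvd.mul_left h5 _
    rcases (Nat.Prime.dvd_mul hl).1 h6 with h7 | h7
    · have h8 : l = 3 := dvd3 hl (k := 1) (by simpa using h7)
      rw [h8] at h4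
      exact hA3 (Nat.mod_eq_zero_of_dvd h4)
    · rcases (Nat.Prime.dvd_mul hl).1 h7 with h8 | h8
      · have h9 : l = 2 := dvd2 hl (k := 1) (by simpa using h8)
        rw [h9] at h4
        have := Nat.mod_eq_zero_of_dvd h4
        omega
      · exact cop_no hcaA hl (hl.dvd_of_dvd_pow h8) h4
  -- second splitting
  have hB3A : 3 * A < B := by
    refine lt_of_pow_lt_pow_left₀ 2 (Nat.zero_le _) ?_
    have h5 : (3 * A) ^ 2 = 9 * A ^ 2 := by ring
    rw [h9, h5]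
    exact Nat.lt_add_of_pos_right (by positivity)
  obtain ⟨q, hq⟩ : ∃ q, B = 3 * A + 2 * q :=
    ⟨(B - 3 * A) / 2, by clear h1 h2 h3 h8 h9 hy hg ha3; omega⟩
  have h4 : (3 * A + q) * q = 4 * b ^ 4 := by
    have k0 : 9 * A ^ 2 + 4 * ((3 * A + q) * q) = 9 * A ^ 2 + 4 * (4 * b ^ 4) := by
      calc 9 * A ^ 2 + 4 * ((3 * A + q) * q) = (3 * A + 2 * q) ^ 2 := by ring
        _ = B ^ 2 := by rw [hq]
        _ = 9 * A ^ 2 + 16 * b ^ 4 := h9
        _ = 9 * A ^ 2 + 4 * (4 * b ^ 4) := by ring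
    exact Nat.eq_of_mul_eq_mul_left (by norm_num) (Nat.add_left_cancel k0)
  have hcq : Nat.Coprime (3 * A + q) q := by
    rw [Nat.coprime_add_self_left]
    by_contra hng
    obtain ⟨l, hl, h5, h6⟩ := Nat.Prime.not_coprime_iff_dvd.1 hng
    have h7 : l ∣ 4 * b ^ 4 := by
      rw [← h4]
      exact Dvd.dvd.mul_left h6 _
    rcases (Nat.Prime.dvd_mul hl).1 h7 with h8 | h8
    · have h10 : l = 2 := dvd2 hl (k := 2) (by simpa using h8)
      rw [h10] at h5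
      have := Nat.mod_eq_zero_of_dvd h5
      clear h1 h2 h3 h4 h8 h9 hy hg ha3 h6 h7
      omega
    · have h10 : l ∣ b := hl.dvd_of_dvd_pow h8
      rcases (Nat.Prime.dvd_mul hl).1 h5 with h11 | h11
      · have h12 : l = 3 := dvd3 hl (k := 1) (by simpa using h11)
        rw [h12] at h10
        exact hb3 (Nat.mod_eq_zero_of_dvd h10)
      · have h12 : l ∣ 3 * a ^ 4 := by
          rw [h1]
          exact dvd_add (Dvd.dvd.mul_left (dvd_pow h10 (by norm_num)) 2)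
            (dvd_pow h11 two_ne_zero)
        rcases (Nat.Prime.dvd_mul hl).1 h12 with h13 | h13
        · have h14 : l = 3 := dvd3 hl (k := 1) (by simpa using h13)
          rw [h14] at h10
          exact hb3 (Nat.mod_eq_zero_of_dvd h10)
        · exact cop_no hc hl (hl.dvd_of_dvd_pow h13) h10
  have e1 : (3 * A + q) + r = 2 * (A + r) := by
    clear h1 h2 h3 h4 h8 h9 hy hg ha3
    omega
  have e2 : q + (A + r) = 2 * r := by
    clear h1 h2 h3 h4 h8 h9 hy hg ha3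
    omega
  obtain ⟨α, β, τ, σ, k1, k2, k3, k4⟩ := bgfin ha hb h3 h4 e1 e2 hcr hcq
  rw [ha3] at k1 hc ha
  exact bgend hb hb3 hc ha k1 k2 k3 k4

end GF2
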