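import Pool.Agent.H.MP_81d9be_nt.Loc

/-!
# MP_81d9be_nt: the first family, table 1
-/

set_option autoImplicit false

namespace GF2

theorem NA3 : NA 3 :=
  chkA_spec (l := 13) (m := 2) (k := 4) (c := 1) (L := [1, 5, 8, 12]) (L2 := [1, 12]) (L4 := [1])
    (by norm_num) (by norm_num) (by decide +kernel) (by decide +kernel)

theorem NA5 : NA 5 :=
  chkA_spec (l := 11) (m := 4) (k := 2) (c := 9) (L := [1, 10]) (L2 := [1]) (L4 := [1])
    (by norm_num) (by norm_num) (by decide +kernel) (by decide +kernel)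

theorem NA7 : NA 7 :=
  chkA_spec (l := 29) (m := 6) (k := 4) (c := 14) (L := [1, 12, 17, 28]) (L2 := [1, 28]) (L4 :=
      [1])
    (by norm_num) (by norm_num) (by decide +kernel) (by decide +kernel)

theorem NA11 : NA 11 :=
  chkA_spec (l := 23) (m := 10) (k := 2) (c := 6) (L := [1, 22]) (L2 := [1]) (L4 := [1])
    (by norm_num) (by norm_num) (by decide +kernel) (by decide +kernel)

theorem NA13 : NA 13 :=
  chkA_spec (l := 53) (m := 12) (k := 4) (c := 2) (L := [1, 23, 30, 52]) (L2 := [1, 52]) (L4 :=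
      [1])
    (by norm_num) (by norm_num) (by decide +kernel) (by decide +kernel)

theorem NA17 : NA 17 :=
  chkA_spec (l := 103) (m := 16) (k := 6) (c := 42) (L := [1, 46, 47, 56, 57, 102]) (L2 := [1,
      46, 56]) (L4 := [1, 46, 56])
    (by norm_num) (by norm_num) (by decide +kernel) (by decide +kernel)

theorem NA19 : NA 19 :=
  chkA_spec (l := 191) (m := 18) (k := 10) (c := 120) (L := [1, 7, 39, 49, 82, 109, 142, 152,
      184, 190]) (L2 := [1, 39, 49, 109, 184]) (L4 := [1, 39, 49, 109, 184])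
    (by norm_num) (by norm_num) (by decide +kernel) (by decide +kernel)

theorem NA23 : NA 23 :=
  chkA_spec (l := 47) (m := 22) (k := 2) (c := 7) (L := [1, 46]) (L2 := [1]) (L4 := [1])
    (by norm_num) (by norm_num) (by decide +kernel) (by decide +kernel)

theorem NA29 : NA 29 :=
  chkA_spec (l := 59) (m := 28) (k := 2) (c := 35) (L := [1, 58]) (L2 := [1]) (L4 := [1])
    (by norm_num) (by norm_num) (by decide +kernel) (by decide +kernel)

theorem NA31 : NA 31 :=
  chkA_spec (l := 311) (m := 30) (k := 10) (c := 173) (L := [1, 6, 36, 52, 95, 216, 259, 275,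
      305, 310]) (L2 := [1, 6, 36, 52, 216]) (L4 := [1, 6, 36, 52, 216])
    (by norm_num) (by norm_num) (by decide +kernel) (by decide +kernel)

theorem NA37 : NA 37 :=
  chkA_spec (l := 149) (m := 36) (k := 4) (c := 138) (L := [1, 44, 105, 148]) (L2 := [1, 148])
      (L4 := [1])
    (by norm_num) (by norm_num) (by decide +kernel) (by decide +kernel)

theorem NA41 : NA 41 :=
  chkA_spec (l := 83) (m := 40) (k := 2) (c := 40) (L := [1, 82]) (L2 := [1]) (L4 := [1])
    (by norm_num) (by norm_num) (by decide +kernel) (by decide +kernel)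

theorem NA43 : NA 43 :=
  chkA_spec (l := 173) (m := 42) (k := 4) (c := 141) (L := [1, 80, 93, 172]) (L2 := [1, 172]) (L4
      := [1])
    (by norm_num) (by norm_num) (by decide +kernel) (by decide +kernel)

theorem NA47 : NA 47 :=
  chkA_spec (l := 283) (m := 46) (k := 6) (c := 75) (L := [1, 44, 45, 238, 239, 282]) (L2 := [1,
      44, 238]) (L4 := [1, 44, 238])
    (by norm_num) (by norm_num) (by decide +kernel) (by decide +kernel)

theorem NA53 : NA 53 :=
  chkA_spec (l := 743) (m := 52) (k := 14) (c := 704) (L := [1, 111, 151, 232, 253, 310, 328,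
      415, 433, 490, 511, 592, 632, 742]) (L2 := [1, 111, 253, 328, 433, 511, 592]) (L4 := [1,
      111, 253, 328, 433, 511, 592])
    (by norm_num) (by norm_num) (by decide +kernel) (by decide +kernel)

theorem NA59 : NA 59 :=
  chkA_spec (l := 709) (m := 58) (k := 12) (c := 271) (L := [1, 91, 96, 187, 227, 228, 481, 482,
      522, 613, 618, 708]) (L2 := [1, 227, 228, 481, 482, 708]) (L4 := [1, 227, 481])
    (by norm_num) (by norm_num) (by decide +kernel) (by decide +kernel)

theorem NA61 : NA 61 :=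
  chkA_spec (l := 367) (m := 60) (k := 6) (c := 68) (L := [1, 83, 84, 283, 284, 366]) (L2 := [1,
      83, 283]) (L4 := [1, 83, 283])
    (by norm_num) (by norm_num) (by decide +kernel) (by decide +kernel)

theorem NA67 : NA 67 :=
  chkA_spec (l := 269) (m := 66) (k := 4) (c := 10) (L := [1, 82, 187, 268]) (L2 := [1, 268]) (L4
      := [1])
    (by norm_num) (by norm_num) (by decide +kernel) (by decide +kernel)

theorem NA71 : NA 71 :=
  chkA_spec (l := 569) (m := 70) (k := 8) (c := 295) (L := [1, 76, 86, 277, 292, 483, 493, 568])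
      (L2 := [1, 86, 483, 568]) (L4 := [1, 568])
    (by norm_num) (by norm_num) (by decide +kernel) (by decide +kernel)

theorem NA73 : NA 73 :=
  chkA_spec (l := 293) (m := 72) (k := 4) (c := 76) (L := [1, 138, 155, 292]) (L2 := [1, 292])
      (L4 := [1])
    (by norm_num) (by norm_num) (by decide +kernel) (by decide +kernel)

theorem NA79 : NA 79 :=
  chkA_spec (l := 317) (m := 78) (k := 4) (c := 47) (L := [1, 114, 203, 316]) (L2 := [1, 316])
      (L4 := [1])
    (by norm_num) (by norm_num) (by decide +kernel) (by decide +kernel)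

theorem NA83 : NA 83 :=
  chkA_spec (l := 167) (m := 82) (k := 2) (c := 99) (L := [1, 166]) (L2 := [1]) (L4 := [1])
    (by norm_num) (by norm_num) (by decide +kernel) (by decide +kernel)

theorem NA89 : NA 89 :=
  chkA_spec (l := 179) (m := 88) (k := 2) (c := 126) (L := [1, 178]) (L2 := [1]) (L4 := [1])
    (by norm_num) (by norm_num) (by decide +kernel) (by decide +kernel)

theorem NA97 : NA 97 :=
  chkA_spec (l := 389) (m := 96) (k := 4) (c := 317) (L := [1, 115, 274, 388]) (L2 := [1, 388])
      (L4 := [1])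
    (by norm_num) (by norm_num) (by decide +kernel) (by decide +kernel)

theorem NA101 : NA 101 :=
  chkA_spec (l := 607) (m := 100) (k := 6) (c := 217) (L := [1, 210, 211, 396, 397, 606]) (L2 :=
      [1, 210, 396]) (L4 := [1, 210, 396])
    (by norm_num) (by norm_num) (by decide +kernel) (by decide +kernel)

theorem NA103 : NA 103 :=
  chkA_spec (l := 619) (m := 102) (k := 6) (c := 321) (L := [1, 252, 253, 366, 367, 618]) (L2 :=
      [1, 252, 366]) (L4 := [1, 252, 366])
    (by norm_num) (by norm_num) (by decide +kernel) (by decide +kernel)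

theorem NA107 : NA 107 :=
  chkA_spec (l := 643) (m := 106) (k := 6) (c := 262) (L := [1, 177, 178, 465, 466, 642]) (L2 :=
      [1, 177, 465]) (L4 := [1, 177, 465])
    (by norm_num) (by norm_num) (by decide +kernel) (by decide +kernel)

theorem NA109 : NA 109 :=
  chkA_spec (l := 1091) (m := 108) (k := 10) (c := 889) (L := [1, 79, 93, 290, 305, 786, 801,
      998, 1012, 1090]) (L2 := [1, 93, 290, 786, 1012]) (L4 := [1, 93, 290, 786, 1012])
    (by norm_num) (by norm_num) (by decide +kernel) (by decide +kernel)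

theorem NA113 : NA 113 :=
  chkA_spec (l := 227) (m := 112) (k := 2) (c := 185) (L := [1, 226]) (L2 := [1]) (L4 := [1])
    (by norm_num) (by norm_num) (by decide +kernel) (by decide +kernel)

theorem NA127 : NA 127 :=
  chkA_spec (l := 509) (m := 126) (k := 4) (c := 132) (L := [1, 208, 301, 508]) (L2 := [1, 508])
      (L4 := [1])
    (by norm_num) (by norm_num) (by decide +kernel) (by decide +kernel)

theorem NA131 : NA 131 :=
  chkA_spec (l := 263) (m := 130) (k := 2) (c := 39) (L := [1, 262]) (L2 := [1]) (L4 := [1])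
    (by norm_num) (by norm_num) (by decide +kernel) (by decide +kernel)

theorem NA137 : NA 137 :=
  chkA_spec (l := 823) (m := 136) (k := 6) (c := 738) (L := [1, 174, 175, 648, 649, 822]) (L2 :=
      [1, 174, 648]) (L4 := [1, 174, 648])
    (by norm_num) (by norm_num) (by decide +kernel) (by decide +kernel)

theorem NA139 : NA 139 :=
  chkA_spec (l := 557) (m := 138) (k := 4) (c := 392) (L := [1, 118, 439, 556]) (L2 := [1, 556])
      (L4 := [1])
    (by norm_num) (by norm_num) (by decide +kernel) (by decide +kernel)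

theorem NA149 : NA 149 :=
  chkA_spec (l := 1193) (m := 148) (k := 8) (c := 486) (L := [1, 186, 362, 524, 669, 831, 1007,
      1192]) (L2 := [1, 186, 1007, 1192]) (L4 := [1, 1192])
    (by norm_num) (by norm_num) (by decide +kernel) (by decide +kernel)

theorem NA151 : NA 151 :=
  chkA_spec (l := 907) (m := 150) (k := 6) (c := 624) (L := [1, 384, 385, 522, 523, 906]) (L2 :=
      [1, 384, 522]) (L4 := [1, 384, 522])
    (by norm_num) (by norm_num) (by decide +kernel) (by decide +kernel)

theorem NA157 : NA 157 :=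
  chkA_spec (l := 1571) (m := 156) (k := 10) (c := 23) (L := [1, 179, 382, 621, 746, 825, 950,
      1189, 1392, 1570]) (L2 := [1, 382, 621, 746, 1392]) (L4 := [1, 382, 621, 746, 1392])
    (by norm_num) (by norm_num) (by decide +kernel) (by decide +kernel)

theorem NA163 : NA 163 :=
  chkA_spec (l := 653) (m := 162) (k := 4) (c := 387) (L := [1, 149, 504, 652]) (L2 := [1, 652])
      (L4 := [1])
    (by norm_num) (by norm_num) (by decide +kernel) (by decide +kernel)

theorem NA167 : NA 167 :=
  chkA_spec (l := 2339) (m := 166) (k := 14) (c := 1607) (L := [1, 190, 357, 1015, 1052, 1065,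
      1143, 1196, 1274, 1287, 1324, 1982, 2149, 2338]) (L2 := [1, 357, 1015, 1065, 1143, 1287,
      2149]) (L4 := [1, 357, 1015, 1065, 1143, 1287, 2149])
    (by norm_num) (by norm_num) (by decide +kernel) (by decide +kernel)

theorem NA173 : NA 173 :=
  chkA_spec (l := 347) (m := 172) (k := 2) (c := 90) (L := [1, 346]) (L2 := [1]) (L4 := [1])
    (by norm_num) (by norm_num) (by decide +kernel) (by decide +kernel)

theorem NA179 : NA 179 :=
  chkA_spec (l := 359) (m := 178) (k := 2) (c := 133) (L := [1, 358]) (L2 := [1]) (L4 := [1])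
    (by norm_num) (by norm_num) (by decide +kernel) (by decide +kernel)

theorem NA181 : NA 181 :=
  chkA_spec (l := 1087) (m := 180) (k := 6) (c := 1016) (L := [1, 257, 258, 829, 830, 1086]) (L2
      := [1, 257, 829]) (L4 := [1, 257, 829])
    (by norm_num) (by norm_num) (by decide +kernel) (by decide +kernel)

theorem NA191 : NA 191 :=
  chkA_spec (l := 383) (m := 190) (k := 2) (c := 227) (L := [1, 382]) (L2 := [1]) (L4 := [1])
    (by norm_num) (by norm_num) (by decide +kernel) (by decide +kernel)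

theorem NA193 : NA 193 :=
  chkA_spec (l := 773) (m := 192) (k := 4) (c := 544) (L := [1, 317, 456, 772]) (L2 := [1, 772])
      (L4 := [1])
    (by norm_num) (by norm_num) (by decide +kernel) (by decide +kernel)

theorem NA197 : NA 197 :=
  chkA_spec (l := 3547) (m := 196) (k := 18) (c := 1954) (L := [1, 291, 447, 1162, 1163, 1177,
      1468, 1548, 1552, 1995, 1999, 2079, 2370, 2384, 2385, 3100, 3256, 3546]) (L2 := [1, 291,
      1162, 1177, 1995, 1999, 2079, 2384, 3100]) (L4 := [1, 291, 1162, 1177, 1995, 1999, 2079,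
      2384, 3100])
    (by norm_num) (by norm_num) (by decide +kernel) (by decide +kernel)

theorem NA199 : NA 199 :=
  chkA_spec (l := 797) (m := 198) (k := 4) (c := 738) (L := [1, 215, 582, 796]) (L2 := [1, 796])
      (L4 := [1])
    (by norm_num) (by norm_num) (by decide +kernel) (by decide +kernel)

theorem NA211 : NA 211 :=
  chkA_spec (l := 2111) (m := 210) (k := 10) (c := 1251) (L := [1, 75, 325, 708, 957, 1154, 1403,
      1786, 2036, 2110]) (L2 := [1, 75, 957, 1403, 1786]) (L4 := [1, 75, 957, 1403, 1786])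
    (by norm_num) (by norm_num) (by decide +kernel) (by decide +kernel)

theorem NA223 : NA 223 :=
  chkA_spec (l := 2677) (m := 222) (k := 12) (c := 534) (L := [1, 550, 626, 1033, 1034, 1176,
      1501, 1643, 1644, 2051, 2127, 2676]) (L2 := [1, 1033, 1034, 1643, 1644, 2676]) (L4 := [1,
      1033, 1643])
    (by norm_num) (by norm_num) (by decide +kernel) (by decide +kernel)

theorem NA227 : NA 227 :=
  chkA_spec (l := 5449) (m := 226) (k := 24) (c := 349) (L := [1, 78, 489, 543, 603, 621, 635,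
      1238, 1474, 1475, 1518, 2007, 3442, 3931, 3974, 3975, 4211, 4814, 4828, 4846, 4906, 4960,
      5371, 5448]) (L2 := [1, 603, 635, 1238, 1474, 1475, 3974, 3975, 4211, 4814, 4846, 5448])
      (L4 := [1, 1474, 1475, 3974, 3975, 5448])
    (by norm_num) (by norm_num) (by decide +kernel) (by decide +kernel)

theorem NA229 : NA 229 :=
  chkA_spec (l := 2749) (m := 228) (k := 12) (c := 487) (L := [1, 595, 596, 640, 671, 1311, 1438,
      2078, 2109, 2153, 2154, 2748]) (L2 := [1, 595, 596, 2153, 2154, 2748]) (L4 := [1, 595,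
      2153])
    (by norm_num) (by norm_num) (by decide +kernel) (by decide +kernel)

theorem NA233 : NA 233 :=
  chkA_spec (l := 467) (m := 232) (k := 2) (c := 173) (L := [1, 466]) (L2 := [1]) (L4 := [1])
    (by norm_num) (by norm_num) (by decide +kernel) (by decide +kernel)

theorem NA239 : NA 239 :=
  chkA_spec (l := 479) (m := 238) (k := 2) (c := 71) (L := [1, 478]) (L2 := [1]) (L4 := [1])
    (by norm_num) (by norm_num) (by decide +kernel) (by decide +kernel)

theorem NA241 : NA 241 :=
  chkA_spec (l := 1447) (m := 240) (k := 6) (c := 617) (L := [1, 704, 705, 742, 743, 1446]) (L2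
      := [1, 704, 742]) (L4 := [1, 704, 742])
    (by norm_num) (by norm_num) (by decide +kernel) (by decide +kernel)

theorem NA251 : NA 251 :=
  chkA_spec (l := 503) (m := 250) (k := 2) (c := 354) (L := [1, 502]) (L2 := [1]) (L4 := [1])
    (by norm_num) (by norm_num) (by decide +kernel) (by decide +kernel)

theorem NA257 : NA 257 :=
  chkA_spec (l := 1543) (m := 256) (k := 6) (c := 1143) (L := [1, 681, 682, 861, 862, 1542]) (L2
      := [1, 681, 861]) (L4 := [1, 681, 861])
    (by norm_num) (by norm_num) (by decide +kernel) (by decide +kernel)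

theorem NA263 : NA 263 :=
  chkA_spec (l := 1579) (m := 262) (k := 6) (c := 912) (L := [1, 639, 640, 939, 940, 1578]) (L2
      := [1, 639, 939]) (L4 := [1, 639, 939])
    (by norm_num) (by norm_num) (by decide +kernel) (by decide +kernel)

theorem NA269 : NA 269 :=
  chkA_spec (l := 2153) (m := 268) (k := 8) (c := 1834) (L := [1, 232, 246, 1059, 1094, 1907,
      1921, 2152]) (L2 := [1, 232, 1921, 2152]) (L4 := [1, 2152])
    (by norm_num) (by norm_num) (by decide +kernel) (by decide +kernel)

theorem NA271 : NA 271 :=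
  chkA_spec (l := 1627) (m := 270) (k := 6) (c := 1456) (L := [1, 264, 265, 1362, 1363, 1626])
      (L2 := [1, 264, 1362]) (L4 := [1, 264, 1362])
    (by norm_num) (by norm_num) (by decide +kernel) (by decide +kernel)

theorem NA277 : NA 277 :=
  chkA_spec (l := 1109) (m := 276) (k := 4) (c := 534) (L := [1, 354, 755, 1108]) (L2 := [1,
      1108]) (L4 := [1])
    (by norm_num) (by norm_num) (by decide +kernel) (by decide +kernel)

theorem NA281 : NA 281 :=
  chkA_spec (l := 563) (m := 280) (k := 2) (c := 146) (L := [1, 562]) (L2 := [1]) (L4 := [1])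
    (by norm_num) (by norm_num) (by decide +kernel) (by decide +kernel)

theorem NA283 : NA 283 :=
  chkA_spec (l := 1699) (m := 282) (k := 6) (c := 1055) (L := [1, 397, 398, 1301, 1302, 1698])
      (L2 := [1, 397, 1301]) (L4 := [1, 397, 1301])
    (by norm_num) (by norm_num) (by decide +kernel) (by decide +kernel)

theorem NA293 : NA 293 :=
  chkA_spec (l := 587) (m := 292) (k := 2) (c := 87) (L := [1, 586]) (L2 := [1]) (L4 := [1])
    (by norm_num) (by norm_num) (by decide +kernel) (by decide +kernel)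

theorem NA307 : NA 307 :=
  chkA_spec (l := 1229) (m := 306) (k := 4) (c := 1138) (L := [1, 597, 632, 1228]) (L2 := [1,
      1228]) (L4 := [1])
    (by norm_num) (by norm_num) (by decide +kernel) (by decide +kernel)

theorem NA311 : NA 311 :=
  chkA_spec (l := 1867) (m := 310) (k := 6) (c := 1383) (L := [1, 834, 835, 1032, 1033, 1866])
      (L2 := [1, 834, 1032]) (L4 := [1, 834, 1032])
    (by norm_num) (by norm_num) (by decide +kernel) (by decide +kernel)

theorem NA313 : NA 313 :=
  chkA_spec (l := 1879) (m := 312) (k := 6) (c := 348) (L := [1, 488, 489, 1390, 1391, 1878]) (L2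
      := [1, 488, 1390]) (L4 := [1, 488, 1390])
    (by norm_num) (by norm_num) (by decide +kernel) (by decide +kernel)

theorem NA317 : NA 317 :=
  chkA_spec (l := 8243) (m := 316) (k := 26) (c := 5961) (L := [1, 542, 656, 1103, 1700, 1816,
      2395, 2984, 3293, 3355, 3913, 3925, 3939, 4304, 4318, 4330, 4888, 4950, 5259, 5848, 6427,
      6543, 7140, 7587, 7701, 8242]) (L2 := [1, 656, 1700, 1816, 2395, 4304, 4318, 4330, 4888,
      4950, 5259, 7140, 7701]) (L4 := [1, 656, 1700, 1816, 2395, 4304, 4318, 4330, 4888, 4950,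
      5259, 7140, 7701])
    (by norm_num) (by norm_num) (by decide +kernel) (by decide +kernel)

theorem NA331 : NA 331 :=
  chkA_spec (l := 1987) (m := 330) (k := 6) (c := 1963) (L := [1, 647, 648, 1339, 1340, 1986])
      (L2 := [1, 647, 1339]) (L4 := [1, 647, 1339])
    (by norm_num) (by norm_num) (by decide +kernel) (by decide +kernel)

theorem NA337 : NA 337 :=
  chkA_spec (l := 3371) (m := 336) (k := 10) (c := 771) (L := [1, 591, 1175, 1303, 1485, 1886,
      2068, 2196, 2780, 3370]) (L2 := [1, 591, 1886, 2068, 2196]) (L4 := [1, 591, 1886, 2068,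
      2196])
    (by norm_num) (by norm_num) (by decide +kernel) (by decide +kernel)

theorem NA347 : NA 347 :=
  chkA_spec (l := 2083) (m := 346) (k := 6) (c := 1372) (L := [1, 449, 450, 1633, 1634, 2082])
      (L2 := [1, 449, 1633]) (L4 := [1, 449, 1633])
    (by norm_num) (by norm_num) (by decide +kernel) (by decide +kernel)

theorem NA349 : NA 349 :=
  chkA_spec (l := 3491) (m := 348) (k := 10) (c := 3278) (L := [1, 267, 523, 1231, 1469, 2022,
      2260, 2968, 3224, 3490]) (L2 := [1, 267, 523, 1231, 1469]) (L4 := [1, 267, 523, 1231,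
      1469])
    (by norm_num) (by norm_num) (by decide +kernel) (by decide +kernel)

theorem NA353 : NA 353 :=
  chkA_spec (l := 4943) (m := 352) (k := 14) (c := 768) (L := [1, 12, 144, 412, 964, 1682, 1728,
      3215, 3261, 3979, 4531, 4799, 4931, 4942]) (L2 := [1, 12, 144, 412, 964, 1682, 1728]) (L4
      := [1, 12, 144, 412, 964, 1682, 1728])
    (by norm_num) (by norm_num) (by decide +kernel) (by decide +kernel)

theorem NA359 : NA 359 :=
  chkA_spec (l := 719) (m := 358) (k := 2) (c := 506) (L := [1, 718]) (L2 := [1]) (L4 := [1])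
    (by norm_num) (by norm_num) (by decide +kernel) (by decide +kernel)

theorem NA367 : NA 367 :=
  chkA_spec (l := 2203) (m := 366) (k := 6) (c := 408) (L := [1, 285, 286, 1917, 1918, 2202]) (L2
      := [1, 285, 1917]) (L4 := [1, 285, 1917])
    (by norm_num) (by norm_num) (by decide +kernel) (by decide +kernel)

theorem NA373 : NA 373 :=
  chkA_spec (l := 1493) (m := 372) (k := 4) (c := 553) (L := [1, 432, 1061, 1492]) (L2 := [1,
      1492]) (L4 := [1])
    (by norm_num) (by norm_num) (by decide +kernel) (by decide +kernel)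

theorem NA379 : NA 379 :=
  chkA_spec (l := 4549) (m := 378) (k := 12) (c := 907) (L := [1, 273, 1260, 1533, 1744, 1745,
      2804, 2805, 3016, 3289, 4276, 4548]) (L2 := [1, 1744, 1745, 2804, 2805, 4548]) (L4 := [1,
      1744, 2804])
    (by norm_num) (by norm_num) (by decide +kernel) (by decide +kernel)

theorem NA383 : NA 383 :=
  chkA_spec (l := 4597) (m := 382) (k := 12) (c := 695) (L := [1, 287, 377, 378, 1842, 2129,
      2468, 2755, 4219, 4220, 4310, 4596]) (L2 := [1, 377, 378, 4219, 4220, 4596]) (L4 := [1,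
      377, 4219])
    (by norm_num) (by norm_num) (by decide +kernel) (by decide +kernel)

theorem NA389 : NA 389 :=
  chkA_spec (l := 9337) (m := 388) (k := 24) (c := 3641) (L := [1, 948, 1052, 1763, 1847, 2352,
      2439, 3387, 3404, 3610, 4399, 4400, 4937, 4938, 5727, 5933, 5950, 6898, 6985, 7490, 7574,
      8285, 8389, 9336]) (L2 := [1, 1052, 2352, 3404, 4399, 4400, 4937, 4938, 5933, 6985, 8285,
      9336]) (L4 := [1, 4399, 4400, 4937, 4938, 9336])
    (by norm_num) (by norm_num) (by decide +kernel) (by decide +kernel)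

theorem NA397 : NA 397 :=
  chkA_spec (l := 2383) (m := 396) (k := 6) (c := 2030) (L := [1, 1103, 1104, 1279, 1280, 2382])
      (L2 := [1, 1103, 1279]) (L4 := [1, 1103, 1279])
    (by norm_num) (by norm_num) (by decide +kernel) (by decide +kernel)

theorem CkA1_0 : ∀ p ∈ [2, 3, 5, 7, 11, 13, 17, 19, 23, 29], NA p :=
  List.forall_mem_cons.2 ⟨NA2, List.forall_mem_cons.2 ⟨NA3, List.forall_mem_cons.2 ⟨NA5,
    List.forall_mem_cons.2 ⟨NA7, List.forall_mem_cons.2 ⟨NA11, List.forall_mem_cons.2 ⟨NA13,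
    List.forall_mem_cons.2 ⟨NA17, List.forall_mem_cons.2 ⟨NA19, List.forall_mem_cons.2 ⟨NA23,
    List.forall_mem_cons.2 ⟨NA29, List.forall_mem_nil _⟩⟩⟩⟩⟩⟩⟩⟩⟩⟩

theorem CkA1_1 : ∀ p ∈ [31, 37, 41, 43, 47, 53, 59, 61, 67, 71], NA p :=
  List.forall_mem_cons.2 ⟨NA31, List.forall_mem_cons.2 ⟨NA37, List.forall_mem_cons.2 ⟨NA41,
    List.forall_mem_cons.2 ⟨NA43, List.forall_mem_cons.2 ⟨NA47, List.forall_mem_cons.2 ⟨NA53,
    List.forall_mem_cons.2 ⟨NA59, List.forall_mem_cons.2 ⟨NA61, List.forall_mem_cons.2 ⟨NA67,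
    List.forall_mem_cons.2 ⟨NA71, List.forall_mem_nil _⟩⟩⟩⟩⟩⟩⟩⟩⟩⟩

theorem CkA1_2 : ∀ p ∈ [73, 79, 83, 89, 97, 101, 103, 107, 109, 113], NA p :=
  List.forall_mem_cons.2 ⟨NA73, List.forall_mem_cons.2 ⟨NA79, List.forall_mem_cons.2 ⟨NA83,
    List.forall_mem_cons.2 ⟨NA89, List.forall_mem_cons.2 ⟨NA97, List.forall_mem_cons.2 ⟨NA101,
    List.forall_mem_cons.2 ⟨NA103, List.forall_mem_cons.2 ⟨NA107, List.forall_mem_cons.2
    ⟨NA109, List.forall_mem_cons.2 ⟨NA113, List.forall_mem_nil _⟩⟩⟩⟩⟩⟩⟩⟩⟩⟩

theorem CkA1_3 : ∀ p ∈ [127, 131, 137, 139, 149, 151, 157, 163, 167, 173], NA p :=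
  List.forall_mem_cons.2 ⟨NA127, List.forall_mem_cons.2 ⟨NA131, List.forall_mem_cons.2 ⟨NA137,
    List.forall_mem_cons.2 ⟨NA139, List.forall_mem_cons.2 ⟨NA149, List.forall_mem_cons.2
    ⟨NA151, List.forall_mem_cons.2 ⟨NA157, List.forall_mem_cons.2 ⟨NA163,
    List.forall_mem_cons.2 ⟨NA167, List.forall_mem_cons.2 ⟨NA173, List.forall_mem_nil
    _⟩⟩⟩⟩⟩⟩⟩⟩⟩⟩

theorem CkA1_4 : ∀ p ∈ [179, 181, 191, 193, 197, 199, 211, 223, 227, 229], NA p :=
  List.forall_mem_cons.2 ⟨NA179, List.forall_mem_cons.2 ⟨NA181, List.forall_mem_cons.2 ⟨NA191,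
    List.forall_mem_cons.2 ⟨NA193, List.forall_mem_cons.2 ⟨NA197, List.forall_mem_cons.2
    ⟨NA199, List.forall_mem_cons.2 ⟨NA211, List.forall_mem_cons.2 ⟨NA223,
    List.forall_mem_cons.2 ⟨NA227, List.forall_mem_cons.2 ⟨NA229, List.forall_mem_nil
    _⟩⟩⟩⟩⟩⟩⟩⟩⟩⟩

theorem CkA1_5 : ∀ p ∈ [233, 239, 241, 251, 257, 263, 269, 271, 277, 281], NA p :=
  List.forall_mem_cons.2 ⟨NA233, List.forall_mem_cons.2 ⟨NA239, List.forall_mem_cons.2 ⟨NA241,
    List.forall_mem_cons.2 ⟨NA251, List.forall_mem_cons.2 ⟨NA257, List.forall_mem_cons.2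
    ⟨NA263, List.forall_mem_cons.2 ⟨NA269, List.forall_mem_cons.2 ⟨NA271,
    List.forall_mem_cons.2 ⟨NA277, List.forall_mem_cons.2 ⟨NA281, List.forall_mem_nil
    _⟩⟩⟩⟩⟩⟩⟩⟩⟩⟩

theorem CkA1_6 : ∀ p ∈ [283, 293, 307, 311, 313, 317, 331, 337, 347, 349], NA p :=
  List.forall_mem_cons.2 ⟨NA283, List.forall_mem_cons.2 ⟨NA293, List.forall_mem_cons.2 ⟨NA307,
    List.forall_mem_cons.2 ⟨NA311, List.forall_mem_cons.2 ⟨NA313, List.forall_mem_cons.2
    ⟨NA317, List.forall_mem_cons.2 ⟨NA331, List.forall_mem_cons.2 ⟨NA337,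
    List.forall_mem_cons.2 ⟨NA347, List.forall_mem_cons.2 ⟨NA349, List.forall_mem_nil
    _⟩⟩⟩⟩⟩⟩⟩⟩⟩⟩

theorem CkA1_7 : ∀ p ∈ [353, 359, 367, 373, 379, 383, 389, 397], NA p :=
  List.forall_mem_cons.2 ⟨NA353, List.forall_mem_cons.2 ⟨NA359, List.forall_mem_cons.2 ⟨NA367,
    List.forall_mem_cons.2 ⟨NA373, List.forall_mem_cons.2 ⟨NA379, List.forall_mem_cons.2
    ⟨NA383, List.forall_mem_cons.2 ⟨NA389, List.forall_mem_cons.2 ⟨NA397, List.forall_mem_nil
    _⟩⟩⟩⟩⟩⟩⟩⟩

end GF2
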