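import Pool.Agent.H.MP_81d9be_nt.Loc

/-!
# MP_81d9be_nt: the first family, table 2
-/

set_option autoImplicit false

namespace GF2

theorem NA401 : NA 401 :=
  chkA_spec (l := 3209) (m := 400) (k := 8) (c := 2377) (L := [1, 22, 484, 1021, 2188, 2725,
      3187, 3208]) (L2 := [1, 484, 2725, 3208]) (L4 := [1, 3208])
    (by norm_num) (by norm_num) (by decide +kernel) (by decide +kernel)

theorem NA409 : NA 409 :=
  chkA_spec (l := 1637) (m := 408) (k := 4) (c := 1152) (L := [1, 316, 1321, 1636]) (L2 := [1,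
      1636]) (L4 := [1])
    (by norm_num) (by norm_num) (by decide +kernel) (by decide +kernel)

theorem NA419 : NA 419 :=
  chkA_spec (l := 839) (m := 418) (k := 2) (c := 404) (L := [1, 838]) (L2 := [1]) (L4 := [1])
    (by norm_num) (by norm_num) (by decide +kernel) (by decide +kernel)

theorem NA421 : NA 421 :=
  chkA_spec (l := 4211) (m := 420) (k := 10) (c := 3651) (L := [1, 790, 872, 1724, 1807, 2404,
      2487, 3339, 3421, 4210]) (L2 := [1, 872, 1724, 2404, 3421]) (L4 := [1, 872, 1724, 2404,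
      3421])
    (by norm_num) (by norm_num) (by decide +kernel) (by decide +kernel)

theorem NA431 : NA 431 :=
  chkA_spec (l := 863) (m := 430) (k := 2) (c := 32) (L := [1, 862]) (L2 := [1]) (L4 := [1])
    (by norm_num) (by norm_num) (by decide +kernel) (by decide +kernel)

theorem NA433 : NA 433 :=
  chkA_spec (l := 1733) (m := 432) (k := 4) (c := 1027) (L := [1, 410, 1323, 1732]) (L2 := [1,
      1732]) (L4 := [1])
    (by norm_num) (by norm_num) (by decide +kernel) (by decide +kernel)

theorem NA439 : NA 439 :=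
  chkA_spec (l := 4391) (m := 438) (k := 10) (c := 3462) (L := [1, 372, 1236, 1263, 2128, 2263,
      3128, 3155, 4019, 4390]) (L2 := [1, 1236, 1263, 2263, 4019]) (L4 := [1, 1236, 1263, 2263,
      4019])
    (by norm_num) (by norm_num) (by decide +kernel) (by decide +kernel)

theorem NA443 : NA 443 :=
  chkA_spec (l := 887) (m := 442) (k := 2) (c := 230) (L := [1, 886]) (L2 := [1]) (L4 := [1])
    (by norm_num) (by norm_num) (by decide +kernel) (by decide +kernel)

theorem NA449 : NA 449 :=
  chkA_spec (l := 3593) (m := 448) (k := 8) (c := 1863) (L := [1, 799, 1153, 1439, 2154, 2440,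
      2794, 3592]) (L2 := [1, 1153, 2440, 3592]) (L4 := [1, 3592])
    (by norm_num) (by norm_num) (by decide +kernel) (by decide +kernel)

theorem NA457 : NA 457 :=
  chkA_spec (l := 13711) (m := 456) (k := 30) (c := 5586) (L := [1, 702, 792, 1060, 1394, 2186,
      2425, 3127, 3148, 3149, 3442, 3726, 5107, 6167, 6543, 7168, 7544, 8604, 9985, 10269,
      10562, 10563, 10584, 11286, 11525, 12317, 12651, 12919, 13009, 13710]) (L2 := [1, 1060,
      2186, 3127, 3148, 5107, 7168, 7544, 9985, 10269, 10562, 11286, 12317, 12919, 13009]) (L4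
      := [1, 1060, 2186, 3127, 3148, 5107, 7168, 7544, 9985, 10269, 10562, 11286, 12317, 12919,
      13009])
    (by norm_num) (by norm_num) (by decide +kernel) (by decide +kernel)

theorem NA461 : NA 461 :=
  chkA_spec (l := 2767) (m := 460) (k := 6) (c := 1730) (L := [1, 328, 329, 2438, 2439, 2766])
      (L2 := [1, 328, 2438]) (L4 := [1, 328, 2438])
    (by norm_num) (by norm_num) (by decide +kernel) (by decide +kernel)

theorem NA463 : NA 463 :=
  chkA_spec (l := 5557) (m := 462) (k := 12) (c := 1920) (L := [1, 829, 1649, 1827, 1828, 2478,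
      3079, 3729, 3730, 3908, 4728, 5556]) (L2 := [1, 1827, 1828, 3729, 3730, 5556]) (L4 := [1,
      1827, 3729])
    (by norm_num) (by norm_num) (by decide +kernel) (by decide +kernel)

theorem NA467 : NA 467 :=
  chkA_spec (l := 2803) (m := 466) (k := 6) (c := 1142) (L := [1, 413, 414, 2389, 2390, 2802])
      (L2 := [1, 413, 2389]) (L4 := [1, 413, 2389])
    (by norm_num) (by norm_num) (by decide +kernel) (by decide +kernel)

theorem NA479 : NA 479 :=
  chkA_spec (l := 3833) (m := 478) (k := 8) (c := 3691) (L := [1, 19, 361, 807, 3026, 3472, 3814,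
      3832]) (L2 := [1, 361, 3472, 3832]) (L4 := [1, 3832])
    (by norm_num) (by norm_num) (by decide +kernel) (by decide +kernel)

theorem NA487 : NA 487 :=
  chkA_spec (l := 1949) (m := 486) (k := 4) (c := 1155) (L := [1, 589, 1360, 1948]) (L2 := [1,
      1948]) (L4 := [1])
    (by norm_num) (by norm_num) (by decide +kernel) (by decide +kernel)

theorem NA491 : NA 491 :=
  chkA_spec (l := 983) (m := 490) (k := 2) (c := 801) (L := [1, 982]) (L2 := [1]) (L4 := [1])
    (by norm_num) (by norm_num) (by decide +kernel) (by decide +kernel)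

theorem NA499 : NA 499 :=
  chkA_spec (l := 1997) (m := 498) (k := 4) (c := 74) (L := [1, 412, 1585, 1996]) (L2 := [1,
      1996]) (L4 := [1])
    (by norm_num) (by norm_num) (by decide +kernel) (by decide +kernel)

theorem NA503 : NA 503 :=
  chkA_spec (l := 3019) (m := 502) (k := 6) (c := 1230) (L := [1, 239, 240, 2779, 2780, 3018])
      (L2 := [1, 239, 2779]) (L4 := [1, 239, 2779])
    (by norm_num) (by norm_num) (by decide +kernel) (by decide +kernel)

theorem NA509 : NA 509 :=
  chkA_spec (l := 1019) (m := 508) (k := 2) (c := 151) (L := [1, 1018]) (L2 := [1]) (L4 := [1])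
    (by norm_num) (by norm_num) (by decide +kernel) (by decide +kernel)

theorem NA521 : NA 521 :=
  chkA_spec (l := 16673) (m := 520) (k := 32) (c := 5086) (L := [1, 310, 604, 1504, 1954, 1990,
      3567, 3651, 3837, 3938, 4368, 5352, 5512, 5687, 8074, 8180, 8493, 8599, 10986, 11161,
      11321, 12305, 12735, 12836, 13022, 13106, 14683, 14719, 15169, 16069, 16363, 16672]) (L2
      := [1, 310, 1954, 1990, 3651, 3938, 5512, 8074, 8599, 11161, 12735, 13022, 14683, 14719,
      16363, 16672]) (L4 := [1, 1954, 3938, 8074, 8599, 12735, 14719, 16672])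
    (by norm_num) (by norm_num) (by decide +kernel) (by decide +kernel)

theorem NA523 : NA 523 :=
  chkA_spec (l := 5231) (m := 522) (k := 10) (c := 4569) (L := [1, 91, 307, 1782, 2181, 3050,
      3449, 4924, 5140, 5230]) (L2 := [1, 91, 307, 1782, 3050]) (L4 := [1, 91, 307, 1782,
      3050])
    (by norm_num) (by norm_num) (by decide +kernel) (by decide +kernel)

theorem NA541 : NA 541 :=
  chkA_spec (l := 9739) (m := 540) (k := 18) (c := 8203) (L := [1, 94, 903, 2516, 2667, 2761,
      2768, 2769, 3419, 6320, 6970, 6971, 6978, 7072, 7223, 8836, 9645, 9738]) (L2 := [1, 2761,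
      2768, 3419, 6970, 7072, 7223, 8836, 9645]) (L4 := [1, 2761, 2768, 3419, 6970, 7072, 7223,
      8836, 9645])
    (by norm_num) (by norm_num) (by decide +kernel) (by decide +kernel)

theorem NA547 : NA 547 :=
  chkA_spec (l := 5471) (m := 546) (k := 10) (c := 1176) (L := [1, 905, 1074, 1625, 1868, 3603,
      3846, 4397, 4566, 5470]) (L2 := [1, 3603, 3846, 4397, 4566]) (L4 := [1, 3603, 3846, 4397,
      4566])
    (by norm_num) (by norm_num) (by decide +kernel) (by decide +kernel)

theorem NA557 : NA 557 :=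
  chkA_spec (l := 3343) (m := 556) (k := 6) (c := 1362) (L := [1, 1424, 1425, 1918, 1919, 3342])
      (L2 := [1, 1424, 1918]) (L4 := [1, 1424, 1918])
    (by norm_num) (by norm_num) (by decide +kernel) (by decide +kernel)

theorem NA563 : NA 563 :=
  chkA_spec (l := 7883) (m := 562) (k := 14) (c := 2060) (L := [1, 439, 1299, 2685, 3529, 3720,
      3735, 4148, 4163, 4354, 5198, 6584, 7444, 7882]) (L2 := [1, 439, 3529, 3735, 4163, 5198,
      6584]) (L4 := [1, 439, 3529, 3735, 4163, 5198, 6584])
    (by norm_num) (by norm_num) (by decide +kernel) (by decide +kernel)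

theorem NA569 : NA 569 :=
  chkA_spec (l := 6829) (m := 568) (k := 12) (c := 4074) (L := [1, 734, 735, 1528, 1596, 3124,
      3705, 5233, 5301, 6094, 6095, 6828]) (L2 := [1, 734, 735, 6094, 6095, 6828]) (L4 := [1,
      734, 6094])
    (by norm_num) (by norm_num) (by decide +kernel) (by decide +kernel)

theorem NA571 : NA 571 :=
  chkA_spec (l := 5711) (m := 570) (k := 10) (c := 2576) (L := [1, 998, 1020, 1402, 2290, 3421,
      4309, 4691, 4713, 5710]) (L2 := [1, 998, 1020, 1402, 2290]) (L4 := [1, 998, 1020, 1402,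
      2290])
    (by norm_num) (by norm_num) (by decide +kernel) (by decide +kernel)

theorem NA577 : NA 577 :=
  chkA_spec (l := 2309) (m := 576) (k := 4) (c := 2138) (L := [1, 688, 1621, 2308]) (L2 := [1,
      2308]) (L4 := [1])
    (by norm_num) (by norm_num) (by decide +kernel) (by decide +kernel)

theorem NA587 : NA 587 :=
  chkA_spec (l := 8219) (m := 586) (k := 14) (c := 3883) (L := [1, 663, 846, 1500, 2006, 3274,
      3962, 4257, 4945, 6213, 6719, 7373, 7556, 8218]) (L2 := [1, 663, 1500, 3962, 4945, 6213,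
      7373]) (L4 := [1, 663, 1500, 3962, 4945, 6213, 7373])
    (by norm_num) (by norm_num) (by decide +kernel) (by decide +kernel)

theorem NA593 : NA 593 :=
  chkA_spec (l := 1187) (m := 592) (k := 2) (c := 44) (L := [1, 1186]) (L2 := [1]) (L4 := [1])
    (by norm_num) (by norm_num) (by decide +kernel) (by decide +kernel)

theorem NA599 : NA 599 :=
  chkA_spec (l := 4793) (m := 598) (k := 8) (c := 355) (L := [1, 192, 1373, 1480, 3313, 3420,
      4601, 4792]) (L2 := [1, 1480, 3313, 4792]) (L4 := [1, 4792])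
    (by norm_num) (by norm_num) (by decide +kernel) (by decide +kernel)

theorem NA601 : NA 601 :=
  chkA_spec (l := 3607) (m := 600) (k := 6) (c := 668) (L := [1, 1399, 1400, 2207, 2208, 3606])
      (L2 := [1, 1399, 2207]) (L4 := [1, 1399, 2207])
    (by norm_num) (by norm_num) (by decide +kernel) (by decide +kernel)

theorem NA607 : NA 607 :=
  chkA_spec (l := 3643) (m := 606) (k := 6) (c := 2413) (L := [1, 422, 423, 3220, 3221, 3642])
      (L2 := [1, 422, 3220]) (L4 := [1, 422, 3220])
    (by norm_num) (by norm_num) (by decide +kernel) (by decide +kernel)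

theorem NA613 : NA 613 :=
  chkA_spec (l := 6131) (m := 612) (k := 10) (c := 4397) (L := [1, 659, 1020, 1870, 2230, 3901,
      4261, 5111, 5472, 6130]) (L2 := [1, 659, 2230, 4261, 5111]) (L4 := [1, 659, 2230, 4261,
      5111])
    (by norm_num) (by norm_num) (by decide +kernel) (by decide +kernel)

theorem NA617 : NA 617 :=
  chkA_spec (l := 4937) (m := 616) (k := 8) (c := 3657) (L := [1, 95, 849, 1663, 3274, 4088,
      4842, 4936]) (L2 := [1, 849, 4088, 4936]) (L4 := [1, 4936])
    (by norm_num) (by norm_num) (by decide +kernel) (by decide +kernel)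

theorem NA619 : NA 619 :=
  chkA_spec (l := 2477) (m := 618) (k := 4) (c := 367) (L := [1, 915, 1562, 2476]) (L2 := [1,
      2476]) (L4 := [1])
    (by norm_num) (by norm_num) (by decide +kernel) (by decide +kernel)

theorem NA631 : NA 631 :=
  chkA_spec (l := 6311) (m := 630) (k := 10) (c := 935) (L := [1, 538, 862, 1654, 3053, 3258,
      4657, 5449, 5773, 6310]) (L2 := [1, 3053, 4657, 5449, 5773]) (L4 := [1, 3053, 4657, 5449,
      5773])
    (by norm_num) (by norm_num) (by decide +kernel) (by decide +kernel)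

theorem NA641 : NA 641 :=
  chkA_spec (l := 1283) (m := 640) (k := 2) (c := 1188) (L := [1, 1282]) (L2 := [1]) (L4 := [1])
    (by norm_num) (by norm_num) (by decide +kernel) (by decide +kernel)

theorem NA643 : NA 643 :=
  chkA_spec (l := 7717) (m := 642) (k := 12) (c := 3144) (L := [1, 205, 2748, 2953, 3439, 3440,
      4277, 4278, 4764, 4969, 7512, 7716]) (L2 := [1, 3439, 3440, 4277, 4278, 7716]) (L4 := [1,
      3439, 4277])
    (by norm_num) (by norm_num) (by decide +kernel) (by decide +kernel)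

theorem NA647 : NA 647 :=
  chkA_spec (l := 9059) (m := 646) (k := 14) (c := 8388) (L := [1, 876, 1719, 1727, 2050, 2118,
      2639, 6420, 6941, 7009, 7332, 7340, 8183, 9058]) (L2 := [1, 1719, 1727, 2118, 6420, 7009,
      8183]) (L4 := [1, 1719, 1727, 2118, 6420, 7009, 8183])
    (by norm_num) (by norm_num) (by decide +kernel) (by decide +kernel)

theorem NA653 : NA 653 :=
  chkA_spec (l := 1307) (m := 652) (k := 2) (c := 1065) (L := [1, 1306]) (L2 := [1]) (L4 := [1])
    (by norm_num) (by norm_num) (by decide +kernel) (by decide +kernel)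

theorem NA659 : NA 659 :=
  chkA_spec (l := 1319) (m := 658) (k := 2) (c := 342) (L := [1, 1318]) (L2 := [1]) (L4 := [1])
    (by norm_num) (by norm_num) (by decide +kernel) (by decide +kernel)

theorem NA661 : NA 661 :=
  chkA_spec (l := 3967) (m := 660) (k := 6) (c := 2057) (L := [1, 888, 889, 3078, 3079, 3966])
      (L2 := [1, 888, 3078]) (L4 := [1, 888, 3078])
    (by norm_num) (by norm_num) (by decide +kernel) (by decide +kernel)

theorem NA673 : NA 673 :=
  chkA_spec (l := 2693) (m := 672) (k := 4) (c := 399) (L := [1, 859, 1834, 2692]) (L2 := [1,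
      2692]) (L4 := [1])
    (by norm_num) (by norm_num) (by decide +kernel) (by decide +kernel)

theorem NA677 : NA 677 :=
  chkA_spec (l := 5417) (m := 676) (k := 8) (c := 1605) (L := [1, 368, 979, 2667, 2750, 4438,
      5049, 5416]) (L2 := [1, 368, 5049, 5416]) (L4 := [1, 5416])
    (by norm_num) (by norm_num) (by decide +kernel) (by decide +kernel)

theorem NA683 : NA 683 :=
  chkA_spec (l := 1367) (m := 682) (k := 2) (c := 962) (L := [1, 1366]) (L2 := [1]) (L4 := [1])
    (by norm_num) (by norm_num) (by decide +kernel) (by decide +kernel)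

theorem NA691 : NA 691 :=
  chkA_spec (l := 6911) (m := 690) (k := 10) (c := 3709) (L := [1, 761, 1226, 1403, 3389, 3522,
      5508, 5685, 6150, 6910]) (L2 := [1, 3389, 5508, 5685, 6150]) (L4 := [1, 3389, 5508, 5685,
      6150])
    (by norm_num) (by norm_num) (by decide +kernel) (by decide +kernel)

theorem CkA2_0 : ∀ p ∈ [401, 409, 419, 421, 431, 433, 439, 443, 449, 457], NA p :=
  List.forall_mem_cons.2 ⟨NA401, List.forall_mem_cons.2 ⟨NA409, List.forall_mem_cons.2 ⟨NA419,
    List.forall_mem_cons.2 ⟨NA421, List.forall_mem_cons.2 ⟨NA431, List.forall_mem_cons.2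
    ⟨NA433, List.forall_mem_cons.2 ⟨NA439, List.forall_mem_cons.2 ⟨NA443,
    List.forall_mem_cons.2 ⟨NA449, List.forall_mem_cons.2 ⟨NA457, List.forall_mem_nil
    _⟩⟩⟩⟩⟩⟩⟩⟩⟩⟩

theorem CkA2_1 : ∀ p ∈ [461, 463, 467, 479, 487, 491, 499, 503, 509, 521], NA p :=
  List.forall_mem_cons.2 ⟨NA461, List.forall_mem_cons.2 ⟨NA463, List.forall_mem_cons.2 ⟨NA467,
    List.forall_mem_cons.2 ⟨NA479, List.forall_mem_cons.2 ⟨NA487, List.forall_mem_cons.2
    ⟨NA491, List.forall_mem_cons.2 ⟨NA499, List.forall_mem_cons.2 ⟨NA503,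
    List.forall_mem_cons.2 ⟨NA509, List.forall_mem_cons.2 ⟨NA521, List.forall_mem_nil
    _⟩⟩⟩⟩⟩⟩⟩⟩⟩⟩

theorem CkA2_2 : ∀ p ∈ [523, 541, 547, 557, 563, 569, 571, 577, 587, 593], NA p :=
  List.forall_mem_cons.2 ⟨NA523, List.forall_mem_cons.2 ⟨NA541, List.forall_mem_cons.2 ⟨NA547,
    List.forall_mem_cons.2 ⟨NA557, List.forall_mem_cons.2 ⟨NA563, List.forall_mem_cons.2
    ⟨NA569, List.forall_mem_cons.2 ⟨NA571, List.forall_mem_cons.2 ⟨NA577,
    List.forall_mem_cons.2 ⟨NA587, List.forall_mem_cons.2 ⟨NA593, List.forall_mem_nil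
    _⟩⟩⟩⟩⟩⟩⟩⟩⟩⟩

theorem CkA2_3 : ∀ p ∈ [599, 601, 607, 613, 617, 619, 631, 641, 643, 647], NA p :=
  List.forall_mem_cons.2 ⟨NA599, List.forall_mem_cons.2 ⟨NA601, List.forall_mem_cons.2 ⟨NA607,
    List.forall_mem_cons.2 ⟨NA613, List.forall_mem_cons.2 ⟨NA617, List.forall_mem_cons.2
    ⟨NA619, List.forall_mem_cons.2 ⟨NA631, List.forall_mem_cons.2 ⟨NA641,
    List.forall_mem_cons.2 ⟨NA643, List.forall_mem_cons.2 ⟨NA647, List.forall_mem_nil
    _⟩⟩⟩⟩⟩⟩⟩⟩⟩⟩

theorem CkA2_4 : ∀ p ∈ [653, 659, 661, 673, 677, 683, 691], NA p :=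
  List.forall_mem_cons.2 ⟨NA653, List.forall_mem_cons.2 ⟨NA659, List.forall_mem_cons.2 ⟨NA661,
    List.forall_mem_cons.2 ⟨NA673, List.forall_mem_cons.2 ⟨NA677, List.forall_mem_cons.2
    ⟨NA683, List.forall_mem_cons.2 ⟨NA691, List.forall_mem_nil _⟩⟩⟩⟩⟩⟩⟩

end GF2
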