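import Pool.Agent.H.MP_81d9be_nt.Loc

/-!
# MP_81d9be_nt: the first family, table 3
-/

set_option autoImplicit false

namespace GF2

theorem NA701 : NA 701 :=
  chkA_spec (l := 12619) (m := 700) (k := 18) (c := 5936) (L := [1, 1056, 1204, 1569, 2260, 3095,
      3774, 3775, 4664, 7955, 8844, 8845, 9524, 10359, 11050, 11415, 11563, 12618]) (L2 := [1,
      1056, 1204, 3774, 4664, 8844, 9524, 10359, 11050]) (L4 := [1, 1056, 1204, 3774, 4664,
      8844, 9524, 10359, 11050])
    (by norm_num) (by norm_num) (by decide +kernel) (by decide +kernel)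

theorem NA709 : NA 709 :=
  chkA_spec (l := 2837) (m := 708) (k := 4) (c := 1366) (L := [1, 416, 2421, 2836]) (L2 := [1,
      2836]) (L4 := [1])
    (by norm_num) (by norm_num) (by decide +kernel) (by decide +kernel)

theorem NA719 : NA 719 :=
  chkA_spec (l := 1439) (m := 718) (k := 2) (c := 533) (L := [1, 1438]) (L2 := [1]) (L4 := [1])
    (by norm_num) (by norm_num) (by decide +kernel) (by decide +kernel)

theorem NA727 : NA 727 :=
  chkA_spec (l := 2909) (m := 726) (k := 4) (c := 431) (L := [1, 878, 2031, 2908]) (L2 := [1,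
      2908]) (L4 := [1])
    (by norm_num) (by norm_num) (by decide +kernel) (by decide +kernel)

theorem NA733 : NA 733 :=
  chkA_spec (l := 7331) (m := 732) (k := 10) (c := 6788) (L := [1, 458, 843, 2449, 2835, 4496,
      4882, 6488, 6873, 7330]) (L2 := [1, 843, 2449, 4496, 6873]) (L4 := [1, 843, 2449, 4496,
      6873])
    (by norm_num) (by norm_num) (by decide +kernel) (by decide +kernel)

theorem NA739 : NA 739 :=
  chkA_spec (l := 2957) (m := 738) (k := 4) (c := 2738) (L := [1, 1222, 1735, 2956]) (L2 := [1,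
      2956]) (L4 := [1])
    (by norm_num) (by norm_num) (by decide +kernel) (by decide +kernel)

theorem NA743 : NA 743 :=
  chkA_spec (l := 1487) (m := 742) (k := 2) (c := 716) (L := [1, 1486]) (L2 := [1]) (L4 := [1])
    (by norm_num) (by norm_num) (by decide +kernel) (by decide +kernel)

theorem NA751 : NA 751 :=
  chkA_spec (l := 4507) (m := 750) (k := 6) (c := 1473) (L := [1, 791, 792, 3715, 3716, 4506])
      (L2 := [1, 791, 3715]) (L4 := [1, 791, 3715])
    (by norm_num) (by norm_num) (by decide +kernel) (by decide +kernel)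

theorem NA757 : NA 757 :=
  chkA_spec (l := 12113) (m := 756) (k := 16) (c := 1924) (L := [1, 635, 2338, 2627, 3281, 3449,
      3496, 5269, 6844, 8617, 8664, 8832, 9486, 9775, 11478, 12112]) (L2 := [1, 635, 3281,
      3496, 8617, 8832, 11478, 12112]) (L4 := [1, 3496, 8617, 12112])
    (by norm_num) (by norm_num) (by decide +kernel) (by decide +kernel)

theorem NA761 : NA 761 :=
  chkA_spec (l := 1523) (m := 760) (k := 2) (c := 1241) (L := [1, 1522]) (L2 := [1]) (L4 := [1])
    (by norm_num) (by norm_num) (by decide +kernel) (by decide +kernel)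

theorem NA769 : NA 769 :=
  chkA_spec (l := 7691) (m := 768) (k := 10) (c := 322) (L := [1, 1003, 1409, 1512, 1917, 5774,
      6179, 6282, 6688, 7690]) (L2 := [1, 1003, 1917, 6179, 6282]) (L4 := [1, 1003, 1917, 6179,
      6282])
    (by norm_num) (by norm_num) (by decide +kernel) (by decide +kernel)

theorem NA773 : NA 773 :=
  chkA_spec (l := 4639) (m := 772) (k := 6) (c := 2355) (L := [1, 1360, 1361, 3278, 3279, 4638])
      (L2 := [1, 1360, 3278]) (L4 := [1, 1360, 3278])
    (by norm_num) (by norm_num) (by decide +kernel) (by decide +kernel)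

theorem NA787 : NA 787 :=
  chkA_spec (l := 4723) (m := 786) (k := 6) (c := 3297) (L := [1, 717, 718, 4005, 4006, 4722])
      (L2 := [1, 717, 4005]) (L4 := [1, 717, 4005])
    (by norm_num) (by norm_num) (by decide +kernel) (by decide +kernel)

theorem NA797 : NA 797 :=
  chkA_spec (l := 4783) (m := 796) (k := 6) (c := 3543) (L := [1, 1745, 1746, 3037, 3038, 4782])
      (L2 := [1, 1745, 3037]) (L4 := [1, 1745, 3037])
    (by norm_num) (by norm_num) (by decide +kernel) (by decide +kernel)

theorem NA809 : NA 809 :=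
  chkA_spec (l := 1619) (m := 808) (k := 2) (c := 60) (L := [1, 1618]) (L2 := [1]) (L4 := [1])
    (by norm_num) (by norm_num) (by decide +kernel) (by decide +kernel)

theorem NA811 : NA 811 :=
  chkA_spec (l := 8111) (m := 810) (k := 10) (c := 8080) (L := [1, 381, 837, 2568, 3023, 5088,
      5543, 7274, 7730, 8110]) (L2 := [1, 381, 3023, 5543, 7274]) (L4 := [1, 381, 3023, 5543,
      7274])
    (by norm_num) (by norm_num) (by decide +kernel) (by decide +kernel)

theorem NA821 : NA 821 :=
  chkA_spec (l := 6569) (m := 820) (k := 8) (c := 4136) (L := [1, 736, 2508, 3038, 3531, 4061,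
      5833, 6568]) (L2 := [1, 3038, 3531, 6568]) (L4 := [1, 6568])
    (by norm_num) (by norm_num) (by decide +kernel) (by decide +kernel)

theorem NA823 : NA 823 :=
  chkA_spec (l := 8231) (m := 822) (k := 10) (c := 7889) (L := [1, 1003, 1827, 3032, 3857, 4374,
      5199, 6404, 7228, 8230]) (L2 := [1, 1827, 3032, 4374, 7228]) (L4 := [1, 1827, 3032, 4374,
      7228])
    (by norm_num) (by norm_num) (by decide +kernel) (by decide +kernel)

theorem NA827 : NA 827 :=
  chkA_spec (l := 11579) (m := 826) (k := 14) (c := 5533) (L := [1, 846, 1136, 2155, 2182, 4911,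
      5227, 6352, 6668, 9397, 9424, 10443, 10733, 11578]) (L2 := [1, 846, 2155, 5227, 6668,
      9397, 10443]) (L4 := [1, 846, 2155, 5227, 6668, 9397, 10443])
    (by norm_num) (by norm_num) (by decide +kernel) (by decide +kernel)

theorem NA829 : NA 829 :=
  chkA_spec (l := 8291) (m := 828) (k := 10) (c := 6572) (L := [1, 1051, 1898, 3333, 4110, 4181,
      4958, 6393, 7240, 8290]) (L2 := [1, 1898, 3333, 4110, 7240]) (L4 := [1, 1898, 3333, 4110,
      7240])
    (by norm_num) (by norm_num) (by decide +kernel) (by decide +kernel)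

theorem NA839 : NA 839 :=
  chkA_spec (l := 10069) (m := 838) (k := 12) (c := 8403) (L := [1, 536, 4630, 4705, 4706, 4903,
      5166, 5363, 5364, 5439, 9533, 10068]) (L2 := [1, 4705, 4706, 5363, 5364, 10068]) (L4 :=
      [1, 4705, 5363])
    (by norm_num) (by norm_num) (by decide +kernel) (by decide +kernel)

theorem NA853 : NA 853 :=
  chkA_spec (l := 3413) (m := 852) (k := 4) (c := 2781) (L := [1, 1471, 1942, 3412]) (L2 := [1,
      3412]) (L4 := [1])
    (by norm_num) (by norm_num) (by decide +kernel) (by decide +kernel)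

theorem NA857 : NA 857 :=
  chkA_spec (l := 6857) (m := 856) (k := 8) (c := 6603) (L := [1, 596, 1139, 1348, 5509, 5718,
      6261, 6856]) (L2 := [1, 1348, 5509, 6856]) (L4 := [1, 6856])
    (by norm_num) (by norm_num) (by decide +kernel) (by decide +kernel)

theorem NA859 : NA 859 :=
  chkA_spec (l := 18899) (m := 858) (k := 22) (c := 10794) (L := [1, 3113, 3173, 3943, 4418,
      4704, 4744, 5238, 6628, 7953, 9108, 9791, 10946, 12271, 13661, 14155, 14195, 14481,
      14956, 15726, 15786, 18898]) (L2 := [1, 7953, 9108, 12271, 13661, 14155, 14195, 14481,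
      14956, 15726, 15786]) (L4 := [1, 7953, 9108, 12271, 13661, 14155, 14195, 14481, 14956,
      15726, 15786])
    (by norm_num) (by norm_num) (by decide +kernel) (by decide +kernel)

theorem NA863 : NA 863 :=
  chkA_spec (l := 5179) (m := 862) (k := 6) (c := 2110) (L := [1, 1497, 1498, 3681, 3682, 5178])
      (L2 := [1, 1497, 3681]) (L4 := [1, 1497, 3681])
    (by norm_num) (by norm_num) (by decide +kernel) (by decide +kernel)

theorem NA877 : NA 877 :=
  chkA_spec (l := 14033) (m := 876) (k := 16) (c := 10861) (L := [1, 228, 1446, 1908, 4148, 5533,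
      5917, 6929, 7104, 8116, 8500, 9885, 12125, 12587, 13805, 14032]) (L2 := [1, 1446, 4148,
      5917, 8116, 9885, 12587, 14032]) (L4 := [1, 1446, 12587, 14032])
    (by norm_num) (by norm_num) (by decide +kernel) (by decide +kernel)

theorem NA881 : NA 881 :=
  chkA_spec (l := 15859) (m := 880) (k := 18) (c := 8130) (L := [1, 929, 2515, 2516, 3124, 5162,
      6080, 6091, 6655, 9204, 9768, 9779, 10697, 12735, 13343, 13344, 14930, 15858]) (L2 := [1,
      2515, 3124, 6080, 6091, 6655, 10697, 13343, 14930]) (L4 := [1, 2515, 3124, 6080, 6091,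
      6655, 10697, 13343, 14930])
    (by norm_num) (by norm_num) (by decide +kernel) (by decide +kernel)

theorem NA883 : NA 883 :=
  chkA_spec (l := 3533) (m := 882) (k := 4) (c := 916) (L := [1, 548, 2985, 3532]) (L2 := [1,
      3532]) (L4 := [1])
    (by norm_num) (by norm_num) (by decide +kernel) (by decide +kernel)

theorem NA887 : NA 887 :=
  chkA_spec (l := 5323) (m := 886) (k := 6) (c := 3943) (L := [1, 1282, 1283, 4040, 4041, 5322])
      (L2 := [1, 1282, 4040]) (L4 := [1, 1282, 4040])
    (by norm_num) (by norm_num) (by decide +kernel) (by decide +kernel)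

theorem NA907 : NA 907 :=
  chkA_spec (l := 5443) (m := 906) (k := 6) (c := 2928) (L := [1, 2588, 2589, 2854, 2855, 5442])
      (L2 := [1, 2588, 2854]) (L4 := [1, 2588, 2854])
    (by norm_num) (by norm_num) (by decide +kernel) (by decide +kernel)

theorem NA911 : NA 911 :=
  chkA_spec (l := 1823) (m := 910) (k := 2) (c := 1688) (L := [1, 1822]) (L2 := [1]) (L4 := [1])
    (by norm_num) (by norm_num) (by decide +kernel) (by decide +kernel)

theorem NA919 : NA 919 :=
  chkA_spec (l := 3677) (m := 918) (k := 4) (c := 2179) (L := [1, 1309, 2368, 3676]) (L2 := [1,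
      3676]) (L4 := [1])
    (by norm_num) (by norm_num) (by decide +kernel) (by decide +kernel)

theorem NA929 : NA 929 :=
  chkA_spec (l := 7433) (m := 928) (k := 8) (c := 4680) (L := [1, 146, 983, 2291, 5142, 6450,
      7287, 7432]) (L2 := [1, 983, 6450, 7432]) (L4 := [1, 7432])
    (by norm_num) (by norm_num) (by decide +kernel) (by decide +kernel)

theorem NA937 : NA 937 :=
  chkA_spec (l := 5623) (m := 936) (k := 6) (c := 4790) (L := [1, 2013, 2014, 3609, 3610, 5622])
      (L2 := [1, 2013, 3609]) (L4 := [1, 2013, 3609])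
    (by norm_num) (by norm_num) (by decide +kernel) (by decide +kernel)

theorem NA941 : NA 941 :=
  chkA_spec (l := 5647) (m := 940) (k := 6) (c := 2269) (L := [1, 853, 854, 4793, 4794, 5646])
      (L2 := [1, 853, 4793]) (L4 := [1, 853, 4793])
    (by norm_num) (by norm_num) (by decide +kernel) (by decide +kernel)

theorem NA947 : NA 947 :=
  chkA_spec (l := 5683) (m := 946) (k := 6) (c := 3958) (L := [1, 1110, 1111, 4572, 4573, 5682])
      (L2 := [1, 1110, 4572]) (L4 := [1, 1110, 4572])
    (by norm_num) (by norm_num) (by decide +kernel) (by decide +kernel)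

theorem NA953 : NA 953 :=
  chkA_spec (l := 1907) (m := 952) (k := 2) (c := 1342) (L := [1, 1906]) (L2 := [1]) (L4 := [1])
    (by norm_num) (by norm_num) (by decide +kernel) (by decide +kernel)

theorem NA967 : NA 967 :=
  chkA_spec (l := 15473) (m := 966) (k := 16) (c := 11781) (L := [1, 2105, 2451, 3877, 5467,
      5747, 6814, 6846, 8627, 8659, 9726, 10006, 11596, 13022, 13368, 15472]) (L2 := [1, 3877,
      5747, 6846, 8627, 9726, 11596, 15472]) (L4 := [1, 6846, 8627, 15472])
    (by norm_num) (by norm_num) (by decide +kernel) (by decide +kernel)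

theorem NA971 : NA 971 :=
  chkA_spec (l := 5827) (m := 970) (k := 6) (c := 50) (L := [1, 1350, 1351, 4476, 4477, 5826])
      (L2 := [1, 1350, 4476]) (L4 := [1, 1350, 4476])
    (by norm_num) (by norm_num) (by decide +kernel) (by decide +kernel)

theorem NA977 : NA 977 :=
  chkA_spec (l := 7817) (m := 976) (k := 8) (c := 579) (L := [1, 955, 1899, 2564, 5253, 5918,
      6862, 7816]) (L2 := [1, 2564, 5253, 7816]) (L4 := [1, 7816])
    (by norm_num) (by norm_num) (by decide +kernel) (by decide +kernel)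

theorem NA983 : NA 983 :=
  chkA_spec (l := 13763) (m := 982) (k := 14) (c := 250) (L := [1, 157, 2490, 2877, 5566, 6750,
      6793, 6970, 7013, 8197, 10886, 11273, 13606, 13762]) (L2 := [1, 5566, 6750, 6970, 10886,
      11273, 13606]) (L4 := [1, 5566, 6750, 6970, 10886, 11273, 13606])
    (by norm_num) (by norm_num) (by decide +kernel) (by decide +kernel)

theorem NA991 : NA 991 :=
  chkA_spec (l := 17839) (m := 990) (k := 18) (c := 11036) (L := [1, 171, 2921, 3516, 5028, 5199,
      5290, 5291, 6437, 11402, 12548, 12549, 12640, 12811, 14323, 14918, 17668, 17838]) (L2 :=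
      [1, 2921, 3516, 5199, 5290, 11402, 12548, 12811, 17668]) (L4 := [1, 2921, 3516, 5199,
      5290, 11402, 12548, 12811, 17668])
    (by norm_num) (by norm_num) (by decide +kernel) (by decide +kernel)

theorem NA997 : NA 997 :=
  chkA_spec (l := 3989) (m := 996) (k := 4) (c := 591) (L := [1, 481, 3508, 3988]) (L2 := [1,
      3988]) (L4 := [1])
    (by norm_num) (by norm_num) (by decide +kernel) (by decide +kernel)

theorem CkA3_0 : ∀ p ∈ [701, 709, 719, 727, 733, 739, 743, 751, 757, 761], NA p :=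
  List.forall_mem_cons.2 ⟨NA701, List.forall_mem_cons.2 ⟨NA709, List.forall_mem_cons.2 ⟨NA719,
    List.forall_mem_cons.2 ⟨NA727, List.forall_mem_cons.2 ⟨NA733, List.forall_mem_cons.2
    ⟨NA739, List.forall_mem_cons.2 ⟨NA743, List.forall_mem_cons.2 ⟨NA751,
    List.forall_mem_cons.2 ⟨NA757, List.forall_mem_cons.2 ⟨NA761, List.forall_mem_nil
    _⟩⟩⟩⟩⟩⟩⟩⟩⟩⟩

theorem CkA3_1 : ∀ p ∈ [769, 773, 787, 797, 809, 811, 821, 823, 827, 829], NA p :=
  List.forall_mem_cons.2 ⟨NA769, List.forall_mem_cons.2 ⟨NA773, List.forall_mem_cons.2 ⟨NA787,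
    List.forall_mem_cons.2 ⟨NA797, List.forall_mem_cons.2 ⟨NA809, List.forall_mem_cons.2
    ⟨NA811, List.forall_mem_cons.2 ⟨NA821, List.forall_mem_cons.2 ⟨NA823,
    List.forall_mem_cons.2 ⟨NA827, List.forall_mem_cons.2 ⟨NA829, List.forall_mem_nil
    _⟩⟩⟩⟩⟩⟩⟩⟩⟩⟩

theorem CkA3_2 : ∀ p ∈ [839, 853, 857, 859, 863, 877, 881, 883, 887, 907], NA p :=
  List.forall_mem_cons.2 ⟨NA839, List.forall_mem_cons.2 ⟨NA853, List.forall_mem_cons.2 ⟨NA857,
    List.forall_mem_cons.2 ⟨NA859, List.forall_mem_cons.2 ⟨NA863, List.forall_mem_cons.2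
    ⟨NA877, List.forall_mem_cons.2 ⟨NA881, List.forall_mem_cons.2 ⟨NA883,
    List.forall_mem_cons.2 ⟨NA887, List.forall_mem_cons.2 ⟨NA907, List.forall_mem_nil
    _⟩⟩⟩⟩⟩⟩⟩⟩⟩⟩

theorem CkA3_3 : ∀ p ∈ [911, 919, 929, 937, 941, 947, 953, 967, 971, 977], NA p :=
  List.forall_mem_cons.2 ⟨NA911, List.forall_mem_cons.2 ⟨NA919, List.forall_mem_cons.2 ⟨NA929,
    List.forall_mem_cons.2 ⟨NA937, List.forall_mem_cons.2 ⟨NA941, List.forall_mem_cons.2
    ⟨NA947, List.forall_mem_cons.2 ⟨NA953, List.forall_mem_cons.2 ⟨NA967,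
    List.forall_mem_cons.2 ⟨NA971, List.forall_mem_cons.2 ⟨NA977, List.forall_mem_nil
    _⟩⟩⟩⟩⟩⟩⟩⟩⟩⟩

theorem CkA3_4 : ∀ p ∈ [983, 991, 997], NA p :=
  List.forall_mem_cons.2 ⟨NA983, List.forall_mem_cons.2 ⟨NA991, List.forall_mem_cons.2 ⟨NA997,
    List.forall_mem_nil _⟩⟩⟩

end GF2
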