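import Pool.Agent.H.MP_81d9be_nt.Loc

/-!
# MP_81d9be_nt: the second family, table 1
-/

set_option autoImplicit false

namespace GF2

theorem NB2 : NB 2 :=
  chkB_spec (l := 7) (k := 3) (d := 3) (c3 := 6) (c9 := 1) (L := [1, 2, 4]) (L2 := [1, 2, 4]) (L4
      := [1, 2, 4])
    (by norm_num) (by norm_num) (by norm_num) (by decide +kernel) (by decide +kernel)
    (by decide +kernel) (by decide +kernel)

theorem NB3 : NB 3 :=
  chkB_spec (l := 7) (k := 2) (d := 3) (c3 := 6) (c9 := 1) (L := [1, 6]) (L2 := [1]) (L4 := [1])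
    (by norm_num) (by norm_num) (by norm_num) (by decide +kernel) (by decide +kernel)
    (by decide +kernel) (by decide +kernel)

theorem NB5 : NB 5 :=
  chkB_spec (l := 41) (k := 8) (d := 10) (c3 := 9) (c9 := 40) (L := [1, 3, 9, 14, 27, 32, 38,
      40]) (L2 := [1, 9, 32, 40]) (L4 := [1, 40])
    (by norm_num) (by norm_num) (by norm_num) (by decide +kernel) (by decide +kernel)
    (by decide +kernel) (by decide +kernel)

theorem NB7 : NB 7 :=
  chkB_spec (l := 29) (k := 4) (d := 7) (c3 := 12) (c9 := 28) (L := [1, 12, 17, 28]) (L2 := [1,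
      28]) (L4 := [1])
    (by norm_num) (by norm_num) (by norm_num) (by decide +kernel) (by decide +kernel)
    (by decide +kernel) (by decide +kernel)

theorem NB11 : NB 11 :=
  chkB_spec (l := 67) (k := 6) (d := 33) (c3 := 66) (c9 := 1) (L := [1, 29, 30, 37, 38, 66]) (L2
      := [1, 29, 37]) (L4 := [1, 29, 37])
    (by norm_num) (by norm_num) (by norm_num) (by decide +kernel) (by decide +kernel)
    (by decide +kernel) (by decide +kernel)

theorem NB13 : NB 13 :=
  chkB_spec (l := 53) (k := 4) (d := 13) (c3 := 30) (c9 := 52) (L := [1, 23, 30, 52]) (L2 := [1,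
      52]) (L4 := [1])
    (by norm_num) (by norm_num) (by norm_num) (by decide +kernel) (by decide +kernel)
    (by decide +kernel) (by decide +kernel)

theorem NB17 : NB 17 :=
  chkB_spec (l := 103) (k := 6) (d := 51) (c3 := 102) (c9 := 1) (L := [1, 46, 47, 56, 57, 102])
      (L2 := [1, 46, 56]) (L4 := [1, 46, 56])
    (by norm_num) (by norm_num) (by norm_num) (by decide +kernel) (by decide +kernel)
    (by decide +kernel) (by decide +kernel)

theorem NB19 : NB 19 :=
  chkB_spec (l := 457) (k := 24) (d := 114) (c3 := 456) (c9 := 1) (L := [1, 18, 70, 109, 111,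
      127, 133, 134, 139, 170, 207, 217, 240, 250, 287, 318, 323, 324, 330, 346, 348, 387, 439,
      456]) (L2 := [1, 18, 109, 127, 133, 134, 323, 324, 330, 348, 439, 456]) (L4 := [1, 133,
      134, 323, 324, 456])
    (by norm_num) (by norm_num) (by norm_num) (by decide +kernel) (by decide +kernel)
    (by decide +kernel) (by decide +kernel)

theorem NB23 : NB 23 :=
  chkB_spec (l := 139) (k := 6) (d := 69) (c3 := 138) (c9 := 1) (L := [1, 42, 43, 96, 97, 138])
      (L2 := [1, 42, 96]) (L4 := [1, 42, 96])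
    (by norm_num) (by norm_num) (by norm_num) (by decide +kernel) (by decide +kernel)
    (by decide +kernel) (by decide +kernel)

theorem NB29 : NB 29 :=
  chkB_spec (l := 233) (k := 8) (d := 58) (c3 := 144) (c9 := 232) (L := [1, 12, 89, 97, 136, 144,
      221, 232]) (L2 := [1, 89, 144, 232]) (L4 := [1, 232])
    (by norm_num) (by norm_num) (by norm_num) (by decide +kernel) (by decide +kernel)
    (by decide +kernel) (by decide +kernel)

theorem NB31 : NB 31 :=
  chkB_spec (l := 373) (k := 12) (d := 93) (c3 := 372) (c9 := 1) (L := [1, 69, 88, 89, 104, 173,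
      200, 269, 284, 285, 304, 372]) (L2 := [1, 88, 89, 284, 285, 372]) (L4 := [1, 88, 284])
    (by norm_num) (by norm_num) (by norm_num) (by decide +kernel) (by decide +kernel)
    (by decide +kernel) (by decide +kernel)

theorem NB37 : NB 37 :=
  chkB_spec (l := 149) (k := 4) (d := 37) (c3 := 44) (c9 := 148) (L := [1, 44, 105, 148]) (L2 :=
      [1, 148]) (L4 := [1])
    (by norm_num) (by norm_num) (by norm_num) (by decide +kernel) (by decide +kernel)
    (by decide +kernel) (by decide +kernel)

theorem NB41 : NB 41 :=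
  chkB_spec (l := 739) (k := 18) (d := 369) (c3 := 738) (c9 := 1) (L := [1, 15, 197, 225, 317,
      320, 321, 358, 366, 373, 381, 418, 419, 422, 514, 542, 724, 738]) (L2 := [1, 197, 225,
      317, 320, 373, 381, 418, 724]) (L4 := [1, 197, 225, 317, 320, 373, 381, 418, 724])
    (by norm_num) (by norm_num) (by norm_num) (by decide +kernel) (by decide +kernel)
    (by decide +kernel) (by decide +kernel)

theorem NB43 : NB 43 :=
  chkB_spec (l := 173) (k := 4) (d := 43) (c3 := 93) (c9 := 172) (L := [1, 80, 93, 172]) (L2 :=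
      [1, 172]) (L4 := [1])
    (by norm_num) (by norm_num) (by norm_num) (by decide +kernel) (by decide +kernel)
    (by decide +kernel) (by decide +kernel)

theorem NB47 : NB 47 :=
  chkB_spec (l := 283) (k := 6) (d := 141) (c3 := 282) (c9 := 1) (L := [1, 44, 45, 238, 239,
      282]) (L2 := [1, 44, 238]) (L4 := [1, 44, 238])
    (by norm_num) (by norm_num) (by norm_num) (by decide +kernel) (by decide +kernel)
    (by decide +kernel) (by decide +kernel)

theorem NB53 : NB 53 :=
  chkB_spec (l := 1061) (k := 20) (d := 265) (c3 := 103) (c9 := 1060) (L := [1, 14, 29, 103, 196,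
      220, 379, 381, 406, 439, 622, 655, 680, 682, 841, 865, 958, 1032, 1047, 1060]) (L2 := [1,
      196, 220, 381, 406, 655, 680, 841, 865, 1060]) (L4 := [1, 220, 381, 655, 865])
    (by norm_num) (by norm_num) (by norm_num) (by decide +kernel) (by decide +kernel)
    (by decide +kernel) (by decide +kernel)

theorem NB59 : NB 59 :=
  chkB_spec (l := 1063) (k := 18) (d := 531) (c3 := 1062) (c9 := 1) (L := [1, 7, 49, 152, 201,
      275, 282, 343, 344, 719, 720, 781, 788, 862, 911, 1014, 1056, 1062]) (L2 := [1, 7, 49,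
      152, 275, 343, 719, 781, 862]) (L4 := [1, 7, 49, 152, 275, 343, 719, 781, 862])
    (by norm_num) (by norm_num) (by norm_num) (by decide +kernel) (by decide +kernel)
    (by decide +kernel) (by decide +kernel)

theorem NB61 : NB 61 :=
  chkB_spec (l := 367) (k := 6) (d := 183) (c3 := 366) (c9 := 1) (L := [1, 83, 84, 283, 284,
      366]) (L2 := [1, 83, 283]) (L4 := [1, 83, 283])
    (by norm_num) (by norm_num) (by norm_num) (by decide +kernel) (by decide +kernel)
    (by decide +kernel) (by decide +kernel)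

theorem NB67 : NB 67 :=
  chkB_spec (l := 269) (k := 4) (d := 67) (c3 := 187) (c9 := 268) (L := [1, 82, 187, 268]) (L2 :=
      [1, 268]) (L4 := [1])
    (by norm_num) (by norm_num) (by norm_num) (by decide +kernel) (by decide +kernel)
    (by decide +kernel) (by decide +kernel)

theorem NB71 : NB 71 :=
  chkB_spec (l := 569) (k := 8) (d := 142) (c3 := 483) (c9 := 568) (L := [1, 76, 86, 277, 292,
      483, 493, 568]) (L2 := [1, 86, 483, 568]) (L4 := [1, 568])
    (by norm_num) (by norm_num) (by norm_num) (by decide +kernel) (by decide +kernel)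
    (by decide +kernel) (by decide +kernel)

theorem NB73 : NB 73 :=
  chkB_spec (l := 293) (k := 4) (d := 73) (c3 := 138) (c9 := 292) (L := [1, 138, 155, 292]) (L2
      := [1, 292]) (L4 := [1])
    (by norm_num) (by norm_num) (by norm_num) (by decide +kernel) (by decide +kernel)
    (by decide +kernel) (by decide +kernel)

theorem NB79 : NB 79 :=
  chkB_spec (l := 317) (k := 4) (d := 79) (c3 := 203) (c9 := 316) (L := [1, 114, 203, 316]) (L2
      := [1, 316]) (L4 := [1])
    (by norm_num) (by norm_num) (by norm_num) (by decide +kernel) (by decide +kernel)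
    (by decide +kernel) (by decide +kernel)

theorem NB83 : NB 83 :=
  chkB_spec (l := 499) (k := 6) (d := 249) (c3 := 498) (c9 := 1) (L := [1, 139, 140, 359, 360,
      498]) (L2 := [1, 139, 359]) (L4 := [1, 139, 359])
    (by norm_num) (by norm_num) (by norm_num) (by decide +kernel) (by decide +kernel)
    (by decide +kernel) (by decide +kernel)

theorem NB89 : NB 89 :=
  chkB_spec (l := 1069) (k := 12) (d := 267) (c3 := 1068) (c9 := 1) (L := [1, 34, 86, 87, 249,
      283, 786, 820, 982, 983, 1035, 1068]) (L2 := [1, 86, 87, 982, 983, 1068]) (L4 := [1, 86,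
      982])
    (by norm_num) (by norm_num) (by norm_num) (by decide +kernel) (by decide +kernel)
    (by decide +kernel) (by decide +kernel)

theorem NB97 : NB 97 :=
  chkB_spec (l := 389) (k := 4) (d := 97) (c3 := 274) (c9 := 388) (L := [1, 115, 274, 388]) (L2
      := [1, 388]) (L4 := [1])
    (by norm_num) (by norm_num) (by norm_num) (by decide +kernel) (by decide +kernel)
    (by decide +kernel) (by decide +kernel)

theorem NB101 : NB 101 :=
  chkB_spec (l := 607) (k := 6) (d := 303) (c3 := 606) (c9 := 1) (L := [1, 210, 211, 396, 397,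
      606]) (L2 := [1, 210, 396]) (L4 := [1, 210, 396])
    (by norm_num) (by norm_num) (by norm_num) (by decide +kernel) (by decide +kernel)
    (by decide +kernel) (by decide +kernel)

theorem NB103 : NB 103 :=
  chkB_spec (l := 619) (k := 6) (d := 309) (c3 := 618) (c9 := 1) (L := [1, 252, 253, 366, 367,
      618]) (L2 := [1, 252, 366]) (L4 := [1, 252, 366])
    (by norm_num) (by norm_num) (by norm_num) (by decide +kernel) (by decide +kernel)
    (by decide +kernel) (by decide +kernel)

theorem NB107 : NB 107 :=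
  chkB_spec (l := 643) (k := 6) (d := 321) (c3 := 642) (c9 := 1) (L := [1, 177, 178, 465, 466,
      642]) (L2 := [1, 177, 465]) (L4 := [1, 177, 465])
    (by norm_num) (by norm_num) (by norm_num) (by decide +kernel) (by decide +kernel)
    (by decide +kernel) (by decide +kernel)

theorem NB109 : NB 109 :=
  chkB_spec (l := 2617) (k := 24) (d := 654) (c3 := 2616) (c9 := 1) (L := [1, 99, 481, 513, 608,
      656, 667, 755, 1064, 1065, 1121, 1148, 1469, 1496, 1552, 1553, 1862, 1950, 1961, 2009,
      2104, 2136, 2518, 2616]) (L2 := [1, 481, 667, 1064, 1065, 1148, 1469, 1552, 1553, 1950,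
      2136, 2616]) (L4 := [1, 1064, 1065, 1552, 1553, 2616])
    (by norm_num) (by norm_num) (by norm_num) (by decide +kernel) (by decide +kernel)
    (by decide +kernel) (by decide +kernel)

theorem NB113 : NB 113 :=
  chkB_spec (l := 2713) (k := 24) (d := 678) (c3 := 2712) (c9 := 1) (L := [1, 60, 191, 531, 591,
      608, 696, 887, 1040, 1065, 1211, 1212, 1501, 1502, 1648, 1673, 1826, 2017, 2105, 2122,
      2182, 2522, 2653, 2712]) (L2 := [1, 191, 696, 887, 1211, 1212, 1501, 1502, 1826, 2017,
      2522, 2712]) (L4 := [1, 1211, 1212, 1501, 1502, 2712])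
    (by norm_num) (by norm_num) (by norm_num) (by decide +kernel) (by decide +kernel)
    (by decide +kernel) (by decide +kernel)

theorem NB127 : NB 127 :=
  chkB_spec (l := 509) (k := 4) (d := 127) (c3 := 301) (c9 := 508) (L := [1, 208, 301, 508]) (L2
      := [1, 508]) (L4 := [1])
    (by norm_num) (by norm_num) (by norm_num) (by decide +kernel) (by decide +kernel)
    (by decide +kernel) (by decide +kernel)

theorem NB131 : NB 131 :=
  chkB_spec (l := 787) (k := 6) (d := 393) (c3 := 786) (c9 := 1) (L := [1, 379, 380, 407, 408,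
      786]) (L2 := [1, 379, 407]) (L4 := [1, 379, 407])
    (by norm_num) (by norm_num) (by norm_num) (by decide +kernel) (by decide +kernel)
    (by decide +kernel) (by decide +kernel)

theorem NB137 : NB 137 :=
  chkB_spec (l := 823) (k := 6) (d := 411) (c3 := 822) (c9 := 1) (L := [1, 174, 175, 648, 649,
      822]) (L2 := [1, 174, 648]) (L4 := [1, 174, 648])
    (by norm_num) (by norm_num) (by norm_num) (by decide +kernel) (by decide +kernel)
    (by decide +kernel) (by decide +kernel)

theorem NB139 : NB 139 :=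
  chkB_spec (l := 557) (k := 4) (d := 139) (c3 := 439) (c9 := 556) (L := [1, 118, 439, 556]) (L2
      := [1, 556]) (L4 := [1])
    (by norm_num) (by norm_num) (by norm_num) (by decide +kernel) (by decide +kernel)
    (by decide +kernel) (by decide +kernel)

theorem NB149 : NB 149 :=
  chkB_spec (l := 1193) (k := 8) (d := 298) (c3 := 186) (c9 := 1192) (L := [1, 186, 362, 524,
      669, 831, 1007, 1192]) (L2 := [1, 186, 1007, 1192]) (L4 := [1, 1192])
    (by norm_num) (by norm_num) (by norm_num) (by decide +kernel) (by decide +kernel)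
    (by decide +kernel) (by decide +kernel)

theorem NB151 : NB 151 :=
  chkB_spec (l := 907) (k := 6) (d := 453) (c3 := 906) (c9 := 1) (L := [1, 384, 385, 522, 523,
      906]) (L2 := [1, 384, 522]) (L4 := [1, 384, 522])
    (by norm_num) (by norm_num) (by norm_num) (by decide +kernel) (by decide +kernel)
    (by decide +kernel) (by decide +kernel)

theorem NB157 : NB 157 :=
  chkB_spec (l := 4397) (k := 28) (d := 1099) (c3 := 3892) (c9 := 4396) (L := [1, 124, 222, 505,
      614, 917, 1062, 1146, 1312, 1387, 1400, 1674, 2117, 2185, 2212, 2280, 2723, 2997, 3010,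
      3085, 3251, 3335, 3480, 3783, 3892, 4175, 4273, 4396]) (L2 := [1, 917, 1062, 1146, 1387,
      2117, 2185, 2212, 2280, 3010, 3251, 3335, 3480, 4396]) (L4 := [1, 1062, 1146, 2212, 2280,
      3010, 3480])
    (by norm_num) (by norm_num) (by norm_num) (by decide +kernel) (by decide +kernel)
    (by decide +kernel) (by decide +kernel)

theorem NB163 : NB 163 :=
  chkB_spec (l := 653) (k := 4) (d := 163) (c3 := 504) (c9 := 652) (L := [1, 149, 504, 652]) (L2
      := [1, 652]) (L4 := [1])
    (by norm_num) (by norm_num) (by norm_num) (by decide +kernel) (by decide +kernel)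
    (by decide +kernel) (by decide +kernel)

theorem NB167 : NB 167 :=
  chkB_spec (l := 5011) (k := 30) (d := 2505) (c3 := 5010) (c9 := 1) (L := [1, 207, 273, 429,
      636, 1366, 1390, 1395, 1757, 1864, 1873, 2103, 2104, 2146, 2250, 2761, 2865, 2907, 2908,
      3138, 3147, 3254, 3616, 3621, 3645, 4375, 4582, 4738, 4804, 5010]) (L2 := [1, 207, 273,
      429, 1390, 1757, 1864, 1873, 2103, 2761, 2865, 2907, 3616, 3645, 4375]) (L4 := [1, 207,
      273, 429, 1390, 1757, 1864, 1873, 2103, 2761, 2865, 2907, 3616, 3645, 4375])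
    (by norm_num) (by norm_num) (by norm_num) (by decide +kernel) (by decide +kernel)
    (by decide +kernel) (by decide +kernel)

theorem NB173 : NB 173 :=
  chkB_spec (l := 1039) (k := 6) (d := 519) (c3 := 1038) (c9 := 1) (L := [1, 140, 141, 898, 899,
      1038]) (L2 := [1, 140, 898]) (L4 := [1, 140, 898])
    (by norm_num) (by norm_num) (by norm_num) (by decide +kernel) (by decide +kernel)
    (by decide +kernel) (by decide +kernel)

theorem NB179 : NB 179 :=
  chkB_spec (l := 1433) (k := 8) (d := 358) (c3 := 891) (c9 := 1432) (L := [1, 342, 507, 542,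
      891, 926, 1091, 1432]) (L2 := [1, 542, 891, 1432]) (L4 := [1, 1432])
    (by norm_num) (by norm_num) (by norm_num) (by decide +kernel) (by decide +kernel)
    (by decide +kernel) (by decide +kernel)

theorem NB181 : NB 181 :=
  chkB_spec (l := 1087) (k := 6) (d := 543) (c3 := 1086) (c9 := 1) (L := [1, 257, 258, 829, 830,
      1086]) (L2 := [1, 257, 829]) (L4 := [1, 257, 829])
    (by norm_num) (by norm_num) (by norm_num) (by decide +kernel) (by decide +kernel)
    (by decide +kernel) (by decide +kernel)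

theorem NB191 : NB 191 :=
  chkB_spec (l := 2293) (k := 12) (d := 573) (c3 := 2292) (c9 := 1) (L := [1, 113, 487, 600, 989,
      990, 1303, 1304, 1693, 1806, 2180, 2292]) (L2 := [1, 989, 990, 1303, 1304, 2292]) (L4 :=
      [1, 989, 1303])
    (by norm_num) (by norm_num) (by norm_num) (by decide +kernel) (by decide +kernel)
    (by decide +kernel) (by decide +kernel)

theorem NB193 : NB 193 :=
  chkB_spec (l := 773) (k := 4) (d := 193) (c3 := 317) (c9 := 772) (L := [1, 317, 456, 772]) (L2
      := [1, 772]) (L4 := [1])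
    (by norm_num) (by norm_num) (by norm_num) (by decide +kernel) (by decide +kernel)
    (by decide +kernel) (by decide +kernel)

theorem NB197 : NB 197 :=
  chkB_spec (l := 3547) (k := 18) (d := 1773) (c3 := 3546) (c9 := 1) (L := [1, 291, 447, 1162,
      1163, 1177, 1468, 1548, 1552, 1995, 1999, 2079, 2370, 2384, 2385, 3100, 3256, 3546]) (L2
      := [1, 291, 1162, 1177, 1995, 1999, 2079, 2384, 3100]) (L4 := [1, 291, 1162, 1177, 1995,
      1999, 2079, 2384, 3100])
    (by norm_num) (by norm_num) (by norm_num) (by decide +kernel) (by decide +kernel)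
    (by decide +kernel) (by decide +kernel)

theorem NB199 : NB 199 :=
  chkB_spec (l := 797) (k := 4) (d := 199) (c3 := 582) (c9 := 796) (L := [1, 215, 582, 796]) (L2
      := [1, 796]) (L4 := [1])
    (by norm_num) (by norm_num) (by norm_num) (by decide +kernel) (by decide +kernel)
    (by decide +kernel) (by decide +kernel)

theorem NB211 : NB 211 :=
  chkB_spec (l := 8863) (k := 42) (d := 4431) (c3 := 8862) (c9 := 1) (L := [1, 245, 329, 523,
      838, 949, 1224, 1461, 1462, 1885, 2016, 2062, 2067, 2396, 2408, 2860, 3425, 3670, 3861,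
      3987, 4053, 4810, 4876, 5002, 5193, 5438, 6003, 6455, 6467, 6796, 6801, 6847, 6978, 7401,
      7402, 7639, 7914, 8025, 8340, 8534, 8618, 8862]) (L2 := [1, 329, 523, 1461, 1885, 2062,
      2067, 3670, 4810, 4876, 5002, 5438, 6003, 6455, 6467, 6847, 7401, 7639, 7914, 8025,
      8618]) (L4 := [1, 329, 523, 1461, 1885, 2062, 2067, 3670, 4810, 4876, 5002, 5438, 6003,
      6455, 6467, 6847, 7401, 7639, 7914, 8025, 8618])
    (by norm_num) (by norm_num) (by norm_num) (by decide +kernel) (by decide +kernel)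
    (by decide +kernel) (by decide +kernel)

theorem NB223 : NB 223 :=
  chkB_spec (l := 6691) (k := 30) (d := 3345) (c3 := 6690) (c9 := 1) (L := [1, 662, 1310, 1321,
      1542, 1622, 1945, 1983, 2019, 2459, 2610, 2918, 2919, 3204, 3329, 3362, 3487, 3772, 3773,
      4081, 4232, 4672, 4708, 4746, 5069, 5149, 5370, 5381, 6029, 6690]) (L2 := [1, 662, 1321,
      1542, 1622, 1945, 2459, 2610, 2918, 3204, 3329, 3772, 4672, 4708, 5381]) (L4 := [1, 662,
      1321, 1542, 1622, 1945, 2459, 2610, 2918, 3204, 3329, 3772, 4672, 4708, 5381])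
    (by norm_num) (by norm_num) (by norm_num) (by decide +kernel) (by decide +kernel)
    (by decide +kernel) (by decide +kernel)

theorem NB227 : NB 227 :=
  chkB_spec (l := 12713) (k := 56) (d := 3178) (c3 := 4881) (c9 := 12712) (L := [1, 284, 285,
      487, 1048, 1248, 1249, 1532, 1535, 1856, 1961, 2448, 2522, 2846, 3698, 3983, 3984, 4320,
      4378, 4662, 4881, 4947, 4986, 5233, 5368, 5871, 6195, 6281, 6432, 6518, 6842, 7345, 7480,
      7727, 7766, 7832, 8051, 8335, 8393, 8729, 8730, 9015, 9867, 10191, 10265, 10752, 10857,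
      11178, 11181, 11464, 11465, 11665, 12226, 12428, 12429, 12712]) (L2 := [1, 284, 487,
      1535, 2522, 3698, 3984, 4320, 4378, 4881, 4947, 4986, 6195, 6281, 6432, 6518, 7727, 7766,
      7832, 8335, 8393, 8729, 9015, 10191, 11178, 12226, 12429, 12712]) (L4 := [1, 284, 2522,
      3984, 4320, 4378, 6281, 6432, 8335, 8393, 8729, 10191, 12429, 12712])
    (by norm_num) (by norm_num) (by norm_num) (by decide +kernel) (by decide +kernel)
    (by decide +kernel) (by decide +kernel)

theorem NB229 : NB 229 :=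
  chkB_spec (l := 2749) (k := 12) (d := 687) (c3 := 2748) (c9 := 1) (L := [1, 595, 596, 640, 671,
      1311, 1438, 2078, 2109, 2153, 2154, 2748]) (L2 := [1, 595, 596, 2153, 2154, 2748]) (L4 :=
      [1, 595, 2153])
    (by norm_num) (by norm_num) (by norm_num) (by decide +kernel) (by decide +kernel)
    (by decide +kernel) (by decide +kernel)

theorem NB233 : NB 233 :=
  chkB_spec (l := 1399) (k := 6) (d := 699) (c3 := 1398) (c9 := 1) (L := [1, 390, 391, 1008,
      1009, 1398]) (L2 := [1, 390, 1008]) (L4 := [1, 390, 1008])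
    (by norm_num) (by norm_num) (by norm_num) (by decide +kernel) (by decide +kernel)
    (by decide +kernel) (by decide +kernel)

theorem NB239 : NB 239 :=
  chkB_spec (l := 1913) (k := 8) (d := 478) (c3 := 712) (c9 := 1912) (L := [1, 305, 712, 922,
      991, 1201, 1608, 1912]) (L2 := [1, 712, 1201, 1912]) (L4 := [1, 1912])
    (by norm_num) (by norm_num) (by norm_num) (by decide +kernel) (by decide +kernel)
    (by decide +kernel) (by decide +kernel)

theorem NB241 : NB 241 :=
  chkB_spec (l := 1447) (k := 6) (d := 723) (c3 := 1446) (c9 := 1) (L := [1, 704, 705, 742, 743,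
      1446]) (L2 := [1, 704, 742]) (L4 := [1, 704, 742])
    (by norm_num) (by norm_num) (by norm_num) (by decide +kernel) (by decide +kernel)
    (by decide +kernel) (by decide +kernel)

theorem NB251 : NB 251 :=
  chkB_spec (l := 4519) (k := 18) (d := 2259) (c3 := 4518) (c9 := 1) (L := [1, 173, 862, 1056,
      1057, 1704, 1928, 1953, 2101, 2418, 2566, 2591, 2815, 3462, 3463, 3657, 4346, 4518]) (L2
      := [1, 173, 1056, 1928, 2418, 2566, 2815, 3462, 3657]) (L4 := [1, 173, 1056, 1928, 2418,
      2566, 2815, 3462, 3657])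
    (by norm_num) (by norm_num) (by norm_num) (by decide +kernel) (by decide +kernel)
    (by decide +kernel) (by decide +kernel)

theorem NB257 : NB 257 :=
  chkB_spec (l := 1543) (k := 6) (d := 771) (c3 := 1542) (c9 := 1) (L := [1, 681, 682, 861, 862,
      1542]) (L2 := [1, 681, 861]) (L4 := [1, 681, 861])
    (by norm_num) (by norm_num) (by norm_num) (by decide +kernel) (by decide +kernel)
    (by decide +kernel) (by decide +kernel)

theorem NB263 : NB 263 :=
  chkB_spec (l := 1579) (k := 6) (d := 789) (c3 := 1578) (c9 := 1) (L := [1, 639, 640, 939, 940,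
      1578]) (L2 := [1, 639, 939]) (L4 := [1, 639, 939])
    (by norm_num) (by norm_num) (by norm_num) (by decide +kernel) (by decide +kernel)
    (by decide +kernel) (by decide +kernel)

theorem NB269 : NB 269 :=
  chkB_spec (l := 2153) (k := 8) (d := 538) (c3 := 232) (c9 := 2152) (L := [1, 232, 246, 1059,
      1094, 1907, 1921, 2152]) (L2 := [1, 232, 1921, 2152]) (L4 := [1, 2152])
    (by norm_num) (by norm_num) (by norm_num) (by decide +kernel) (by decide +kernel)
    (by decide +kernel) (by decide +kernel)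

theorem NB271 : NB 271 :=
  chkB_spec (l := 1627) (k := 6) (d := 813) (c3 := 1626) (c9 := 1) (L := [1, 264, 265, 1362,
      1363, 1626]) (L2 := [1, 264, 1362]) (L4 := [1, 264, 1362])
    (by norm_num) (by norm_num) (by norm_num) (by decide +kernel) (by decide +kernel)
    (by decide +kernel) (by decide +kernel)

theorem NB277 : NB 277 :=
  chkB_spec (l := 1109) (k := 4) (d := 277) (c3 := 755) (c9 := 1108) (L := [1, 354, 755, 1108])
      (L2 := [1, 1108]) (L4 := [1])
    (by norm_num) (by norm_num) (by norm_num) (by decide +kernel) (by decide +kernel)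
    (by decide +kernel) (by decide +kernel)

theorem NB281 : NB 281 :=
  chkB_spec (l := 5059) (k := 18) (d := 2529) (c3 := 5058) (c9 := 1) (L := [1, 446, 1554, 1615,
      1773, 1890, 1912, 1913, 2219, 2840, 3146, 3147, 3169, 3286, 3444, 3505, 4613, 5058]) (L2
      := [1, 446, 1554, 1615, 1773, 1890, 1912, 2840, 3146]) (L4 := [1, 446, 1554, 1615, 1773,
      1890, 1912, 2840, 3146])
    (by norm_num) (by norm_num) (by norm_num) (by decide +kernel) (by decide +kernel)
    (by decide +kernel) (by decide +kernel)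

theorem NB283 : NB 283 :=
  chkB_spec (l := 1699) (k := 6) (d := 849) (c3 := 1698) (c9 := 1) (L := [1, 397, 398, 1301,
      1302, 1698]) (L2 := [1, 397, 1301]) (L4 := [1, 397, 1301])
    (by norm_num) (by norm_num) (by norm_num) (by decide +kernel) (by decide +kernel)
    (by decide +kernel) (by decide +kernel)

theorem NB293 : NB 293 :=
  chkB_spec (l := 1759) (k := 6) (d := 879) (c3 := 1758) (c9 := 1) (L := [1, 508, 509, 1250,
      1251, 1758]) (L2 := [1, 508, 1250]) (L4 := [1, 508, 1250])
    (by norm_num) (by norm_num) (by norm_num) (by decide +kernel) (by decide +kernel)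
    (by decide +kernel) (by decide +kernel)

theorem NB307 : NB 307 :=
  chkB_spec (l := 1229) (k := 4) (d := 307) (c3 := 597) (c9 := 1228) (L := [1, 597, 632, 1228])
      (L2 := [1, 1228]) (L4 := [1])
    (by norm_num) (by norm_num) (by norm_num) (by decide +kernel) (by decide +kernel)
    (by decide +kernel) (by decide +kernel)

theorem NB311 : NB 311 :=
  chkB_spec (l := 1867) (k := 6) (d := 933) (c3 := 1866) (c9 := 1) (L := [1, 834, 835, 1032,
      1033, 1866]) (L2 := [1, 834, 1032]) (L4 := [1, 834, 1032])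
    (by norm_num) (by norm_num) (by norm_num) (by decide +kernel) (by decide +kernel)
    (by decide +kernel) (by decide +kernel)

theorem NB313 : NB 313 :=
  chkB_spec (l := 1879) (k := 6) (d := 939) (c3 := 1878) (c9 := 1) (L := [1, 488, 489, 1390,
      1391, 1878]) (L2 := [1, 488, 1390]) (L4 := [1, 488, 1390])
    (by norm_num) (by norm_num) (by norm_num) (by decide +kernel) (by decide +kernel)
    (by decide +kernel) (by decide +kernel)

theorem NB317 : NB 317 :=
  chkB_spec (l := 9511) (k := 30) (d := 4755) (c3 := 9510) (c9 := 1) (L := [1, 68, 387, 455, 569,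
      648, 1420, 1450, 1989, 2098, 2217, 2407, 3490, 3491, 4624, 4887, 6020, 6021, 7104, 7294,
      7413, 7522, 8061, 8091, 8863, 8942, 9056, 9124, 9443, 9510]) (L2 := [1, 68, 387, 569,
      648, 1420, 1450, 3490, 4624, 6020, 7104, 7294, 7413, 7522, 9056]) (L4 := [1, 68, 387,
      569, 648, 1420, 1450, 3490, 4624, 6020, 7104, 7294, 7413, 7522, 9056])
    (by norm_num) (by norm_num) (by norm_num) (by decide +kernel) (by decide +kernel)
    (by decide +kernel) (by decide +kernel)

theorem NB331 : NB 331 :=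
  chkB_spec (l := 1987) (k := 6) (d := 993) (c3 := 1986) (c9 := 1) (L := [1, 647, 648, 1339,
      1340, 1986]) (L2 := [1, 647, 1339]) (L4 := [1, 647, 1339])
    (by norm_num) (by norm_num) (by norm_num) (by decide +kernel) (by decide +kernel)
    (by decide +kernel) (by decide +kernel)

theorem NB337 : NB 337 :=
  chkB_spec (l := 5393) (k := 16) (d := 1348) (c3 := 665) (c9 := 5392) (L := [1, 14, 196, 665,
      908, 1476, 1926, 2649, 2744, 3467, 3917, 4485, 4728, 5197, 5379, 5392]) (L2 := [1, 196,
      665, 908, 4485, 4728, 5197, 5392]) (L4 := [1, 665, 4728, 5392])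
    (by norm_num) (by norm_num) (by norm_num) (by decide +kernel) (by decide +kernel)
    (by decide +kernel) (by decide +kernel)

theorem NB347 : NB 347 :=
  chkB_spec (l := 2083) (k := 6) (d := 1041) (c3 := 2082) (c9 := 1) (L := [1, 449, 450, 1633,
      1634, 2082]) (L2 := [1, 449, 1633]) (L4 := [1, 449, 1633])
    (by norm_num) (by norm_num) (by norm_num) (by decide +kernel) (by decide +kernel)
    (by decide +kernel) (by decide +kernel)

theorem NB349 : NB 349 :=
  chkB_spec (l := 8377) (k := 24) (d := 2094) (c3 := 8376) (c9 := 1) (L := [1, 226, 290, 330,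
      556, 813, 814, 1214, 1476, 1504, 2077, 3553, 4824, 6300, 6873, 6901, 7163, 7563, 7564,
      7821, 8047, 8087, 8151, 8376]) (L2 := [1, 226, 330, 556, 813, 814, 7563, 7564, 7821,
      8047, 8151, 8376]) (L4 := [1, 813, 814, 7563, 7564, 8376])
    (by norm_num) (by norm_num) (by norm_num) (by decide +kernel) (by decide +kernel)
    (by decide +kernel) (by decide +kernel)

theorem NB353 : NB 353 :=
  chkB_spec (l := 14827) (k := 42) (d := 7413) (c3 := 14826) (c9 := 1) (L := [1, 66, 325, 1264,
      1456, 1688, 1836, 2560, 2668, 3554, 3620, 3824, 4356, 5167, 5538, 5783, 5863, 6623, 7134,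
      7135, 7208, 7619, 7692, 7693, 8204, 8964, 9044, 9289, 9660, 10471, 11003, 11207, 11273,
      12159, 12267, 12991, 13139, 13371, 13563, 14502, 14761, 14826]) (L2 := [1, 66, 1264,
      1456, 1836, 2560, 3554, 4356, 5167, 5783, 5863, 7134, 7208, 7692, 8204, 9289, 11003,
      11207, 12159, 13139, 14502]) (L4 := [1, 66, 1264, 1456, 1836, 2560, 3554, 4356, 5167,
      5783, 5863, 7134, 7208, 7692, 8204, 9289, 11003, 11207, 12159, 13139, 14502])
    (by norm_num) (by norm_num) (by norm_num) (by decide +kernel) (by decide +kernel)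
    (by decide +kernel) (by decide +kernel)

theorem NB359 : NB 359 :=
  chkB_spec (l := 10771) (k := 30) (d := 5385) (c3 := 10770) (c9 := 1) (L := [1, 240, 407, 741,
      1183, 3214, 3454, 3745, 3873, 3874, 4084, 4152, 4807, 5223, 5267, 5504, 5548, 5964, 6619,
      6687, 6897, 6898, 7026, 7317, 7557, 9588, 10030, 10364, 10531, 10770]) (L2 := [1, 407,
      1183, 3454, 3745, 3873, 4084, 5504, 5548, 5964, 6619, 6897, 7557, 10030, 10531]) (L4 :=
      [1, 407, 1183, 3454, 3745, 3873, 4084, 5504, 5548, 5964, 6619, 6897, 7557, 10030, 10531])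
    (by norm_num) (by norm_num) (by norm_num) (by decide +kernel) (by decide +kernel)
    (by decide +kernel) (by decide +kernel)

theorem NB367 : NB 367 :=
  chkB_spec (l := 2203) (k := 6) (d := 1101) (c3 := 2202) (c9 := 1) (L := [1, 285, 286, 1917,
      1918, 2202]) (L2 := [1, 285, 1917]) (L4 := [1, 285, 1917])
    (by norm_num) (by norm_num) (by norm_num) (by decide +kernel) (by decide +kernel)
    (by decide +kernel) (by decide +kernel)

theorem NB373 : NB 373 :=
  chkB_spec (l := 1493) (k := 4) (d := 373) (c3 := 1061) (c9 := 1492) (L := [1, 432, 1061, 1492])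
      (L2 := [1, 1492]) (L4 := [1])
    (by norm_num) (by norm_num) (by norm_num) (by decide +kernel) (by decide +kernel)
    (by decide +kernel) (by decide +kernel)

theorem NB379 : NB 379 :=
  chkB_spec (l := 4549) (k := 12) (d := 1137) (c3 := 4548) (c9 := 1) (L := [1, 273, 1260, 1533,
      1744, 1745, 2804, 2805, 3016, 3289, 4276, 4548]) (L2 := [1, 1744, 1745, 2804, 2805,
      4548]) (L4 := [1, 1744, 2804])
    (by norm_num) (by norm_num) (by norm_num) (by decide +kernel) (by decide +kernel)
    (by decide +kernel) (by decide +kernel)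

theorem NB383 : NB 383 :=
  chkB_spec (l := 4597) (k := 12) (d := 1149) (c3 := 4596) (c9 := 1) (L := [1, 287, 377, 378,
      1842, 2129, 2468, 2755, 4219, 4220, 4310, 4596]) (L2 := [1, 377, 378, 4219, 4220, 4596])
      (L4 := [1, 377, 4219])
    (by norm_num) (by norm_num) (by norm_num) (by decide +kernel) (by decide +kernel)
    (by decide +kernel) (by decide +kernel)

theorem NB389 : NB 389 :=
  chkB_spec (l := 16339) (k := 42) (d := 8169) (c3 := 16338) (c9 := 1) (L := [1, 247, 558, 765,
      923, 1323, 2056, 2301, 2364, 2979, 3518, 4296, 4347, 4665, 5169, 6823, 7113, 7114, 7454,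
      7701, 7814, 8525, 8638, 8885, 9225, 9226, 9516, 11170, 11674, 11992, 12043, 12821, 13360,
      13975, 14038, 14283, 15016, 15416, 15574, 15781, 16092, 16338]) (L2 := [1, 558, 765, 923,
      2056, 2301, 2364, 3518, 4296, 7113, 7701, 8525, 8885, 9225, 9516, 11170, 11674, 11992,
      13360, 15016, 16092]) (L4 := [1, 558, 765, 923, 2056, 2301, 2364, 3518, 4296, 7113, 7701,
      8525, 8885, 9225, 9516, 11170, 11674, 11992, 13360, 15016, 16092])
    (by norm_num) (by norm_num) (by norm_num) (by decide +kernel) (by decide +kernel)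
    (by decide +kernel) (by decide +kernel)

theorem NB397 : NB 397 :=
  chkB_spec (l := 2383) (k := 6) (d := 1191) (c3 := 2382) (c9 := 1) (L := [1, 1103, 1104, 1279,
      1280, 2382]) (L2 := [1, 1103, 1279]) (L4 := [1, 1103, 1279])
    (by norm_num) (by norm_num) (by norm_num) (by decide +kernel) (by decide +kernel)
    (by decide +kernel) (by decide +kernel)

theorem CkB1_0 : ∀ p ∈ [2, 3, 5, 7, 11, 13, 17, 19, 23, 29], NB p :=
  List.forall_mem_cons.2 ⟨NB2, List.forall_mem_cons.2 ⟨NB3, List.forall_mem_cons.2 ⟨NB5,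
    List.forall_mem_cons.2 ⟨NB7, List.forall_mem_cons.2 ⟨NB11, List.forall_mem_cons.2 ⟨NB13,
    List.forall_mem_cons.2 ⟨NB17, List.forall_mem_cons.2 ⟨NB19, List.forall_mem_cons.2 ⟨NB23,
    List.forall_mem_cons.2 ⟨NB29, List.forall_mem_nil _⟩⟩⟩⟩⟩⟩⟩⟩⟩⟩

theorem CkB1_1 : ∀ p ∈ [31, 37, 41, 43, 47, 53, 59, 61, 67, 71], NB p :=
  List.forall_mem_cons.2 ⟨NB31, List.forall_mem_cons.2 ⟨NB37, List.forall_mem_cons.2 ⟨NB41,
    List.forall_mem_cons.2 ⟨NB43, List.forall_mem_cons.2 ⟨NB47, List.forall_mem_cons.2 ⟨NB53,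
    List.forall_mem_cons.2 ⟨NB59, List.forall_mem_cons.2 ⟨NB61, List.forall_mem_cons.2 ⟨NB67,
    List.forall_mem_cons.2 ⟨NB71, List.forall_mem_nil _⟩⟩⟩⟩⟩⟩⟩⟩⟩⟩

theorem CkB1_2 : ∀ p ∈ [73, 79, 83, 89, 97, 101, 103, 107, 109, 113], NB p :=
  List.forall_mem_cons.2 ⟨NB73, List.forall_mem_cons.2 ⟨NB79, List.forall_mem_cons.2 ⟨NB83,
    List.forall_mem_cons.2 ⟨NB89, List.forall_mem_cons.2 ⟨NB97, List.forall_mem_cons.2 ⟨NB101,
    List.forall_mem_cons.2 ⟨NB103, List.forall_mem_cons.2 ⟨NB107, List.forall_mem_cons.2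
    ⟨NB109, List.forall_mem_cons.2 ⟨NB113, List.forall_mem_nil _⟩⟩⟩⟩⟩⟩⟩⟩⟩⟩

theorem CkB1_3 : ∀ p ∈ [127, 131, 137, 139, 149, 151, 157, 163, 167, 173], NB p :=
  List.forall_mem_cons.2 ⟨NB127, List.forall_mem_cons.2 ⟨NB131, List.forall_mem_cons.2 ⟨NB137,
    List.forall_mem_cons.2 ⟨NB139, List.forall_mem_cons.2 ⟨NB149, List.forall_mem_cons.2
    ⟨NB151, List.forall_mem_cons.2 ⟨NB157, List.forall_mem_cons.2 ⟨NB163,
    List.forall_mem_cons.2 ⟨NB167, List.forall_mem_cons.2 ⟨NB173, List.forall_mem_nil
    _⟩⟩⟩⟩⟩⟩⟩⟩⟩⟩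

theorem CkB1_4 : ∀ p ∈ [179, 181, 191, 193, 197, 199, 211, 223, 227, 229], NB p :=
  List.forall_mem_cons.2 ⟨NB179, List.forall_mem_cons.2 ⟨NB181, List.forall_mem_cons.2 ⟨NB191,
    List.forall_mem_cons.2 ⟨NB193, List.forall_mem_cons.2 ⟨NB197, List.forall_mem_cons.2
    ⟨NB199, List.forall_mem_cons.2 ⟨NB211, List.forall_mem_cons.2 ⟨NB223,
    List.forall_mem_cons.2 ⟨NB227, List.forall_mem_cons.2 ⟨NB229, List.forall_mem_nil
    _⟩⟩⟩⟩⟩⟩⟩⟩⟩⟩

theorem CkB1_5 : ∀ p ∈ [233, 239, 241, 251, 257, 263, 269, 271, 277, 281], NB p :=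
  List.forall_mem_cons.2 ⟨NB233, List.forall_mem_cons.2 ⟨NB239, List.forall_mem_cons.2 ⟨NB241,
    List.forall_mem_cons.2 ⟨NB251, List.forall_mem_cons.2 ⟨NB257, List.forall_mem_cons.2
    ⟨NB263, List.forall_mem_cons.2 ⟨NB269, List.forall_mem_cons.2 ⟨NB271,
    List.forall_mem_cons.2 ⟨NB277, List.forall_mem_cons.2 ⟨NB281, List.forall_mem_nil
    _⟩⟩⟩⟩⟩⟩⟩⟩⟩⟩

theorem CkB1_6 : ∀ p ∈ [283, 293, 307, 311, 313, 317, 331, 337, 347, 349], NB p :=
  List.forall_mem_cons.2 ⟨NB283, List.forall_mem_cons.2 ⟨NB293, List.forall_mem_cons.2 ⟨NB307,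
    List.forall_mem_cons.2 ⟨NB311, List.forall_mem_cons.2 ⟨NB313, List.forall_mem_cons.2
    ⟨NB317, List.forall_mem_cons.2 ⟨NB331, List.forall_mem_cons.2 ⟨NB337,
    List.forall_mem_cons.2 ⟨NB347, List.forall_mem_cons.2 ⟨NB349, List.forall_mem_nil
    _⟩⟩⟩⟩⟩⟩⟩⟩⟩⟩

theorem CkB1_7 : ∀ p ∈ [353, 359, 367, 373, 379, 383, 389, 397], NB p :=
  List.forall_mem_cons.2 ⟨NB353, List.forall_mem_cons.2 ⟨NB359, List.forall_mem_cons.2 ⟨NB367,
    List.forall_mem_cons.2 ⟨NB373, List.forall_mem_cons.2 ⟨NB379, List.forall_mem_cons.2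
    ⟨NB383, List.forall_mem_cons.2 ⟨NB389, List.forall_mem_cons.2 ⟨NB397, List.forall_mem_nil
    _⟩⟩⟩⟩⟩⟩⟩⟩

end GF2
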