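import Pool.Agent.H.MP_81d9be_nt.Loc

/-!
# MP_81d9be_nt: the second family, table 2
-/

set_option autoImplicit false

namespace GF2

theorem NB401 : NB 401 :=
  chkB_spec (l := 3209) (k := 8) (d := 802) (c3 := 484) (c9 := 3208) (L := [1, 22, 484, 1021,
      2188, 2725, 3187, 3208]) (L2 := [1, 484, 2725, 3208]) (L4 := [1, 3208])
    (by norm_num) (by norm_num) (by norm_num) (by decide +kernel) (by decide +kernel)
    (by decide +kernel) (by decide +kernel)

theorem NB409 : NB 409 :=
  chkB_spec (l := 1637) (k := 4) (d := 409) (c3 := 316) (c9 := 1636) (L := [1, 316, 1321, 1636])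
      (L2 := [1, 1636]) (L4 := [1])
    (by norm_num) (by norm_num) (by norm_num) (by decide +kernel) (by decide +kernel)
    (by decide +kernel) (by decide +kernel)

theorem NB419 : NB 419 :=
  chkB_spec (l := 20113) (k := 48) (d := 5028) (c3 := 20112) (c9 := 1) (L := [1, 11, 121, 136,
      147, 875, 1106, 1331, 1496, 1617, 1655, 1678, 1908, 1929, 1981, 2326, 3657, 3837, 5310,
      5472, 5473, 6965, 7947, 9625, 10488, 12166, 13148, 14640, 14641, 14803, 16276, 16456,
      17787, 18132, 18184, 18205, 18435, 18458, 18496, 18617, 18782, 19007, 19238, 19966,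
      19977, 19992, 20102, 20112]) (L2 := [1, 11, 121, 136, 147, 1331, 1496, 1617, 2326, 3657,
      5472, 5473, 14640, 14641, 16456, 17787, 18496, 18617, 18782, 19966, 19977, 19992, 20102,
      20112]) (L4 := [1, 121, 1496, 1617, 5472, 5473, 14640, 14641, 18496, 18617, 19992,
      20112])
    (by norm_num) (by norm_num) (by norm_num) (by decide +kernel) (by decide +kernel)
    (by decide +kernel) (by decide +kernel)

theorem NB421 : NB 421 :=
  chkB_spec (l := 6737) (k := 16) (d := 1684) (c3 := 4344) (c9 := 6736) (L := [1, 875, 1332,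
      1480, 1496, 2022, 2393, 2581, 4156, 4344, 4715, 5241, 5257, 5405, 5862, 6736]) (L2 := [1,
      875, 1332, 2393, 4344, 5405, 5862, 6736]) (L4 := [1, 2393, 4344, 6736])
    (by norm_num) (by norm_num) (by norm_num) (by decide +kernel) (by decide +kernel)
    (by decide +kernel) (by decide +kernel)

theorem NB431 : NB 431 :=
  chkB_spec (l := 3449) (k := 8) (d := 862) (c3 := 1122) (c9 := 3448) (L := [1, 76, 953, 1122,
      2327, 2496, 3373, 3448]) (L2 := [1, 1122, 2327, 3448]) (L4 := [1, 3448])
    (by norm_num) (by norm_num) (by norm_num) (by decide +kernel) (by decide +kernel)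
    (by decide +kernel) (by decide +kernel)

theorem NB433 : NB 433 :=
  chkB_spec (l := 1733) (k := 4) (d := 433) (c3 := 410) (c9 := 1732) (L := [1, 410, 1323, 1732])
      (L2 := [1, 1732]) (L4 := [1])
    (by norm_num) (by norm_num) (by norm_num) (by decide +kernel) (by decide +kernel)
    (by decide +kernel) (by decide +kernel)

theorem NB439 : NB 439 :=
  chkB_spec (l := 13171) (k := 30) (d := 6585) (c3 := 13170) (c9 := 1) (L := [1, 416, 584, 891,
      1284, 1390, 1833, 1868, 2281, 3621, 4037, 4842, 5866, 5867, 6496, 6675, 7304, 7305, 8329,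
      9134, 9550, 10890, 11303, 11338, 11781, 11887, 12280, 12587, 12755, 13170]) (L2 := [1,
      416, 584, 1284, 1833, 2281, 3621, 4842, 5866, 6496, 7304, 9134, 11303, 11781, 12280]) (L4
      := [1, 416, 584, 1284, 1833, 2281, 3621, 4842, 5866, 6496, 7304, 9134, 11303, 11781,
      12280])
    (by norm_num) (by norm_num) (by norm_num) (by decide +kernel) (by decide +kernel)
    (by decide +kernel) (by decide +kernel)

theorem NB443 : NB 443 :=
  chkB_spec (l := 2659) (k := 6) (d := 1329) (c3 := 2658) (c9 := 1) (L := [1, 903, 904, 1755,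
      1756, 2658]) (L2 := [1, 903, 1755]) (L4 := [1, 903, 1755])
    (by norm_num) (by norm_num) (by norm_num) (by decide +kernel) (by decide +kernel)
    (by decide +kernel) (by decide +kernel)

theorem NB449 : NB 449 :=
  chkB_spec (l := 3593) (k := 8) (d := 898) (c3 := 1153) (c9 := 3592) (L := [1, 799, 1153, 1439,
      2154, 2440, 2794, 3592]) (L2 := [1, 1153, 2440, 3592]) (L4 := [1, 3592])
    (by norm_num) (by norm_num) (by norm_num) (by decide +kernel) (by decide +kernel)
    (by decide +kernel) (by decide +kernel)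

theorem NB457 : NB 457 :=
  chkB_spec (l := 13711) (k := 30) (d := 6855) (c3 := 13710) (c9 := 1) (L := [1, 702, 792, 1060,
      1394, 2186, 2425, 3127, 3148, 3149, 3442, 3726, 5107, 6167, 6543, 7168, 7544, 8604, 9985,
      10269, 10562, 10563, 10584, 11286, 11525, 12317, 12651, 12919, 13009, 13710]) (L2 := [1,
      1060, 2186, 3127, 3148, 5107, 7168, 7544, 9985, 10269, 10562, 11286, 12317, 12919,
      13009]) (L4 := [1, 1060, 2186, 3127, 3148, 5107, 7168, 7544, 9985, 10269, 10562, 11286,
      12317, 12919, 13009])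
    (by norm_num) (by norm_num) (by norm_num) (by decide +kernel) (by decide +kernel)
    (by decide +kernel) (by decide +kernel)

theorem NB461 : NB 461 :=
  chkB_spec (l := 2767) (k := 6) (d := 1383) (c3 := 2766) (c9 := 1) (L := [1, 328, 329, 2438,
      2439, 2766]) (L2 := [1, 328, 2438]) (L4 := [1, 328, 2438])
    (by norm_num) (by norm_num) (by norm_num) (by decide +kernel) (by decide +kernel)
    (by decide +kernel) (by decide +kernel)

theorem NB463 : NB 463 :=
  chkB_spec (l := 18521) (k := 40) (d := 4630) (c3 := 14844) (c9 := 18520) (L := [1, 70, 1904,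
      2029, 3019, 3330, 3595, 3633, 3677, 4900, 4984, 5179, 6138, 6666, 6784, 7599, 7644, 7673,
      7890, 8899, 9622, 10631, 10848, 10877, 10922, 11737, 11855, 12383, 13342, 13537, 13621,
      14844, 14888, 14926, 15191, 15502, 16492, 16617, 18451, 18520]) (L2 := [1, 2029, 3019,
      3330, 3595, 3633, 3677, 4900, 5179, 6784, 11737, 13342, 13621, 14844, 14888, 14926,
      15191, 15502, 16492, 18520]) (L4 := [1, 2029, 3633, 5179, 6784, 11737, 13342, 14888,
      16492, 18520])
    (by norm_num) (by norm_num) (by norm_num) (by decide +kernel) (by decide +kernel)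
    (by decide +kernel) (by decide +kernel)

theorem NB467 : NB 467 :=
  chkB_spec (l := 2803) (k := 6) (d := 1401) (c3 := 2802) (c9 := 1) (L := [1, 413, 414, 2389,
      2390, 2802]) (L2 := [1, 413, 2389]) (L4 := [1, 413, 2389])
    (by norm_num) (by norm_num) (by norm_num) (by decide +kernel) (by decide +kernel)
    (by decide +kernel) (by decide +kernel)

theorem NB479 : NB 479 :=
  chkB_spec (l := 3833) (k := 8) (d := 958) (c3 := 361) (c9 := 3832) (L := [1, 19, 361, 807,
      3026, 3472, 3814, 3832]) (L2 := [1, 361, 3472, 3832]) (L4 := [1, 3832])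
    (by norm_num) (by norm_num) (by norm_num) (by decide +kernel) (by decide +kernel)
    (by decide +kernel) (by decide +kernel)

theorem NB487 : NB 487 :=
  chkB_spec (l := 1949) (k := 4) (d := 487) (c3 := 1360) (c9 := 1948) (L := [1, 589, 1360, 1948])
      (L2 := [1, 1948]) (L4 := [1])
    (by norm_num) (by norm_num) (by norm_num) (by decide +kernel) (by decide +kernel)
    (by decide +kernel) (by decide +kernel)

theorem NB491 : NB 491 :=
  chkB_spec (l := 3929) (k := 8) (d := 982) (c3 := 226) (c9 := 3928) (L := [1, 226, 1643, 1937,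
      1992, 2286, 3703, 3928]) (L2 := [1, 226, 3703, 3928]) (L4 := [1, 3928])
    (by norm_num) (by norm_num) (by norm_num) (by decide +kernel) (by decide +kernel)
    (by decide +kernel) (by decide +kernel)

theorem NB499 : NB 499 :=
  chkB_spec (l := 1997) (k := 4) (d := 499) (c3 := 412) (c9 := 1996) (L := [1, 412, 1585, 1996])
      (L2 := [1, 1996]) (L4 := [1])
    (by norm_num) (by norm_num) (by norm_num) (by decide +kernel) (by decide +kernel)
    (by decide +kernel) (by decide +kernel)

theorem NB503 : NB 503 :=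
  chkB_spec (l := 3019) (k := 6) (d := 1509) (c3 := 3018) (c9 := 1) (L := [1, 239, 240, 2779,
      2780, 3018]) (L2 := [1, 239, 2779]) (L4 := [1, 239, 2779])
    (by norm_num) (by norm_num) (by norm_num) (by decide +kernel) (by decide +kernel)
    (by decide +kernel) (by decide +kernel)

theorem NB509 : NB 509 :=
  chkB_spec (l := 4073) (k := 8) (d := 1018) (c3 := 549) (c9 := 4072) (L := [1, 514, 549, 1149,
      2924, 3524, 3559, 4072]) (L2 := [1, 549, 3524, 4072]) (L4 := [1, 4072])
    (by norm_num) (by norm_num) (by norm_num) (by decide +kernel) (by decide +kernel)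
    (by decide +kernel) (by decide +kernel)

theorem NB521 : NB 521 :=
  chkB_spec (l := 16673) (k := 32) (d := 4168) (c3 := 1954) (c9 := 16672) (L := [1, 310, 604,
      1504, 1954, 1990, 3567, 3651, 3837, 3938, 4368, 5352, 5512, 5687, 8074, 8180, 8493, 8599,
      10986, 11161, 11321, 12305, 12735, 12836, 13022, 13106, 14683, 14719, 15169, 16069,
      16363, 16672]) (L2 := [1, 310, 1954, 1990, 3651, 3938, 5512, 8074, 8599, 11161, 12735,
      13022, 14683, 14719, 16363, 16672]) (L4 := [1, 1954, 3938, 8074, 8599, 12735, 14719,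
      16672])
    (by norm_num) (by norm_num) (by norm_num) (by decide +kernel) (by decide +kernel)
    (by decide +kernel) (by decide +kernel)

theorem NB523 : NB 523 :=
  chkB_spec (l := 6277) (k := 12) (d := 1569) (c3 := 6276) (c9 := 1) (L := [1, 63, 1033, 1096,
      2308, 2309, 3968, 3969, 5181, 5244, 6214, 6276]) (L2 := [1, 2308, 2309, 3968, 3969,
      6276]) (L4 := [1, 2308, 3968])
    (by norm_num) (by norm_num) (by norm_num) (by decide +kernel) (by decide +kernel)
    (by decide +kernel) (by decide +kernel)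

theorem NB541 : NB 541 :=
  chkB_spec (l := 9739) (k := 18) (d := 4869) (c3 := 9738) (c9 := 1) (L := [1, 94, 903, 2516,
      2667, 2761, 2768, 2769, 3419, 6320, 6970, 6971, 6978, 7072, 7223, 8836, 9645, 9738]) (L2
      := [1, 2761, 2768, 3419, 6970, 7072, 7223, 8836, 9645]) (L4 := [1, 2761, 2768, 3419,
      6970, 7072, 7223, 8836, 9645])
    (by norm_num) (by norm_num) (by norm_num) (by decide +kernel) (by decide +kernel)
    (by decide +kernel) (by decide +kernel)

theorem NB547 : NB 547 :=
  chkB_spec (l := 8753) (k := 16) (d := 2188) (c3 := 2569) (c9 := 8752) (L := [1, 573, 1533,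
      2569, 3109, 4155, 4285, 4288, 4465, 4468, 4598, 5644, 6184, 7220, 8180, 8752]) (L2 := [1,
      2569, 3109, 4285, 4468, 5644, 6184, 8752]) (L4 := [1, 2569, 6184, 8752])
    (by norm_num) (by norm_num) (by norm_num) (by decide +kernel) (by decide +kernel)
    (by decide +kernel) (by decide +kernel)

theorem NB557 : NB 557 :=
  chkB_spec (l := 3343) (k := 6) (d := 1671) (c3 := 3342) (c9 := 1) (L := [1, 1424, 1425, 1918,
      1919, 3342]) (L2 := [1, 1424, 1918]) (L4 := [1, 1424, 1918])
    (by norm_num) (by norm_num) (by norm_num) (by decide +kernel) (by decide +kernel)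
    (by decide +kernel) (by decide +kernel)

theorem NB563 : NB 563 :=
  chkB_spec (l := 11261) (k := 20) (d := 2815) (c3 := 2231) (c9 := 11260) (L := [1, 235, 374,
      1080, 1476, 2198, 2231, 4744, 4982, 5203, 6058, 6279, 6517, 9030, 9063, 9785, 10181,
      10887, 11026, 11260]) (L2 := [1, 235, 1080, 4744, 5203, 6058, 6517, 10181, 11026, 11260])
      (L4 := [1, 6058, 6517, 10181, 11026])
    (by norm_num) (by norm_num) (by norm_num) (by decide +kernel) (by decide +kernel)
    (by decide +kernel) (by decide +kernel)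

theorem NB569 : NB 569 :=
  chkB_spec (l := 6829) (k := 12) (d := 1707) (c3 := 6828) (c9 := 1) (L := [1, 734, 735, 1528,
      1596, 3124, 3705, 5233, 5301, 6094, 6095, 6828]) (L2 := [1, 734, 735, 6094, 6095, 6828])
      (L4 := [1, 734, 6094])
    (by norm_num) (by norm_num) (by norm_num) (by decide +kernel) (by decide +kernel)
    (by decide +kernel) (by decide +kernel)

theorem NB571 : NB 571 :=
  chkB_spec (l := 9137) (k := 16) (d := 2284) (c3 := 7851) (c9 := 9136) (L := [1, 531, 720, 1286,
      1434, 1550, 2409, 3083, 6054, 6728, 7587, 7703, 7851, 8417, 8606, 9136]) (L2 := [1, 531,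
      1286, 2409, 6728, 7851, 8606, 9136]) (L4 := [1, 1286, 7851, 9136])
    (by norm_num) (by norm_num) (by norm_num) (by decide +kernel) (by decide +kernel)
    (by decide +kernel) (by decide +kernel)

theorem NB577 : NB 577 :=
  chkB_spec (l := 2309) (k := 4) (d := 577) (c3 := 1621) (c9 := 2308) (L := [1, 688, 1621, 2308])
      (L2 := [1, 2308]) (L4 := [1])
    (by norm_num) (by norm_num) (by norm_num) (by decide +kernel) (by decide +kernel)
    (by decide +kernel) (by decide +kernel)

theorem NB587 : NB 587 :=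
  chkB_spec (l := 10567) (k := 18) (d := 5283) (c3 := 10566) (c9 := 1) (L := [1, 1185, 1186,
      1323, 3044, 3730, 3793, 3839, 5162, 5405, 6728, 6774, 6837, 7523, 9244, 9381, 9382,
      10566]) (L2 := [1, 1185, 5162, 6728, 6774, 6837, 7523, 9244, 9381]) (L4 := [1, 1185,
      5162, 6728, 6774, 6837, 7523, 9244, 9381])
    (by norm_num) (by norm_num) (by norm_num) (by decide +kernel) (by decide +kernel)
    (by decide +kernel) (by decide +kernel)

theorem NB593 : NB 593 :=
  chkB_spec (l := 3559) (k := 6) (d := 1779) (c3 := 3558) (c9 := 1) (L := [1, 1435, 1436, 2123,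
      2124, 3558]) (L2 := [1, 1435, 2123]) (L4 := [1, 1435, 2123])
    (by norm_num) (by norm_num) (by norm_num) (by decide +kernel) (by decide +kernel)
    (by decide +kernel) (by decide +kernel)

theorem NB599 : NB 599 :=
  chkB_spec (l := 4793) (k := 8) (d := 1198) (c3 := 1480) (c9 := 4792) (L := [1, 192, 1373, 1480,
      3313, 3420, 4601, 4792]) (L2 := [1, 1480, 3313, 4792]) (L4 := [1, 4792])
    (by norm_num) (by norm_num) (by norm_num) (by decide +kernel) (by decide +kernel)
    (by decide +kernel) (by decide +kernel)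

theorem NB601 : NB 601 :=
  chkB_spec (l := 3607) (k := 6) (d := 1803) (c3 := 3606) (c9 := 1) (L := [1, 1399, 1400, 2207,
      2208, 3606]) (L2 := [1, 1399, 2207]) (L4 := [1, 1399, 2207])
    (by norm_num) (by norm_num) (by norm_num) (by decide +kernel) (by decide +kernel)
    (by decide +kernel) (by decide +kernel)

theorem NB607 : NB 607 :=
  chkB_spec (l := 3643) (k := 6) (d := 1821) (c3 := 3642) (c9 := 1) (L := [1, 422, 423, 3220,
      3221, 3642]) (L2 := [1, 422, 3220]) (L4 := [1, 422, 3220])
    (by norm_num) (by norm_num) (by norm_num) (by decide +kernel) (by decide +kernel)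
    (by decide +kernel) (by decide +kernel)

theorem NB613 : NB 613 :=
  chkB_spec (l := 14713) (k := 24) (d := 3678) (c3 := 14712) (c9 := 1) (L := [1, 757, 758, 1383,
      2308, 2752, 3230, 3691, 4400, 4651, 5662, 5982, 8731, 9051, 10062, 10313, 11022, 11483,
      11961, 12405, 13330, 13955, 13956, 14712]) (L2 := [1, 757, 758, 1383, 2308, 3691, 11022,
      12405, 13330, 13955, 13956, 14712]) (L4 := [1, 757, 758, 13955, 13956, 14712])
    (by norm_num) (by norm_num) (by norm_num) (by decide +kernel) (by decide +kernel)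
    (by decide +kernel) (by decide +kernel)

theorem NB617 : NB 617 :=
  chkB_spec (l := 4937) (k := 8) (d := 1234) (c3 := 4088) (c9 := 4936) (L := [1, 95, 849, 1663,
      3274, 4088, 4842, 4936]) (L2 := [1, 849, 4088, 4936]) (L4 := [1, 4936])
    (by norm_num) (by norm_num) (by norm_num) (by decide +kernel) (by decide +kernel)
    (by decide +kernel) (by decide +kernel)

theorem NB619 : NB 619 :=
  chkB_spec (l := 2477) (k := 4) (d := 619) (c3 := 915) (c9 := 2476) (L := [1, 915, 1562, 2476])
      (L2 := [1, 2476]) (L4 := [1])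
    (by norm_num) (by norm_num) (by norm_num) (by decide +kernel) (by decide +kernel)
    (by decide +kernel) (by decide +kernel)

theorem NB631 : NB 631 :=
  chkB_spec (l := 17669) (k := 28) (d := 4417) (c3 := 3283) (c9 := 17668) (L := [1, 348, 1465,
      2579, 2581, 2931, 3283, 3406, 3627, 4814, 6001, 7132, 7697, 8276, 9393, 9972, 10537,
      11668, 12855, 14042, 14263, 14386, 14738, 15088, 15090, 16204, 17321, 17668]) (L2 := [1,
      348, 2579, 3627, 7132, 7697, 8276, 9393, 9972, 10537, 14042, 15090, 17321, 17668]) (L4 :=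
      [1, 7132, 7697, 9393, 14042, 15090, 17321])
    (by norm_num) (by norm_num) (by norm_num) (by decide +kernel) (by decide +kernel)
    (by decide +kernel) (by decide +kernel)

theorem NB641 : NB 641 :=
  chkB_spec (l := 3847) (k := 6) (d := 1923) (c3 := 3846) (c9 := 1) (L := [1, 1892, 1893, 1954,
      1955, 3846]) (L2 := [1, 1892, 1954]) (L4 := [1, 1892, 1954])
    (by norm_num) (by norm_num) (by norm_num) (by decide +kernel) (by decide +kernel)
    (by decide +kernel) (by decide +kernel)

theorem NB643 : NB 643 :=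
  chkB_spec (l := 10289) (k := 16) (d := 2572) (c3 := 5453) (c9 := 10288) (L := [1, 83, 117, 578,
      3400, 3471, 4397, 4836, 5453, 5892, 6818, 6889, 9711, 10172, 10206, 10288]) (L2 := [1,
      578, 3400, 4836, 5453, 6889, 9711, 10288]) (L4 := [1, 4836, 5453, 10288])
    (by norm_num) (by norm_num) (by norm_num) (by decide +kernel) (by decide +kernel)
    (by decide +kernel) (by decide +kernel)

theorem NB647 : NB 647 :=
  chkB_spec (l := 12941) (k := 20) (d := 3235) (c3 := 2235) (c9 := 12940) (L := [1, 560, 605,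
      1267, 1501, 2235, 2334, 3016, 3677, 6311, 6630, 9264, 9925, 10607, 10706, 11440, 11674,
      12336, 12381, 12940]) (L2 := [1, 605, 1267, 3016, 3677, 9264, 9925, 11674, 12336, 12940])
      (L4 := [1, 605, 3677, 9925, 11674])
    (by norm_num) (by norm_num) (by norm_num) (by decide +kernel) (by decide +kernel)
    (by decide +kernel) (by decide +kernel)

theorem NB653 : NB 653 :=
  chkB_spec (l := 3919) (k := 6) (d := 1959) (c3 := 3918) (c9 := 1) (L := [1, 1169, 1170, 2749,
      2750, 3918]) (L2 := [1, 1169, 2749]) (L4 := [1, 1169, 2749])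
    (by norm_num) (by norm_num) (by norm_num) (by decide +kernel) (by decide +kernel)
    (by decide +kernel) (by decide +kernel)

theorem NB659 : NB 659 :=
  chkB_spec (l := 5273) (k := 8) (d := 1318) (c3 := 944) (c9 := 5272) (L := [1, 944, 1539, 2532,
      2741, 3734, 4329, 5272]) (L2 := [1, 944, 4329, 5272]) (L4 := [1, 5272])
    (by norm_num) (by norm_num) (by norm_num) (by decide +kernel) (by decide +kernel)
    (by decide +kernel) (by decide +kernel)

theorem NB661 : NB 661 :=
  chkB_spec (l := 3967) (k := 6) (d := 1983) (c3 := 3966) (c9 := 1) (L := [1, 888, 889, 3078,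
      3079, 3966]) (L2 := [1, 888, 3078]) (L4 := [1, 888, 3078])
    (by norm_num) (by norm_num) (by norm_num) (by decide +kernel) (by decide +kernel)
    (by decide +kernel) (by decide +kernel)

theorem NB673 : NB 673 :=
  chkB_spec (l := 2693) (k := 4) (d := 673) (c3 := 859) (c9 := 2692) (L := [1, 859, 1834, 2692])
      (L2 := [1, 2692]) (L4 := [1])
    (by norm_num) (by norm_num) (by norm_num) (by decide +kernel) (by decide +kernel)
    (by decide +kernel) (by decide +kernel)

theorem NB677 : NB 677 :=
  chkB_spec (l := 5417) (k := 8) (d := 1354) (c3 := 5049) (c9 := 5416) (L := [1, 368, 979, 2667,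
      2750, 4438, 5049, 5416]) (L2 := [1, 368, 5049, 5416]) (L4 := [1, 5416])
    (by norm_num) (by norm_num) (by norm_num) (by decide +kernel) (by decide +kernel)
    (by decide +kernel) (by decide +kernel)

theorem NB683 : NB 683 :=
  chkB_spec (l := 4099) (k := 6) (d := 2049) (c3 := 4098) (c9 := 1) (L := [1, 2017, 2018, 2081,
      2082, 4098]) (L2 := [1, 2017, 2081]) (L4 := [1, 2017, 2081])
    (by norm_num) (by norm_num) (by norm_num) (by decide +kernel) (by decide +kernel)
    (by decide +kernel) (by decide +kernel)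

theorem NB691 : NB 691 :=
  chkB_spec (l := 8293) (k := 12) (d := 2073) (c3 := 8292) (c9 := 1) (L := [1, 531, 2050, 2051,
      2167, 2698, 5595, 6126, 6242, 6243, 7762, 8292]) (L2 := [1, 2050, 2051, 6242, 6243,
      8292]) (L4 := [1, 2050, 6242])
    (by norm_num) (by norm_num) (by norm_num) (by decide +kernel) (by decide +kernel)
    (by decide +kernel) (by decide +kernel)

theorem CkB2_0 : ∀ p ∈ [401, 409, 419, 421, 431, 433, 439, 443, 449, 457], NB p :=
  List.forall_mem_cons.2 ⟨NB401, List.forall_mem_cons.2 ⟨NB409, List.forall_mem_cons.2 ⟨NB419,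
    List.forall_mem_cons.2 ⟨NB421, List.forall_mem_cons.2 ⟨NB431, List.forall_mem_cons.2
    ⟨NB433, List.forall_mem_cons.2 ⟨NB439, List.forall_mem_cons.2 ⟨NB443,
    List.forall_mem_cons.2 ⟨NB449, List.forall_mem_cons.2 ⟨NB457, List.forall_mem_nil
    _⟩⟩⟩⟩⟩⟩⟩⟩⟩⟩

theorem CkB2_1 : ∀ p ∈ [461, 463, 467, 479, 487, 491, 499, 503, 509, 521], NB p :=
  List.forall_mem_cons.2 ⟨NB461, List.forall_mem_cons.2 ⟨NB463, List.forall_mem_cons.2 ⟨NB467,
    List.forall_mem_cons.2 ⟨NB479, List.forall_mem_cons.2 ⟨NB487, List.forall_mem_cons.2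
    ⟨NB491, List.forall_mem_cons.2 ⟨NB499, List.forall_mem_cons.2 ⟨NB503,
    List.forall_mem_cons.2 ⟨NB509, List.forall_mem_cons.2 ⟨NB521, List.forall_mem_nil
    _⟩⟩⟩⟩⟩⟩⟩⟩⟩⟩

theorem CkB2_2 : ∀ p ∈ [523, 541, 547, 557, 563, 569, 571, 577, 587, 593], NB p :=
  List.forall_mem_cons.2 ⟨NB523, List.forall_mem_cons.2 ⟨NB541, List.forall_mem_cons.2 ⟨NB547,
    List.forall_mem_cons.2 ⟨NB557, List.forall_mem_cons.2 ⟨NB563, List.forall_mem_cons.2
    ⟨NB569, List.forall_mem_cons.2 ⟨NB571, List.forall_mem_cons.2 ⟨NB577,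
    List.forall_mem_cons.2 ⟨NB587, List.forall_mem_cons.2 ⟨NB593, List.forall_mem_nil
    _⟩⟩⟩⟩⟩⟩⟩⟩⟩⟩

theorem CkB2_3 : ∀ p ∈ [599, 601, 607, 613, 617, 619, 631, 641, 643, 647], NB p :=
  List.forall_mem_cons.2 ⟨NB599, List.forall_mem_cons.2 ⟨NB601, List.forall_mem_cons.2 ⟨NB607,
    List.forall_mem_cons.2 ⟨NB613, List.forall_mem_cons.2 ⟨NB617, List.forall_mem_cons.2
    ⟨NB619, List.forall_mem_cons.2 ⟨NB631, List.forall_mem_cons.2 ⟨NB641,
    List.forall_mem_cons.2 ⟨NB643, List.forall_mem_cons.2 ⟨NB647, List.forall_mem_nil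
    _⟩⟩⟩⟩⟩⟩⟩⟩⟩⟩

theorem CkB2_4 : ∀ p ∈ [653, 659, 661, 673, 677, 683, 691], NB p :=
  List.forall_mem_cons.2 ⟨NB653, List.forall_mem_cons.2 ⟨NB659, List.forall_mem_cons.2 ⟨NB661,
    List.forall_mem_cons.2 ⟨NB673, List.forall_mem_cons.2 ⟨NB677, List.forall_mem_cons.2
    ⟨NB683, List.forall_mem_cons.2 ⟨NB691, List.forall_mem_nil _⟩⟩⟩⟩⟩⟩⟩

end GF2
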