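import Pool.Agent.H.MP_81d9be_nt.Loc

/-!
# MP_81d9be_nt: the second family, table 3
-/

set_option autoImplicit false

namespace GF2

theorem NB701 : NB 701 :=
  chkB_spec (l := 12619) (k := 18) (d := 6309) (c3 := 12618) (c9 := 1) (L := [1, 1056, 1204,
      1569, 2260, 3095, 3774, 3775, 4664, 7955, 8844, 8845, 9524, 10359, 11050, 11415, 11563,
      12618]) (L2 := [1, 1056, 1204, 3774, 4664, 8844, 9524, 10359, 11050]) (L4 := [1, 1056,
      1204, 3774, 4664, 8844, 9524, 10359, 11050])
    (by norm_num) (by norm_num) (by norm_num) (by decide +kernel) (by decide +kernel)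
    (by decide +kernel) (by decide +kernel)

theorem NB709 : NB 709 :=
  chkB_spec (l := 2837) (k := 4) (d := 709) (c3 := 2421) (c9 := 2836) (L := [1, 416, 2421, 2836])
      (L2 := [1, 2836]) (L4 := [1])
    (by norm_num) (by norm_num) (by norm_num) (by decide +kernel) (by decide +kernel)
    (by decide +kernel) (by decide +kernel)

theorem NB719 : NB 719 :=
  chkB_spec (l := 8629) (k := 12) (d := 2157) (c3 := 8628) (c9 := 1) (L := [1, 941, 3182, 3306,
      3307, 4123, 4506, 5322, 5323, 5447, 7688, 8628]) (L2 := [1, 3306, 3307, 5322, 5323,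
      8628]) (L4 := [1, 3306, 5322])
    (by norm_num) (by norm_num) (by norm_num) (by decide +kernel) (by decide +kernel)
    (by decide +kernel) (by decide +kernel)

theorem NB727 : NB 727 :=
  chkB_spec (l := 2909) (k := 4) (d := 727) (c3 := 878) (c9 := 2908) (L := [1, 878, 2031, 2908])
      (L2 := [1, 2908]) (L4 := [1])
    (by norm_num) (by norm_num) (by norm_num) (by decide +kernel) (by decide +kernel)
    (by decide +kernel) (by decide +kernel)

theorem NB733 : NB 733 :=
  chkB_spec (l := 21991) (k := 30) (d := 10995) (c3 := 21990) (c9 := 1) (L := [1, 2042, 2193,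
      2624, 5168, 6780, 7210, 7377, 7596, 7615, 8058, 8059, 8526, 9570, 10841, 11150, 12421,
      13465, 13932, 13933, 14376, 14395, 14614, 14781, 15211, 16823, 19367, 19798, 19949,
      21990]) (L2 := [1, 2193, 7210, 7377, 8058, 11150, 12421, 13465, 13932, 14376, 14395,
      15211, 16823, 19367, 19949]) (L4 := [1, 2193, 7210, 7377, 8058, 11150, 12421, 13465,
      13932, 14376, 14395, 15211, 16823, 19367, 19949])
    (by norm_num) (by norm_num) (by norm_num) (by decide +kernel) (by decide +kernel)
    (by decide +kernel) (by decide +kernel)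

theorem NB739 : NB 739 :=
  chkB_spec (l := 2957) (k := 4) (d := 739) (c3 := 1222) (c9 := 2956) (L := [1, 1222, 1735,
      2956]) (L2 := [1, 2956]) (L4 := [1])
    (by norm_num) (by norm_num) (by norm_num) (by decide +kernel) (by decide +kernel)
    (by decide +kernel) (by decide +kernel)

theorem NB743 : NB 743 :=
  chkB_spec (l := 22291) (k := 30) (d := 11145) (c3 := 22290) (c9 := 1) (L := [1, 97, 998, 1258,
      2256, 3194, 4078, 5671, 5672, 6215, 7091, 7188, 7642, 9409, 10571, 11720, 12882, 14649,
      15103, 15200, 16076, 16619, 16620, 18213, 19097, 20035, 21033, 21293, 22194, 22290]) (L2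
      := [1, 998, 1258, 5671, 7188, 9409, 11720, 14649, 15200, 16076, 16619, 18213, 19097,
      20035, 22194]) (L4 := [1, 998, 1258, 5671, 7188, 9409, 11720, 14649, 15200, 16076, 16619,
      18213, 19097, 20035, 22194])
    (by norm_num) (by norm_num) (by norm_num) (by decide +kernel) (by decide +kernel)
    (by decide +kernel) (by decide +kernel)

theorem NB751 : NB 751 :=
  chkB_spec (l := 4507) (k := 6) (d := 2253) (c3 := 4506) (c9 := 1) (L := [1, 791, 792, 3715,
      3716, 4506]) (L2 := [1, 791, 3715]) (L4 := [1, 791, 3715])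
    (by norm_num) (by norm_num) (by norm_num) (by decide +kernel) (by decide +kernel)
    (by decide +kernel) (by decide +kernel)

theorem NB757 : NB 757 :=
  chkB_spec (l := 12113) (k := 16) (d := 3028) (c3 := 3496) (c9 := 12112) (L := [1, 635, 2338,
      2627, 3281, 3449, 3496, 5269, 6844, 8617, 8664, 8832, 9486, 9775, 11478, 12112]) (L2 :=
      [1, 635, 3281, 3496, 8617, 8832, 11478, 12112]) (L4 := [1, 3496, 8617, 12112])
    (by norm_num) (by norm_num) (by norm_num) (by decide +kernel) (by decide +kernel)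
    (by decide +kernel) (by decide +kernel)

theorem NB761 : NB 761 :=
  chkB_spec (l := 4567) (k := 6) (d := 2283) (c3 := 4566) (c9 := 1) (L := [1, 1112, 1113, 3454,
      3455, 4566]) (L2 := [1, 1112, 3454]) (L4 := [1, 1112, 3454])
    (by norm_num) (by norm_num) (by norm_num) (by decide +kernel) (by decide +kernel)
    (by decide +kernel) (by decide +kernel)

theorem NB769 : NB 769 :=
  chkB_spec (l := 23071) (k := 30) (d := 11535) (c3 := 23070) (c9 := 1) (L := [1, 140, 1449,
      2237, 2238, 3471, 4779, 6829, 8750, 9542, 9674, 9814, 10149, 10300, 11473, 11598, 12771,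
      12922, 13257, 13397, 13529, 14321, 16242, 18292, 19600, 20833, 20834, 21622, 22931,
      23070]) (L2 := [1, 140, 2237, 4779, 8750, 9542, 9674, 10300, 11598, 12922, 13257, 16242,
      19600, 20833, 21622]) (L4 := [1, 140, 2237, 4779, 8750, 9542, 9674, 10300, 11598, 12922,
      13257, 16242, 19600, 20833, 21622])
    (by norm_num) (by norm_num) (by norm_num) (by decide +kernel) (by decide +kernel)
    (by decide +kernel) (by decide +kernel)

theorem NB773 : NB 773 :=
  chkB_spec (l := 4639) (k := 6) (d := 2319) (c3 := 4638) (c9 := 1) (L := [1, 1360, 1361, 3278,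
      3279, 4638]) (L2 := [1, 1360, 3278]) (L4 := [1, 1360, 3278])
    (by norm_num) (by norm_num) (by norm_num) (by decide +kernel) (by decide +kernel)
    (by decide +kernel) (by decide +kernel)

theorem NB787 : NB 787 :=
  chkB_spec (l := 4723) (k := 6) (d := 2361) (c3 := 4722) (c9 := 1) (L := [1, 717, 718, 4005,
      4006, 4722]) (L2 := [1, 717, 4005]) (L4 := [1, 717, 4005])
    (by norm_num) (by norm_num) (by norm_num) (by decide +kernel) (by decide +kernel)
    (by decide +kernel) (by decide +kernel)

theorem NB797 : NB 797 :=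
  chkB_spec (l := 4783) (k := 6) (d := 2391) (c3 := 4782) (c9 := 1) (L := [1, 1745, 1746, 3037,
      3038, 4782]) (L2 := [1, 1745, 3037]) (L4 := [1, 1745, 3037])
    (by norm_num) (by norm_num) (by norm_num) (by decide +kernel) (by decide +kernel)
    (by decide +kernel) (by decide +kernel)

theorem NB809 : NB 809 :=
  chkB_spec (l := 6473) (k := 8) (d := 1618) (c3 := 1808) (c9 := 6472) (L := [1, 91, 1808, 2703,
      3770, 4665, 6382, 6472]) (L2 := [1, 1808, 4665, 6472]) (L4 := [1, 6472])
    (by norm_num) (by norm_num) (by norm_num) (by decide +kernel) (by decide +kernel)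
    (by decide +kernel) (by decide +kernel)

theorem NB811 : NB 811 :=
  chkB_spec (l := 9733) (k := 12) (d := 2433) (c3 := 9732) (c9 := 1) (L := [1, 1550, 1551, 2709,
      2997, 4027, 5706, 6736, 7024, 8182, 8183, 9732]) (L2 := [1, 1550, 1551, 8182, 8183,
      9732]) (L4 := [1, 1550, 8182])
    (by norm_num) (by norm_num) (by norm_num) (by decide +kernel) (by decide +kernel)
    (by decide +kernel) (by decide +kernel)

theorem NB821 : NB 821 :=
  chkB_spec (l := 6569) (k := 8) (d := 1642) (c3 := 3038) (c9 := 6568) (L := [1, 736, 2508, 3038,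
      3531, 4061, 5833, 6568]) (L2 := [1, 3038, 3531, 6568]) (L4 := [1, 6568])
    (by norm_num) (by norm_num) (by norm_num) (by decide +kernel) (by decide +kernel)
    (by decide +kernel) (by decide +kernel)

theorem NB823 : NB 823 :=
  chkB_spec (l := 19753) (k := 24) (d := 4938) (c3 := 19752) (c9 := 1) (L := [1, 805, 2278, 3148,
      3239, 3824, 5755, 5756, 6102, 6387, 8375, 9180, 10573, 11378, 13366, 13651, 13997, 13998,
      15929, 16514, 16605, 17475, 18948, 19752]) (L2 := [1, 2278, 3824, 5755, 5756, 6102,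
      13651, 13997, 13998, 15929, 17475, 19752]) (L4 := [1, 5755, 5756, 13997, 13998, 19752])
    (by norm_num) (by norm_num) (by norm_num) (by decide +kernel) (by decide +kernel)
    (by decide +kernel) (by decide +kernel)

theorem NB827 : NB 827 :=
  chkB_spec (l := 14887) (k := 18) (d := 7443) (c3 := 14886) (c9 := 1) (L := [1, 2578, 3306,
      5099, 5210, 6482, 7099, 7382, 7383, 7504, 7505, 7788, 8405, 9677, 9788, 11581, 12309,
      14886]) (L2 := [1, 2578, 3306, 5099, 5210, 6482, 7099, 7382, 7504]) (L4 := [1, 2578,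
      3306, 5099, 5210, 6482, 7099, 7382, 7504])
    (by norm_num) (by norm_num) (by norm_num) (by decide +kernel) (by decide +kernel)
    (by decide +kernel) (by decide +kernel)

theorem NB829 : NB 829 :=
  chkB_spec (l := 9949) (k := 12) (d := 2487) (c3 := 9948) (c9 := 1) (L := [1, 1359, 2543, 3633,
      3634, 3902, 6047, 6315, 6316, 7406, 8590, 9948]) (L2 := [1, 3633, 3634, 6315, 6316,
      9948]) (L4 := [1, 3633, 6315])
    (by norm_num) (by norm_num) (by norm_num) (by decide +kernel) (by decide +kernel)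
    (by decide +kernel) (by decide +kernel)

theorem NB839 : NB 839 :=
  chkB_spec (l := 25171) (k := 30) (d := 12585) (c3 := 25170) (c9 := 1) (L := [1, 980, 2032,
      2298, 2851, 3902, 4940, 5106, 5149, 5920, 7138, 8368, 11820, 11821, 12270, 12901, 13350,
      13351, 16803, 18033, 19251, 20022, 20065, 20231, 21269, 22320, 22873, 23139, 24191,
      25170]) (L2 := [1, 980, 3902, 4940, 5149, 7138, 8368, 11820, 12901, 13350, 19251, 20065,
      22320, 22873, 23139]) (L4 := [1, 980, 3902, 4940, 5149, 7138, 8368, 11820, 12901, 13350,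
      19251, 20065, 22320, 22873, 23139])
    (by norm_num) (by norm_num) (by norm_num) (by decide +kernel) (by decide +kernel)
    (by decide +kernel) (by decide +kernel)

theorem NB853 : NB 853 :=
  chkB_spec (l := 3413) (k := 4) (d := 853) (c3 := 1471) (c9 := 3412) (L := [1, 1471, 1942,
      3412]) (L2 := [1, 3412]) (L4 := [1])
    (by norm_num) (by norm_num) (by norm_num) (by decide +kernel) (by decide +kernel)
    (by decide +kernel) (by decide +kernel)

theorem NB857 : NB 857 :=
  chkB_spec (l := 6857) (k := 8) (d := 1714) (c3 := 5509) (c9 := 6856) (L := [1, 596, 1139, 1348,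
      5509, 5718, 6261, 6856]) (L2 := [1, 1348, 5509, 6856]) (L4 := [1, 6856])
    (by norm_num) (by norm_num) (by norm_num) (by decide +kernel) (by decide +kernel)
    (by decide +kernel) (by decide +kernel)

theorem NB859 : NB 859 :=
  chkB_spec (l := 25771) (k := 30) (d := 12885) (c3 := 25770) (c9 := 1) (L := [1, 823, 2520,
      2587, 3385, 4208, 5145, 5371, 7283, 7891, 9870, 9892, 10734, 12279, 12280, 13491, 13492,
      15037, 15879, 15901, 17880, 18488, 20400, 20626, 21563, 22386, 23184, 23251, 24948,
      25770]) (L2 := [1, 2520, 2587, 4208, 5145, 5371, 7283, 9892, 10734, 12279, 13491, 15901,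
      17880, 22386, 24948]) (L4 := [1, 2520, 2587, 4208, 5145, 5371, 7283, 9892, 10734, 12279,
      13491, 15901, 17880, 22386, 24948])
    (by norm_num) (by norm_num) (by norm_num) (by decide +kernel) (by decide +kernel)
    (by decide +kernel) (by decide +kernel)

theorem NB863 : NB 863 :=
  chkB_spec (l := 5179) (k := 6) (d := 2589) (c3 := 5178) (c9 := 1) (L := [1, 1497, 1498, 3681,
      3682, 5178]) (L2 := [1, 1497, 3681]) (L4 := [1, 1497, 3681])
    (by norm_num) (by norm_num) (by norm_num) (by decide +kernel) (by decide +kernel)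
    (by decide +kernel) (by decide +kernel)

theorem NB877 : NB 877 :=
  chkB_spec (l := 14033) (k := 16) (d := 3508) (c3 := 12587) (c9 := 14032) (L := [1, 228, 1446,
      1908, 4148, 5533, 5917, 6929, 7104, 8116, 8500, 9885, 12125, 12587, 13805, 14032]) (L2 :=
      [1, 1446, 4148, 5917, 8116, 9885, 12587, 14032]) (L4 := [1, 1446, 12587, 14032])
    (by norm_num) (by norm_num) (by norm_num) (by decide +kernel) (by decide +kernel)
    (by decide +kernel) (by decide +kernel)

theorem NB881 : NB 881 :=
  chkB_spec (l := 15859) (k := 18) (d := 7929) (c3 := 15858) (c9 := 1) (L := [1, 929, 2515, 2516,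
      3124, 5162, 6080, 6091, 6655, 9204, 9768, 9779, 10697, 12735, 13343, 13344, 14930,
      15858]) (L2 := [1, 2515, 3124, 6080, 6091, 6655, 10697, 13343, 14930]) (L4 := [1, 2515,
      3124, 6080, 6091, 6655, 10697, 13343, 14930])
    (by norm_num) (by norm_num) (by norm_num) (by decide +kernel) (by decide +kernel)
    (by decide +kernel) (by decide +kernel)

theorem NB883 : NB 883 :=
  chkB_spec (l := 3533) (k := 4) (d := 883) (c3 := 548) (c9 := 3532) (L := [1, 548, 2985, 3532])
      (L2 := [1, 3532]) (L4 := [1])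
    (by norm_num) (by norm_num) (by norm_num) (by decide +kernel) (by decide +kernel)
    (by decide +kernel) (by decide +kernel)

theorem NB887 : NB 887 :=
  chkB_spec (l := 5323) (k := 6) (d := 2661) (c3 := 5322) (c9 := 1) (L := [1, 1282, 1283, 4040,
      4041, 5322]) (L2 := [1, 1282, 4040]) (L4 := [1, 1282, 4040])
    (by norm_num) (by norm_num) (by norm_num) (by decide +kernel) (by decide +kernel)
    (by decide +kernel) (by decide +kernel)

theorem NB907 : NB 907 :=
  chkB_spec (l := 5443) (k := 6) (d := 2721) (c3 := 5442) (c9 := 1) (L := [1, 2588, 2589, 2854,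
      2855, 5442]) (L2 := [1, 2588, 2854]) (L4 := [1, 2588, 2854])
    (by norm_num) (by norm_num) (by norm_num) (by decide +kernel) (by decide +kernel)
    (by decide +kernel) (by decide +kernel)

theorem NB911 : NB 911 :=
  chkB_spec (l := 29153) (k := 32) (d := 7288) (c3 := 25282) (c9 := 29152) (L := [1, 726, 1621,
      2322, 3225, 3871, 5102, 6474, 6491, 6996, 9110, 9338, 10320, 10726, 11658, 13261, 15892,
      17495, 18427, 18833, 19815, 20043, 22157, 22662, 22679, 24051, 25282, 25928, 26831,
      27532, 28427, 29152]) (L2 := [1, 1621, 2322, 3225, 3871, 6491, 6996, 9338, 19815, 22157,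
      22662, 25282, 25928, 26831, 27532, 29152]) (L4 := [1, 1621, 3871, 6996, 22157, 25282,
      27532, 29152])
    (by norm_num) (by norm_num) (by norm_num) (by decide +kernel) (by decide +kernel)
    (by decide +kernel) (by decide +kernel)

theorem NB919 : NB 919 :=
  chkB_spec (l := 3677) (k := 4) (d := 919) (c3 := 1309) (c9 := 3676) (L := [1, 1309, 2368,
      3676]) (L2 := [1, 3676]) (L4 := [1])
    (by norm_num) (by norm_num) (by norm_num) (by decide +kernel) (by decide +kernel)
    (by decide +kernel) (by decide +kernel)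

theorem NB929 : NB 929 :=
  chkB_spec (l := 7433) (k := 8) (d := 1858) (c3 := 6450) (c9 := 7432) (L := [1, 146, 983, 2291,
      5142, 6450, 7287, 7432]) (L2 := [1, 983, 6450, 7432]) (L4 := [1, 7432])
    (by norm_num) (by norm_num) (by norm_num) (by decide +kernel) (by decide +kernel)
    (by decide +kernel) (by decide +kernel)

theorem NB937 : NB 937 :=
  chkB_spec (l := 5623) (k := 6) (d := 2811) (c3 := 5622) (c9 := 1) (L := [1, 2013, 2014, 3609,
      3610, 5622]) (L2 := [1, 2013, 3609]) (L4 := [1, 2013, 3609])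
    (by norm_num) (by norm_num) (by norm_num) (by decide +kernel) (by decide +kernel)
    (by decide +kernel) (by decide +kernel)

theorem NB941 : NB 941 :=
  chkB_spec (l := 5647) (k := 6) (d := 2823) (c3 := 5646) (c9 := 1) (L := [1, 853, 854, 4793,
      4794, 5646]) (L2 := [1, 853, 4793]) (L4 := [1, 853, 4793])
    (by norm_num) (by norm_num) (by norm_num) (by decide +kernel) (by decide +kernel)
    (by decide +kernel) (by decide +kernel)

theorem NB947 : NB 947 :=
  chkB_spec (l := 5683) (k := 6) (d := 2841) (c3 := 5682) (c9 := 1) (L := [1, 1110, 1111, 4572,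
      4573, 5682]) (L2 := [1, 1110, 4572]) (L4 := [1, 1110, 4572])
    (by norm_num) (by norm_num) (by norm_num) (by decide +kernel) (by decide +kernel)
    (by decide +kernel) (by decide +kernel)

theorem NB953 : NB 953 :=
  chkB_spec (l := 28591) (k := 30) (d := 14295) (c3 := 28590) (c9 := 1) (L := [1, 987, 1036,
      2075, 2635, 4388, 5375, 6744, 6745, 10527, 10580, 11616, 12801, 13162, 13715, 14876,
      15429, 15790, 16975, 18011, 18064, 21846, 21847, 23216, 24203, 25956, 26516, 27555,
      27604, 28590]) (L2 := [1, 1036, 2075, 2635, 5375, 6744, 10527, 10580, 12801, 13715,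
      15429, 16975, 21846, 24203, 27604]) (L4 := [1, 1036, 2075, 2635, 5375, 6744, 10527,
      10580, 12801, 13715, 15429, 16975, 21846, 24203, 27604])
    (by norm_num) (by norm_num) (by norm_num) (by decide +kernel) (by decide +kernel)
    (by decide +kernel) (by decide +kernel)

theorem NB967 : NB 967 :=
  chkB_spec (l := 15473) (k := 16) (d := 3868) (c3 := 8627) (c9 := 15472) (L := [1, 2105, 2451,
      3877, 5467, 5747, 6814, 6846, 8627, 8659, 9726, 10006, 11596, 13022, 13368, 15472]) (L2
      := [1, 3877, 5747, 6846, 8627, 9726, 11596, 15472]) (L4 := [1, 6846, 8627, 15472])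
    (by norm_num) (by norm_num) (by norm_num) (by decide +kernel) (by decide +kernel)
    (by decide +kernel) (by decide +kernel)

theorem NB971 : NB 971 :=
  chkB_spec (l := 5827) (k := 6) (d := 2913) (c3 := 5826) (c9 := 1) (L := [1, 1350, 1351, 4476,
      4477, 5826]) (L2 := [1, 1350, 4476]) (L4 := [1, 1350, 4476])
    (by norm_num) (by norm_num) (by norm_num) (by decide +kernel) (by decide +kernel)
    (by decide +kernel) (by decide +kernel)

theorem NB977 : NB 977 :=
  chkB_spec (l := 7817) (k := 8) (d := 1954) (c3 := 5253) (c9 := 7816) (L := [1, 955, 1899, 2564,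
      5253, 5918, 6862, 7816]) (L2 := [1, 2564, 5253, 7816]) (L4 := [1, 7816])
    (by norm_num) (by norm_num) (by norm_num) (by decide +kernel) (by decide +kernel)
    (by decide +kernel) (by decide +kernel)

theorem NB983 : NB 983 :=
  chkB_spec (l := 19661) (k := 20) (d := 4915) (c3 := 8255) (c9 := 19660) (L := [1, 414, 1395,
      3444, 5553, 5621, 7096, 7361, 8255, 9437, 10224, 11406, 12300, 12565, 14040, 14108,
      16217, 18266, 19247, 19660]) (L2 := [1, 414, 1395, 5553, 7361, 12300, 14108, 18266,
      19247, 19660]) (L4 := [1, 7361, 14108, 18266, 19247])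
    (by norm_num) (by norm_num) (by norm_num) (by decide +kernel) (by decide +kernel)
    (by decide +kernel) (by decide +kernel)

theorem NB991 : NB 991 :=
  chkB_spec (l := 17839) (k := 18) (d := 8919) (c3 := 17838) (c9 := 1) (L := [1, 171, 2921, 3516,
      5028, 5199, 5290, 5291, 6437, 11402, 12548, 12549, 12640, 12811, 14323, 14918, 17668,
      17838]) (L2 := [1, 2921, 3516, 5199, 5290, 11402, 12548, 12811, 17668]) (L4 := [1, 2921,
      3516, 5199, 5290, 11402, 12548, 12811, 17668])
    (by norm_num) (by norm_num) (by norm_num) (by decide +kernel) (by decide +kernel)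
    (by decide +kernel) (by decide +kernel)

theorem NB997 : NB 997 :=
  chkB_spec (l := 3989) (k := 4) (d := 997) (c3 := 481) (c9 := 3988) (L := [1, 481, 3508, 3988])
      (L2 := [1, 3988]) (L4 := [1])
    (by norm_num) (by norm_num) (by norm_num) (by decide +kernel) (by decide +kernel)
    (by decide +kernel) (by decide +kernel)

theorem CkB3_0 : ∀ p ∈ [701, 709, 719, 727, 733, 739, 743, 751, 757, 761], NB p :=
  List.forall_mem_cons.2 ⟨NB701, List.forall_mem_cons.2 ⟨NB709, List.forall_mem_cons.2 ⟨NB719,
    List.forall_mem_cons.2 ⟨NB727, List.forall_mem_cons.2 ⟨NB733, List.forall_mem_cons.2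
    ⟨NB739, List.forall_mem_cons.2 ⟨NB743, List.forall_mem_cons.2 ⟨NB751,
    List.forall_mem_cons.2 ⟨NB757, List.forall_mem_cons.2 ⟨NB761, List.forall_mem_nil
    _⟩⟩⟩⟩⟩⟩⟩⟩⟩⟩

theorem CkB3_1 : ∀ p ∈ [769, 773, 787, 797, 809, 811, 821, 823, 827, 829], NB p :=
  List.forall_mem_cons.2 ⟨NB769, List.forall_mem_cons.2 ⟨NB773, List.forall_mem_cons.2 ⟨NB787,
    List.forall_mem_cons.2 ⟨NB797, List.forall_mem_cons.2 ⟨NB809, List.forall_mem_cons.2
    ⟨NB811, List.forall_mem_cons.2 ⟨NB821, List.forall_mem_cons.2 ⟨NB823,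
    List.forall_mem_cons.2 ⟨NB827, List.forall_mem_cons.2 ⟨NB829, List.forall_mem_nil
    _⟩⟩⟩⟩⟩⟩⟩⟩⟩⟩

theorem CkB3_2 : ∀ p ∈ [839, 853, 857, 859, 863, 877, 881, 883, 887, 907], NB p :=
  List.forall_mem_cons.2 ⟨NB839, List.forall_mem_cons.2 ⟨NB853, List.forall_mem_cons.2 ⟨NB857,
    List.forall_mem_cons.2 ⟨NB859, List.forall_mem_cons.2 ⟨NB863, List.forall_mem_cons.2
    ⟨NB877, List.forall_mem_cons.2 ⟨NB881, List.forall_mem_cons.2 ⟨NB883,
    List.forall_mem_cons.2 ⟨NB887, List.forall_mem_cons.2 ⟨NB907, List.forall_mem_nil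
    _⟩⟩⟩⟩⟩⟩⟩⟩⟩⟩

theorem CkB3_3 : ∀ p ∈ [911, 919, 929, 937, 941, 947, 953, 967, 971, 977], NB p :=
  List.forall_mem_cons.2 ⟨NB911, List.forall_mem_cons.2 ⟨NB919, List.forall_mem_cons.2 ⟨NB929,
    List.forall_mem_cons.2 ⟨NB937, List.forall_mem_cons.2 ⟨NB941, List.forall_mem_cons.2
    ⟨NB947, List.forall_mem_cons.2 ⟨NB953, List.forall_mem_cons.2 ⟨NB967,
    List.forall_mem_cons.2 ⟨NB971, List.forall_mem_cons.2 ⟨NB977, List.forall_mem_nil
    _⟩⟩⟩⟩⟩⟩⟩⟩⟩⟩

theorem CkB3_4 : ∀ p ∈ [983, 991, 997], NB p :=
  List.forall_mem_cons.2 ⟨NB983, List.forall_mem_cons.2 ⟨NB991, List.forall_mem_cons.2 ⟨NB997,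
    List.forall_mem_nil _⟩⟩⟩

end GF2
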