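import Pool.Agent.H.MP_81d9be_nt.BG

/-!
# MP_81d9be_nt: `y ^ 4 + 2 z ^ 4 = x ^ 3` and the system `3 a ^ 4 - 2 b ^ 4 = A ^ 2`,
`27 a ^ 4 - 2 b ^ 4 = B ^ 2`
-/

set_option autoImplicit false

namespace GF2

/-- The system. -/
structure DS (a b A B : ℕ) : Prop where
  ha : a % 2 = 1
  hb : b % 2 = 1
  hb3 : b % 3 ≠ 0
  hc : Nat.Coprime a b
  h1 : 3 * a ^ 4 = 2 * b ^ 4 + A ^ 2
  h2 : 27 * a ^ 4 = 2 * b ^ 4 + B ^ 2

theorem T44 {x y z : ℤ} (hc : IsCoprime y z) (hz0 : z ≠ 0) (h : y ^ 4 + 2 * z ^ 4 = x ^ 3) :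
    ∃ a b A B : ℕ, DS a b A B ∧ 3 * a * A = y.natAbs ∧ b * B = z.natAbs := by
  obtain ⟨P, Q, hPQ, hP, hy, hz⟩ := start (y := y) (Z := z ^ 2) (x := x)
    (hc.pow_right) (by rw [← h]; ring)
  by_cases hQ0 : Q = 0
  · rw [hQ0, zero_mul] at hz
    exact absurd (pow_eq_zero_iff (by norm_num) |>.1 hz.symm) hz0
  have hP8 := sq8zo hP
  by_cases h3 : Q % 3 = 0
  · exfalso
    obtain ⟨q, rfl⟩ : ∃ q, Q = 3 * q := ⟨Q / 3, by omega⟩
    have hP3 : P % 3 ≠ 0 := by
      intro h0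
      have h1 : IsUnit (3 : ℤ) := hPQ.isUnit_of_dvd' (Int.dvd_of_emod_eq_zero h0) ⟨q, rfl⟩
      rw [Int.isUnit_iff] at h1
      omega
    have hP9 := sq3z hP3
    obtain ⟨z', rfl⟩ : (3 : ℤ) ∣ z := by
      refine Int.prime_three.dvd_of_dvd_pow (n := 2) ⟨q * (3 * P ^ 2 - 2 * (3 * q) ^ 2), ?_⟩
      rw [← hz]
      ring
    have h4 : q * (P ^ 2 - 6 * q ^ 2) = z' ^ 2 := by
      have : 9 * (q * (P ^ 2 - 6 * q ^ 2)) = 9 * z' ^ 2 := by linear_combination hz
      omega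
    have hPq : IsCoprime P q := IsCoprime.of_mul_right_right hPQ
    have h7 : IsCoprime q (P ^ 2 - 6 * q ^ 2) := by
      have e : P ^ 2 - 6 * q ^ 2 = P ^ 2 + q * (-6 * q) := by ring
      rw [e]
      exact IsCoprime.add_mul_left_right hPq.symm.pow_right _
    obtain ⟨b, hb⟩ := Int.sq_of_isCoprime h7 h4
    obtain ⟨B, hB⟩ := Int.sq_of_isCoprime h7.symm (by rw [mul_comm]; exact h4)
    have hB1 : P ^ 2 - 6 * q ^ 2 = B ^ 2 := by
      rcases hB with h8 | h8
      · exact h8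
      · exfalso
        have := sq3z' B
        omega
    have hq2 : q ^ 2 = b ^ 4 := by
      rcases hb with h8 | h8 <;> rw [h8] <;> ring
    rcases ypart hPQ hP hy with ⟨-, a, A, ha, hA⟩ | ⟨h8, -⟩
    · have k1 : a.natAbs ^ 4 = 6 * b.natAbs ^ 4 + B.natAbs ^ 2 := by
        zify
        rw [Even.pow_abs (by decide), Even.pow_abs (by decide), sq_abs]
        rw [ha] at hB1
        linear_combination hB1 + 6 * hq2
      have k2 : a.natAbs ^ 4 = 54 * b.natAbs ^ 4 + A.natAbs ^ 2 := by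
        zify
        rw [Even.pow_abs (by decide), Even.pow_abs (by decide), sq_abs]
        rw [ha] at hA
        linear_combination hA + 54 * hq2
      have hao : a % 2 = 1 := by
        by_contra h0
        obtain ⟨c, rfl⟩ : ∃ c, a = 2 * c := ⟨a / 2, by omega⟩
        have : (2 * c) ^ 2 = 4 * c ^ 2 := by ring
        omega
      have ha3 : a % 3 ≠ 0 := by
        intro h0
        obtain ⟨c, rfl⟩ : ∃ c, a = 3 * c := ⟨a / 3, by omega⟩
        have : (3 * c) ^ 2 = 3 * (3 * c ^ 2) := by ring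
        omega
      have haq : IsCoprime a q := by
        rw [ha] at hPq
        exact (IsCoprime.pow_left_iff two_pos).1 hPq
      have hab : IsCoprime a b := by
        have h9 : IsCoprime a (b ^ 2) := by
          rcases hb with h8 | h8
          · rwa [h8] at haq
          · rw [h8] at haq
            exact (IsCoprime.neg_right_iff _ _).1 haq
        exact (IsCoprime.pow_right_iff two_pos).1 h9
      have k3 := ad (by omega) (by omega) (Int.isCoprime_iff_nat_coprime.1 hab) k1 k2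
      have k4 : b = 0 := Int.natAbs_eq_zero.1 k3
      have k5 : q = 0 := by
        rw [k4] at hq2
        have : q ^ 2 = 0 := by rw [hq2]; norm_num
        exact pow_eq_zero_iff two_ne_zero |>.1 this
      exact absurd (by rw [k5]; norm_num) hQ0
    · exact absurd h8 hP3
  · obtain ⟨b, hb⟩ := Int.sq_of_isCoprime (zcop hPQ h3) hz
    obtain ⟨B, hB⟩ := Int.sq_of_isCoprime (zcop hPQ h3).symm (by rw [mul_comm]; exact hz)
    have hB8 := sq8z B
    have hQ8' := sq8z Q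
    have hQ2 : Q ^ 2 % 8 = 1 ∧ 3 * P ^ 2 - 2 * Q ^ 2 = B ^ 2 := by
      rcases hB with h8 | h8 <;> constructor <;> omega
    obtain ⟨hQ8, hB1⟩ := hQ2
    have hQo : Q % 2 = 1 := by
      by_contra h0
      obtain ⟨c, rfl⟩ : ∃ c, Q = 2 * c := ⟨Q / 2, by omega⟩
      have e1 : (2 * c) ^ 2 = 4 * c ^ 2 := by ring
      omega
    have hq2 : Q ^ 2 = b ^ 4 := by
      rcases hb with h8 | h8 <;> rw [h8] <;> ring
    have hbo : b % 2 = 1 := by
      by_contra h0
      obtain ⟨c, rfl⟩ : ∃ c, b = 2 * c := ⟨b / 2, by omega⟩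
      have e1 : (2 * c) ^ 4 = 2 * (8 * c ^ 4) := by ring
      omega
    have hb3 : b % 3 ≠ 0 := by
      intro h0
      obtain ⟨c, rfl⟩ : ∃ c, b = 3 * c := ⟨b / 3, by omega⟩
      have e1 : (3 * c) ^ 2 = 3 * (3 * c ^ 2) := by ring
      rcases hb with h8 | h8 <;> omega
    rcases ypart hPQ hP hy with ⟨-, a, A, ha, hA⟩ | ⟨-, a, A, ha, hA⟩
    · exfalso
      have := sq8z A
      omega
    · have hao : a % 2 = 1 := by
        by_contra h0
        obtain ⟨c, rfl⟩ : ∃ c, a = 2 * c := ⟨a / 2, by omega⟩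
        have : (2 * c) ^ 2 = 4 * c ^ 2 := by ring
        omega
      have hab : IsCoprime a b := by
        have h8 : IsCoprime a Q := by
          rw [ha] at hPQ
          exact (IsCoprime.pow_left_iff two_pos).1 (IsCoprime.of_mul_left_right hPQ)
        have h9 : IsCoprime a (b ^ 2) := by
          rcases hb with h10 | h10
          · rwa [h10] at h8
          · rw [h10] at h8
            exact (IsCoprime.neg_right_iff _ _).1 h8
        exact (IsCoprime.pow_right_iff two_pos).1 h9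
      have k1 : 3 * a.natAbs ^ 4 = 2 * b.natAbs ^ 4 + A.natAbs ^ 2 := by
        zify
        rw [Even.pow_abs (by decide), Even.pow_abs (by decide), sq_abs]
        linear_combination hA + 2 * hq2
      have k2 : 27 * a.natAbs ^ 4 = 2 * b.natAbs ^ 4 + B.natAbs ^ 2 := by
        zify
        rw [Even.pow_abs (by decide), Even.pow_abs (by decide), sq_abs]
        rw [ha] at hB1
        linear_combination hB1 + 2 * hq2
      have k3 : 3 * a.natAbs * A.natAbs = y.natAbs := by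
        have h10 : (3 * a.natAbs * A.natAbs) ^ 2 = y.natAbs ^ 2 := by
          zify
          have e1 : (3 * |a| * |A|) ^ 2 = 9 * (|a| ^ 2 * |A| ^ 2) := by ring
          rw [e1, sq_abs, sq_abs, sq_abs, ← hy, ha]
          linear_combination (-9 * a ^ 2) * hA
        exact (Nat.pow_left_injective two_ne_zero) h10
      have k4 : b.natAbs * B.natAbs = z.natAbs := by
        have h10 : (b.natAbs * B.natAbs) ^ 4 = z.natAbs ^ 4 := by
          zify
          have e1 : (|b| * |B|) ^ 4 = |b| ^ 4 * |B| ^ 4 := by ring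
          rw [e1, Even.pow_abs (by decide), Even.pow_abs (by decide), Even.pow_abs (by decide)]
          have e2 : z ^ 4 = (Q * (3 * P ^ 2 - 2 * Q ^ 2)) ^ 2 := by rw [hz]; ring
          have e3 : (Q * (3 * P ^ 2 - 2 * Q ^ 2)) ^ 2 = Q ^ 2 * (3 * P ^ 2 - 2 * Q ^ 2) ^ 2 := by
            ring
          rw [e2, e3, hB1, hq2]
          ring
        exact (Nat.pow_left_injective (n := 4) (by norm_num)) h10
      exact ⟨a.natAbs, b.natAbs, A.natAbs, B.natAbs,
        ⟨by omega, by omega, by omega, Int.isCoprime_iff_nat_coprime.1 hab, k1, k2⟩, k3, k4⟩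

/-- The two splittings. -/
theorem bgfin' {a b X1 X2 Y1 Y2 : ℕ} (ha : a % 2 = 1) (hb : b % 2 = 1)
    (hX : X1 * X2 = 3 * (2 * a ^ 4)) (hY : Y1 * Y2 = 4 * b ^ 4) (e1 : Y1 + X2 = 2 * X1)
    (e2 : Y2 + X1 = 2 * X2) (hcX : Nat.Coprime X1 X2) (hcY : Nat.Coprime Y1 Y2) :
    ∃ α β τ σ : ℕ, α * β = a ∧ τ * σ = b ∧ Nat.Coprime α β ∧ Nat.Coprime τ σ ∧
      τ ^ 4 + 3 * β ^ 4 = 4 * α ^ 4 ∧ 2 * σ ^ 4 + α ^ 4 = 3 * β ^ 4 ∧
      Y1 + Y2 = τ ^ 4 + 4 * σ ^ 4 := by
  have hX' : X1 * X2 = 6 * a ^ 4 := by rw [hX]; ring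
  rcases spl pp4 hcY hY with ⟨s, t, k1, k2⟩ | ⟨s, t, k1, k2⟩
  · have kb : s * t = b := pow_cancel (K := 4) (n := 4) (by norm_num) (by norm_num)
      (by rw [k1, k2]; ring) hY
    obtain ⟨ks, kt⟩ := prod_odd kb hb
    have kt16 := fo16 kt
    rcases spl2 pp3 pp2 hcX hX with ⟨u, v, k3, k4⟩ | ⟨u, v, k3, k4⟩ | ⟨u, v, k3, k4⟩ |
      ⟨u, v, k3, k4⟩
    · have ka : u * v = a := pow_cancel (K := 6) (n := 4) (by norm_num) (by norm_num)
        (by rw [k3, k4]; ring) hX'
      obtain ⟨ku, kv⟩ := prod_odd ka ha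
      rw [k2, k3, k4] at e2
      exact (n1 (fo16 ku) (fo16 kv) kt16 e2).elim
    · have ka : u * v = a := pow_cancel (K := 6) (n := 4) (by norm_num) (by norm_num)
        (by rw [k3, k4]; ring) hX'
      have k5 : Nat.Coprime t s := by
        have k6 := hcY
        rw [k1, k2, ← one_mul (t ^ 4)] at k6
        exact (cop4 k6).symm
      have k7 : Y1 + Y2 = t ^ 4 + 4 * s ^ 4 := by rw [k1, k2, add_comm]
      rw [k2, k3, k4] at e2
      rw [k1, k3, k4] at e1
      rw [k3, k4] at hcX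
      refine ⟨v, u, t, s, by rw [mul_comm]; exact ka, by rw [mul_comm]; exact kb,
        (cop4 hcX).symm, k5, ?_, ?_, k7⟩
      · rw [e2]
        ring
      · have k8 : 2 * (2 * s ^ 4 + v ^ 4) = 2 * (3 * u ^ 4) := by
          calc 2 * (2 * s ^ 4 + v ^ 4) = 4 * s ^ 4 + 2 * v ^ 4 := by ring
            _ = _ := e1
        exact Nat.eq_of_mul_eq_mul_left (by norm_num) k8
    · have ka : u * v = a := pow_cancel (K := 6) (n := 4) (by norm_num) (by norm_num)
        (by rw [k3, k4]; ring) hX'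
      obtain ⟨ku, kv⟩ := prod_odd ka ha
      rw [k2, k3, k4] at e2
      exact (n2 (fo16 ku) (fo16 kv) kt16 e2).elim
    · have ka : u * v = a := pow_cancel (K := 6) (n := 4) (by norm_num) (by norm_num)
        (by rw [k3, k4]; ring) hX'
      obtain ⟨ku, kv⟩ := prod_odd ka ha
      rw [k2, k3, k4] at e2
      exact (n3 (fo16 ku) (fo16 kv) kt16 e2).elim
  · have kb : s * t = b := pow_cancel (K := 4) (n := 4) (by norm_num) (by norm_num)
      (by rw [k1, k2]; ring) hY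
    obtain ⟨ks, kt⟩ := prod_odd kb hb
    have kt16 := fo16 kt
    rcases spl2 pp3 pp2 hcX hX with ⟨u, v, k3, k4⟩ | ⟨u, v, k3, k4⟩ | ⟨u, v, k3, k4⟩ |
      ⟨u, v, k3, k4⟩
    · have ka : u * v = a := pow_cancel (K := 6) (n := 4) (by norm_num) (by norm_num)
        (by rw [k3, k4]; ring) hX'
      obtain ⟨ku, kv⟩ := prod_odd ka ha
      rw [k2, k3, k4] at e2
      exact (n4 (fo16 ku) (fo16 kv) kt16 e2).elim
    · have ka : u * v = a := pow_cancel (K := 6) (n := 4) (by norm_num) (by norm_num)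
        (by rw [k3, k4]; ring) hX'
      obtain ⟨ku, kv⟩ := prod_odd ka ha
      rw [k2, k3, k4] at e2
      exact (n5 (fo16 ku) (fo16 kv) kt16 e2).elim
    · have ka : u * v = a := pow_cancel (K := 6) (n := 4) (by norm_num) (by norm_num)
        (by rw [k3, k4]; ring) hX'
      have k5 : Nat.Coprime s t := by
        have k6 := hcY
        rw [k1, k2, ← one_mul (s ^ 4)] at k6
        exact cop4 k6
      have k7 : Y1 + Y2 = s ^ 4 + 4 * t ^ 4 := by rw [k1, k2]
      rw [k2, k3, k4] at e2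
      rw [k1, k3, k4] at e1
      rw [k3, k4] at hcX
      refine ⟨u, v, s, t, ka, kb, cop4 hcX, k5, ?_, ?_, k7⟩
      · rw [e1]
        ring
      · have k8 : 2 * (2 * t ^ 4 + u ^ 4) = 2 * (3 * v ^ 4) := by
          calc 2 * (2 * t ^ 4 + u ^ 4) = 4 * t ^ 4 + 2 * u ^ 4 := by ring
            _ = _ := e2
        exact Nat.eq_of_mul_eq_mul_left (by norm_num) k8
    · have ka : u * v = a := pow_cancel (K := 6) (n := 4) (by norm_num) (by norm_num)
        (by rw [k3, k4]; ring) hX'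
      obtain ⟨ku, kv⟩ := prod_odd ka ha
      rw [k2, k3, k4] at e2
      exact (n6 (fo16 ku) (fo16 kv) kt16 e2).elim

theorem DS.cop {a b A B : ℕ} (h : DS a b A B) : Nat.Coprime (3 * a) A ∧ Nat.Coprime b B := by
  obtain ⟨ha, hb, hb3, hc, h1, h2⟩ := h
  have hA3 : A % 3 ≠ 0 := by
    have h3 := fo3' b
    have h4 := sq3 A
    clear h2
    omega
  constructor
  · have hcaA : Nat.Coprime a A := by
      by_contra hng
      obtain ⟨l, hl, h3, h4⟩ := Nat.Prime.not_coprime_iff_dvd.1 hng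
      have h5 : l ∣ 2 * b ^ 4 := by
        have h6 : l ∣ 2 * b ^ 4 + A ^ 2 := by
          rw [← h1]
          exact Dvd.dvd.mul_left (dvd_pow h3 (by norm_num)) 3
        exact (Nat.dvd_add_left (dvd_pow h4 two_ne_zero)).1 h6
      rcases (Nat.Prime.dvd_mul hl).1 h5 with h6 | h6
      · have h7 : l = 2 := dvd2 hl (k := 1) (by simpa using h6)
        rw [h7] at h3
        have := Nat.mod_eq_zero_of_dvd h3
        omega
      · exact cop_no hc hl h3 (hl.dvd_of_dvd_pow h6)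
    refine Nat.Coprime.mul_left ?_ hcaA
    rw [Nat.prime_three.coprime_iff_not_dvd]
    intro h0
    exact hA3 (Nat.mod_eq_zero_of_dvd h0)
  · by_contra hng
    obtain ⟨l, hl, h3, h4⟩ := Nat.Prime.not_coprime_iff_dvd.1 hng
    have h5 : l ∣ 27 * a ^ 4 := by
      rw [h2]
      exact dvd_add (Dvd.dvd.mul_left (dvd_pow h3 (by norm_num)) 2) (dvd_pow h4 two_ne_zero)
    rcases (Nat.Prime.dvd_mul hl).1 h5 with h6 | h6
    · have h7 : l = 3 := dvd3 hl (k := 3) (by simpa using h6)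
      rw [h7] at h3
      exact hb3 (Nat.mod_eq_zero_of_dvd h3)
    · exact cop_no hc hl (hl.dvd_of_dvd_pow h6) h3

theorem DS.quart {a b A B : ℕ} (h : DS a b A B) :
    ∃ α β τ σ : ℕ, α * β = a ∧ τ * σ = b ∧ Nat.Coprime α β ∧ Nat.Coprime τ σ ∧
      τ ^ 4 + 3 * β ^ 4 = 4 * α ^ 4 ∧ 2 * σ ^ 4 + α ^ 4 = 3 * β ^ 4 ∧
      B = τ ^ 4 + 4 * σ ^ 4 := by
  obtain ⟨hc3A, hcbB⟩ := h.cop
  obtain ⟨ha, hb, hb3, hc, h1, h2⟩ := h
  have ha0 : 0 < a := by omega
  have hb0 : 0 < b := by omega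
  obtain ⟨h8, h9⟩ := sub_sq h1 h2
  have hcaA : Nat.Coprime a A := Nat.Coprime.coprime_dvd_left ⟨3, by ring⟩ hc3A
  have hA3 : A % 3 ≠ 0 := by
    have h3 := fo3' b
    have h4 := sq3 A
    clear h2 h8 h9
    omega
  have hAo : A % 2 = 1 := by
    have ha16 := fo16 ha
    have : A ^ 2 % 2 = 1 := by
      clear h2 h8 h9
      omega
    exact odd_of_pow two_ne_zero this
  have hBo : B % 2 = 1 := by
    have ha16 := fo16 ha
    have : B ^ 2 % 2 = 1 := by
      clear h1 h8 h9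
      omega
    exact odd_of_pow two_ne_zero this
  have hBA : A < B := by
    refine lt_of_pow_lt_pow_left₀ 2 (Nat.zero_le _) ?_
    rw [h8]
    exact Nat.lt_add_of_pos_right (by positivity)
  obtain ⟨r, hr⟩ : ∃ r, B = A + 2 * r := ⟨(B - A) / 2, by clear h1 h2 h8 h9; omega⟩
  have h3 : (A + r) * r = 3 * (2 * a ^ 4) := by
    have k0 : A ^ 2 + 4 * ((A + r) * r) = A ^ 2 + 4 * (3 * (2 * a ^ 4)) := by
      calc A ^ 2 + 4 * ((A + r) * r) = (A + 2 * r) ^ 2 := by ring
        _ = B ^ 2 := by rw [hr]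
        _ = A ^ 2 + 24 * a ^ 4 := h8
        _ = A ^ 2 + 4 * (3 * (2 * a ^ 4)) := by ring
    exact Nat.eq_of_mul_eq_mul_left (by norm_num) (Nat.add_left_cancel k0)
  have hcr : Nat.Coprime (A + r) r := by
    rw [Nat.coprime_add_self_left]
    by_contra hng
    obtain ⟨l, hl, h4, h5⟩ := Nat.Prime.not_coprime_iff_dvd.1 hng
    have h6 : l ∣ 3 * (2 * a ^ 4) := by
      rw [← h3]
      exact Dvd.dvd.mul_left h5 _
    rcases (Nat.Prime.dvd_mul hl).1 h6 with h7 | h7
    · have h8 : l = 3 := dvd3 hl (k := 1) (by simpa using h7)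
      rw [h8] at h4
      exact hA3 (Nat.mod_eq_zero_of_dvd h4)
    · rcases (Nat.Prime.dvd_mul hl).1 h7 with h8 | h8
      · have h9 : l = 2 := dvd2 hl (k := 1) (by simpa using h8)
        rw [h9] at h4
        have := Nat.mod_eq_zero_of_dvd h4
        omega
      · exact cop_no hcaA hl (hl.dvd_of_dvd_pow h8) h4
  have hB3A : 3 * A < B := by
    refine lt_of_pow_lt_pow_left₀ 2 (Nat.zero_le _) ?_
    have h5 : (3 * A) ^ 2 = 9 * A ^ 2 := by ring
    rw [h9, h5]
    exact Nat.lt_add_of_pos_right (by positivity)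
  obtain ⟨q, hq⟩ : ∃ q, B = 3 * A + 2 * q :=
    ⟨(B - 3 * A) / 2, by clear h1 h2 h3 h8 h9; omega⟩
  have h4 : (3 * A + q) * q = 4 * b ^ 4 := by
    have k0 : 9 * A ^ 2 + 4 * ((3 * A + q) * q) = 9 * A ^ 2 + 4 * (4 * b ^ 4) := by
      calc 9 * A ^ 2 + 4 * ((3 * A + q) * q) = (3 * A + 2 * q) ^ 2 := by ring
        _ = B ^ 2 := by rw [hq]
        _ = 9 * A ^ 2 + 16 * b ^ 4 := h9
        _ = 9 * A ^ 2 + 4 * (4 * b ^ 4) := by ring
    exact Nat.eq_of_mul_eq_mul_left (by norm_num) (Nat.add_left_cancel k0)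
  have hcq : Nat.Coprime (3 * A + q) q := by
    rw [Nat.coprime_add_self_left]
    by_contra hng
    obtain ⟨l, hl, h5, h6⟩ := Nat.Prime.not_coprime_iff_dvd.1 hng
    have h7 : l ∣ 4 * b ^ 4 := by
      rw [← h4]
      exact Dvd.dvd.mul_left h6 _
    rcases (Nat.Prime.dvd_mul hl).1 h7 with h8 | h8
    · have h10 : l = 2 := dvd2 hl (k := 2) (by simpa using h8)
      rw [h10] at h5
      have := Nat.mod_eq_zero_of_dvd h5
      clear h1 h2 h3 h4 h8 h9 h6 h7
      omega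
    · have h10 : l ∣ b := hl.dvd_of_dvd_pow h8
      rcases (Nat.Prime.dvd_mul hl).1 h5 with h11 | h11
      · have h12 : l = 3 := dvd3 hl (k := 1) (by simpa using h11)
        rw [h12] at h10
        exact hb3 (Nat.mod_eq_zero_of_dvd h10)
      · have h12 : l ∣ 3 * a ^ 4 := by
          rw [h1]
          exact dvd_add (Dvd.dvd.mul_left (dvd_pow h10 (by norm_num)) 2)
            (dvd_pow h11 two_ne_zero)
        rcases (Nat.Prime.dvd_mul hl).1 h12 with h13 | h13
        · have h14 : l = 3 := dvd3 hl (k := 1) (by simpa using h13)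
          rw [h14] at h10
          exact hb3 (Nat.mod_eq_zero_of_dvd h10)
        · exact cop_no hc hl (hl.dvd_of_dvd_pow h13) h10
  have e1 : (3 * A + q) + r = 2 * (A + r) := by
    clear h1 h2 h3 h4 h8 h9
    omega
  have e2 : q + (A + r) = 2 * r := by
    clear h1 h2 h3 h4 h8 h9
    omega
  obtain ⟨α, β, τ, σ, k1, k2, k3, k4, k5, k6, k7⟩ := bgfin' ha hb h3 h4 e1 e2 hcr hcq
  refine ⟨α, β, τ, σ, k1, k2, k3, k4, k5, k6, ?_⟩
  rw [← k7, hq]
  ring

end GF2
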