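import Pool.Agent.H.MP_81d9be_nt.Tools

/-!
# MP_81d9be_nt: `x ^ 4 + y ^ 4 = 2 z ^ 3`
-/

set_option autoImplicit false

namespace GF2

theorem gi_unit {w : GaussianInt} (h : IsUnit w) : w ^ 4 = 1 := by
  have h1 : w.norm.natAbs = 1 := Zsqrtd.norm_eq_one_iff.2 h
  have h2 : w.re * w.re + w.im * w.im = 1 := by
    have h3 : 0 ≤ w.norm := GaussianInt.norm_nonneg w
    have h4 : w.norm = 1 := by omega
    rw [Zsqrtd.norm_def] at h4
    linarith
  have hre : w.re ^ 2 ≤ 1 := by nlinarith [sq_nonneg w.im]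
  have him : w.im ^ 2 ≤ 1 := by nlinarith [sq_nonneg w.re]
  have hr : -1 ≤ w.re ∧ w.re ≤ 1 := abs_le.1 ((sq_le_one_iff_abs_le_one _).1 hre)
  have hi : -1 ≤ w.im ∧ w.im ≤ 1 := abs_le.1 ((sq_le_one_iff_abs_le_one _).1 him)
  obtain ⟨a, b⟩ := w
  simp only at h2 hr hi
  obtain ⟨h5, h6⟩ := hr
  obtain ⟨h7, h8⟩ := hi
  interval_cases a <;> interval_cases b <;> first | omega | rfl

theorem gauss_cube {u v z : ℤ} (hc : IsCoprime u v) (hz : z % 2 = 1)
    (h : u ^ 2 + v ^ 2 = z ^ 3) :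
    ∃ p q : ℤ, u = p ^ 3 - 3 * p * q ^ 2 ∧ v = 3 * p ^ 2 * q - q ^ 3 := by
  obtain ⟨a, b, hab⟩ := hc
  obtain ⟨k, hk⟩ : ∃ k, z ^ 3 = 2 * k + 1 := by
    obtain ⟨j, hj⟩ : ∃ j, z = 2 * j + 1 := ⟨z / 2, by omega⟩
    exact ⟨4 * j ^ 3 + 6 * j ^ 2 + 3 * j, by rw [hj]; ring⟩
  have hI : (⟨0, 1⟩ : GaussianInt) * ⟨0, 1⟩ = -1 := by
    ext <;> simp
  have hA : (⟨u, v⟩ : GaussianInt) = (u : GaussianInt) + (v : GaussianInt) * ⟨0, 1⟩ := by
    ext <;> simp
  have hB : (⟨u, -v⟩ : GaussianInt) = (u : GaussianInt) - (v : GaussianInt) * ⟨0, 1⟩ := by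
    ext <;> simp
  have hab' : (a : GaussianInt) * u + (b : GaussianInt) * v = 1 := by exact_mod_cast hab
  have hk' : (z : GaussianInt) ^ 3 = 2 * (k : GaussianInt) + 1 := by exact_mod_cast hk
  have h' : (u : GaussianInt) ^ 2 + (v : GaussianInt) ^ 2 = (z : GaussianInt) ^ 3 := by
    exact_mod_cast h
  have hmul : (⟨u, v⟩ : GaussianInt) * ⟨u, -v⟩ = (z : GaussianInt) ^ 3 := by
    rw [hA, hB]
    linear_combination h' - (v : GaussianInt) ^ 2 * hI
  have hcop : IsCoprime (⟨u, v⟩ : GaussianInt) ⟨u, -v⟩ := by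
    refine ⟨(⟨u, -v⟩ : GaussianInt) - k * a + k * b * ⟨0, 1⟩, - k * a - k * b * ⟨0, 1⟩, ?_⟩
    rw [hA, hB]
    linear_combination h' - (v : GaussianInt) ^ 2 * hI + hk' - 2 * (k : GaussianInt) * hab' +
      2 * (k : GaussianInt) * (b : GaussianInt) * (v : GaussianInt) * hI
  obtain ⟨d, w, hd⟩ := exists_associated_pow_of_mul_eq_pow' hcop hmul
  have hw : (w : GaussianInt) ^ 4 = 1 := gi_unit w.isUnit
  obtain ⟨g, hg⟩ : ∃ g : GaussianInt, (⟨u, v⟩ : GaussianInt) = g ^ 3 := by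
    refine ⟨d * (w : GaussianInt) ^ 3, ?_⟩
    rw [← hd]
    linear_combination (-d ^ 3 * (w : GaussianInt) * ((w : GaussianInt) ^ 4 + 1)) * hw
  obtain ⟨p, q⟩ := g
  have e1 := congrArg Zsqrtd.re hg
  have e2 := congrArg Zsqrtd.im hg
  refine ⟨p, q, ?_, ?_⟩
  · simp [pow_succ] at e1
    linear_combination e1
  · simp [pow_succ] at e2
    linear_combination e2

/-- Descent step. -/
theorem desc : ∀ N X Y m n : ℕ, X ^ 2 + Y ^ 2 = N → Nat.Coprime X Y → X % 2 = 1 → Y % 2 = 0 →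
    m ^ 2 + n ^ 2 = N → m * n = 2 * (X * Y) → Y = 0 := by
  intro N
  induction N using Nat.strong_induction_on with
  | _ N ih =>
  intro X Y m n h1 hc hX hY h2 h3
  by_contra hY0
  -- make `m` even
  obtain ⟨m', n, h2, h3, hn⟩ : ∃ m' n : ℕ, 4 * m' ^ 2 + n ^ 2 = N ∧ m' * n = X * Y ∧
      n % 2 = 1 := by
    have k1 := sq8o hX
    have k2 := sq16e hY
    rcases Nat.mod_two_eq_zero_or_one m with hm | hm
    · obtain ⟨m', rfl⟩ : ∃ m', m = 2 * m' := ⟨m / 2, by omega⟩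
      refine ⟨m', n, ?_, ?_, ?_⟩
      · rw [← h2]; ring
      · nlinarith
      · by_contra hn
        have k3 := sq16e (n := n) (by omega)
        have k4 := sq16e (n := 2 * m') (by omega)
        omega
    · have k3 := sq8o hm
      have hn : n % 2 = 0 := by
        by_contra hn
        have k4 := sq8o (n := n) (by omega)
        omega
      obtain ⟨n', rfl⟩ : ∃ n', n = 2 * n' := ⟨n / 2, by omega⟩
      refine ⟨n', m, ?_, ?_, hm⟩
      · rw [← h2]; ring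
      · nlinarith
  -- four numbers
  obtain ⟨γ, β, hγβ, e1, e2⟩ := Nat.exists_coprime m' X
  set α := Nat.gcd m' X with hα
  have hα0 : 0 < α := Nat.gcd_pos_of_pos_right _ (by omega)
  have hβ0 : 0 < β := by
    rcases Nat.eq_zero_or_pos β with h0 | h0
    · rw [h0] at e2
      omega
    · exact h0
  have h4 : γ * n = β * Y := by
    have : α * (γ * n) = α * (β * Y) := by
      calc α * (γ * n) = γ * α * n := by ring
        _ = m' * n := by rw [← e1]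
        _ = X * Y := h3
        _ = β * α * Y := by rw [← e2]
        _ = α * (β * Y) := by ring
    exact Nat.eq_of_mul_eq_mul_left hα0 this
  obtain ⟨δ, rfl⟩ : β ∣ n := hγβ.symm.dvd_of_dvd_mul_left ⟨Y, h4⟩
  have h5 : Y = γ * δ := by
    have : β * Y = β * (γ * δ) := by rw [← h4]; ring
    exact Nat.eq_of_mul_eq_mul_left hβ0 this
  have hαo : α % 2 = 1 := by
    by_contra h0
    obtain ⟨a, ha⟩ : ∃ a, α = 2 * a := ⟨α / 2, by omega⟩
    have : X = 2 * (β * a) := by rw [e2, ha]; ring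
    omega
  have hβo : β % 2 = 1 := by
    by_contra h0
    obtain ⟨a, ha⟩ : ∃ a, β = 2 * a := ⟨β / 2, by omega⟩
    have : X = 2 * (a * α) := by rw [e2, ha]; ring
    omega
  have hδo : δ % 2 = 1 := by
    by_contra h0
    obtain ⟨a, ha⟩ : ∃ a, δ = 2 * a := ⟨δ / 2, by omega⟩
    have : β * δ = 2 * (β * a) := by rw [ha]; ring
    omega
  have hγ0 : 0 < γ := by
    rcases Nat.eq_zero_or_pos γ with h0 | h0
    · rw [h0] at h5
      omega
    · exact h0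
  have hcαδ : Nat.Coprime α δ :=
    Nat.Coprime.coprime_dvd_left ⟨β, by rw [e2]; ring⟩
      (Nat.Coprime.coprime_dvd_right ⟨γ, by rw [h5]; ring⟩ hc)
  -- the equation
  have h6 : (β : ℤ) ^ 2 * ((α : ℤ) ^ 2 - (δ : ℤ) ^ 2) =
      (γ : ℤ) ^ 2 * (4 * (α : ℤ) ^ 2 - (δ : ℤ) ^ 2) := by
    have k1 : (X : ℤ) ^ 2 + (Y : ℤ) ^ 2 = 4 * (m' : ℤ) ^ 2 + ((β * δ : ℕ) : ℤ) ^ 2 := by
      exact_mod_cast h1.trans h2.symm
    rw [e1, e2, h5] at k1
    push_cast at k1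
    linear_combination k1
  have h7 : IsCoprime ((β : ℤ) ^ 2) ((γ : ℤ) ^ 2) :=
    IsCoprime.pow (Nat.isCoprime_iff_coprime.2 hγβ.symm)
  obtain ⟨k, hk⟩ : (β : ℤ) ^ 2 ∣ 4 * (α : ℤ) ^ 2 - (δ : ℤ) ^ 2 :=
    h7.dvd_of_dvd_mul_left ⟨_, h6.symm⟩
  have hβz : (β : ℤ) ^ 2 ≠ 0 := by positivity
  have hk2 : (α : ℤ) ^ 2 - (δ : ℤ) ^ 2 = (γ : ℤ) ^ 2 * k := by
    have : (β : ℤ) ^ 2 * ((α : ℤ) ^ 2 - (δ : ℤ) ^ 2) = (β : ℤ) ^ 2 * ((γ : ℤ) ^ 2 * k) := by
      rw [h6, hk]; ring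
    exact mul_left_cancel₀ hβz this
  have hk3 : k ∣ 3 := by
    obtain ⟨a, b, hab⟩ : IsCoprime ((α : ℤ) ^ 2) ((δ : ℤ) ^ 2) :=
      IsCoprime.pow (Nat.isCoprime_iff_coprime.2 hcαδ)
    refine ⟨a * ((β : ℤ) ^ 2 - (γ : ℤ) ^ 2) + b * ((β : ℤ) ^ 2 - 4 * (γ : ℤ) ^ 2), ?_⟩
    linear_combination -3 * hab + a * (hk - hk2) + b * (hk - 4 * hk2)
  have o1 : ((α : ℤ) ^ 2) % 8 = 1 := by exact_mod_cast sq8o hαo
  have o2 : ((β : ℤ) ^ 2) % 8 = 1 := by exact_mod_cast sq8o hβo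
  have o3 : ((δ : ℤ) ^ 2) % 8 = 1 := by exact_mod_cast sq8o hδo
  have hk4 : k = 3 := by
    have k1 : k ≤ 3 := Int.le_of_dvd (by norm_num) hk3
    have k2 : -3 ≤ k := by
      have := Int.le_of_dvd (by norm_num) ((neg_dvd).2 hk3)
      omega
    have k3 : k ≠ 0 := by
      rintro rfl
      omega
    have k4 : k ≠ 2 := by
      rintro rfl
      omega
    have k5 : k ≠ -2 := by
      rintro rfl
      omega
    have k6 : k ≠ 1 := by
      rintro rfl
      omega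
    have k7 : k ≠ -1 := by
      rintro rfl
      omega
    have k8 : k ≠ -3 := by
      rintro rfl
      omega
    omega
  subst hk4
  have t1 : α ^ 2 + γ ^ 2 = β ^ 2 := by
    zify
    linarith
  have t2 : δ ^ 2 + (2 * γ) ^ 2 = β ^ 2 := by
    zify
    linarith
  have c1 : Nat.Coprime α γ := by
    have h8 : Nat.Coprime (α ^ 2 + γ ^ 2) γ := by
      rw [t1]
      exact Nat.Coprime.pow_left 2 hγβ.symm
    have h9 : Nat.Coprime (α ^ 2) γ := by
      rw [sq γ, Nat.coprime_add_mul_right_left] at h8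
      exact h8
    exact (Nat.coprime_pow_left_iff (by norm_num) _ _).1 h9
  have c2 : Nat.Coprime δ (2 * γ) := by
    refine Nat.Coprime.mul_right ?_ ?_
    · rw [Nat.coprime_two_right]
      exact Nat.odd_iff.2 hδo
    · have h8 : Nat.Coprime (δ ^ 2 + (2 * γ) ^ 2) γ := by
        rw [t2]
        exact Nat.Coprime.pow_left 2 hγβ.symm
      have h9 : Nat.Coprime (δ ^ 2) γ := by
        have : δ ^ 2 + (2 * γ) ^ 2 = δ ^ 2 + (4 * γ) * γ := by ring
        rw [this, Nat.coprime_add_mul_right_left] at h8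
        exact h8
      exact (Nat.coprime_pow_left_iff (by norm_num) _ _).1 h9
  obtain ⟨v, w, p1, p2, p3, p4, -, p6, p7⟩ := pyth t1 c1 hαo hγ0
  obtain ⟨v', w', q1, q2, q3, q4, -, q6, q7⟩ := pyth t2 c2 hδo (by omega)
  have hlt : β < N := by
    have e3 : β ≤ X := by
      rw [e2]
      exact Nat.le_mul_of_pos_right β hα0
    have e4 : 0 < Y ^ 2 := by positivity
    have e5 : X ≤ X ^ 2 := Nat.le_self_pow two_ne_zero X
    omega
  have hγ' : (v' + w') * v' = γ := by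
    have : 2 * ((v' + w') * v') = 2 * γ := by rw [q6]; ring
    exact Nat.eq_of_mul_eq_mul_left two_pos this
  rcases Nat.mod_two_eq_zero_or_one v with hv | hv
  · have := ih β hlt (v + w) v (v' + w') v' p7.symm p3 (by omega) hv q7.symm
      (by rw [hγ', p6]; ring)
    omega
  · have := ih β hlt v (v + w) (v' + w') v' (by rw [p7]; ring) p3.symm hv (by omega) q7.symm
      (by rw [hγ', p6]; ring)
    omega

/-- The system `3 b ^ 4 - a ^ 4 = 2 A ^ 2`, `3 a ^ 4 - b ^ 4 = 2 B ^ 2`. -/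
theorem sys {a b A B : ℤ} (ha : a % 2 = 1) (hb : b % 2 = 1) (hc : IsCoprime a b)
    (h1 : 3 * b ^ 4 - a ^ 4 = 2 * A ^ 2) (h2 : 3 * a ^ 4 - b ^ 4 = 2 * B ^ 2) :
    a ^ 2 = b ^ 2 := by
  have oa : a ^ 2 % 8 = 1 := by
    have h : a % 8 = 1 ∨ a % 8 = 3 ∨ a % 8 = 5 ∨ a % 8 = 7 := by omega
    rcases h with h | h | h | h <;> simp [sq, Int.mul_emod, h]
  have ob : b ^ 2 % 8 = 1 := by
    have h : b % 8 = 1 ∨ b % 8 = 3 ∨ b % 8 = 5 ∨ b % 8 = 7 := by omega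
    rcases h with h | h | h | h <;> simp [sq, Int.mul_emod, h]
  have oa4 : a ^ 4 % 8 = 1 := by
    have : a ^ 4 = a ^ 2 * a ^ 2 := by ring
    rw [this, Int.mul_emod, oa]
    norm_num
  have ob4 : b ^ 4 % 8 = 1 := by
    have : b ^ 4 = b ^ 2 * b ^ 2 := by ring
    rw [this, Int.mul_emod, ob]
    norm_num
  have hA : A % 2 = 1 := by
    by_contra hf
    obtain ⟨c, rfl⟩ : ∃ c, A = 2 * c := ⟨A / 2, by omega⟩
    have : (2 * c) ^ 2 = 4 * c ^ 2 := by ring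
    omega
  have hB : B % 2 = 1 := by
    by_contra hf
    obtain ⟨c, rfl⟩ : ∃ c, B = 2 * c := ⟨B / 2, by omega⟩
    have : (2 * c) ^ 2 = 4 * c ^ 2 := by ring
    omega
  obtain ⟨P, hP⟩ : ∃ P, a ^ 2 + b ^ 2 = 2 * P := ⟨(a ^ 2 + b ^ 2) / 2, by omega⟩
  obtain ⟨Q, hQ⟩ : ∃ Q, a ^ 2 - b ^ 2 = 2 * Q := ⟨(a ^ 2 - b ^ 2) / 2, by omega⟩
  obtain ⟨M, hM⟩ : ∃ M, A + B = 2 * M := ⟨(A + B) / 2, by omega⟩
  obtain ⟨N, hN⟩ : ∃ N, A - B = 2 * N := ⟨(A - B) / 2, by omega⟩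
  have k1 : M ^ 2 + N ^ 2 = P ^ 2 + Q ^ 2 := by
    have : 4 * (M ^ 2 + N ^ 2) = 4 * (P ^ 2 + Q ^ 2) := by
      linear_combination (-(A + B + 2 * M)) * hM + (-(A - B + 2 * N)) * hN +
        (a ^ 2 + b ^ 2 + 2 * P) * hP + (a ^ 2 - b ^ 2 + 2 * Q) * hQ - h1 - h2
    omega
  have k2 : M * N = -(2 * (P * Q)) := by
    have : 8 * (M * N) = 8 * (-(2 * (P * Q))) := by
      linear_combination -2 * (A - B) * hM - 4 * M * hN - h1 + h2 - 4 * (a ^ 2 - b ^ 2) * hP -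
        8 * P * hQ
    omega
  have hPQ : IsCoprime P Q := by
    obtain ⟨c, d, hcd⟩ : IsCoprime (a ^ 2) (b ^ 2) := hc.pow
    have e1 : a ^ 2 = P + Q := by omega
    have e2 : b ^ 2 = P - Q := by omega
    rw [e1, e2] at hcd
    exact ⟨c + d, c - d, by linear_combination hcd⟩
  have k3 : Q.natAbs = 0 := by
    refine desc _ P.natAbs Q.natAbs M.natAbs N.natAbs rfl (Int.isCoprime_iff_nat_coprime.1 hPQ)
      (by omega) (by omega) ?_ ?_
    · zify
      simpa only [sq_abs] using k1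
    · rw [← Int.natAbs_mul, ← Int.natAbs_mul, k2, Int.natAbs_neg, Int.natAbs_mul]
      rfl
  have k4 : Q = 0 := Int.natAbs_eq_zero.1 k3
  omega

theorem mod16 {a : ℤ} (h : a % 2 = 1) : a ^ 4 % 16 = 1 := by
  have h1 : a % 16 = 1 ∨ a % 16 = 3 ∨ a % 16 = 5 ∨ a % 16 = 7 ∨ a % 16 = 9 ∨ a % 16 = 11 ∨
      a % 16 = 13 ∨ a % 16 = 15 := by omega
  rcases h1 with h | h | h | h | h | h | h | h <;> simp [pow_succ, Int.mul_emod, h]

theorem sq8z (a : ℤ) : a ^ 2 % 8 = 0 ∨ a ^ 2 % 8 = 1 ∨ a ^ 2 % 8 = 4 := by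
  have h1 : a % 8 = 0 ∨ a % 8 = 1 ∨ a % 8 = 2 ∨ a % 8 = 3 ∨ a % 8 = 4 ∨ a % 8 = 5 ∨
      a % 8 = 6 ∨ a % 8 = 7 := by omega
  rcases h1 with h | h | h | h | h | h | h | h <;> simp [sq, Int.mul_emod, h]

theorem sq8zo {a : ℤ} (h : a % 2 = 1) : a ^ 2 % 8 = 1 := by
  have h1 : a % 8 = 1 ∨ a % 8 = 3 ∨ a % 8 = 5 ∨ a % 8 = 7 := by omega
  rcases h1 with h | h | h | h <;> simp [sq, Int.mul_emod, h]

/-- No solution with `3 ∣ t`. -/
theorem bad {s t f g x y : ℤ} (hs : s % 2 = 1) (ht : t % 2 = 1) (hc : IsCoprime t s)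
    (h1 : t * f = x ^ 2) (h2 : s * g = y ^ 2) (h3 : 2 * f = 3 * s ^ 2 - t ^ 2)
    (h4 : 2 * g = 3 * t ^ 2 - s ^ 2) (h5 : t % 3 = 0) : False := by
  obtain ⟨t', rfl⟩ : ∃ t', t = 3 * t' := ⟨t / 3, by omega⟩
  have ht' : t' % 2 = 1 := by omega
  have hc3 : IsCoprime 3 s := IsCoprime.of_mul_left_left hc
  have hct : IsCoprime t' s := IsCoprime.of_mul_left_right hc
  obtain ⟨f', rfl⟩ : ∃ f', f = 3 * f' := by
    have : (3 * t') ^ 2 = 9 * t' ^ 2 := by ring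
    exact ⟨f / 3, by omega⟩
  have h6 : 2 * f' = s ^ 2 - 3 * t' ^ 2 := by
    have : (3 * t') ^ 2 = 9 * t' ^ 2 := by ring
    omega
  obtain ⟨x', rfl⟩ : ∃ x', x = 3 * x' := by
    have h7 : (3 : ℤ) ∣ x ^ 2 := ⟨t' * (3 * f'), by rw [← h1]; ring⟩
    exact Int.prime_three.dvd_of_dvd_pow h7
  have h7 : t' * f' = x' ^ 2 := by
    have : 9 * (t' * f') = 9 * x' ^ 2 := by linear_combination h1
    omega
  have h8 : IsCoprime t' f' := by
    have h9 : IsCoprime t' (s ^ 2 + t' * (-3 * t')) :=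
      IsCoprime.add_mul_left_right hct.pow_right _
    have h10 : s ^ 2 + t' * (-3 * t') = 2 * f' := by rw [h6]; ring
    rw [h10] at h9
    exact IsCoprime.of_mul_right_right h9
  obtain ⟨a, ha⟩ := Int.sq_of_isCoprime h8 h7
  have h9 : IsCoprime s g := by
    have h10 : IsCoprime s (27 * t' ^ 2) := by
      have : (27 : ℤ) * t' ^ 2 = 3 ^ 3 * t' ^ 2 := by norm_num
      rw [this]
      exact IsCoprime.mul_right hc3.symm.pow_right hct.symm.pow_right
    have h11 : IsCoprime s (27 * t' ^ 2 + s * (-s)) := IsCoprime.add_mul_left_right h10 _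
    have h12 : 27 * t' ^ 2 + s * (-s) = 2 * g := by rw [h4]; ring
    rw [h12] at h11
    exact IsCoprime.of_mul_right_right h11
  obtain ⟨b, hb⟩ := Int.sq_of_isCoprime h9 h2
  obtain ⟨B, hB⟩ := Int.sq_of_isCoprime h9.symm (by rw [mul_comm]; exact h2)
  have ha2 : t' ^ 2 = a ^ 4 := by
    rcases ha with h | h <;> rw [h] <;> ring
  have hb2 : s ^ 2 = b ^ 4 := by
    rcases hb with h | h <;> rw [h] <;> ring
  have hao : a % 2 = 1 := by
    by_contra hf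
    obtain ⟨c, rfl⟩ : ∃ c, a = 2 * c := ⟨a / 2, by omega⟩
    have : (2 * c) ^ 2 = 4 * c ^ 2 := by ring
    omega
  have hbo : b % 2 = 1 := by
    by_contra hf
    obtain ⟨c, rfl⟩ : ∃ c, b = 2 * c := ⟨b / 2, by omega⟩
    have : (2 * c) ^ 2 = 4 * c ^ 2 := by ring
    omega
  have k1 := mod16 hao
  have k2 := mod16 hbo
  have k3 := sq8z B
  have k4 : (3 * t') ^ 2 = 9 * t' ^ 2 := by ring
  omega

/-- The integer solutions of `x ^ 4 + y ^ 4 = 2 z ^ 3` with `x`, `y` coprime. -/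
theorem E1 {x y z : ℤ} (hc : IsCoprime x y) (h : x ^ 4 + y ^ 4 = 2 * z ^ 3) :
    x ^ 2 = 1 ∧ y ^ 2 = 1 ∧ z = 1 := by
  have hodd : x % 2 = 1 ∧ y % 2 = 1 := by
    have h1 : (x ^ 4 + y ^ 4) % 2 = 0 := by omega
    rcases Int.emod_two_eq_zero_or_one x with hx | hx
    · exfalso
      rcases Int.emod_two_eq_zero_or_one y with hy | hy
      · obtain ⟨a, b, hab⟩ := hc
        have h2 : (2 : ℤ) ∣ a * x + b * y :=
          dvd_add (Dvd.dvd.mul_left (Int.dvd_of_emod_eq_zero hx) a)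
            (Dvd.dvd.mul_left (Int.dvd_of_emod_eq_zero hy) b)
        rw [hab] at h2
        omega
      · simp [Int.mul_emod, Int.add_emod, hx, hy, pow_succ] at h1
    · rcases Int.emod_two_eq_zero_or_one y with hy | hy
      · exfalso
        simp [Int.mul_emod, Int.add_emod, hx, hy, pow_succ] at h1
      · exact ⟨hx, hy⟩
  obtain ⟨hx, hy⟩ := hodd
  have ox := sq8zo hx
  have oy := sq8zo hy
  obtain ⟨U, hU⟩ : ∃ U, x ^ 2 + y ^ 2 = 2 * U := ⟨(x ^ 2 + y ^ 2) / 2, by omega⟩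
  obtain ⟨V, hV⟩ : ∃ V, x ^ 2 - y ^ 2 = 2 * V := ⟨(x ^ 2 - y ^ 2) / 2, by omega⟩
  have e1 : x ^ 2 = U + V := by omega
  have e2 : y ^ 2 = U - V := by omega
  have hUV : IsCoprime U V := by
    obtain ⟨c, d, hcd⟩ : IsCoprime (x ^ 2) (y ^ 2) := hc.pow
    rw [e1, e2] at hcd
    exact ⟨c + d, c - d, by linear_combination hcd⟩
  have h1 : U ^ 2 + V ^ 2 = z ^ 3 := by
    have : 2 * (U ^ 2 + V ^ 2) = 2 * z ^ 3 := by
      rw [← h]
      linear_combination (-(x ^ 2 + U + V)) * e1 - (y ^ 2 + U - V) * e2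
    omega
  have hz : z % 2 = 1 := by
    by_contra hf
    obtain ⟨c, rfl⟩ : ∃ c, z = 2 * c := ⟨z / 2, by omega⟩
    have k1 : (2 * c) ^ 3 = 8 * c ^ 3 := by ring
    have k2 := mod16 hx
    have k3 := mod16 hy
    omega
  obtain ⟨p, q, hp, hq⟩ := gauss_cube hUV hz h1
  -- the factors
  set s := p + q with hs
  set t := p - q with ht
  set f := p ^ 2 + 4 * p * q + q ^ 2 with hf
  set g := p ^ 2 - 4 * p * q + q ^ 2 with hg
  have k1 : t * f = x ^ 2 := by rw [e1, hp, hq, ht, hf]; ring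
  have k2 : s * g = y ^ 2 := by rw [e2, hp, hq, hs, hg]; ring
  have k3 : 2 * f = 3 * s ^ 2 - t ^ 2 := by rw [hs, ht, hf]; ring
  have k4 : 2 * g = 3 * t ^ 2 - s ^ 2 := by rw [hs, ht, hg]; ring
  have hto : t % 2 = 1 := by
    by_contra h0
    obtain ⟨c, hc'⟩ : ∃ c, t = 2 * c := ⟨t / 2, by omega⟩
    have : x ^ 2 = 2 * (c * f) := by rw [← k1, hc']; ring
    omega
  have hso : s % 2 = 1 := by
    by_contra h0
    obtain ⟨c, hc'⟩ : ∃ c, s = 2 * c := ⟨s / 2, by omega⟩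
    have : y ^ 2 = 2 * (c * g) := by rw [← k2, hc']; ring
    omega
  have hc2 : IsCoprime (t * f) (s * g) := by
    rw [k1, k2]
    exact hc.pow
  have hts : IsCoprime t s :=
    IsCoprime.of_mul_left_left (IsCoprime.of_mul_right_left hc2)
  have ht3 : t % 3 ≠ 0 := fun h0 => bad hso hto hts k1 k2 k3 k4 h0
  have hs3 : s % 3 ≠ 0 := fun h0 => bad hto hso hts.symm k2 k1 k4 k3 h0
  have ct3 : IsCoprime t 3 := by
    refine IsCoprime.symm ?_
    rw [Int.prime_three.coprime_iff_not_dvd]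
    omega
  have cs3 : IsCoprime s 3 := by
    refine IsCoprime.symm ?_
    rw [Int.prime_three.coprime_iff_not_dvd]
    omega
  have ctf : IsCoprime t f := by
    have h9 : IsCoprime t (3 * s ^ 2 + t * (-t)) :=
      IsCoprime.add_mul_left_right (IsCoprime.mul_right ct3 hts.pow_right) _
    have h10 : 3 * s ^ 2 + t * (-t) = 2 * f := by rw [k3]; ring
    rw [h10] at h9
    exact IsCoprime.of_mul_right_right h9
  have csg : IsCoprime s g := by
    have h9 : IsCoprime s (3 * t ^ 2 + s * (-s)) :=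
      IsCoprime.add_mul_left_right (IsCoprime.mul_right cs3 hts.symm.pow_right) _
    have h10 : 3 * t ^ 2 + s * (-s) = 2 * g := by rw [k4]; ring
    rw [h10] at h9
    exact IsCoprime.of_mul_right_right h9
  have os := sq8zo hso
  have ot := sq8zo hto
  obtain ⟨A, hA⟩ : ∃ A, f = A ^ 2 := by
    obtain ⟨A, hA⟩ := Int.sq_of_isCoprime ctf.symm (by rw [mul_comm]; exact k1)
    rcases hA with h | h
    · exact ⟨A, h⟩
    · exfalso
      have := sq8z A
      omega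
  obtain ⟨B, hB⟩ : ∃ B, g = B ^ 2 := by
    obtain ⟨A, hA⟩ := Int.sq_of_isCoprime csg.symm (by rw [mul_comm]; exact k2)
    rcases hA with h | h
    · exact ⟨A, h⟩
    · exfalso
      have := sq8z A
      omega
  obtain ⟨a, ha⟩ : ∃ a, t = a ^ 2 := by
    obtain ⟨a, ha⟩ := Int.sq_of_isCoprime ctf k1
    rcases ha with h | h
    · exact ⟨a, h⟩
    · exfalso
      have h2 : t * f ≤ 0 := by
        rw [h, hA]
        have : 0 ≤ a ^ 2 * A ^ 2 := by positivity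
        linarith
      have h3 : 0 < x ^ 2 := by
        have : x ≠ 0 := by omega
        positivity
      omega
  obtain ⟨b, hb⟩ : ∃ b, s = b ^ 2 := by
    obtain ⟨a, ha⟩ := Int.sq_of_isCoprime csg k2
    rcases ha with h | h
    · exact ⟨a, h⟩
    · exfalso
      have h2 : s * g ≤ 0 := by
        rw [h, hB]
        have : 0 ≤ a ^ 2 * B ^ 2 := by positivity
        linarith
      have h3 : 0 < y ^ 2 := by
        have : y ≠ 0 := by omega
        positivity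
      omega
  have hao : a % 2 = 1 := by
    by_contra hf
    obtain ⟨c, rfl⟩ : ∃ c, a = 2 * c := ⟨a / 2, by omega⟩
    have : (2 * c) ^ 2 = 4 * c ^ 2 := by ring
    omega
  have hbo : b % 2 = 1 := by
    by_contra hf
    obtain ⟨c, rfl⟩ : ∃ c, b = 2 * c := ⟨b / 2, by omega⟩
    have : (2 * c) ^ 2 = 4 * c ^ 2 := by ring
    omega
  have hab : IsCoprime a b := by
    rw [ha, hb] at hts
    exact (IsCoprime.pow_left_iff two_pos).1 ((IsCoprime.pow_right_iff two_pos).1 hts)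
  have hfin := sys hao hbo hab (A := A) (B := B) (by rw [← hA, k3, ha, hb]; ring)
    (by rw [← hB, k4, ha, hb]; ring)
  have hst : t = s := by rw [ha, hb, hfin]
  have hq0 : q = 0 := by omega
  have hp1 : IsUnit s := by
    rw [hst] at hts
    exact isCoprime_self.1 hts
  have hs1 : s = 1 := by
    rcases Int.isUnit_iff.1 hp1 with h | h
    · exact h
    · exfalso
      have : 0 ≤ b ^ 2 := sq_nonneg b
      omega
  have hp1 : p = 1 := by omega
  rw [hp1, hq0] at hp hq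
  have hU1 : U = 1 := by rw [hp]; norm_num
  have hV1 : V = 0 := by rw [hq]; norm_num
  refine ⟨by omega, by omega, ?_⟩
  rw [hU1, hV1] at h1
  have h5 : z ^ 3 = 1 := by rw [← h1]; norm_num
  have h6 : (z - 1) * (z ^ 2 + z + 1) = 0 := by linear_combination h5
  rcases mul_eq_zero.1 h6 with h7 | h7
  · omega
  · nlinarith [sq_nonneg (2 * z + 1)]

end GF2
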