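import Pool.Agent.H.MP_81d9be_nt.Eis
import Pool.Agent.H.MP_81d9be_nt.E1

/-!
# MP_81d9be_nt: `X ^ 3 + Y ^ 3 = 4 Z ^ 3` and `x ^ 4 - y ^ 4 = 2 z ^ 3`
-/

set_option autoImplicit false

namespace GF2

theorem cube_of {a b c : ℤ} (h : IsCoprime a b) (e : a * b = c ^ 3) : ∃ d, a = d ^ 3 :=
  Int.eq_pow_of_mul_eq_pow_odd_left h (by decide) e

theorem three' {A B C a : ℤ} (h : A + B = C) (hAB : IsCoprime A B) (hp : A * B * C = 4 * a ^ 3)
    (hC : C % 2 = 0) : ∃ X Y Z : ℤ, X ^ 3 + Y ^ 3 = 4 * Z ^ 3 ∧ IsCoprime X Y ∧ Z ∣ a := by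
  have hAC : IsCoprime A C := by
    rw [← h]
    have := IsCoprime.add_mul_left_right hAB 1
    rwa [mul_one, add_comm] at this
  have hBC : IsCoprime B C := by
    rw [← h]
    have := IsCoprime.add_mul_left_right hAB.symm 1
    rwa [mul_one] at this
  have hABC : IsCoprime (A * B) C := IsCoprime.mul_left hAC hBC
  have h2C : (2 : ℤ) ∣ C := Int.dvd_of_emod_eq_zero hC
  have h2AB : IsCoprime (2 : ℤ) (A * B) := (hABC.symm).of_isCoprime_of_dvd_left h2C
  have h4AB : IsCoprime (4 : ℤ) (A * B) := by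
    have e4 : (4 : ℤ) = 2 ^ 2 := by norm_num
    rw [e4]
    exact h2AB.pow_left
  obtain ⟨D, rfl⟩ : (4 : ℤ) ∣ C := h4AB.dvd_of_dvd_mul_left ⟨a ^ 3, hp⟩
  have h1 : D * (A * B) = a ^ 3 := by
    have : 4 * (D * (A * B)) = 4 * a ^ 3 := by rw [← hp]; ring
    omega
  have hDAB : IsCoprime D (A * B) := IsCoprime.of_mul_left_right hABC.symm
  obtain ⟨Z, hZ⟩ := cube_of hDAB h1
  obtain ⟨X, hX⟩ : ∃ X, A = X ^ 3 := by
    refine cube_of (b := B * D) (c := a) ?_ (by rw [← h1]; ring)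
    exact IsCoprime.mul_right hAB (IsCoprime.of_mul_right_left hDAB).symm
  obtain ⟨Y, hY⟩ : ∃ Y, B = Y ^ 3 := by
    refine cube_of (b := A * D) (c := a) ?_ (by rw [← h1]; ring)
    exact IsCoprime.mul_right hAB.symm (IsCoprime.of_mul_right_right hDAB).symm
  refine ⟨X, Y, Z, by rw [← hX, ← hY, ← hZ, h], ?_, ?_⟩
  · rw [hX, hY] at hAB
    exact (IsCoprime.pow_left_iff (by norm_num)).1 ((IsCoprime.pow_right_iff (by norm_num)).1 hAB)
  · rw [← Int.pow_dvd_pow_iff (n := 3) (by norm_num), ← hZ, ← h1]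
    exact Dvd.intro _ rfl

theorem three {A B C a : ℤ} (h : A + B = C) (hAB : IsCoprime A B) (hp : A * B * C = 4 * a ^ 3) :
    ∃ X Y Z : ℤ, X ^ 3 + Y ^ 3 = 4 * Z ^ 3 ∧ IsCoprime X Y ∧ Z ∣ a := by
  rcases Int.emod_two_eq_zero_or_one C with hC | hC
  · exact three' h hAB hp hC
  · rcases Int.emod_two_eq_zero_or_one A with hA | hA
    · refine three' (A := C) (B := -B) (C := A) (a := -a) (by omega) ?_ ?_ hA |>.imp
        fun X hX => ?_
      · rw [← h]
        have := IsCoprime.add_mul_left_left hAB 1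
        rw [mul_one] at this
        exact this.neg_right
      · linear_combination -hp
      · simpa only [dvd_neg] using hX
    · have hB : B % 2 = 0 := by omega
      refine three' (A := C) (B := -A) (C := B) (a := -a) (by omega) ?_ ?_ hB |>.imp
        fun X hX => ?_
      · rw [← h]
        have := IsCoprime.add_mul_left_left hAB.symm 1
        rw [mul_one, add_comm] at this
        exact this.neg_right
      · linear_combination -hp
      · simpa only [dvd_neg] using hX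

theorem cop_cd {S T c d : ℤ} (hc : IsCoprime S T) (h1 : 2 * T = 3 * (c * d * (c - d)))
    (h2 : S + T = c ^ 3 - 3 * c * d ^ 2 + d ^ 3) : IsCoprime c d := by
  rw [Int.isCoprime_iff_gcd_eq_one]
  by_contra hng
  obtain ⟨l, hl, hlc, hld⟩ := Nat.Prime.not_coprime_iff_dvd.1 hng
  obtain ⟨c', rfl⟩ : (l : ℤ) ∣ c := Int.natCast_dvd.2 hlc
  obtain ⟨d', rfl⟩ : (l : ℤ) ∣ d := Int.natCast_dvd.2 hld
  have hev : (c' * d' * (c' - d')) % 2 = 0 := by
    rcases Int.emod_two_eq_zero_or_one c' with hc | hc <;>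
    rcases Int.emod_two_eq_zero_or_one d' with hd | hd <;>
    simp [Int.sub_emod, Int.mul_emod, hc, hd]
  obtain ⟨e, he⟩ : ∃ e, c' * d' * (c' - d') = 2 * e := ⟨c' * d' * (c' - d') / 2, by omega⟩
  have hT : T = (l : ℤ) * (3 * (l : ℤ) ^ 2 * e) := by
    have : 2 * T = 2 * ((l : ℤ) * (3 * (l : ℤ) ^ 2 * e)) := by
      linear_combination h1 + 3 * (l : ℤ) ^ 3 * he
    omega
  have hS : (l : ℤ) ∣ S := by
    refine ⟨(l : ℤ) ^ 2 * (c' ^ 3 - 3 * c' * d' ^ 2 + d' ^ 3) - 3 * (l : ℤ) ^ 2 * e, ?_⟩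
    linear_combination h2 - hT
  have h3 : IsUnit (l : ℤ) := hc.isUnit_of_dvd' hS ⟨_, hT⟩
  rw [Int.isUnit_iff] at h3
  have := hl.two_le
  omega

/-- `X ^ 3 + Y ^ 3 = 4 Z ^ 3` has only the solutions with `Z = 0`. -/
theorem four3 : ∀ n : ℕ, ∀ X Y Z : ℤ, Z.natAbs = n → IsCoprime X Y → X ^ 3 + Y ^ 3 = 4 * Z ^ 3 →
    Z = 0 := by
  intro n
  induction n using Nat.strong_induction_on with
  | _ n ih =>
  intro x y Z hn hc h
  by_contra hZ
  have hodd : x % 2 = 1 ∧ y % 2 = 1 := by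
    have h1 : (x ^ 3 + y ^ 3) % 2 = 0 := by omega
    rcases Int.emod_two_eq_zero_or_one x with hx | hx
    · exfalso
      rcases Int.emod_two_eq_zero_or_one y with hy | hy
      · obtain ⟨a, b, hab⟩ := hc
        have h2 : (2 : ℤ) ∣ a * x + b * y :=
          dvd_add (Dvd.dvd.mul_left (Int.dvd_of_emod_eq_zero hx) a)
            (Dvd.dvd.mul_left (Int.dvd_of_emod_eq_zero hy) b)
        rw [hab] at h2
        omega
      · simp [Int.mul_emod, Int.add_emod, hx, hy, pow_succ] at h1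
    · rcases Int.emod_two_eq_zero_or_one y with hy | hy
      · exfalso
        simp [Int.mul_emod, Int.add_emod, hx, hy, pow_succ] at h1
      · exact ⟨hx, hy⟩
  obtain ⟨S, hS⟩ : ∃ S, x + y = 2 * S := ⟨(x + y) / 2, by omega⟩
  obtain ⟨T, hT⟩ : ∃ T, x - y = 2 * T := ⟨(x - y) / 2, by omega⟩
  have hx : x = S + T := by omega
  have hy : y = S - T := by omega
  subst hx hy
  have h1 : S * (S ^ 2 + 3 * T ^ 2) = 2 * Z ^ 3 := by
    have : 2 * (S * (S ^ 2 + 3 * T ^ 2)) = 2 * (2 * Z ^ 3) := by linear_combination h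
    omega
  have hST : IsCoprime S T := by
    obtain ⟨a, b, hab⟩ := hc
    exact ⟨a + b, a - b, by linear_combination hab⟩
  have hodd2 : (S ^ 2 + 3 * T ^ 2) % 2 = 1 := by
    rcases Int.emod_two_eq_zero_or_one S with hs | hs <;>
    rcases Int.emod_two_eq_zero_or_one T with ht | ht
    · omega
    · simp [Int.add_emod, Int.mul_emod, pow_succ, hs, ht]
    · simp [Int.add_emod, Int.mul_emod, pow_succ, hs, ht]
    · omega
  have hS2 : S % 2 = 0 := by
    rcases Int.emod_two_eq_zero_or_one S with hs | hs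
    · exact hs
    · exfalso
      have : (S * (S ^ 2 + 3 * T ^ 2)) % 2 = 1 := by
        rw [Int.mul_emod, hs, hodd2]
        norm_num
      omega
  obtain ⟨S1, rfl⟩ : ∃ S1, S = 2 * S1 := ⟨S / 2, by omega⟩
  have hS10 : S1 ≠ 0 := by
    rintro rfl
    have h2 : Z ^ 3 = 0 := by
      have : 2 * Z ^ 3 = 0 := by rw [← h1]; ring
      omega
    exact hZ (pow_eq_zero_iff (by norm_num) |>.1 h2)
  have h2 : S1 * ((2 * S1) ^ 2 + 3 * T ^ 2) = Z ^ 3 := by
    have : 2 * (S1 * ((2 * S1) ^ 2 + 3 * T ^ 2)) = 2 * Z ^ 3 := by linear_combination h1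
    omega
  have hS1T : IsCoprime S1 T := IsCoprime.of_mul_left_right hST
  by_cases h3 : S1 % 3 = 0
  · obtain ⟨S', rfl⟩ : ∃ S', S1 = 3 * S' := ⟨S1 / 3, by omega⟩
    have hT3 : T % 3 ≠ 0 := by
      intro h0
      have h3' : IsUnit (3 : ℤ) :=
        hS1T.isUnit_of_dvd' ⟨S', rfl⟩ (Int.dvd_of_emod_eq_zero h0)
      rw [Int.isUnit_iff] at h3'
      omega
    obtain ⟨Z', rfl⟩ : (3 : ℤ) ∣ Z := by
      refine Int.prime_three.dvd_of_dvd_pow (n := 3)
        ⟨S' * ((2 * (3 * S')) ^ 2 + 3 * T ^ 2), ?_⟩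
      rw [← h2]
      ring
    have h4 : S' * (12 * S' ^ 2 + T ^ 2) = 3 * Z' ^ 3 := by
      have : 9 * (S' * (12 * S' ^ 2 + T ^ 2)) = 9 * (3 * Z' ^ 3) := by linear_combination h2
      omega
    have hT9 : T ^ 2 % 3 = 1 := by
      have : T % 3 = 1 ∨ T % 3 = 2 := by omega
      rcases this with h | h <;> simp [sq, Int.mul_emod, h]
    obtain ⟨S'', rfl⟩ : (3 : ℤ) ∣ S' := by
      have : IsCoprime (3 : ℤ) (12 * S' ^ 2 + T ^ 2) := by
        rw [Int.prime_three.coprime_iff_not_dvd]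
        omega
      exact this.dvd_of_dvd_mul_right ⟨Z' ^ 3, h4⟩
    have h5 : S'' * (T ^ 2 + 3 * (6 * S'') ^ 2) = Z' ^ 3 := by
      have : 3 * (S'' * (T ^ 2 + 3 * (6 * S'') ^ 2)) = 3 * Z' ^ 3 := by linear_combination h4
      omega
    have hc1 : IsCoprime S'' T :=
      IsCoprime.of_mul_left_right (IsCoprime.of_mul_left_right hS1T)
    have hc2 : IsCoprime S'' (T ^ 2 + 3 * (6 * S'') ^ 2) := by
      have : T ^ 2 + 3 * (6 * S'') ^ 2 = T ^ 2 + S'' * (108 * S'') := by ring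
      rw [this]
      exact IsCoprime.add_mul_left_right hc1.pow_right _
    obtain ⟨a, ha⟩ := cube_of hc2 h5
    obtain ⟨b, hb⟩ := cube_of hc2.symm (by rw [mul_comm]; exact h5)
    have hTo : T % 2 = 1 := by omega
    have hb2 : b % 2 = 1 := by
      by_contra hf
      obtain ⟨b', rfl⟩ : ∃ b', b = 2 * b' := ⟨b / 2, by omega⟩
      have e1 : (2 * b') ^ 3 = 8 * b' ^ 3 := by ring
      have e2 : (6 * S'') ^ 2 = 36 * S'' ^ 2 := by ring
      have e3 := sq8zo hTo
      omega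
    have hc3 : IsCoprime T (6 * S'') := by
      have e1 : (6 : ℤ) * S'' = 2 * 3 * S'' := by norm_num
      rw [e1]
      refine IsCoprime.mul_right (IsCoprime.mul_right ?_ ?_) hc1.symm
      · exact ((IsCoprime.of_mul_left_left hST)).symm
      · exact ((IsCoprime.of_mul_left_left hS1T)).symm
    obtain ⟨c, d, k1, k2⟩ := cube3 hc3 hb2 hb
    have hcd := cop_cd hc3 k1 k2
    have k3 : d * (c - d) * c = 4 * a ^ 3 := by
      rw [← ha]
      have : 3 * (d * (c - d) * c) = 3 * (4 * S'') := by linear_combination -k1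
      omega
    have hcd2 : IsCoprime d (c - d) := by
      have := IsCoprime.add_mul_left_right hcd.symm (-1)
      rw [mul_neg, mul_one, ← sub_eq_add_neg] at this
      exact this
    obtain ⟨X, Y, W, m1, m2, m3⟩ := three (by ring) hcd2 k3
    have ha0 : a ≠ 0 := by
      rintro rfl
      apply hS10
      rw [ha]
      norm_num
    have hZ'0 : Z' ≠ 0 := by
      rintro rfl
      exact hZ (by norm_num)
    have m4 : W.natAbs ≤ a.natAbs := Int.natAbs_le_of_dvd_ne_zero m3 ha0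
    have m5 : a ∣ Z' := by
      rw [← Int.pow_dvd_pow_iff (n := 3) (by norm_num), ← ha, ← h5]
      exact Dvd.intro _ rfl
    have m6 : a.natAbs ≤ Z'.natAbs := Int.natAbs_le_of_dvd_ne_zero m5 hZ'0
    have m7 : W = 0 := ih W.natAbs (by omega) X Y W rfl m2 m1
    have m8 : a = 0 := by
      rw [m7] at m3
      exact zero_dvd_iff.1 m3
    exact ha0 m8
  · have hc2 : IsCoprime S1 ((2 * S1) ^ 2 + 3 * T ^ 2) := by
      have : (2 * S1) ^ 2 + 3 * T ^ 2 = 3 * T ^ 2 + S1 * (4 * S1) := by ring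
      rw [this]
      refine IsCoprime.add_mul_left_right (IsCoprime.mul_right ?_ hS1T.pow_right) _
      refine IsCoprime.symm ?_
      rw [Int.prime_three.coprime_iff_not_dvd]
      omega
    obtain ⟨a, ha⟩ := cube_of hc2 h2
    obtain ⟨b, hb⟩ := cube_of hc2.symm (by rw [mul_comm]; exact h2)
    have hb2 : b % 2 = 1 := by
      by_contra hf
      obtain ⟨b', rfl⟩ : ∃ b', b = 2 * b' := ⟨b / 2, by omega⟩
      have e1 : (2 * b') ^ 3 = 8 * b' ^ 3 := by ring
      omega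
    obtain ⟨c, d, k1, k2⟩ := cube3 hST hb2 hb
    have hcd := cop_cd hST k1 k2
    have k3 : (c - 2 * d) * (c + d) * (2 * c - d) = 4 * a ^ 3 := by
      rw [← ha]
      linear_combination -2 * k2 + k1
    have hcd2 : IsCoprime (c - 2 * d) (c + d) := by
      have e1 : IsCoprime (c + d) (3 : ℤ) := by
        refine IsCoprime.symm ?_
        rw [Int.prime_three.coprime_iff_not_dvd]
        rintro ⟨e, he⟩
        have : 4 * S1 = 3 * ((c - 2 * d) * e * (2 * c - d)) := by
          have hS1a : 4 * S1 = 4 * a ^ 3 := by rw [ha]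
          rw [hS1a, ← k3, he]
          ring
        omega
      have e2 : IsCoprime (c + d) d := by
        have := IsCoprime.add_mul_left_left hcd 1
        rwa [mul_one] at this
      have e3 : IsCoprime (c + d) ((-3) * d + (c + d) * 1) :=
        IsCoprime.add_mul_left_right (IsCoprime.mul_right e1.neg_right e2) 1
      have e4 : (-3) * d + (c + d) * 1 = c - 2 * d := by ring
      rw [e4] at e3
      exact e3.symm
    obtain ⟨X, Y, W, m1, m2, m3⟩ := three (by ring) hcd2 k3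
    have ha0 : a ≠ 0 := by
      rintro rfl
      apply hS10
      rw [ha]
      norm_num
    have m4 : W.natAbs ≤ a.natAbs := Int.natAbs_le_of_dvd_ne_zero m3 ha0
    have hab : (a * b) ^ 3 = Z ^ 3 := by rw [mul_pow, ← ha, ← hb, h2]
    have hab' : a * b = Z := (Odd.pow_inj (by decide)).1 hab
    have hb1 : 2 ≤ b.natAbs := by
      have e1 : 4 ≤ b ^ 3 := by
        rw [← hb]
        have e2 : 1 ≤ S1 ^ 2 := by
          have : 0 < S1 ^ 2 := by positivity
          omega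
        nlinarith [sq_nonneg T]
      by_contra hcon
      have : b ≤ 1 := by omega
      have e3 : b ^ 3 ≤ 1 := by
        rcases le_or_gt b 0 with h0 | h0
        · have : b ^ 3 ≤ 0 := Odd.pow_nonpos (by decide) h0
          omega
        · have : b = 1 := by omega
          rw [this]
          norm_num
      omega
    have m6 : a.natAbs < Z.natAbs := by
      rw [← hab', Int.natAbs_mul]
      have : 0 < a.natAbs := Int.natAbs_pos.2 ha0
      nlinarith
    have m7 : W = 0 := ih W.natAbs (by omega) X Y W rfl m2 m1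
    have m8 : a = 0 := by
      rw [m7] at m3
      exact zero_dvd_iff.1 m3
    exact ha0 m8

theorem E2aux {S T z : ℤ} (hc : IsCoprime S T) (hS : S % 2 = 0)
    (h : S * T * (S ^ 2 + T ^ 2) = 2 * z ^ 3) : z = 0 := by
  obtain ⟨S1, rfl⟩ : ∃ S1, S = 2 * S1 := ⟨S / 2, by omega⟩
  have h1 : S1 * T * ((2 * S1) ^ 2 + T ^ 2) = z ^ 3 := by
    have : 2 * (S1 * T * ((2 * S1) ^ 2 + T ^ 2)) = 2 * z ^ 3 := by linear_combination h
    omega
  have hc1 : IsCoprime S1 T := IsCoprime.of_mul_left_right hc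
  have c1 : IsCoprime S1 ((2 * S1) ^ 2 + T ^ 2) := by
    have : (2 * S1) ^ 2 + T ^ 2 = T ^ 2 + S1 * (4 * S1) := by ring
    rw [this]
    exact IsCoprime.add_mul_left_right hc1.pow_right _
  have c2 : IsCoprime T ((2 * S1) ^ 2 + T ^ 2) := by
    have : (2 * S1) ^ 2 + T ^ 2 = (2 * S1) ^ 2 + T * T := by ring
    rw [this]
    exact IsCoprime.add_mul_left_right hc.symm.pow_right _
  have c3 : IsCoprime (S1 * T) ((2 * S1) ^ 2 + T ^ 2) := IsCoprime.mul_left c1 c2
  obtain ⟨w, hw⟩ := cube_of c3 h1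
  obtain ⟨α, hα⟩ := cube_of c3.symm (by rw [mul_comm]; exact h1)
  obtain ⟨s, hs⟩ := cube_of hc1 hw
  obtain ⟨r, hr⟩ := cube_of hc1.symm (by rw [mul_comm]; exact hw)
  have c4 : IsCoprime α (-r ^ 2) := by
    rw [hα, hr] at c2
    have c5 : IsCoprime r α :=
      (IsCoprime.pow_left_iff (by norm_num)).1 ((IsCoprime.pow_right_iff (by norm_num)).1 c2)
    exact c5.symm.pow_right.neg_right
  have h2 : α ^ 3 + (-r ^ 2) ^ 3 = 4 * (s ^ 2) ^ 3 := by
    rw [← hα, hs, hr]
    ring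
  have h3 : s ^ 2 = 0 := four3 _ α (-r ^ 2) (s ^ 2) rfl c4 h2
  have h4 : s = 0 := pow_eq_zero_iff two_ne_zero |>.1 h3
  have h5 : S1 = 0 := by rw [hs, h4]; norm_num
  have h6 : z ^ 3 = 0 := by rw [← h1, h5]; ring
  exact pow_eq_zero_iff (by norm_num) |>.1 h6

/-- `x ^ 4 - y ^ 4 = 2 z ^ 3` with `x`, `y` coprime has only the solutions with `z = 0`. -/
theorem E2 {x y z : ℤ} (hc : IsCoprime x y) (h : x ^ 4 - y ^ 4 = 2 * z ^ 3) : z = 0 := by
  have hodd : x % 2 = 1 ∧ y % 2 = 1 := by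
    have h1 : (x ^ 4 - y ^ 4) % 2 = 0 := by omega
    rcases Int.emod_two_eq_zero_or_one x with hx | hx
    · exfalso
      rcases Int.emod_two_eq_zero_or_one y with hy | hy
      · obtain ⟨a, b, hab⟩ := hc
        have h2 : (2 : ℤ) ∣ a * x + b * y :=
          dvd_add (Dvd.dvd.mul_left (Int.dvd_of_emod_eq_zero hx) a)
            (Dvd.dvd.mul_left (Int.dvd_of_emod_eq_zero hy) b)
        rw [hab] at h2
        omega
      · simp [Int.mul_emod, Int.sub_emod, hx, hy, pow_succ] at h1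
    · rcases Int.emod_two_eq_zero_or_one y with hy | hy
      · exfalso
        simp [Int.mul_emod, Int.sub_emod, hx, hy, pow_succ] at h1
      · exact ⟨hx, hy⟩
  obtain ⟨S, hS⟩ : ∃ S, x + y = 2 * S := ⟨(x + y) / 2, by omega⟩
  obtain ⟨T, hT⟩ : ∃ T, x - y = 2 * T := ⟨(x - y) / 2, by omega⟩
  have hx : x = S + T := by omega
  have hy : y = S - T := by omega
  subst hx hy
  have h1 : z ^ 3 = 4 * (S * T * (S ^ 2 + T ^ 2)) := by
    have : 2 * z ^ 3 = 2 * (4 * (S * T * (S ^ 2 + T ^ 2))) := by linear_combination -h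
    omega
  obtain ⟨z', rfl⟩ : (2 : ℤ) ∣ z :=
    Int.prime_two.dvd_of_dvd_pow (n := 3) ⟨2 * (S * T * (S ^ 2 + T ^ 2)), by rw [h1]; ring⟩
  have h2 : S * T * (S ^ 2 + T ^ 2) = 2 * z' ^ 3 := by
    have : 4 * (S * T * (S ^ 2 + T ^ 2)) = 4 * (2 * z' ^ 3) := by linear_combination -h1
    omega
  have hST : IsCoprime S T := by
    obtain ⟨a, b, hab⟩ := hc
    exact ⟨a + b, a - b, by linear_combination hab⟩
  have h3 : z' = 0 := by
    rcases Int.emod_two_eq_zero_or_one S with hs | hs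
    · exact E2aux hST hs h2
    · have ht : T % 2 = 0 := by omega
      exact E2aux hST.symm ht (by linear_combination h2)
  rw [h3]
  norm_num

end GF2
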