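import Mathlib

/-!
# MP_81d9be_nt: the Eisenstein integers and `S ^ 2 + 3 T ^ 2 = b ^ 3`
-/

set_option autoImplicit false

namespace GF2

/-- The Eisenstein integers. -/
abbrev Eis : Type := QuadraticAlgebra ℤ (-1) (-1)

theorem eis_norm (z : Eis) : z.norm = z.re ^ 2 - z.re * z.im + z.im ^ 2 := by
  rw [QuadraticAlgebra.norm_def]
  ring

theorem eis_norm_nonneg (z : Eis) : 0 ≤ z.norm := by
  rw [eis_norm]
  nlinarith [sq_nonneg (z.re - z.im), sq_nonneg z.re, sq_nonneg z.im]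

theorem eis_norm_eq_zero {z : Eis} (h : z.norm = 0) : z = 0 := by
  rw [eis_norm] at h
  have h1 : z.re ^ 2 ≤ 0 := by nlinarith [sq_nonneg (z.re - 2 * z.im), sq_nonneg (z.re)]
  have h2 : z.im ^ 2 ≤ 0 := by nlinarith [sq_nonneg (2 * z.re - z.im), sq_nonneg (z.im)]
  have h3 : z.re = 0 := by
    have := sq_nonneg z.re
    exact pow_eq_zero_iff two_ne_zero |>.1 (le_antisymm h1 this)
  have h4 : z.im = 0 := by
    have := sq_nonneg z.im
    exact pow_eq_zero_iff two_ne_zero |>.1 (le_antisymm h2 this)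
  ext
  · exact h3
  · exact h4

theorem eis_domain : IsDomain Eis := by
  have : NoZeroDivisors Eis := ⟨fun {a b} h => by
    have h1 : a.norm * b.norm = 0 := by
      rw [← map_mul, h]
      exact QuadraticAlgebra.norm_zero
    rcases mul_eq_zero.1 h1 with h2 | h2
    · exact Or.inl (eis_norm_eq_zero h2)
    · exact Or.inr (eis_norm_eq_zero h2)⟩
  exact NoZeroDivisors.to_isDomain Eis

theorem round_le (u n : ℤ) (hn : 0 < n) : ∃ q : ℤ, -n ≤ 2 * (u - n * q) ∧ 2 * (u - n * q) ≤ n := by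
  refine ⟨(2 * u + n) / (2 * n), ?_⟩
  have h1 := Int.mul_ediv_add_emod (2 * u + n) (2 * n)
  have h2 := Int.emod_nonneg (2 * u + n) (show (2 * n) ≠ 0 by omega)
  have h3 := Int.emod_lt_of_pos (2 * u + n) (show 0 < 2 * n by omega)
  constructor <;> nlinarith

theorem eis_div (x y : Eis) (hy : y ≠ 0) : ∃ q : Eis, (x - q * y).norm < y.norm := by
  have hn : 0 < y.norm := by
    rcases lt_or_eq_of_le (eis_norm_nonneg y) with h | h
    · exact h
    · exact absurd (eis_norm_eq_zero h.symm) hy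
  obtain ⟨q1, h1, h2⟩ := round_le (x * star y).re y.norm hn
  obtain ⟨q2, h3, h4⟩ := round_le (x * star y).im y.norm hn
  refine ⟨⟨q1, q2⟩, ?_⟩
  have h5 : (x - ⟨q1, q2⟩ * y) * star y =
      ⟨(x * star y).re - y.norm * q1, (x * star y).im - y.norm * q2⟩ := by
    have h6 : y * star y = (algebraMap ℤ Eis) y.norm :=
      (QuadraticAlgebra.algebraMap_norm_eq_mul_star y).symm
    have h7 : (x - ⟨q1, q2⟩ * y) * star y = x * star y - ⟨q1, q2⟩ * (y * star y) := by ring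
    rw [h7, h6, QuadraticAlgebra.algebraMap_eq]
    ext <;> simp <;> ring
  have h8 : (x - ⟨q1, q2⟩ * y).norm * y.norm < y.norm * y.norm := by
    have h9 : (x - ⟨q1, q2⟩ * y).norm * y.norm = ((x - ⟨q1, q2⟩ * y) * star y).norm := by
      rw [map_mul, QuadraticAlgebra.norm_star]
    rw [h9, h5, eis_norm]
    simp only
    nlinarith
  exact lt_of_mul_lt_mul_right h8 hn.le

theorem eis_pid : IsPrincipalIdealRing Eis := by
  refine ⟨fun I => ?_⟩
  by_cases hI : I = ⊥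
  · rw [hI]
    exact ⟨⟨0, by simp⟩⟩
  · obtain ⟨b, hbI, hb0⟩ := Submodule.exists_mem_ne_zero_of_ne_bot hI
    have hex : ∃ n : ℕ, ∃ z ∈ I, z ≠ 0 ∧ z.norm = (n : ℤ) :=
      ⟨b.norm.natAbs, b, hbI, hb0, by
        have := eis_norm_nonneg b
        omega⟩
    classical
    obtain ⟨z, hzI, hz0, hz⟩ := Nat.find_spec hex
    refine ⟨⟨z, ?_⟩⟩
    refine le_antisymm (fun x hx => ?_) ?_
    · obtain ⟨q, hq⟩ := eis_div x z hz0
      have hxq : x - q * z ∈ I := I.sub_mem hx (I.mul_mem_left q hzI)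
      have h0 : x - q * z = 0 := by
        by_contra h0
        have h1 := Nat.find_min' hex ⟨x - q * z, hxq, h0, by
          have := eis_norm_nonneg (x - q * z)
          exact (Int.natAbs_of_nonneg this).symm⟩
        have h2 := eis_norm_nonneg (x - q * z)
        omega
      rw [sub_eq_zero.1 h0]
      exact Ideal.mul_mem_left _ q (Ideal.mem_span_singleton_self z)
    · rw [Submodule.span_singleton_le_iff_mem]
      exact hzI

theorem eis_unit {w : Eis} (h : IsUnit w) : w = ⟨1, 0⟩ ∨ w = ⟨-1, 0⟩ ∨ w = ⟨0, 1⟩ ∨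
    w = ⟨0, -1⟩ ∨ w = ⟨1, 1⟩ ∨ w = ⟨-1, -1⟩ := by
  have h1 : IsUnit w.norm := h.map QuadraticAlgebra.norm
  have h2 : w.norm = 1 := by
    rcases Int.isUnit_iff.1 h1 with h | h
    · exact h
    · have := eis_norm_nonneg w
      omega
  rw [eis_norm] at h2
  obtain ⟨a, b⟩ := w
  simp only at h2
  have ha : a ^ 2 ≤ 1 := by nlinarith [sq_nonneg (a - 2 * b), sq_nonneg a]
  have hb : b ^ 2 ≤ 1 := by nlinarith [sq_nonneg (2 * a - b), sq_nonneg b]
  obtain ⟨ha1, ha2⟩ : -1 ≤ a ∧ a ≤ 1 := abs_le.1 ((sq_le_one_iff_abs_le_one _).1 ha)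
  obtain ⟨hb1, hb2⟩ : -1 ≤ b ∧ b ≤ 1 := abs_le.1 ((sq_le_one_iff_abs_le_one _).1 hb)
  interval_cases a <;> interval_cases b <;> simp_all

theorem even3 {c d : ℤ} (h : (c ^ 3 - 3 * c * d ^ 2 + d ^ 3) % 2 = 0) : c % 2 = 0 ∧ d % 2 = 0 := by
  rcases Int.emod_two_eq_zero_or_one c with hc | hc <;>
  rcases Int.emod_two_eq_zero_or_one d with hd | hd
  · exact ⟨hc, hd⟩
  · exfalso
    simp [Int.sub_emod, Int.add_emod, Int.mul_emod, pow_succ, hc, hd] at h
  · exfalso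
    simp [Int.sub_emod, Int.add_emod, Int.mul_emod, pow_succ, hc, hd] at h
  · exfalso
    simp [Int.sub_emod, Int.add_emod, Int.mul_emod, pow_succ, hc, hd] at h

theorem cube3 {S T b : ℤ} (hc : IsCoprime S T) (hb : b % 2 = 1) (h : S ^ 2 + 3 * T ^ 2 = b ^ 3) :
    ∃ c d : ℤ, 2 * T = 3 * (c * d * (c - d)) ∧ S + T = c ^ 3 - 3 * c * d ^ 2 + d ^ 3 := by
  have := eis_domain
  have := eis_pid
  have hb3 : b % 3 ≠ 0 := by
    intro h0
    obtain ⟨b', rfl⟩ : ∃ b', b = 3 * b' := ⟨b / 3, by omega⟩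
    have hS : (3 : ℤ) ∣ S := by
      refine Int.prime_three.dvd_of_dvd_pow (n := 2) ⟨9 * b' ^ 3 - T ^ 2, ?_⟩
      linear_combination h
    obtain ⟨S', rfl⟩ := hS
    have hT : (3 : ℤ) ∣ T := by
      refine Int.prime_three.dvd_of_dvd_pow (n := 2) ⟨3 * b' ^ 3 - S' ^ 2, ?_⟩
      have : 3 * T ^ 2 = 3 * (3 * (3 * b' ^ 3 - S' ^ 2)) := by linear_combination h
      omega
    obtain ⟨T', rfl⟩ := hT
    obtain ⟨r, s, hrs⟩ := hc
    have : (3 : ℤ) ∣ 1 := ⟨r * S' + s * T', by linear_combination -hrs⟩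
    omega
  have h6 : IsCoprime (6 : ℤ) (b ^ 3) := by
    refine IsCoprime.pow_right ?_
    have e6 : (6 : ℤ) = 2 * 3 := by norm_num
    rw [e6]
    refine IsCoprime.mul_left ?_ ?_
    · rw [Int.prime_two.coprime_iff_not_dvd]
      omega
    · rw [Int.prime_three.coprime_iff_not_dvd]
      omega
  obtain ⟨m, l, hml⟩ := h6
  obtain ⟨r, s, hrs⟩ := hc
  have hθ : (⟨1, 2⟩ : Eis) * ⟨1, 2⟩ = -3 := by
    ext <;> simp [QuadraticAlgebra.re_ofNat, QuadraticAlgebra.im_ofNat]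
  have hA : (⟨S + T, 2 * T⟩ : Eis) = (S : Eis) + (T : Eis) * ⟨1, 2⟩ := by
    ext <;> simp <;> ring
  have hB : (⟨S - T, -(2 * T)⟩ : Eis) = (S : Eis) - (T : Eis) * ⟨1, 2⟩ := by
    ext <;> simp <;> ring
  have hrs' : (r : Eis) * S + (s : Eis) * T = 1 := by exact_mod_cast hrs
  have hml' : (m : Eis) * 6 + (l : Eis) * (b : Eis) ^ 3 = 1 := by exact_mod_cast hml
  have h' : (S : Eis) ^ 2 + 3 * (T : Eis) ^ 2 = (b : Eis) ^ 3 := by exact_mod_cast h
  have hmul : (⟨S + T, 2 * T⟩ : Eis) * ⟨S - T, -(2 * T)⟩ = (b : Eis) ^ 3 := by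
    rw [hA, hB]
    linear_combination h' - (T : Eis) ^ 2 * hθ
  have hcop : IsCoprime (⟨S + T, 2 * T⟩ : Eis) ⟨S - T, -(2 * T)⟩ := by
    refine ⟨3 * r * m - s * m * ⟨1, 2⟩ + l * ⟨S - T, -(2 * T)⟩, 3 * r * m + s * m * ⟨1, 2⟩, ?_⟩
    rw [hA, hB]
    linear_combination (l : Eis) * (h' - (T : Eis) ^ 2 * hθ) + hml' + 6 * (m : Eis) * hrs' -
      2 * (s : Eis) * (m : Eis) * (T : Eis) * hθ
  obtain ⟨g, w, hg⟩ := exists_associated_pow_of_mul_eq_pow' hcop hmul
  have hw := eis_unit w.isUnit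
  obtain ⟨c, d⟩ := g
  have hg3 : (⟨c, d⟩ : Eis) ^ 3 =
      ⟨c ^ 3 - 3 * c * d ^ 2 + d ^ 3, 3 * (c * d * (c - d))⟩ := by
    ext
    · simp [pow_succ]
      ring
    · simp [pow_succ]
      ring
  rw [hg3] at hg
  have hyev : (3 * (c * d * (c - d))) % 2 = 0 := by
    rcases Int.emod_two_eq_zero_or_one c with hc | hc <;>
    rcases Int.emod_two_eq_zero_or_one d with hd | hd <;>
    simp [Int.sub_emod, Int.mul_emod, hc, hd]
  have hbad : (c ^ 3 - 3 * c * d ^ 2 + d ^ 3) % 2 = 0 → False := by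
    intro h0
    obtain ⟨hc2, hd2⟩ := even3 h0
    obtain ⟨c', rfl⟩ : ∃ c', c = 2 * c' := ⟨c / 2, by omega⟩
    obtain ⟨d', rfl⟩ : ∃ d', d = 2 * d' := ⟨d / 2, by omega⟩
    have e1 : (2 * c') ^ 3 - 3 * (2 * c') * (2 * d') ^ 2 + (2 * d') ^ 3 =
      8 * (c' ^ 3 - 3 * c' * d' ^ 2 + d' ^ 3) := by ring
    have e2 : 3 * ((2 * c') * (2 * d') * (2 * c' - 2 * d')) = 8 * (3 * (c' * d' * (c' - d'))) := by
      ring
    rw [e1, e2] at hg
    have hST : S % 2 = 0 ∧ T % 2 = 0 := by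
      rcases hw with h | h | h | h | h | h
      all_goals
        rw [h] at hg
        have k1 := congrArg QuadraticAlgebra.re hg
        have k2 := congrArg QuadraticAlgebra.im hg
        simp only [QuadraticAlgebra.re_mul, QuadraticAlgebra.im_mul] at k1 k2
        constructor <;> omega
    obtain ⟨S', rfl⟩ : ∃ S', S = 2 * S' := ⟨S / 2, by omega⟩
    obtain ⟨T', rfl⟩ : ∃ T', T = 2 * T' := ⟨T / 2, by omega⟩
    have : (2 : ℤ) ∣ 1 := ⟨r * S' + s * T', by linear_combination -hrs⟩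
    omega
  rcases hw with h | h | h | h | h | h
  all_goals
    rw [h] at hg
    have k1 := congrArg QuadraticAlgebra.re hg
    have k2 := congrArg QuadraticAlgebra.im hg
    simp only [QuadraticAlgebra.re_mul, QuadraticAlgebra.im_mul] at k1 k2
  · exact ⟨c, d, by linarith, by linarith⟩
  · exact ⟨-c, -d, by linear_combination -k2, by linear_combination -k1⟩
  · exact (hbad (by omega)).elim
  · exact (hbad (by omega)).elim
  · exact (hbad (by omega)).elim
  · exact (hbad (by omega)).elim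

end GF2
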