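import Pool.Agent.H.MP_81d9be_nt.Tools

/-!
# MP_81d9be_nt: `x ^ 3 + y ^ 3 = 2 z ^ 4`
-/

set_option autoImplicit false

namespace GF2

theorem pp3 : IsPrimePow 3 := Nat.prime_three.isPrimePow
theorem pp243 : IsPrimePow 243 := by
  have h : (243 : ℕ) = 3 ^ 5 := by norm_num
  rw [h]
  exact pp3.pow (by norm_num)
theorem pp64 : IsPrimePow 64 := by
  have h : (64 : ℕ) = 2 ^ 6 := by norm_num
  rw [h]
  exact Nat.prime_two.isPrimePow.pow (by norm_num)
theorem pp16 : IsPrimePow 16 := by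
  have h : (16 : ℕ) = 2 ^ 4 := by norm_num
  rw [h]
  exact Nat.prime_two.isPrimePow.pow (by norm_num)

theorem core {v w e : ℕ} (hc : Nat.Coprime (v + w) v) (hodd : w % 2 = 1)
    (h : ((v + w) * v) * ((2 * v + w) * w) = 3 * e ^ 2) (he : 0 < e) :
    ∃ p q A B : ℕ, v = 3 * q ^ 2 ∧ q ≤ e ∧ B ^ 2 + 3 * q ^ 2 = p ^ 2 ∧
      p ^ 2 + 3 * q ^ 2 = A ^ 2 := by
  have c1 : Nat.Coprime v w := by
    rw [Nat.add_comm, Nat.coprime_add_self_left] at hc
    exact hc.symm
  have c2 : Nat.Coprime (v + w) (2 * v + w) := by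
    have : 2 * v + w = v + (v + w) := by ring
    rw [this, Nat.coprime_add_self_right]
    exact hc
  have c3 : Nat.Coprime (v + w) w := Nat.coprime_add_self_left.2 c1
  have c4 : Nat.Coprime v (2 * v + w) := by
    rw [Nat.add_comm, Nat.coprime_add_mul_right_right]
    exact c1
  have c5 : Nat.Coprime (2 * v + w) w := by
    rw [Nat.coprime_add_self_left]
    refine Nat.Coprime.mul_left ?_ c1
    rw [Nat.coprime_two_left]
    exact Nat.odd_iff.2 hodd
  have c6 : Nat.Coprime ((v + w) * v) ((2 * v + w) * w) :=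
    Nat.Coprime.mul_left (Nat.Coprime.mul_right c2 c3) (Nat.Coprime.mul_right c4 c1)
  rcases spl pp3 c6 h with ⟨s, t, h1, h2⟩ | ⟨s, t, h1, h2⟩
  · obtain ⟨⟨A, hA⟩, ⟨B, hB⟩⟩ := pw c5 h2
    rcases spl pp3 hc h1 with ⟨p, q, h3, h4⟩ | ⟨p, q, h3, h4⟩
    · exfalso
      have h5 := sq3 q
      have h6 := sq3 B
      have h7 : v % 3 = 0 := by omega
      have h8 : w % 3 = 0 := by omega
      exact cop_not3 c1 h7 h8
    · refine ⟨p, q, A, B, h4, ?_, by omega, by omega⟩
      have hvw : 0 < v + w := by omega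
      have hp : 0 < ((v + w) * ((2 * v + w) * w)) := by
        refine Nat.mul_pos hvw (Nat.mul_pos (by omega) (by omega))
      have h9 : 3 * q ^ 2 ≤ 3 * e ^ 2 := by
        rw [← h, ← h4]
        have e1 : (v + w) * v * ((2 * v + w) * w) = v * ((v + w) * ((2 * v + w) * w)) := by ring
        rw [e1]
        exact Nat.le_mul_of_pos_right v hp
      exact (Nat.pow_le_pow_iff_left two_ne_zero).1 (by omega)
  · exfalso
    obtain ⟨⟨p, hp⟩, ⟨q, hq⟩⟩ := pw hc h1
    rcases spl pp3 c5 h2 with ⟨r, x, h3, h4⟩ | ⟨r, x, h3, h4⟩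
    · have h5 := sq3 p
      have h6 := sq3 q
      have h7 : v % 3 = 0 := by omega
      have h8 : w % 3 = 0 := by omega
      exact cop_not3 c1 h7 h8
    · have h5 := sq8 p
      have h6 := sq8 q
      have h7 := sq8 x
      have h8 := sq8 r
      omega

theorem cn3 : ∀ e a b f : ℕ, f ^ 2 + 3 * e ^ 2 = b ^ 2 → b ^ 2 + 3 * e ^ 2 = a ^ 2 → e = 0 := by
  intro e
  induction e using Nat.strong_induction_on with
  | _ e ih =>
  intro a b f h1 h2
  by_contra he
  have he0 : 0 < e := Nat.pos_of_ne_zero he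
  have hg : Nat.Coprime e b := by
    by_contra hng
    obtain ⟨l, hl, ⟨e1, rfl⟩, ⟨b1, rfl⟩⟩ := Nat.Prime.not_coprime_iff_dvd.1 hng
    have hl0 : 0 < l ^ 2 := pow_pos hl.pos 2
    have hf : l ∣ f := by
      refine (Nat.pow_dvd_pow_iff two_ne_zero).1 ?_
      have h3 : l ^ 2 ∣ 3 * (l * e1) ^ 2 := ⟨3 * e1 ^ 2, by ring⟩
      have h4 : l ^ 2 ∣ f ^ 2 + 3 * (l * e1) ^ 2 := by
        rw [h1]
        exact ⟨b1 ^ 2, by ring⟩
      exact (Nat.dvd_add_left h3).1 h4
    have ha : l ∣ a := by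
      refine (Nat.pow_dvd_pow_iff two_ne_zero).1 ?_
      rw [← h2]
      exact ⟨b1 ^ 2 + 3 * e1 ^ 2, by ring⟩
    obtain ⟨f1, rfl⟩ := hf
    obtain ⟨a1, rfl⟩ := ha
    have he1 : 0 < e1 := Nat.pos_of_mul_pos_left he0 
    have hlt : e1 < l * e1 := by
      have := hl.two_le
      nlinarith
    have h5 := ih e1 hlt a1 b1 f1
      (Nat.eq_of_mul_eq_mul_left hl0 (by linear_combination h1))
      (Nat.eq_of_mul_eq_mul_left hl0 (by linear_combination h2))
    omega
  have hev : e % 2 = 0 := by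
    by_contra hodd
    have h3 := sq8o (n := e) (by omega)
    have h4 := sq8 f
    have h5 := sq8 a
    omega
  obtain ⟨e', rfl⟩ : ∃ e', e = 2 * e' := ⟨e / 2, by omega⟩
  have hbo : b % 2 = 1 := by
    by_contra hb
    exact cop_not2 hg hev (by omega)
  have hb8 := sq8o hbo
  have he8 := sq16e hev
  have hfo : f % 2 = 1 := by
    by_contra hf
    have h3 : f % 2 = 0 := by omega
    have h4 := sq16e h3
    omega
  have hao : a % 2 = 1 := by
    by_contra hf
    have h3 : a % 2 = 0 := by omega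
    have h4 := sq16e h3
    omega
  have hfa : f < a := by
    refine lt_of_pow_lt_pow_left₀ 2 (Nat.zero_le _) ?_
    have : 0 < (2 * e') ^ 2 := by positivity
    omega
  obtain ⟨m, hm0, rfl⟩ : ∃ m, 0 < m ∧ a = f + 2 * m := ⟨(a - f) / 2, by omega, by omega⟩
  have hP : (f + m) ^ 2 + m ^ 2 = b ^ 2 := by nlinarith
  have hQ : (f + m) * m = 6 * e' ^ 2 := by nlinarith
  have hmc : Nat.Coprime (f + m) m := by
    by_contra hng
    obtain ⟨l, hl, ⟨n1, h3⟩, ⟨m1, h4⟩⟩ := Nat.Prime.not_coprime_iff_dvd.1 hng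
    have h5 : l ∣ b := by
      refine (Nat.pow_dvd_pow_iff two_ne_zero).1 ?_
      rw [← hP, h3, h4]
      exact ⟨n1 ^ 2 + m1 ^ 2, by ring⟩
    have h6 : l ^ 2 ∣ 6 * e' ^ 2 := by
      rw [← hQ, h3, h4]
      exact ⟨n1 * m1, by ring⟩
    have h7 : Nat.Coprime (l ^ 2) (e' ^ 2) := by
      refine Nat.Coprime.pow 2 2 ?_
      rw [hl.coprime_iff_not_dvd]
      intro h8
      have h9 := Nat.dvd_gcd (Dvd.dvd.mul_left h8 2) h5
      rw [hg] at h9
      exact hl.one_lt.ne' (Nat.dvd_one.1 h9)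
    have h8 : l ^ 2 ∣ 6 := h7.dvd_of_dvd_mul_right h6
    have h9 : l ≤ 2 := by
      have := Nat.le_of_dvd (by norm_num) h8
      nlinarith
    interval_cases l
    · exact absurd hl (by norm_num)
    · exact absurd hl (by norm_num)
    · omega
  have hw : ∃ v w : ℕ, 0 < v ∧ 0 < w ∧ Nat.Coprime (v + w) v ∧ w % 2 = 1 ∧
      (f + m) * m = ((2 * v + w) * w) * (2 * (v + w) * v) := by
    rcases Nat.mod_two_eq_zero_or_one m with h3 | h3
    · obtain ⟨v, w, k1, k2, k3, k4, k5, k6, -⟩ := pyth hP hmc (by omega) hm0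
      exact ⟨v, w, k1, k2, k3, k4, by rw [k5, k6]⟩
    · obtain ⟨v, w, k1, k2, k3, k4, k5, k6, -⟩ :=
        pyth (m := m) (n := f + m) (b := b) (by rw [← hP, add_comm]) hmc.symm h3 (by omega)
      exact ⟨v, w, k1, k2, k3, k4, by rw [← k5, ← k6, mul_comm]⟩
  obtain ⟨v, w, k1, k2, k3, k4, k5⟩ := hw
  have k6 : ((v + w) * v) * ((2 * v + w) * w) = 3 * e' ^ 2 := by
    have : ((2 * v + w) * w) * (2 * (v + w) * v) = 6 * e' ^ 2 := k5.symm.trans hQ
    nlinarith
  obtain ⟨p, q, A, B, q1, q2, q3, q4⟩ := core k3 k4 k6 (by omega)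
  have q5 := ih q (by omega) A p B q3 q4
  rw [q5] at q1
  omega

theorem cn3Z {e a b f : ℤ} (h1 : f ^ 2 + 3 * e ^ 2 = b ^ 2) (h2 : b ^ 2 + 3 * e ^ 2 = a ^ 2) :
    e = 0 := by
  have h := cn3 e.natAbs a.natAbs b.natAbs f.natAbs
    (by zify; simpa only [sq_abs] using h1) (by zify; simpa only [sq_abs] using h2)
  exact Int.natAbs_eq_zero.1 h

/-- The equation `X ^ 4 = Y ^ 4 + 3 Z ^ 2`. -/
theorem kk {X Y Z : ℤ} (h : X ^ 4 = Y ^ 4 + 3 * Z ^ 2) : X * Y * Z = 0 := by
  have h1 : 2 * (X * Y * Z) = 0 := by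
    refine cn3Z (a := X ^ 4 + 2 * X ^ 2 * Y ^ 2 - Y ^ 4) (b := X ^ 4 + Y ^ 4)
      (f := X ^ 4 - 2 * X ^ 2 * Y ^ 2 - Y ^ 4) ?_ ?_
    · linear_combination (-4 * X ^ 2 * Y ^ 2) * h
    · linear_combination (-4 * X ^ 2 * Y ^ 2) * h
  omega

theorem F1c {u v e : ℕ} (hu : 0 < u) (hv : v % 2 = 1) (h3v : v % 3 ≠ 0) (hc : Nat.Coprime u v)
    (h : 243 * (64 * u ^ 8) + v ^ 8 = e ^ 2) : False := by
  have hv8 := ei16 hv
  have heo : e % 2 = 1 := by
    by_contra hf
    have h3 : e % 2 = 0 := by omega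
    have h4 := sq16e h3
    omega
  have hv4 : v ^ 4 % 2 = 1 := by
    have := fo16 hv
    omega
  have hv0 : 0 < v := by omega
  have hlt : v ^ 4 < e := by
    refine lt_of_pow_lt_pow_left₀ 2 (Nat.zero_le _) ?_
    have h1 : 0 < u ^ 8 := by positivity
    have h2 : (v ^ 4) ^ 2 = v ^ 8 := by ring
    omega
  obtain ⟨B, hB0, rfl⟩ : ∃ B, 0 < B ∧ e = v ^ 4 + 2 * B :=
    ⟨(e - v ^ 4) / 2, by omega, by omega⟩
  have hAB : (v ^ 4 + B) * B = 243 * (16 * u ^ 8) := by nlinarith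
  have hcop : Nat.Coprime (v ^ 4 + B) B := by
    rw [Nat.coprime_add_self_left]
    refine Nat.Coprime.pow_left 4 ?_
    by_contra hng
    obtain ⟨l, hl, h1, h2⟩ := Nat.Prime.not_coprime_iff_dvd.1 hng
    have h3 : l ∣ 243 * (16 * u ^ 8) := by
      rw [← hAB]
      exact Dvd.dvd.mul_left h2 _
    rcases (Nat.Prime.dvd_mul hl).1 h3 with h4 | h4
    · have h5 : l ∣ 3 := by
        have : (243 : ℕ) = 3 ^ 5 := by norm_num
        rw [this] at h4
        exact hl.dvd_of_dvd_pow h4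
      rw [(Nat.prime_dvd_prime_iff_eq hl Nat.prime_three).1 h5] at h1
      omega
    · rcases (Nat.Prime.dvd_mul hl).1 h4 with h5 | h5
      · have h6 : l ∣ 2 := by
          have : (16 : ℕ) = 2 ^ 4 := by norm_num
          rw [this] at h5
          exact hl.dvd_of_dvd_pow h5
        rw [(Nat.prime_dvd_prime_iff_eq hl Nat.prime_two).1 h6] at h1
        omega
      · have h6 := Nat.dvd_gcd (hl.dvd_of_dvd_pow h5) h1
        rw [hc] at h6
        exact hl.one_lt.ne' (Nat.dvd_one.1 h6)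
  have h43 := fo3 h3v
  have h416 := fo16 hv
  rcases spl2 pp243 pp16 hcop hAB with ⟨s, t, h1, h2⟩ | ⟨s, t, h1, h2⟩ | ⟨s, t, h1, h2⟩ |
    ⟨s, t, h1, h2⟩
  · have h3 := ei3 t
    omega
  · have h3 := ei3 t
    omega
  · rcases Nat.mod_two_eq_zero_or_one t with h3 | h3
    · obtain ⟨t', rfl⟩ : ∃ t', t = 2 * t' := ⟨t / 2, by omega⟩
      have h4 : (2 * t') ^ 8 = 16 * (16 * t' ^ 8) := by ring
      omega
    · have h4 := ei16 h3
      omega
  · have h3 : ((s : ℤ) ^ 2) ^ 4 = (v : ℤ) ^ 4 + 3 * (36 * (t : ℤ) ^ 4) ^ 2 := by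
      have h4 : (v : ℤ) ^ 4 + (B : ℤ) = (s : ℤ) ^ 8 := by exact_mod_cast h1
      have h5 : (B : ℤ) = 243 * (16 * (t : ℤ) ^ 8) := by exact_mod_cast h2
      linear_combination -h4 + h5
    have h4 := kk h3
    have hs : s ≠ 0 := by
      rintro rfl
      simp at h1
      omega
    have ht : t ≠ 0 := by
      rintro rfl
      simp at h2
      omega
    have : (s : ℤ) ^ 2 * (v : ℤ) * (36 * (t : ℤ) ^ 4) ≠ 0 := by positivity
    exact this h4

theorem F1b {d t e : ℕ} (hd : 0 < d) (h3 : t % 3 ≠ 0) (hc : Nat.Coprime d t)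
    (hp : (d + t) % 2 = 1) (h : 243 * d ^ 8 + t ^ 2 = e ^ 4) : False := by
  rcases Nat.mod_two_eq_zero_or_one d with hd2 | hd2
  · obtain ⟨c, rfl⟩ : ∃ c, d = 2 * c := ⟨d / 2, by omega⟩
    have hto : t % 2 = 1 := by omega
    have ht8 := sq8o hto
    have h256 : (2 * c) ^ 8 = 256 * c ^ 8 := by ring
    have heo : e % 2 = 1 := by
      by_contra hf
      obtain ⟨e', rfl⟩ : ∃ e', e = 2 * e' := ⟨e / 2, by omega⟩
      have h4 : (2 * e') ^ 4 = 16 * e' ^ 4 := by ring
      omega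
    have he8 := sq8o heo
    have hlt : t < e ^ 2 := by
      refine lt_of_pow_lt_pow_left₀ 2 (Nat.zero_le _) ?_
      have h1 : 0 < (2 * c) ^ 8 := by positivity
      have h2 : (e ^ 2) ^ 2 = e ^ 4 := by ring
      omega
    obtain ⟨B, hB0, hB⟩ : ∃ B, 0 < B ∧ e ^ 2 = t + 2 * B :=
      ⟨(e ^ 2 - t) / 2, by omega, by omega⟩
    have hAB : (t + B) * B = 243 * (64 * c ^ 8) := by
      have h2 : (t + 2 * B) ^ 2 = 243 * (2 * c) ^ 8 + t ^ 2 := by
        rw [h, ← hB]
        ring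
      nlinarith
    have hcop : Nat.Coprime (t + B) B := by
      rw [Nat.coprime_add_self_left]
      by_contra hng
      obtain ⟨l, hl, h1, h2⟩ := Nat.Prime.not_coprime_iff_dvd.1 hng
      have h3' : l ∣ 243 * (64 * c ^ 8) := by
        rw [← hAB]
        exact Dvd.dvd.mul_left h2 _
      rcases (Nat.Prime.dvd_mul hl).1 h3' with h4 | h4
      · have h5 : l ∣ 3 := by
          have : (243 : ℕ) = 3 ^ 5 := by norm_num
          rw [this] at h4
          exact hl.dvd_of_dvd_pow h4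
        rw [(Nat.prime_dvd_prime_iff_eq hl Nat.prime_three).1 h5] at h1
        omega
      · rcases (Nat.Prime.dvd_mul hl).1 h4 with h5 | h5
        · have h6 : l ∣ 2 := by
            have : (64 : ℕ) = 2 ^ 6 := by norm_num
            rw [this] at h5
            exact hl.dvd_of_dvd_pow h5
          rw [(Nat.prime_dvd_prime_iff_eq hl Nat.prime_two).1 h6] at h1
          omega
        · have h6 := Nat.dvd_gcd (Dvd.dvd.mul_left (hl.dvd_of_dvd_pow h5) 2) h1
          rw [hc] at h6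
          exact hl.one_lt.ne' (Nat.dvd_one.1 h6)
    have hc0 : c ≠ 0 := by omega
    rcases spl2 pp243 pp64 hcop hAB with ⟨u, v, h1, h2⟩ | ⟨u, v, h1, h2⟩ | ⟨u, v, h1, h2⟩ |
      ⟨u, v, h1, h2⟩
    · -- A = 243 * 64 u^8, B = v^8
      have h4 : 243 * (64 * u ^ 8) + v ^ 8 = e ^ 2 := by omega
      have hu : 0 < u := by
        rcases Nat.eq_zero_or_pos u with h0 | h0
        · subst h0
          simp at h1
          omega
        · exact h0
      have hvo : v % 2 = 1 := by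
        by_contra hf
        obtain ⟨v', rfl⟩ : ∃ v', v = 2 * v' := ⟨v / 2, by omega⟩
        have h5 : (2 * v') ^ 8 = 256 * v' ^ 8 := by ring
        omega
      have hv3 : v % 3 ≠ 0 := by
        intro hf
        rcases ei3 v with h5 | h5
        · omega
        · exact h5.2 hf
      have huv : Nat.Coprime u v := by
        rw [h1, h2] at hcop
        have h5 : Nat.Coprime (u ^ 8) (v ^ 8) :=
          Nat.Coprime.coprime_dvd_left ⟨243 * 64, by ring⟩ hcop
        exact (Nat.coprime_pow_left_iff (by norm_num) _ _).1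
          ((Nat.coprime_pow_right_iff (by norm_num) _ _).1 h5)
      exact F1c hu hvo hv3 huv h4
    · have hu : u % 2 = 1 := by
        by_contra hf
        obtain ⟨v', rfl⟩ : ∃ v', u = 2 * v' := ⟨u / 2, by omega⟩
        have h5 : (2 * v') ^ 8 = 256 * v' ^ 8 := by ring
        omega
      have hu8 := ei16 hu
      omega
    · have hu : v % 2 = 1 := by
        by_contra hf
        obtain ⟨v', rfl⟩ : ∃ v', v = 2 * v' := ⟨v / 2, by omega⟩
        have h5 : (2 * v') ^ 8 = 256 * v' ^ 8 := by ring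
        omega
      have hu8 := ei16 hu
      omega
    · have h4 : 243 * (64 * v ^ 8) + u ^ 8 = e ^ 2 := by omega
      have hu : 0 < v := by
        rcases Nat.eq_zero_or_pos v with h0 | h0
        · subst h0
          simp at h2
          omega
        · exact h0
      have hvo : u % 2 = 1 := by
        by_contra hf
        obtain ⟨v', rfl⟩ : ∃ v', u = 2 * v' := ⟨u / 2, by omega⟩
        have h5 : (2 * v') ^ 8 = 256 * v' ^ 8 := by ring
        omega
      have hv3 : u % 3 ≠ 0 := by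
        intro hf
        rcases ei3 u with h5 | h5
        · omega
        · exact h5.2 hf
      have huv : Nat.Coprime v u := by
        rw [h1, h2] at hcop
        have h5 : Nat.Coprime (u ^ 8) (v ^ 8) :=
          Nat.Coprime.coprime_dvd_right ⟨243 * 64, by ring⟩ hcop
        exact ((Nat.coprime_pow_left_iff (by norm_num) _ _).1
          ((Nat.coprime_pow_right_iff (by norm_num) _ _).1 h5)).symm
      exact F1c hu hvo hv3 huv h4
  · have h4 := ei16 hd2
    have h5 := sq16e (n := t) (by omega)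
    rcases Nat.mod_two_eq_zero_or_one e with h6 | h6
    · obtain ⟨v', rfl⟩ : ∃ v', e = 2 * v' := ⟨e / 2, by omega⟩
      have h7 : (2 * v') ^ 4 = 16 * v' ^ 4 := by ring
      omega
    · have h7 := fo16 h6
      omega

theorem F1nat {s t z : ℕ} (hs : 0 < s) (hc : Nat.Coprime s t) (hp : (s + t) % 2 = 1)
    (h : s * (s ^ 2 + 3 * t ^ 2) = z ^ 4) : t = 0 := by
  by_cases h3 : s % 3 = 0
  · exfalso
    obtain ⟨s1, rfl⟩ : ∃ s1, s = 3 * s1 := ⟨s / 3, by omega⟩
    have ht3 : t % 3 ≠ 0 := fun h0 => cop_not3 hc h3 h0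
    have hz : 3 ∣ z := by
      have : 3 ∣ z ^ 4 := by
        rw [← h]
        exact ⟨s1 * ((3 * s1) ^ 2 + 3 * t ^ 2), by ring⟩
      exact Nat.prime_three.dvd_of_dvd_pow this
    obtain ⟨z1, rfl⟩ := hz
    have h1 : s1 * (3 * s1 ^ 2 + t ^ 2) = 9 * z1 ^ 4 := by nlinarith
    have h2 : Nat.Coprime (3 ^ 2) (3 * s1 ^ 2 + t ^ 2) := by
      refine Nat.Coprime.pow_left 2 ?_
      rw [Nat.prime_three.coprime_iff_not_dvd]
      intro h4
      have h5 := sq3 t
      omega
    have h4 : 3 ^ 2 ∣ s1 := by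
      refine h2.dvd_of_dvd_mul_right ?_
      rw [h1]
      exact ⟨z1 ^ 4, by norm_num⟩
    obtain ⟨s2, rfl⟩ := h4
    have h5 : s2 * (243 * s2 ^ 2 + t ^ 2) = z1 ^ 4 := by nlinarith
    have hc2 : Nat.Coprime s2 t := Nat.Coprime.coprime_dvd_left ⟨27, by ring⟩ hc
    have h6 : Nat.Coprime s2 (243 * s2 ^ 2 + t ^ 2) := by
      have : 243 * s2 ^ 2 + t ^ 2 = t ^ 2 + s2 * (243 * s2) := by ring
      rw [this, Nat.coprime_add_mul_left_right]
      exact Nat.Coprime.pow_right 2 hc2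
    obtain ⟨⟨d, rfl⟩, ⟨e, he⟩⟩ := pw h6 h5
    have hd : 0 < d := by
      rcases Nat.eq_zero_or_pos d with h0 | h0
      · subst h0
        simp at hs
      · exact h0
    have hd2 : d ^ 4 % 2 = d % 2 := by
      rcases Nat.mod_two_eq_zero_or_one d with h6 | h6
      · obtain ⟨v', rfl⟩ : ∃ v', d = 2 * v' := ⟨d / 2, by omega⟩
        have h7 : (2 * v') ^ 4 = 16 * v' ^ 4 := by ring
        omega
      · have h7 := fo16 h6
        omega
    refine F1b hd ht3 ?_ ?_ (e := e) ?_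
    · exact Nat.Coprime.coprime_dvd_left ⟨d ^ 3, by ring⟩ hc2
    · omega
    · rw [← he]
      ring
  · have h1 : Nat.Coprime s (s ^ 2 + 3 * t ^ 2) := by
      have : s ^ 2 + 3 * t ^ 2 = 3 * t ^ 2 + s * s := by ring
      rw [this, Nat.coprime_add_mul_left_right]
      refine Nat.Coprime.mul_right ?_ (Nat.Coprime.pow_right 2 hc)
      refine Nat.Coprime.symm ?_
      rw [Nat.prime_three.coprime_iff_not_dvd]
      omega
    obtain ⟨⟨d, rfl⟩, ⟨e, he⟩⟩ := pw h1 h
    have h2 : (e : ℤ) ^ 4 = ((d : ℤ) ^ 2) ^ 4 + 3 * (t : ℤ) ^ 2 := by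
      have : ((d : ℤ) ^ 4) ^ 2 + 3 * (t : ℤ) ^ 2 = (e : ℤ) ^ 4 := by exact_mod_cast he
      linear_combination -this
    have h3' := kk h2
    have hd : d ≠ 0 := by
      rintro rfl
      simp at hs
    have he0 : e ≠ 0 := by
      rintro rfl
      simp at he
      have : 0 < (d ^ 4) ^ 2 := by positivity
      omega
    by_contra ht
    have : (e : ℤ) * (d : ℤ) ^ 2 * (t : ℤ) ≠ 0 := by positivity
    exact this h3'

/-- The integer solutions of `x ^ 3 + y ^ 3 = 2 z ^ 4` with `x`, `y` coprime, `z ≠ 0`. -/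
theorem F1 {x y z : ℤ} (hc : IsCoprime x y) (hz : z ≠ 0) (h : x ^ 3 + y ^ 3 = 2 * z ^ 4) :
    x = 1 ∧ y = 1 := by
  have hodd : x % 2 = 1 ∧ y % 2 = 1 := by
    have h1 : (x ^ 3 + y ^ 3) % 2 = 0 := by omega
    rcases Int.emod_two_eq_zero_or_one x with hx | hx
    · exfalso
      rcases Int.emod_two_eq_zero_or_one y with hy | hy
      · obtain ⟨a, b, hab⟩ := hc
        have h2 : (2 : ℤ) ∣ a * x + b * y :=
          dvd_add (Dvd.dvd.mul_left (Int.dvd_of_emod_eq_zero hx) a)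
            (Dvd.dvd.mul_left (Int.dvd_of_emod_eq_zero hy) b)
        rw [hab] at h2
        omega
      · rw [Int.add_emod, pow_succ, pow_succ, pow_succ, pow_succ] at h1
        simp [Int.mul_emod, Int.add_emod, hx, hy, pow_succ] at h1
    · rcases Int.emod_two_eq_zero_or_one y with hy | hy
      · exfalso
        simp [Int.mul_emod, Int.add_emod, hx, hy, pow_succ] at h1
      · exact ⟨hx, hy⟩
  obtain ⟨S, hS⟩ : ∃ S, x + y = 2 * S := ⟨(x + y) / 2, by omega⟩
  obtain ⟨T, hT⟩ : ∃ T, x - y = 2 * T := ⟨(x - y) / 2, by omega⟩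
  have hx : x = S + T := by omega
  have hy : y = S - T := by omega
  subst hx hy
  have h1 : S * (S ^ 2 + 3 * T ^ 2) = z ^ 4 := by
    have : 2 * (S * (S ^ 2 + 3 * T ^ 2)) = 2 * z ^ 4 := by linear_combination h
    omega
  have hz4 : 0 < z ^ 4 := by positivity
  have hS0 : 0 < S := by
    have h2 : 0 ≤ S ^ 2 + 3 * T ^ 2 := by positivity
    rw [← h1] at hz4
    exact pos_of_mul_pos_left hz4 h2
  have hST : Nat.Coprime S.natAbs T.natAbs := by
    rw [← Int.isCoprime_iff_nat_coprime]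
    obtain ⟨a, b, hab⟩ := hc
    exact ⟨a + b, a - b, by linear_combination hab⟩
  have hT0 : T.natAbs = 0 := by
    refine F1nat (s := S.natAbs) (t := T.natAbs) (z := z.natAbs) (by omega) hST (by omega) ?_
    zify
    rw [sq_abs, sq_abs, abs_of_pos hS0, h1, Even.pow_abs (by decide)]
  rw [hT0, Nat.coprime_zero_right] at hST
  omega

end GF2
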