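import Pool.Agent.H.MP_81d9be_nt.F1
import Pool.Agent.H.MP_81d9be_nt.E2

/-!
# MP_81d9be_nt: families of exponents
-/

set_option autoImplicit false

namespace GF2

theorem pone {a n : ℕ} (hn : n ≠ 0) (h : a ^ n = 1) : a = 1 :=
  (Nat.pow_eq_one.1 h).resolve_right hn

theorem cop_aux {u v w i j k m : ℕ} (hm : 2 ≤ m) (hi : 0 < i) (hj : 0 < j) {ε : ℤ}
    (h : (u : ℤ) ^ (m * i) + ε * (v : ℤ) ^ (m * j) = 2 * (w : ℤ) ^ k)
    (hg : ∀ l : ℕ, l.Prime → l ∣ u → l ∣ v → l ∣ w → False) : Nat.Coprime u v := by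
  by_contra hng
  obtain ⟨l, hl, hu, hv⟩ := Nat.Prime.not_coprime_iff_dvd.1 hng
  have h1 : ∀ {t s : ℕ}, l ∣ t → 0 < s → (l : ℤ) ^ m ∣ (t : ℤ) ^ (m * s) := by
    intro t s ht hs
    have h2 : (l : ℤ) ∣ (t : ℤ) := Int.natCast_dvd_natCast.2 ht
    exact (pow_dvd_pow_of_dvd h2 m).trans (pow_dvd_pow _ (Nat.le_mul_of_pos_right m hs))
  have h2 : (l : ℤ) ^ m ∣ 2 * (w : ℤ) ^ k := by
    rw [← h]
    exact dvd_add (h1 hu hi) (Dvd.dvd.mul_left (h1 hv hj) ε)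
  have h3 : l ^ m ∣ 2 * w ^ k := by exact_mod_cast h2
  have h4 : ¬ l ∣ w := fun h0 => hg l hl hu hv h0
  have h5 : Nat.Coprime (l ^ m) (w ^ k) :=
    Nat.Coprime.pow m k ((hl.coprime_iff_not_dvd).2 h4)
  have h6 : l ^ m ∣ 2 := h5.dvd_of_dvd_mul_right h3
  have h7 : l ^ m ≤ 2 := Nat.le_of_dvd (by norm_num) h6
  have h8 : l ^ 2 ≤ l ^ m := Nat.pow_le_pow_right hl.pos hm
  have := hl.two_le
  nlinarith

theorem gcd_aux {x y z : ℕ} (hg : Nat.gcd (Nat.gcd x y) z = 1) :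
    ∀ l : ℕ, l.Prime → l ∣ x → l ∣ y → l ∣ z → False := by
  intro l hl hx hy hz
  have h := Nat.dvd_gcd (Nat.dvd_gcd hx hy) hz
  rw [hg] at h
  exact hl.one_lt.ne' (Nat.dvd_one.1 h)

/-- `u ^ (3 i) + ε v ^ (3 j) = 2 w ^ (4 k)` with `ε = ± 1`. -/
theorem famF {u v w i j k : ℕ} (hi : 0 < i) (hj : 0 < j) (hk : 0 < k)
    (hw : 0 < w) {ε : ℤ} (hε : ε = 1 ∨ ε = -1)
    (h : (u : ℤ) ^ (3 * i) + ε * (v : ℤ) ^ (3 * j) = 2 * (w : ℤ) ^ (4 * k))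
    (hg : ∀ l : ℕ, l.Prime → l ∣ u → l ∣ v → l ∣ w → False) :
    ε = 1 ∧ u = 1 ∧ v = 1 ∧ w = 1 := by
  have hc := cop_aux (m := 3) (by norm_num) hi hj h hg
  have hw0 : ((w : ℤ) ^ k) ≠ 0 := by positivity
  have hc2 : IsCoprime ((u : ℤ) ^ i) (ε * (v : ℤ) ^ j) := by
    have h1 : IsCoprime ((u : ℤ) ^ i) ((v : ℤ) ^ j) :=
      (Nat.isCoprime_iff_coprime.2 hc).pow
    rcases hε with rfl | rfl
    · rwa [one_mul]
    · rw [neg_one_mul]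
      exact h1.neg_right
  have h2 : ((u : ℤ) ^ i) ^ 3 + (ε * (v : ℤ) ^ j) ^ 3 = 2 * ((w : ℤ) ^ k) ^ 4 := by
    have hε3 : ε ^ 3 = ε := by rcases hε with rfl | rfl <;> norm_num
    rw [mul_pow, hε3, ← pow_mul, ← pow_mul, ← pow_mul, mul_comm i 3, mul_comm j 3, mul_comm k 4]
    exact h
  obtain ⟨h3, h4⟩ := F1 hc2 hw0 h2
  have hu : u = 1 := by
    have : u ^ i = 1 := by exact_mod_cast h3
    exact pone (by omega) this
  have hε1 : ε = 1 := by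
    rcases hε with h5 | h5
    · exact h5
    · exfalso
      rw [h5] at h4
      have : (0 : ℤ) ≤ (v : ℤ) ^ j := by positivity
      linarith
  have hv : v = 1 := by
    rw [hε1, one_mul] at h4
    have : v ^ j = 1 := by exact_mod_cast h4
    exact pone (by omega) this
  refine ⟨hε1, hu, hv, ?_⟩
  rw [h3, h4] at h2
  have h6 : (w ^ k) ^ 4 = 1 := by
    have : (2 : ℤ) * ((w : ℤ) ^ k) ^ 4 = 2 * 1 := by rw [← h2]; norm_num
    have h7 : ((w : ℤ) ^ k) ^ 4 = 1 := by omega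
    exact_mod_cast h7
  have h8 : w ^ k = 1 := pone (by norm_num) h6
  exact pone (by omega) h8

/-- `u ^ (4 i) + ε v ^ (4 j) = 2 w ^ (3 k)` with `ε = ± 1`. -/
theorem famE {u v w i j k : ℕ} (hi : 0 < i) (hj : 0 < j) (hk : 0 < k)
    (hw : 0 < w) {ε : ℤ} (hε : ε = 1 ∨ ε = -1)
    (h : (u : ℤ) ^ (4 * i) + ε * (v : ℤ) ^ (4 * j) = 2 * (w : ℤ) ^ (3 * k))
    (hg : ∀ l : ℕ, l.Prime → l ∣ u → l ∣ v → l ∣ w → False) :
    ε = 1 ∧ u = 1 ∧ v = 1 ∧ w = 1 := by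
  have hc := cop_aux (m := 4) (by norm_num) hi hj h hg
  have hw0 : ((w : ℤ) ^ k) ≠ 0 := by positivity
  have h1 : IsCoprime ((u : ℤ) ^ i) ((v : ℤ) ^ j) :=
    (Nat.isCoprime_iff_coprime.2 hc).pow
  have h2 : ((u : ℤ) ^ i) ^ 4 + ε * ((v : ℤ) ^ j) ^ 4 = 2 * ((w : ℤ) ^ k) ^ 3 := by
    rw [← pow_mul, ← pow_mul, ← pow_mul, mul_comm i 4, mul_comm j 4, mul_comm k 3]
    exact h
  rcases hε with rfl | rfl
  · rw [one_mul] at h2
    obtain ⟨h3, h4, h5⟩ := E1 h1 h2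
    refine ⟨rfl, ?_, ?_, ?_⟩
    · have h6 : (u ^ i) ^ 2 = 1 := by exact_mod_cast h3
      exact pone (by omega) (pone (by norm_num) h6)
    · have h6 : (v ^ j) ^ 2 = 1 := by exact_mod_cast h4
      exact pone (by omega) (pone (by norm_num) h6)
    · have h6 : w ^ k = 1 := by exact_mod_cast h5
      exact pone (by omega) h6
  · exfalso
    have h3 : ((u : ℤ) ^ i) ^ 4 - ((v : ℤ) ^ j) ^ 4 = 2 * ((w : ℤ) ^ k) ^ 3 := by
      rw [← h2]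
      ring
    exact hw0 (E2 h1 h3)

end GF2
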