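import Pool.Agent.H.MP_81d9be_nt.Dsys

/-!
# MP_81d9be_nt: the system with `3 a A` or `b B` a power
-/

set_option autoImplicit false

namespace GF2

/-- If `3 a A` is a power with exponent `m + 1`. -/
theorem DS.famA {a b A B Y m : ℕ} (h : DS a b A B) (hY : 3 * a * A = Y ^ (m + 1)) :
    ∃ e f u : ℕ, Nat.Coprime e f ∧
      4 * u ^ (2 * (m + 1)) = 3 ^ (4 * m + 1) * e ^ (4 * (m + 1)) + f ^ (4 * (m + 1)) := by
  obtain ⟨hc3A, -⟩ := h.cop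
  obtain ⟨α, β, τ, σ, k1, k2, k3, -, k4, -, -⟩ := h.quart
  obtain ⟨ha, hb, hb3, hc, -, -⟩ := h
  obtain ⟨⟨g, hg⟩, -⟩ := pw hc3A hY
  obtain ⟨c, rfl⟩ : 3 ∣ g := by
    refine Nat.prime_three.dvd_of_dvd_pow (n := m + 1) ?_
    rw [← hg]
    exact ⟨a, rfl⟩
  have ha3 : a = 3 ^ m * c ^ (m + 1) := by
    have k0 : 3 * a = 3 * (3 ^ m * c ^ (m + 1)) := by
      rw [hg, mul_pow, pow_succ]
      ring
    exact Nat.eq_of_mul_eq_mul_left (by norm_num) k0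
  obtain ⟨hαo, hβo⟩ := prod_odd k1 ha
  obtain ⟨hτo, -⟩ := prod_odd k2 hb
  have hτ3 : τ % 3 ≠ 0 := by
    intro h0
    apply hb3
    rw [← k2, Nat.mul_mod, h0, zero_mul, Nat.zero_mod]
  have hα3 : α % 3 ≠ 0 := by
    have l1 := fo3' τ
    have l2 := fo3' α
    clear k1 k2 hc ha3 hg hY hc3A
    omega
  have hα3' : Nat.Coprime (3 ^ m) α := by
    refine Nat.Coprime.pow_left m (Nat.prime_three.coprime_iff_not_dvd.2 ?_)
    intro h0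
    exact hα3 (Nat.mod_eq_zero_of_dvd h0)
  obtain ⟨β', rfl⟩ : 3 ^ m ∣ β := by
    refine (Nat.Coprime.dvd_mul_left hα3').1 ?_
    rw [k1, ha3]
    exact ⟨_, rfl⟩
  have l1 : β' * α = c ^ (m + 1) := by
    have l0 : 3 ^ m * (β' * α) = 3 ^ m * c ^ (m + 1) := by
      rw [← ha3, ← k1]
      ring
    exact Nat.eq_of_mul_eq_mul_left (by positivity) l0
  have l2 : Nat.Coprime β' α := (Nat.Coprime.coprime_dvd_right ⟨3 ^ m, by ring⟩ k3).symm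
  obtain ⟨⟨v, rfl⟩, ⟨u, rfl⟩⟩ := pw l2 l1
  have hvo : v % 2 = 1 := odd_of_pow (n := m + 1) (by omega) (prod_odd (u := 3 ^ m) rfl hβo).2
  -- the equation
  have k5 : τ ^ 4 + 3 ^ (4 * m + 1) * v ^ (4 * (m + 1)) = 4 * u ^ (4 * (m + 1)) := by
    have l3 : (u ^ (m + 1)) ^ 4 = u ^ (4 * (m + 1)) := by rw [← pow_mul]; ring_nf
    have l4 : 3 * (3 ^ m * v ^ (m + 1)) ^ 4 = 3 ^ (4 * m + 1) * v ^ (4 * (m + 1)) := by
      rw [mul_pow, ← pow_mul, ← pow_mul, pow_succ 3 (4 * m)]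
      ring
    rw [← l3, ← l4, k4]
  have hv0 : 0 < v := by omega
  have hlt : τ ^ 2 < 2 * u ^ (2 * (m + 1)) := by
    refine lt_of_pow_lt_pow_left₀ 2 (Nat.zero_le _) ?_
    have l3 : (τ ^ 2) ^ 2 = τ ^ 4 := by ring
    have l4 : (2 * u ^ (2 * (m + 1))) ^ 2 = 4 * u ^ (4 * (m + 1)) := by
      rw [mul_pow, ← pow_mul]
      ring_nf
    rw [l3, l4, ← k5]
    exact Nat.lt_add_of_pos_right (by positivity)
  obtain ⟨w, hw⟩ : ∃ w, 2 * u ^ (2 * (m + 1)) = τ ^ 2 + w :=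
    ⟨2 * u ^ (2 * (m + 1)) - τ ^ 2, by omega⟩
  have hτ8 := sq8o hτo
  have hwo : w % 2 = 1 := by
    clear hlt k5 k4 l1 l2 k1 ha3 hg hY
    omega
  have m1 : (2 * τ ^ 2 + w) * w = 3 ^ (4 * m + 1) * v ^ (4 * (m + 1)) := by
    have l3 : τ ^ 4 + (2 * τ ^ 2 + w) * w = τ ^ 4 + 3 ^ (4 * m + 1) * v ^ (4 * (m + 1)) := by
      calc τ ^ 4 + (2 * τ ^ 2 + w) * w = (τ ^ 2 + w) ^ 2 := by ring
        _ = (2 * u ^ (2 * (m + 1))) ^ 2 := by rw [hw]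
        _ = 4 * u ^ (4 * (m + 1)) := by
          rw [mul_pow, ← pow_mul]
          ring_nf
        _ = _ := k5.symm
    exact Nat.add_left_cancel l3
  have hτv : Nat.Coprime τ v := by
    have l3 : Nat.Coprime (3 ^ m * c ^ (m + 1)) b := by
      rw [← ha3]
      exact hc
    have l4 : Nat.Coprime (c ^ (m + 1)) b := Nat.Coprime.coprime_dvd_left ⟨3 ^ m, by ring⟩ l3
    have l5 : Nat.Coprime (v ^ (m + 1)) b := by
      refine Nat.Coprime.coprime_dvd_left ⟨u ^ (m + 1), ?_⟩ l4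
      rw [← l1]
    have l6 : Nat.Coprime v b := (Nat.coprime_pow_left_iff (by omega) _ _).1 l5
    exact (Nat.Coprime.coprime_dvd_right ⟨σ, k2.symm⟩ l6).symm
  have hcw : Nat.Coprime (2 * τ ^ 2 + w) w := by
    rw [Nat.coprime_add_self_left]
    refine Nat.Coprime.mul_left ?_ (Nat.Coprime.pow_left 2 ?_)
    · rw [Nat.coprime_two_left]
      exact Nat.odd_iff.2 hwo
    · by_contra hng
      obtain ⟨l, hl, h2, h3⟩ := Nat.Prime.not_coprime_iff_dvd.1 hng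
      have h4 : l ∣ 3 ^ (4 * m + 1) * v ^ (4 * (m + 1)) := by
        rw [← m1]
        exact Dvd.dvd.mul_left h3 _
      rcases (Nat.Prime.dvd_mul hl).1 h4 with h5 | h5
      · have h6 : l = 3 := dvd3 hl h5
        rw [h6] at h2
        exact hτ3 (Nat.mod_eq_zero_of_dvd h2)
      · exact cop_no hτv hl h2 (hl.dvd_of_dvd_pow h5)
  have hpp : IsPrimePow (3 ^ (4 * m + 1)) := pp3.pow (by omega)
  have hcop : ∀ {M N e f : ℕ}, Nat.Coprime (M * e ^ (4 * (m + 1))) (N * f ^ (4 * (m + 1))) →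
      Nat.Coprime e f := by
    intro M N e f l3
    have l4 : Nat.Coprime (e ^ (4 * (m + 1))) (f ^ (4 * (m + 1))) :=
      Nat.Coprime.coprime_dvd_left ⟨M, by ring⟩
        (Nat.Coprime.coprime_dvd_right ⟨N, by ring⟩ l3)
    exact (Nat.coprime_pow_left_iff (by omega) _ _).1
      ((Nat.coprime_pow_right_iff (by omega) _ _).1 l4)
  have hsum : 4 * u ^ (2 * (m + 1)) = (2 * τ ^ 2 + w) + w := by
    clear hlt k5 k4 l1 l2 k1 ha3 hg hY m1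
    omega
  rcases spl hpp hcw m1 with ⟨e, f, l3, l4⟩ | ⟨f, e, l3, l4⟩
  · refine ⟨e, f, u, ?_, ?_⟩
    · rw [l3, l4, ← one_mul (f ^ (4 * (m + 1)))] at hcw
      exact hcop hcw
    · rw [hsum, l3, l4]
  · refine ⟨e, f, u, ?_, ?_⟩
    · rw [l3, l4, ← one_mul (f ^ (4 * (m + 1)))] at hcw
      exact (hcop hcw).symm
    · rw [hsum, l3, l4, add_comm]

/-- If `b B` is a power with exponent `n`. -/
theorem DS.famB {a b A B Z n : ℕ} (h : DS a b A B) (hn : n ≠ 0) (hZ : b * B = Z ^ n) :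
    ∃ t s α β B' : ℕ, Nat.Coprime t s ∧ t ^ (4 * n) + 3 * β ^ 4 = 4 * α ^ 4 ∧
      2 * s ^ (4 * n) + α ^ 4 = 3 * β ^ 4 ∧ B' ^ n = t ^ (4 * n) + 4 * s ^ (4 * n) := by
  obtain ⟨-, hcB⟩ := h.cop
  obtain ⟨α, β, τ, σ, k1, k2, k3, k4, k5, k6, k7⟩ := h.quart
  obtain ⟨⟨b', hb'⟩, ⟨B', hB'⟩⟩ := pw hcB hZ
  rw [hb'] at k2
  obtain ⟨⟨t, rfl⟩, ⟨s, rfl⟩⟩ := pw k4 k2
  have l1 : ∀ x : ℕ, (x ^ n) ^ 4 = x ^ (4 * n) := fun x => by rw [← pow_mul, mul_comm]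
  rw [l1] at k5 k6
  rw [l1, l1, hB'] at k7
  refine ⟨t, s, α, β, B', ?_, k5, k6, k7⟩
  exact (Nat.coprime_pow_left_iff (by omega) _ _).1
    ((Nat.coprime_pow_right_iff (by omega) _ _).1 k4)

end GF2
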