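import Pool.Agent.H.MP_81d9be_nt.Dsys

/-!
# MP_81d9be_nt: the complete solution of `y ^ 4 + 2 x ^ 4 = z ^ 3`

The system `3 a ^ 4 - 2 b ^ 4 = A ^ 2`, `27 a ^ 4 - 2 b ^ 4 = B ^ 2` leads to the curve
`4 r ^ 2 = Q ^ 4 + 6 P ^ 2 Q ^ 2 - 3 P ^ 4`, on which a descent works.
-/

set_option autoImplicit false

namespace GF2

theorem eq_of_pow4 {u v w : ℕ} (h : u ^ 4 * v ^ 4 = w ^ 4) : u * v = w := by
  rw [← mul_pow] at h
  exact Nat.pow_left_injective (n := 4) (by norm_num) h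

theorem odd_left {u v w : ℕ} (e : u * v = w) (hw : w % 2 = 1) : u % 2 = 1 ∧ v % 2 = 1 := by
  subst e
  rw [Nat.mul_mod] at hw
  have h1 : u % 2 < 2 := Nat.mod_lt _ (by norm_num)
  have h2 : v % 2 < 2 := Nat.mod_lt _ (by norm_num)
  interval_cases u % 2 <;> interval_cases v % 2 <;> simp_all

/-- the first half of the descent step -/
theorem stepA {P Q r : ℕ} (hP : P % 2 = 1) (hQ : Q % 2 = 1) (hc : Nat.Coprime P Q)
    (h : 4 * r ^ 2 + 3 * P ^ 4 = Q ^ 4 + 6 * P ^ 2 * Q ^ 2) :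
    ∃ M N : ℕ, M * N = P ∧ Nat.Coprime M N ∧ M % 3 ≠ 0 ∧
      Q ^ 2 + 3 * (M * N) ^ 2 = M ^ 4 + 3 * N ^ 4 := by
  have hP8 := sq8o hP
  have hQ8 := sq8o hQ
  obtain ⟨H, hH⟩ : ∃ H, Q ^ 2 + 3 * P ^ 2 = 2 * H := ⟨(Q ^ 2 + 3 * P ^ 2) / 2, by omega⟩
  have h1 : H ^ 2 = r ^ 2 + 3 * P ^ 4 := by
    have h2 : 4 * H ^ 2 = 4 * (r ^ 2 + 3 * P ^ 4) := by
      calc 4 * H ^ 2 = (2 * H) ^ 2 := by ring
        _ = (Q ^ 2 + 3 * P ^ 2) ^ 2 := by rw [hH]
        _ = (Q ^ 4 + 6 * P ^ 2 * Q ^ 2) + 9 * P ^ 4 := by ring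
        _ = (4 * r ^ 2 + 3 * P ^ 4) + 9 * P ^ 4 := by rw [h]
        _ = 4 * (r ^ 2 + 3 * P ^ 4) := by ring
    exact Nat.eq_of_mul_eq_mul_left (by norm_num) h2
  have hP0 : 0 < P := by omega
  have hrH : r < H := by
    refine lt_of_pow_lt_pow_left₀ 2 (Nat.zero_le _) ?_
    rw [h1]
    exact Nat.lt_add_of_pos_right (by positivity)
  obtain ⟨k, rfl⟩ : ∃ k, H = r + k := ⟨H - r, by omega⟩
  have h2 : (2 * r + k) * k = 3 * P ^ 4 := by
    have : r ^ 2 + (2 * r + k) * k = r ^ 2 + 3 * P ^ 4 := by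
      rw [← h1]
      ring
    exact Nat.add_left_cancel this
  have hP16 := fo16 hP
  have hko : k % 2 = 1 := (odd_left h2 (by omega)).2
  have hcop : Nat.Coprime (2 * r + k) k := by
    by_contra hng
    obtain ⟨l, hl, h4, h5⟩ := Nat.Prime.not_coprime_iff_dvd.1 hng
    have h6 : l ∣ 2 * r := (Nat.dvd_add_left h5).1 h4
    have h7 : l ∣ r := by
      rcases (Nat.Prime.dvd_mul hl).1 h6 with h7 | h7
      · have h10 : l = 2 := dvd2 hl (k := 1) (by simpa using h7)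
        rw [h10] at h5
        have := Nat.mod_eq_zero_of_dvd h5
        omega
      · exact h7
    have h8 : l ∣ 3 * P ^ 4 := by
      rw [← h2]
      exact Dvd.dvd.mul_left h5 _
    have h9 : l ∣ Q ^ 2 + 3 * P ^ 2 := by
      rw [hH]
      exact Dvd.dvd.mul_left (dvd_add h7 h5) 2
    rcases (Nat.Prime.dvd_mul hl).1 h8 with h10 | h10
    · have h11 : l = 3 := dvd3 hl (k := 1) (by simpa using h10)
      subst h11
      have h12 : 3 ∣ Q ^ 2 := (Nat.dvd_add_left (Dvd.intro _ rfl)).1 h9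
      have h13 : 3 ∣ Q := hl.dvd_of_dvd_pow h12
      have h14 : 3 * 3 ∣ 3 * P ^ 4 := by
        rw [← h2]
        exact mul_dvd_mul (dvd_add h6 h5) h5
      have h15 : 3 ∣ P ^ 4 := (Nat.mul_dvd_mul_iff_left (by norm_num)).1 h14
      exact cop_no hc hl (hl.dvd_of_dvd_pow h15) h13
    · have h11 : l ∣ P := hl.dvd_of_dvd_pow h10
      have h12 : l ∣ Q ^ 2 :=
        (Nat.dvd_add_left (Dvd.dvd.mul_left (dvd_pow h11 two_ne_zero) 3)).1 h9
      exact cop_no hc hl h11 (hl.dvd_of_dvd_pow h12)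
  have h3 : (2 * r + k) + k = Q ^ 2 + 3 * P ^ 2 := by
    rw [hH]
    ring
  rcases spl pp3 hcop h2 with ⟨s, t, e1, e2⟩ | ⟨s, t, e1, e2⟩
  · have h4 : s * t = P := by
      apply eq_of_pow4
      have : 3 * (s ^ 4 * t ^ 4) = 3 * P ^ 4 := by
        rw [← h2, e1, e2]
        ring
      exact Nat.eq_of_mul_eq_mul_left (by norm_num) this
    rw [e1, e2] at hcop
    refine ⟨t, s, by rw [mul_comm]; exact h4, ?_, ?_, ?_⟩
    · exact ((Nat.coprime_pow_left_iff (by norm_num) _ _).1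
        ((Nat.coprime_pow_right_iff (by norm_num) _ _).1
          (Nat.Coprime.coprime_mul_left hcop))).symm
    · intro h5
      have h6 : 3 ∣ t ^ 4 := dvd_pow (Nat.dvd_of_mod_eq_zero h5) (by norm_num)
      exact cop_no hcop Nat.prime_three (Dvd.intro _ rfl) h6
    · rw [mul_comm t s, h4, ← h3, e1, e2]
      ring
  · have h4 : s * t = P := by
      apply eq_of_pow4
      have : 3 * (s ^ 4 * t ^ 4) = 3 * P ^ 4 := by
        rw [← h2, e1, e2]
        ring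
      exact Nat.eq_of_mul_eq_mul_left (by norm_num) this
    rw [e1, e2] at hcop
    refine ⟨s, t, h4, ?_, ?_, ?_⟩
    · exact (Nat.coprime_pow_left_iff (by norm_num) _ _).1
        ((Nat.coprime_pow_right_iff (by norm_num) _ _).1
          (Nat.Coprime.coprime_mul_left_right hcop))
    · intro h5
      have h6 : 3 ∣ s ^ 4 := dvd_pow (Nat.dvd_of_mod_eq_zero h5) (by norm_num)
      exact cop_no hcop Nat.prime_three h6 (Dvd.intro _ rfl)
    · rw [h4, ← h3, e1, e2]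

/-- the second half of the descent step -/
theorem stepB {M N Q : ℕ} (hM : M % 2 = 1) (hN : N % 2 = 1) (hc : Nat.Coprime M N)
    (hM3 : M % 3 ≠ 0) (h : Q ^ 2 + 3 * (M * N) ^ 2 = M ^ 4 + 3 * N ^ 4) :
    ∃ U V : ℕ, U * V = N ∧ Nat.Coprime V U ∧
      4 * M ^ 2 + 3 * V ^ 4 = U ^ 4 + 6 * V ^ 2 * U ^ 2 := by
  have hM8 := sq8o hM
  have hN8 := sq8o hN
  have hN16 := fo16 hN
  have hN0 : 0 < N := by omega
  -- `e = |2 M ^ 2 - 3 N ^ 2|`
  obtain ⟨e, he⟩ : ∃ e, 2 * M ^ 2 = 3 * N ^ 2 + e ∨ 2 * M ^ 2 + e = 3 * N ^ 2 := by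
    rcases le_total (3 * N ^ 2) (2 * M ^ 2) with h1 | h1
    · exact ⟨2 * M ^ 2 - 3 * N ^ 2, Or.inl (by omega)⟩
    · exact ⟨3 * N ^ 2 - 2 * M ^ 2, Or.inr (by omega)⟩
  have h1 : (2 * Q) ^ 2 = e ^ 2 + 3 * N ^ 4 := by
    have h2 : (2 * (M : ℤ) ^ 2 - 3 * (N : ℤ) ^ 2) ^ 2 = (e : ℤ) ^ 2 := by
      rcases he with he | he
      · have : 2 * (M : ℤ) ^ 2 = 3 * (N : ℤ) ^ 2 + e := by exact_mod_cast he
        rw [this]
        ring
      · have : 2 * (M : ℤ) ^ 2 + e = 3 * (N : ℤ) ^ 2 := by exact_mod_cast he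
        rw [← this]
        ring
    have h3 : (Q : ℤ) ^ 2 + 3 * (M * N) ^ 2 = M ^ 4 + 3 * N ^ 4 := by exact_mod_cast h
    zify
    linear_combination 4 * h3 + h2
  have heQ : e < 2 * Q := by
    refine lt_of_pow_lt_pow_left₀ 2 (Nat.zero_le _) ?_
    rw [h1]
    exact Nat.lt_add_of_pos_right (by positivity)
  obtain ⟨j, hj⟩ : ∃ j, 2 * Q = e + j := ⟨2 * Q - e, by omega⟩
  have h2 : (2 * e + j) * j = 3 * N ^ 4 := by
    have : e ^ 2 + (2 * e + j) * j = e ^ 2 + 3 * N ^ 4 := by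
      rw [← h1, hj]
      ring
    exact Nat.add_left_cancel this
  have hjo : j % 2 = 1 := (odd_left h2 (by omega)).2
  have hcop : Nat.Coprime (2 * e + j) j := by
    by_contra hng
    obtain ⟨l, hl, h4, h5⟩ := Nat.Prime.not_coprime_iff_dvd.1 hng
    have h6 : l ∣ 2 * e := (Nat.dvd_add_left h5).1 h4
    have hl2 : l ≠ 2 := by
      intro h10
      rw [h10] at h5
      have := Nat.mod_eq_zero_of_dvd h5
      omega
    have h7 : l ∣ e := by
      rcases (Nat.Prime.dvd_mul hl).1 h6 with h7 | h7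
      · exact absurd (dvd2 hl (k := 1) (by simpa using h7)) hl2
      · exact h7
    have h8 : l ∣ 3 * N ^ 4 := by
      rw [← h2]
      exact Dvd.dvd.mul_left h5 _
    have h9 : l ∣ 3 * N ^ 2 := by
      rcases (Nat.Prime.dvd_mul hl).1 h8 with h10 | h10
      · exact Dvd.dvd.mul_right h10 _
      · exact Dvd.dvd.mul_left (dvd_pow (hl.dvd_of_dvd_pow h10) two_ne_zero) 3
    have h10 : l ∣ 2 * M ^ 2 := by
      rcases he with he | he
      · rw [he]
        exact dvd_add h9 h7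
      · rw [← he] at h9
        exact (Nat.dvd_add_left h7).1 h9
    have h11 : l ∣ M := by
      rcases (Nat.Prime.dvd_mul hl).1 h10 with h11 | h11
      · exact absurd (dvd2 hl (k := 1) (by simpa using h11)) hl2
      · exact hl.dvd_of_dvd_pow h11
    rcases (Nat.Prime.dvd_mul hl).1 h8 with h12 | h12
    · have h13 : l = 3 := dvd3 hl (k := 1) (by simpa using h12)
      rw [h13] at h11
      exact hM3 (Nat.mod_eq_zero_of_dvd h11)
    · exact cop_no hc hl h11 (hl.dvd_of_dvd_pow h12)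
  have hM3' : M ^ 2 % 3 = 1 := by
    have := sq3 M
    omega
  -- the two cases
  have key : ∀ U V : ℕ, U * V = N → Nat.Coprime V U →
      (2 * e + 3 * V ^ 4 = U ^ 4 ∨ 2 * e + U ^ 4 = 3 * V ^ 4) →
      ∃ U V : ℕ, U * V = N ∧ Nat.Coprime V U ∧
        4 * M ^ 2 + 3 * V ^ 4 = U ^ 4 + 6 * V ^ 2 * U ^ 2 := by
    intro U V hUV hcUV hd
    refine ⟨U, V, hUV, hcUV, ?_⟩
    have e3 : N ^ 2 = V ^ 2 * U ^ 2 := by
      rw [← hUV]
      ring
    rw [mul_assoc 6, ← e3]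
    have hU3 := fo3' U
    rcases he with he | he <;> rcases hd with hd | hd <;> omega
  rcases spl pp3 hcop h2 with ⟨s, t, e1, e2⟩ | ⟨s, t, e1, e2⟩
  · have h4 : s * t = N := by
      apply eq_of_pow4
      have : 3 * (s ^ 4 * t ^ 4) = 3 * N ^ 4 := by
        rw [← h2, e1, e2]
        ring
      exact Nat.eq_of_mul_eq_mul_left (by norm_num) this
    have hcop' := hcop
    rw [e1, e2] at hcop'
    refine key t s (by rw [mul_comm]; exact h4) ?_ (Or.inr (by rw [← e1, ← e2]))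
    exact (Nat.coprime_pow_left_iff (by norm_num) _ _).1
        ((Nat.coprime_pow_right_iff (by norm_num) _ _).1
          (Nat.Coprime.coprime_mul_left hcop'))
  · have h4 : s * t = N := by
      apply eq_of_pow4
      have : 3 * (s ^ 4 * t ^ 4) = 3 * N ^ 4 := by
        rw [← h2, e1, e2]
        ring
      exact Nat.eq_of_mul_eq_mul_left (by norm_num) this
    have hcop' := hcop
    rw [e1, e2] at hcop'
    refine key s t h4 ?_ (Or.inl (by rw [← e1, ← e2]))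
    exact ((Nat.coprime_pow_left_iff (by norm_num) _ _).1
        ((Nat.coprime_pow_right_iff (by norm_num) _ _).1
          (Nat.Coprime.coprime_mul_left_right hcop'))).symm

/-- `4 r ^ 2 = Q ^ 4 + 6 P ^ 2 Q ^ 2 - 3 P ^ 4` only for `P = Q = 1`. -/
theorem desc3 : ∀ n P Q r : ℕ, P = n → P % 2 = 1 → Q % 2 = 1 → Nat.Coprime P Q →
    4 * r ^ 2 + 3 * P ^ 4 = Q ^ 4 + 6 * P ^ 2 * Q ^ 2 → P = 1 ∧ Q = 1 := by
  intro n
  induction n using Nat.strong_induction_on with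
  | _ n ih =>
    intro P Q r hPn hP hQ hc h
    obtain ⟨M, N, h1, h2, h3, h4⟩ := stepA hP hQ hc h
    obtain ⟨hM, hN⟩ := odd_left h1 hP
    obtain ⟨U, V, h5, h6, h7⟩ := stepB hM hN h2 h3 h4
    obtain ⟨hU, hV⟩ := odd_left h5 hN
    have hUV : V = 1 ∧ U = 1 := by
      rcases lt_or_ge V n with h8 | h8
      · exact ih V h8 V U M rfl hV hU h6 h7
      · have e1 : M * U * V = P := by rw [mul_assoc, h5, h1]
        have h9 : M * U = 1 := by
          by_contra hne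
          have h10 : 0 < M * U := Nat.mul_pos (by omega) (by omega)
          have h11 : 2 * V ≤ M * U * V := Nat.mul_le_mul_right _ (by omega)
          omega
        have hM1 : M = 1 := Nat.eq_one_of_mul_eq_one_right h9
        have hU1 : U = 1 := Nat.eq_one_of_mul_eq_one_left h9
        subst hM1 hU1
        refine ⟨?_, rfl⟩
        have h10 : ((V : ℤ) ^ 2 - 1) ^ 2 = 0 := by
          have : 4 * (1 : ℤ) ^ 2 + 3 * (V : ℤ) ^ 4 = 1 ^ 4 + 6 * (V : ℤ) ^ 2 * 1 ^ 2 := by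
            exact_mod_cast h7
          nlinarith
        have h11 : (V : ℤ) ^ 2 = 1 := by
          have := pow_eq_zero_iff (two_ne_zero) |>.1 h10
          linarith
        have h12 : V ^ 2 = 1 := by exact_mod_cast h11
        exact (Nat.pow_eq_one.1 h12).resolve_right two_ne_zero
    obtain ⟨rfl, rfl⟩ := hUV
    have hN1 : N = 1 := by rw [← h5]
    subst hN1
    have hM1 : M ^ 2 = 1 := by omega
    have hM2 : M = 1 := (Nat.pow_eq_one.1 hM1).resolve_right two_ne_zero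
    subst hM2
    refine ⟨by rw [← h1], ?_⟩
    have hQ1 : Q ^ 2 = 1 := by omega
    exact (Nat.pow_eq_one.1 hQ1).resolve_right two_ne_zero

theorem one_of_pow {u n : ℕ} (hn : n ≠ 0) (h : u ^ n = 1) : u = 1 :=
  (Nat.pow_eq_one.1 h).resolve_right hn

/-- The system has only the solution `a = b = 1`. -/
theorem DS.one {a b A B : ℕ} (h : DS a b A B) : a = 1 ∧ b = 1 ∧ A = 1 ∧ B = 5 := by
  obtain ⟨α, β, τ, σ, k1, k2, k3, k4, k5, k6, -⟩ := h.quart
  obtain ⟨ha, hb, hb3, hc, h1, h2⟩ := h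
  obtain ⟨hα, hβ⟩ := odd_left k1 ha
  obtain ⟨hτ, hσ⟩ := odd_left k2 hb
  have hα8 := sq8o hα
  have hβ8 := sq8o hβ
  have hτ8 := sq8o hτ
  have hβ16 := fo16 hβ
  have hβ0 : 0 < β := by omega
  have hτ3 : τ % 3 ≠ 0 := by
    intro h3
    apply hb3
    rw [← k2, Nat.mul_mod, h3, Nat.zero_mul, Nat.zero_mod]
  have hατ : Nat.Coprime α τ := by
    rw [← k1, ← k2] at hc
    exact Nat.Coprime.coprime_mul_right (Nat.Coprime.coprime_mul_right_right hc)
  have hβτ : Nat.Coprime β τ := by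
    rw [← k1, ← k2] at hc
    exact Nat.Coprime.coprime_mul_left (Nat.Coprime.coprime_mul_right_right hc)
  have hα3 : α % 3 ≠ 0 := by
    intro h3
    have h4 : 3 ∣ 4 * α ^ 4 := Dvd.dvd.mul_left (dvd_pow (Nat.dvd_of_mod_eq_zero h3) (by norm_num)) 4
    rw [← k5] at h4
    have h5 : 3 ∣ τ ^ 4 := (Nat.dvd_add_left (Dvd.intro _ rfl)).1 h4
    exact hτ3 (Nat.mod_eq_zero_of_dvd (Nat.prime_three.dvd_of_dvd_pow h5))
  have hα9 : α ^ 2 % 3 = 1 := by
    have := sq3 α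
    omega
  have hτ9 : τ ^ 2 % 3 = 1 := by
    have := sq3 τ
    omega
  -- the first factorization
  obtain ⟨P, Q, hPQ, hQe, hPe, hcPQ⟩ : ∃ P Q : ℕ, P * Q = β ∧ 2 * α ^ 2 = τ ^ 2 + Q ^ 4 ∧
      2 * τ ^ 2 + Q ^ 4 = 3 * P ^ 4 ∧ Nat.Coprime P Q := by
    have hlt : τ ^ 2 < 2 * α ^ 2 := by
      refine lt_of_pow_lt_pow_left₀ 2 (Nat.zero_le _) ?_
      have e1 : (2 * α ^ 2) ^ 2 = (τ ^ 2) ^ 2 + 3 * β ^ 4 := by
        calc (2 * α ^ 2) ^ 2 = 4 * α ^ 4 := by ring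
          _ = τ ^ 4 + 3 * β ^ 4 := k5.symm
          _ = (τ ^ 2) ^ 2 + 3 * β ^ 4 := by ring
      rw [e1]
      exact Nat.lt_add_of_pos_right (by positivity)
    obtain ⟨k, hk⟩ : ∃ k, 2 * α ^ 2 = τ ^ 2 + k := ⟨2 * α ^ 2 - τ ^ 2, by omega⟩
    have h3 : k * (2 * τ ^ 2 + k) = 3 * β ^ 4 := by
      have : τ ^ 4 + k * (2 * τ ^ 2 + k) = τ ^ 4 + 3 * β ^ 4 := by
        calc τ ^ 4 + k * (2 * τ ^ 2 + k) = (τ ^ 2 + k) ^ 2 := by ring
          _ = (2 * α ^ 2) ^ 2 := by rw [hk]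
          _ = 4 * α ^ 4 := by ring
          _ = τ ^ 4 + 3 * β ^ 4 := k5.symm
      exact Nat.add_left_cancel this
    have hko : k % 2 = 1 := (odd_left h3 (by omega)).1
    have hcop : Nat.Coprime k (2 * τ ^ 2 + k) := by
      by_contra hng
      obtain ⟨l, hl, h4, h5⟩ := Nat.Prime.not_coprime_iff_dvd.1 hng
      have hl2 : l ≠ 2 := by
        intro h10
        rw [h10] at h4
        have := Nat.mod_eq_zero_of_dvd h4
        omega
      have h6 : l ∣ 2 * τ ^ 2 := (Nat.dvd_add_left h4).1 h5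
      have h7 : l ∣ τ ^ 2 := by
        rcases (Nat.Prime.dvd_mul hl).1 h6 with h7 | h7
        · exact absurd (dvd2 hl (k := 1) (by simpa using h7)) hl2
        · exact h7
      have h8 : l ∣ 2 * α ^ 2 := by
        rw [hk]
        exact dvd_add h7 h4
      rcases (Nat.Prime.dvd_mul hl).1 h8 with h9 | h9
      · exact hl2 (dvd2 hl (k := 1) (by simpa using h9))
      · exact cop_no hατ hl (hl.dvd_of_dvd_pow h9) (hl.dvd_of_dvd_pow h7)
    rcases spl pp3 hcop h3 with ⟨s, t, e1, e2⟩ | ⟨s, t, e1, e2⟩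
    · exfalso
      have h6 : k % 3 = 0 := by
        rw [e1, Nat.mul_mod_right]
      omega
    · refine ⟨t, s, ?_, by rw [← e1]; exact hk, by rw [← e1, ← e2], ?_⟩
      · apply eq_of_pow4
        have : 3 * (t ^ 4 * s ^ 4) = 3 * β ^ 4 := by
          rw [← h3, e2, e1]
          ring
        exact Nat.eq_of_mul_eq_mul_left (by norm_num) this
      · rw [e2, e1] at hcop
        exact ((Nat.coprime_pow_left_iff (by norm_num) _ _).1
          ((Nat.coprime_pow_right_iff (by norm_num) _ _).1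
            (Nat.Coprime.coprime_mul_left_right hcop))).symm
  -- the second factorization
  obtain ⟨R, hR⟩ : ∃ R : ℕ, 3 * β ^ 2 = τ ^ 2 + 2 * R ^ 4 := by
    have k8 : τ ^ 4 + 8 * σ ^ 4 = 9 * β ^ 4 := by omega
    have hle : τ ^ 2 ≤ 3 * β ^ 2 := by
      refine le_of_pow_le_pow_left₀ two_ne_zero (Nat.zero_le _) ?_
      calc (τ ^ 2) ^ 2 = τ ^ 4 := by ring
        _ ≤ 9 * β ^ 4 := by omega
        _ = (3 * β ^ 2) ^ 2 := by ring
    obtain ⟨m, hm⟩ : ∃ m, 3 * β ^ 2 = τ ^ 2 + 2 * m := ⟨(3 * β ^ 2 - τ ^ 2) / 2, by omega⟩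
    have hmo : m % 2 = 1 := by omega
    obtain ⟨n, hn⟩ : ∃ n, τ ^ 2 + m = 2 * n := ⟨(τ ^ 2 + m) / 2, by omega⟩
    have h3 : m * n = σ ^ 4 := by
      have : τ ^ 4 + 8 * (m * n) = τ ^ 4 + 8 * σ ^ 4 := by
        calc τ ^ 4 + 8 * (m * n) = τ ^ 4 + 4 * m * (2 * n) := by ring
          _ = τ ^ 4 + 4 * m * (τ ^ 2 + m) := by rw [hn]
          _ = (τ ^ 2 + 2 * m) ^ 2 := by ring
          _ = (3 * β ^ 2) ^ 2 := by rw [hm]
          _ = 9 * β ^ 4 := by ring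
          _ = τ ^ 4 + 8 * σ ^ 4 := k8.symm
      have := Nat.add_left_cancel this
      exact Nat.eq_of_mul_eq_mul_left (by norm_num) this
    have hcop : Nat.Coprime m n := by
      by_contra hng
      obtain ⟨l, hl, h4, h5⟩ := Nat.Prime.not_coprime_iff_dvd.1 hng
      have h6 : l ∣ τ ^ 2 + m := by
        rw [hn]
        exact Dvd.dvd.mul_left h5 2
      have h7 : l ∣ τ ^ 2 := (Nat.dvd_add_left h4).1 h6
      have h8 : l ∣ 3 * β ^ 2 := by
        rw [hm]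
        exact dvd_add h7 (Dvd.dvd.mul_left h4 2)
      rcases (Nat.Prime.dvd_mul hl).1 h8 with h9 | h9
      · have h10 : l = 3 := dvd3 hl (k := 1) (by simpa using h9)
        rw [h10] at h7
        exact hτ3 (Nat.mod_eq_zero_of_dvd (Nat.prime_three.dvd_of_dvd_pow h7))
      · exact cop_no hβτ hl (hl.dvd_of_dvd_pow h9) (hl.dvd_of_dvd_pow h7)
    obtain ⟨⟨R, hR⟩, -⟩ := pw hcop h3
    exact ⟨R, by rw [← hR]; exact hm⟩
  obtain ⟨hP, hQ⟩ := odd_left hPQ hβ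
  have h3 : 4 * (R ^ 2) ^ 2 + 3 * P ^ 4 = Q ^ 4 + 6 * P ^ 2 * Q ^ 2 := by
    have e1 : β ^ 2 = P ^ 2 * Q ^ 2 := by
      rw [← hPQ]
      ring
    have e2 : (R ^ 2) ^ 2 = R ^ 4 := by ring
    rw [mul_assoc 6, ← e1, e2]
    omega
  obtain ⟨rfl, rfl⟩ := desc3 P P Q (R ^ 2) rfl hP hQ hcPQ h3
  have hβ1 : β = 1 := by rw [← hPQ]
  subst hβ1
  have hτ1 : τ = 1 := one_of_pow two_ne_zero (show τ ^ 2 = 1 by omega)
  subst hτ1
  have hα1 : α = 1 := one_of_pow two_ne_zero (show α ^ 2 = 1 by omega)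
  subst hα1
  have hσ1 : σ = 1 := one_of_pow (n := 4) (by norm_num) (show σ ^ 4 = 1 by omega)
  subst hσ1
  have ha1 : a = 1 := by rw [← k1]
  have hb1 : b = 1 := by rw [← k2]
  subst ha1 hb1
  refine ⟨rfl, rfl, one_of_pow two_ne_zero (show A ^ 2 = 1 by omega), ?_⟩
  have h5 : B ^ 2 = 5 ^ 2 := by omega
  exact Nat.pow_left_injective (n := 2) (by norm_num) h5

/-- `y ^ 4 + 2 z ^ 4 = x ^ 3` with `y`, `z` coprime and `z ≠ 0` only for `|y| = 3`, `|z| = 5`. -/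
theorem T44full {x y z : ℤ} (hc : IsCoprime y z) (hz0 : z ≠ 0) (h : y ^ 4 + 2 * z ^ 4 = x ^ 3) :
    y.natAbs = 3 ∧ z.natAbs = 5 := by
  obtain ⟨a, b, A, B, hD, h1, h2⟩ := T44 hc hz0 h
  obtain ⟨rfl, rfl, rfl, rfl⟩ := hD.one
  omega

end GF2
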