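import Pool.Agent.H.MP_81d9be_nt.Loc

/-!
# MP_81d9be_nt: the auxiliary prime numbers `2 n + 1` and `4 n + 1`
-/

set_option autoImplicit false

namespace GF2

theorem ndvd {l : ℕ} (_hl : l.Prime) {c : ℕ} (h : (c : ZMod l) = 0) : l ∣ c :=
  (ZMod.natCast_eq_zero_iff c l).1 h

/-- Prime divisors of the small numbers which occur. -/
theorem small {l c : ℕ} (hl : l.Prime) (h : l ∣ c) (hc : c = 1 ∨ c = 27 ∨ c = 28 ∨ c = 80 ∨
    c = 81 ∨ c = 107 ∨ c = 108 ∨ c = 109 ∨ c = 135 ∨ c = 136) :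
    l = 2 ∨ l = 3 ∨ l = 5 ∨ l = 7 ∨ l = 17 ∨ l = 107 ∨ l = 109 := by
  have key : ∀ {p : ℕ}, p.Prime → l ∣ p → l = p := fun {p} hp h1 =>
    (Nat.prime_dvd_prime_iff_eq hl hp).1 h1
  have k2 := @key 2 Nat.prime_two
  have k3 := @key 3 Nat.prime_three
  have k5 := @key 5 Nat.prime_five
  have k7 := @key 7 (by norm_num)
  have k17 := @key 17 (by norm_num)
  have k107 := @key 107 (by norm_num)
  have k109 := @key 109 (by norm_num)
  have m := fun {x y : ℕ} => (Nat.Prime.dvd_mul (m := x) (n := y) hl).1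
  rcases hc with rfl | rfl | rfl | rfl | rfl | rfl | rfl | rfl | rfl | rfl
  · exact absurd (Nat.dvd_one.1 h) hl.one_lt.ne'
  · have h1 : l ∣ 3 := hl.dvd_of_dvd_pow (n := 3) (by norm_num; exact h)
    exact Or.inr (Or.inl (k3 h1))
  · rcases m (x := 4) (y := 7) (by norm_num; exact h) with h1 | h1
    · exact Or.inl (k2 (hl.dvd_of_dvd_pow (n := 2) (by norm_num; exact h1)))
    · exact Or.inr (Or.inr (Or.inr (Or.inl (k7 h1))))
  · rcases m (x := 16) (y := 5) (by norm_num; exact h) with h1 | h1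
    · exact Or.inl (k2 (hl.dvd_of_dvd_pow (n := 4) (by norm_num; exact h1)))
    · exact Or.inr (Or.inr (Or.inl (k5 h1)))
  · have h1 : l ∣ 3 := hl.dvd_of_dvd_pow (n := 4) (by norm_num; exact h)
    exact Or.inr (Or.inl (k3 h1))
  · exact Or.inr (Or.inr (Or.inr (Or.inr (Or.inr (Or.inl (k107 h))))))
  · rcases m (x := 4) (y := 27) (by norm_num; exact h) with h1 | h1
    · exact Or.inl (k2 (hl.dvd_of_dvd_pow (n := 2) (by norm_num; exact h1)))
    · exact Or.inr (Or.inl (k3 (hl.dvd_of_dvd_pow (n := 3) (by norm_num; exact h1))))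
  · exact Or.inr (Or.inr (Or.inr (Or.inr (Or.inr (Or.inr (k109 h))))))
  · rcases m (x := 27) (y := 5) (by norm_num; exact h) with h1 | h1
    · exact Or.inr (Or.inl (k3 (hl.dvd_of_dvd_pow (n := 3) (by norm_num; exact h1))))
    · exact Or.inr (Or.inr (Or.inl (k5 h1)))
  · rcases m (x := 8) (y := 17) (by norm_num; exact h) with h1 | h1
    · exact Or.inl (k2 (hl.dvd_of_dvd_pow (n := 3) (by norm_num; exact h1)))
    · exact Or.inr (Or.inr (Or.inr (Or.inr (Or.inl (k17 h1)))))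

/-- The equation of the first family in `ZMod l`. -/
theorem eqA {l m e f u : ℕ} (h : 4 * u ^ (2 * (m + 1)) =
    3 ^ (4 * m + 1) * e ^ (4 * (m + 1)) + f ^ (4 * (m + 1))) (h3 : (3 : ZMod l) ^ (4 * (m + 1)) = 1) :
    108 * (u : ZMod l) ^ (2 * (m + 1)) = (e : ZMod l) ^ (4 * (m + 1)) +
      27 * (f : ZMod l) ^ (4 * (m + 1)) := by
  have h1 : (4 : ZMod l) * (u : ZMod l) ^ (2 * (m + 1)) =
      3 ^ (4 * m + 1) * (e : ZMod l) ^ (4 * (m + 1)) + (f : ZMod l) ^ (4 * (m + 1)) := by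
    exact_mod_cast congrArg (Nat.cast : ℕ → ZMod l) h
  have h2 : (3 : ZMod l) ^ (4 * (m + 1)) = 27 * 3 ^ (4 * m + 1) := by
    have e1 : 4 * (m + 1) = (4 * m + 1) + 3 := by ring
    rw [e1, pow_add]
    ring
  rw [h2] at h3
  linear_combination 27 * h1 + (e : ZMod l) ^ (4 * (m + 1)) * h3

theorem case_c {l : ℕ} (hl : l.Prime) {c : ℕ} (hc : c = 1 ∨ c = 27 ∨ c = 28 ∨ c = 80 ∨
    c = 81 ∨ c = 107 ∨ c = 108 ∨ c = 109 ∨ c = 135 ∨ c = 136) (h : (c : ZMod l) = 0) :
    l = 2 ∨ l = 3 ∨ l = 5 ∨ l = 7 ∨ l = 17 ∨ l = 107 ∨ l = 109 := small hl (ndvd hl h) hc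

theorem combA {l : ℕ} (hl : l.Prime) {U E F : ZMod l} (hU : U = 0 ∨ U = 1 ∨ U = -1)
    (hE : E = 0 ∨ E = 1) (hF : F = 0 ∨ F = 1) (hne : ¬ (E = 0 ∧ F = 0))
    (h : 108 * U = E + 27 * F) :
    l = 2 ∨ l = 3 ∨ l = 5 ∨ l = 7 ∨ l = 17 ∨ l = 107 ∨ l = 109 := by
  rcases hE with rfl | rfl <;> rcases hF with rfl | rfl
  · exact absurd ⟨rfl, rfl⟩ hne
  · rcases hU with rfl | rfl | rfl
    · exact case_c hl (c := 27) (by omega) (by push_cast; linear_combination -h)
    · exact case_c hl (c := 81) (by omega) (by push_cast; linear_combination h)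
    · exact case_c hl (c := 135) (by omega) (by push_cast; linear_combination -h)
  · rcases hU with rfl | rfl | rfl
    · exact case_c hl (c := 1) (by omega) (by push_cast; linear_combination -h)
    · exact case_c hl (c := 107) (by omega) (by push_cast; linear_combination h)
    · exact case_c hl (c := 109) (by omega) (by push_cast; linear_combination -h)
  · rcases hU with rfl | rfl | rfl
    · exact case_c hl (c := 28) (by omega) (by push_cast; linear_combination -h)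
    · exact case_c hl (c := 80) (by omega) (by push_cast; linear_combination h)
    · exact case_c hl (c := 136) (by omega) (by push_cast; linear_combination -h)

theorem fer {l : ℕ} [Fact l.Prime] {x : ZMod l} (hx : x ≠ 0) {j k : ℕ} (hj : j = (l - 1) * k) :
    x ^ j = 1 := by
  rw [hj, pow_mul, ZMod.pow_card_sub_one_eq_one hx, one_pow]

theorem three_ne {l : ℕ} (hl : l.Prime) (h3 : l ≠ 3) : (3 : ZMod l) ≠ 0 := by
  intro h0
  have h1 : l ∣ 3 := ndvd hl (by exact_mod_cast h0)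
  exact h3 ((Nat.prime_dvd_prime_iff_eq hl Nat.prime_three).1 h1)

theorem cop_z {l e f : ℕ} (hl : l.Prime) (hc : Nat.Coprime e f) :
    ¬ ((e : ZMod l) = 0 ∧ (f : ZMod l) = 0) := fun h =>
  cop_no hc hl (ndvd hl h.1) (ndvd hl h.2)

/-- The first family, the auxiliary prime number `4 n + 1`. -/
theorem NA_four {n : ℕ} (hn : 2 ≤ n) (hp : (4 * n + 1).Prime) (h4 : n ≠ 4) (h27 : n ≠ 27) :
    NA n := by
  obtain ⟨m, rfl⟩ : ∃ m, n = m + 1 := ⟨n - 1, by omega⟩
  have := Fact.mk hp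
  intro a b A B Y h1 h2
  obtain ⟨e, f, u, h3, h5⟩ := h1.famA h2
  have hz : ∀ x : ZMod (4 * (m + 1) + 1), x ≠ 0 → x ^ (4 * (m + 1)) = 1 := fun x hx =>
    fer hx (k := 1) (by omega)
  have h6 := eqA (l := 4 * (m + 1) + 1) h5 (hz 3 (three_ne hp (by omega)))
  have hE : ∀ x : ZMod (4 * (m + 1) + 1), x ^ (4 * (m + 1)) = 0 ∨ x ^ (4 * (m + 1)) = 1 := by
    intro x
    by_cases hx : x = 0
    · left
      rw [hx, zero_pow (by omega)]
    · exact Or.inr (hz x hx)
  have hU : (u : ZMod (4 * (m + 1) + 1)) ^ (2 * (m + 1)) = 0 ∨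
      (u : ZMod (4 * (m + 1) + 1)) ^ (2 * (m + 1)) = 1 ∨
      (u : ZMod (4 * (m + 1) + 1)) ^ (2 * (m + 1)) = -1 := by
    have e1 : ((u : ZMod (4 * (m + 1) + 1)) ^ (2 * (m + 1))) ^ 2 =
        (u : ZMod (4 * (m + 1) + 1)) ^ (4 * (m + 1)) := by
      rw [← pow_mul]
      ring_nf
    rcases hE (u : ZMod (4 * (m + 1) + 1)) with h7 | h7
    · left
      rw [h7] at e1
      exact pow_eq_zero_iff two_ne_zero |>.1 e1
    · right
      rw [h7] at e1
      have e2 : ((u : ZMod (4 * (m + 1) + 1)) ^ (2 * (m + 1)) - 1) *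
          ((u : ZMod (4 * (m + 1) + 1)) ^ (2 * (m + 1)) + 1) = 0 := by
        linear_combination e1
      rcases mul_eq_zero.1 e2 with h8 | h8
      · exact Or.inl (sub_eq_zero.1 h8)
      · exact Or.inr (eq_neg_of_add_eq_zero_left h8)
  have hne : ¬ ((e : ZMod (4 * (m + 1) + 1)) ^ (4 * (m + 1)) = 0 ∧
      (f : ZMod (4 * (m + 1) + 1)) ^ (4 * (m + 1)) = 0) := by
    rintro ⟨h7, h8⟩
    exact cop_z hp h3 ⟨pow_eq_zero_iff (by omega) |>.1 h7, pow_eq_zero_iff (by omega) |>.1 h8⟩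
  have h7 := combA hp hU (hE _) (hE _) hne h6
  omega

/-- The first family, the auxiliary prime number `2 n + 1`. -/
theorem NA_two {n : ℕ} (hn : 4 ≤ n) (hp : (2 * n + 1).Prime) (h8 : n ≠ 8) (h53 : n ≠ 53)
    (h54 : n ≠ 54) : NA n := by
  obtain ⟨m, rfl⟩ : ∃ m, n = m + 1 := ⟨n - 1, by omega⟩
  have := Fact.mk hp
  intro a b A B Y h1 h2
  obtain ⟨e, f, u, h3, h5⟩ := h1.famA h2
  have hz : ∀ x : ZMod (2 * (m + 1) + 1), x ≠ 0 → x ^ (4 * (m + 1)) = 1 := fun x hx =>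
    fer hx (k := 2) (by omega)
  have h6 := eqA (l := 2 * (m + 1) + 1) h5 (hz 3 (three_ne hp (by omega)))
  have hE : ∀ x : ZMod (2 * (m + 1) + 1), x ^ (4 * (m + 1)) = 0 ∨ x ^ (4 * (m + 1)) = 1 := by
    intro x
    by_cases hx : x = 0
    · left
      rw [hx, zero_pow (by omega)]
    · exact Or.inr (hz x hx)
  have hU : (u : ZMod (2 * (m + 1) + 1)) ^ (2 * (m + 1)) = 0 ∨
      (u : ZMod (2 * (m + 1) + 1)) ^ (2 * (m + 1)) = 1 ∨
      (u : ZMod (2 * (m + 1) + 1)) ^ (2 * (m + 1)) = -1 := by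
    by_cases hx : (u : ZMod (2 * (m + 1) + 1)) = 0
    · left
      rw [hx, zero_pow (by omega)]
    · exact Or.inr (Or.inl (fer hx (k := 1) (by omega)))
  have hne : ¬ ((e : ZMod (2 * (m + 1) + 1)) ^ (4 * (m + 1)) = 0 ∧
      (f : ZMod (2 * (m + 1) + 1)) ^ (4 * (m + 1)) = 0) := by
    rintro ⟨h7, h8⟩
    exact cop_z hp h3 ⟨pow_eq_zero_iff (by omega) |>.1 h7, pow_eq_zero_iff (by omega) |>.1 h8⟩
  have h7 := combA hp hU (hE _) (hE _) hne h6
  omega

theorem nsq3 : ¬ IsSquare (2 : ZMod 3) := by decide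

/-- The second family, the auxiliary prime number `4 n + 1`. -/
theorem NB_four {n : ℕ} (hn : 2 ≤ n) (hp : (4 * n + 1).Prime) (h3n : n % 3 ≠ 0) (h4n : n ≠ 4) :
    NB n := by
  have := Fact.mk hp
  intro a b A B Z h1 h2
  obtain ⟨t, s, α, β, B', h3, h4, h5, h6⟩ := h1.famB (by omega) h2
  have e3 : t ^ (4 * n) + 2 * s ^ (4 * n) = 3 * α ^ 4 := by omega
  have hE : ∀ x : ZMod (4 * n + 1), x ^ (4 * n) = 0 ∧ x = 0 ∨ x ^ (4 * n) = 1 := by
    intro x
    by_cases hx : x = 0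
    · left
      exact ⟨by rw [hx, zero_pow (by omega)], hx⟩
    · exact Or.inr (fer hx (k := 1) (by omega))
  have z6 : (B' : ZMod (4 * n + 1)) ^ n = (t : ZMod (4 * n + 1)) ^ (4 * n) +
      4 * (s : ZMod (4 * n + 1)) ^ (4 * n) := by
    exact_mod_cast congrArg (Nat.cast : ℕ → ZMod (4 * n + 1)) h6
  have z3 : (t : ZMod (4 * n + 1)) ^ (4 * n) + 2 * (s : ZMod (4 * n + 1)) ^ (4 * n) =
      3 * (α : ZMod (4 * n + 1)) ^ 4 := by
    exact_mod_cast congrArg (Nat.cast : ℕ → ZMod (4 * n + 1)) e3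
  have hB : ((B' : ZMod (4 * n + 1)) ^ n) ^ 4 = 0 ∨ ((B' : ZMod (4 * n + 1)) ^ n) ^ 4 = 1 := by
    have e1 : ((B' : ZMod (4 * n + 1)) ^ n) ^ 4 = (B' : ZMod (4 * n + 1)) ^ (4 * n) := by
      rw [← pow_mul]
      ring_nf
    rw [e1]
    rcases hE (B' : ZMod (4 * n + 1)) with h7 | h7
    · exact Or.inl h7.1
    · exact Or.inr h7
  rw [z6] at hB
  have pd : ∀ {p c : ℕ}, p.Prime → 4 * n + 1 ∣ p → 4 * n + 1 = p := fun {p c} hp' h7 =>
    (Nat.prime_dvd_prime_iff_eq hp hp').1 h7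
  rcases hE (t : ZMod (4 * n + 1)) with ⟨ht, ht0⟩ | ht <;>
  rcases hE (s : ZMod (4 * n + 1)) with ⟨hs, hs0⟩ | hs
  · exact cop_z hp h3 ⟨ht0, hs0⟩
  · -- `4 ^ 4 = 0` or `1`
    rw [ht, hs] at hB
    rcases hB with h7 | h7
    · have h8 : 4 * n + 1 ∣ 2 := by
        refine hp.dvd_of_dvd_pow (n := 8) (ndvd hp ?_)
        push_cast
        linear_combination h7
      have := Nat.le_of_dvd (by norm_num) h8
      omega
    · have h8 : 4 * n + 1 ∣ 3 * (5 * 17) := by
        refine ndvd hp ?_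
        push_cast
        linear_combination h7
      rcases hp.dvd_mul.1 h8 with h9 | h9
      · have := Nat.le_of_dvd (by norm_num) h9
        omega
      · rcases hp.dvd_mul.1 h9 with h10 | h10
        · have := Nat.le_of_dvd (by norm_num) h10
          omega
        · have := pd (c := 0) (by norm_num) h10
          omega
  · -- `3` is a square
    rw [ht, hs] at z3
    have hα : (α : ZMod (4 * n + 1)) ≠ 0 := by
      intro h0
      rw [h0] at z3
      have : (1 : ZMod (4 * n + 1)) = 0 := by linear_combination z3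
      exact one_ne_zero this
    have hsq : IsSquare ((3 : ℕ) : ZMod (4 * n + 1)) := by
      refine ⟨((α : ZMod (4 * n + 1)) ^ 2)⁻¹, ?_⟩
      push_cast
      field_simp
      linear_combination -z3
    have h3p : Fact (Nat.Prime 3) := ⟨Nat.prime_three⟩
    have h7 := (ZMod.exists_sq_eq_prime_iff_of_mod_four_eq_one (p := 4 * n + 1) (q := 3)
      (by omega) (by norm_num)).1 hsq
    have h8 : (4 * n + 1) % 3 = 2 := by
      have h9 : (4 * n + 1) % 3 ≠ 0 := by
        intro h0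
        have := (Nat.prime_dvd_prime_iff_eq Nat.prime_three hp).1 (Nat.dvd_of_mod_eq_zero h0)
        omega
      omega
    have h9 : ((4 * n + 1 : ℕ) : ZMod 3) = 2 := by
      have : ((4 * n + 1 : ℕ) : ZMod 3) = ((2 : ℕ) : ZMod 3) := by
        rw [ZMod.natCast_eq_natCast_iff]
        exact h8
      rw [this]
      rfl
    rw [h9] at h7
    exact nsq3 h7
  · -- `5 ^ 4 = 0` or `1`
    rw [ht, hs] at hB
    rcases hB with h7 | h7
    · have h8 : 4 * n + 1 ∣ 5 := by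
        refine hp.dvd_of_dvd_pow (n := 4) (ndvd hp ?_)
        push_cast
        linear_combination h7
      have := Nat.le_of_dvd (by norm_num) h8
      omega
    · have h8 : 4 * n + 1 ∣ 48 * 13 := by
        refine ndvd hp ?_
        push_cast
        linear_combination h7
      rcases hp.dvd_mul.1 h8 with h9 | h9
      · rcases hp.dvd_mul.1 (show 4 * n + 1 ∣ 16 * 3 from h9) with h10 | h10
        · have h11 : 4 * n + 1 ∣ 2 := hp.dvd_of_dvd_pow (n := 4) (by norm_num; exact h10)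
          have := Nat.le_of_dvd (by norm_num) h11
          omega
        · have := Nat.le_of_dvd (by norm_num) h10
          omega
      · have := pd (c := 0) (by norm_num) h9
        omega

end GF2
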