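import Pool.Agent.H.MP_81d9be_nt.Gen

/-!
# MP_81d9be_nt: the auxiliary prime numbers `6 n + 1` and `8 n + 1`
-/

set_option autoImplicit false

namespace GF2

/-- A large prime number does not divide a product of small numbers. -/
theorem big {l : ℕ} (hl : l.Prime) {M : ℕ} (hM : M < l) (L : List ℕ)
    (hL : ∀ x ∈ L, 0 < x ∧ x ≤ M) {c : ℕ} (hc : c = L.prod) (h : (c : ZMod l) = 0) : False := by
  have h1 : l ∣ L.prod := by
    rw [← hc]
    exact ndvd hl h
  obtain ⟨x, hx, h2⟩ := (Nat.Prime.prime hl).dvd_prod_iff.1 h1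
  have h3 := Nat.le_of_dvd (hL x hx).1 h2
  have h4 := (hL x hx).2
  omega

/-- Cube roots of `1`. -/
theorem mu3 {l : ℕ} [Fact l.Prime] {w E : ZMod l} (hw : w ^ 2 + w + 1 = 0) (hE : E ^ 3 = 1) :
    E = 1 ∨ E = w ∨ E = w ^ 2 := by
  have h : (E - 1) * ((E - w) * (E - w ^ 2)) = 0 := by
    linear_combination hE + (E - E ^ 2 + (E - 1) * (w - 1)) * hw
  rcases mul_eq_zero.1 h with h | h
  · exact Or.inl (sub_eq_zero.1 h)
  · rcases mul_eq_zero.1 h with h | h
    · exact Or.inr (Or.inl (sub_eq_zero.1 h))
    · exact Or.inr (Or.inr (sub_eq_zero.1 h))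

theorem mu3' {l : ℕ} [Fact l.Prime] {w : ZMod l} (hw : w ^ 3 = 1) :
    w = 1 ∨ w ^ 2 + w + 1 = 0 := by
  have h : (w - 1) * (w ^ 2 + w + 1) = 0 := by linear_combination hw
  rcases mul_eq_zero.1 h with h | h
  · exact Or.inl (sub_eq_zero.1 h)
  · exact Or.inr h

/-- The equation of the first family in `ZMod l`, multiplied by `27`. -/
theorem eqA' {l m e f u : ℕ} (h : 4 * u ^ (2 * (m + 1)) =
    3 ^ (4 * m + 1) * e ^ (4 * (m + 1)) + f ^ (4 * (m + 1))) :
    108 * (u : ZMod l) ^ (2 * (m + 1)) = (((3 * e : ℕ) : ZMod l)) ^ (4 * (m + 1)) +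
      27 * (f : ZMod l) ^ (4 * (m + 1)) := by
  have h1 : (4 : ZMod l) * (u : ZMod l) ^ (2 * (m + 1)) =
      3 ^ (4 * m + 1) * (e : ZMod l) ^ (4 * (m + 1)) + (f : ZMod l) ^ (4 * (m + 1)) := by
    exact_mod_cast congrArg (Nat.cast : ℕ → ZMod l) h
  have h2 : (3 : ZMod l) ^ (4 * (m + 1)) = 27 * 3 ^ (4 * m + 1) := by
    have e1 : 4 * (m + 1) = (4 * m + 1) + 3 := by ring
    rw [e1, pow_add]
    ring
  have h3 : (((3 * e : ℕ) : ZMod l)) ^ (4 * (m + 1)) =
      27 * 3 ^ (4 * m + 1) * (e : ZMod l) ^ (4 * (m + 1)) := by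
    push_cast
    rw [mul_pow, h2]
  rw [h3]
  linear_combination 27 * h1

/-- Three cube roots of `1`. -/
theorem comb6 {l : ℕ} (hl : l.Prime) (hM : 6000 < l) (h15 : l ≠ 15391) {U E F : ZMod l}
    (hU : U = 0 ∨ U ^ 3 = 1) (hE : E = 0 ∨ E ^ 3 = 1) (hF : F = 0 ∨ F ^ 3 = 1)
    (hne : ¬ (E = 0 ∧ F = 0)) (h : 108 * U = E + 27 * F) : False := by
  have := Fact.mk hl
  have B := @big l hl 6000 hM
  have hinv : ∀ {x : ZMod l}, x ^ 3 = 1 → ∃ y : ZMod l, y ^ 3 = 1 ∧ y * x = 1 := fun {x} hx =>
    ⟨x ^ 2, by rw [← pow_mul, mul_comm, pow_mul, hx, one_pow], by rw [← hx]; ring⟩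
  rcases hF with hF | hF
  · -- `F = 0`
    rw [hF] at h hne
    have hE' : E ^ 3 = 1 := hE.resolve_left fun h0 => hne ⟨h0, rfl⟩
    rcases hU with hU | hU
    · rw [hU] at h
      have h1 : E = 0 := by linear_combination -h
      rw [h1] at hE'
      exact zero_ne_one (α := ZMod l) (by linear_combination hE')
    · refine B [107, 61, 193] (by decide) (c := 1259711) (by norm_num) ?_
      have h1 : E = 108 * U := by linear_combination -h
      rw [h1] at hE'
      push_cast
      linear_combination hE' - 1259712 * hU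
  · obtain ⟨y, hy, hyF⟩ := hinv hF
    -- divide by `F`
    have h' : 108 * (y * U) = y * E + 27 := by linear_combination y * h + 27 * hyF
    have hU' : y * U = 0 ∨ (y * U) ^ 3 = 1 := by
      rcases hU with h1 | h1
      · exact Or.inl (by rw [h1, mul_zero])
      · exact Or.inr (by rw [mul_pow, hy, h1, one_mul])
    have hE' : y * E = 0 ∨ (y * E) ^ 3 = 1 := by
      rcases hE with h1 | h1
      · exact Or.inl (by rw [h1, mul_zero])
      · exact Or.inr (by rw [mul_pow, hy, h1, one_mul])
    generalize y * U = V at h' hU'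
    generalize y * E = G at h' hE'
    rcases hU' with hV | hV
    · rw [hV] at h'
      rcases hE' with hG | hG
      · rw [hG] at h'
        exact B [27] (by decide) (c := 27) (by norm_num) (by push_cast; linear_combination -h')
      · have h1 : G = -27 := by linear_combination -h'
        rw [h1] at hG
        exact B [4, 7, 19, 37] (by decide) (c := 19684) (by norm_num)
          (by push_cast; linear_combination -hG)
    · rcases hE' with hG | hG
      · rw [hG] at h'
        -- `4 V = 1`
        have h1 : (27 : ZMod l) * (4 * V - 1) = 0 := by linear_combination h'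
        rcases mul_eq_zero.1 h1 with h2 | h2
        · exact B [27] (by decide) (c := 27) (by norm_num) (by push_cast; exact h2)
        · refine B [63] (by decide) (c := 63) (by norm_num) ?_
          push_cast
          linear_combination (16 * V ^ 2 + 4 * V + 1) * h2 - 64 * hV
      · rcases mu3' hV with hV1 | hw
        · rw [hV1] at h'
          have h1 : G = 81 := by linear_combination -h'
          rw [h1] at hG
          exact B [80, 91, 73] (by decide) (c := 531440) (by norm_num)
            (by push_cast; linear_combination hG)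
        · rcases mu3 hw hG with h1 | h1 | h1
          · rw [h1] at h'
            refine B [16, 967] (by decide) (c := 15472) (by norm_num) ?_
            push_cast
            linear_combination (108 * V ^ 2 - 28) * h' - (11664 * (V - 1) - 3024) * hw
          · rw [h1] at h'
            refine B [13, 19, 61] (by decide) (c := 15067) (by norm_num) ?_
            push_cast
            linear_combination (107 * V ^ 2 - 27) * h' - (11449 * (V - 1) - 2889) * hw
          · rw [h1] at h'
            have h2 : ((15391 : ℕ) : ZMod l) = 0 := by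
              push_cast
              linear_combination (109 * V ^ 2 - 26) * h' -
                (11881 * (V - 1) - 2834 - (109 * V ^ 2 - 26)) * hw
            exact h15 ((Nat.prime_dvd_prime_iff_eq hl (by norm_num)).1 (ndvd hl h2))

/-- The first family, the auxiliary prime number `6 n + 1`. -/
theorem NA_six {n : ℕ} (hn : 1008 < n) (hp : (6 * n + 1).Prime) (h3n : n % 3 ≠ 0) : NA n := by
  obtain ⟨m, rfl⟩ : ∃ m, n = m + 1 := ⟨n - 1, by omega⟩
  have := Fact.mk hp
  intro a b A B Y h1 h2
  obtain ⟨e, f, u, h3, h5⟩ := h1.famA h2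
  have h6 := eqA' (l := 6 * (m + 1) + 1) h5
  have hE : ∀ x : ZMod (6 * (m + 1) + 1), x ^ (4 * (m + 1)) = 0 ∨ (x ^ (4 * (m + 1))) ^ 3 = 1 := by
    intro x
    by_cases hx : x = 0
    · left
      rw [hx, zero_pow (by omega)]
    · right
      rw [← pow_mul]
      exact fer hx (k := 2) (by omega)
  have hU : ∀ x : ZMod (6 * (m + 1) + 1), x ^ (2 * (m + 1)) = 0 ∨ (x ^ (2 * (m + 1))) ^ 3 = 1 := by
    intro x
    by_cases hx : x = 0
    · left
      rw [hx, zero_pow (by omega)]
    · right
      rw [← pow_mul]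
      exact fer hx (k := 1) (by omega)
  have hne : ¬ ((((3 * e : ℕ) : ZMod (6 * (m + 1) + 1))) ^ (4 * (m + 1)) = 0 ∧
      (f : ZMod (6 * (m + 1) + 1)) ^ (4 * (m + 1)) = 0) := by
    rintro ⟨h7, h8⟩
    have h9 := pow_eq_zero_iff (by omega) |>.1 h7
    push_cast at h9
    rcases mul_eq_zero.1 h9 with h10 | h10
    · exact three_ne hp (by omega) h10
    · exact cop_z hp h3 ⟨h10, pow_eq_zero_iff (by omega) |>.1 h8⟩
  exact comb6 hp (by omega) (by omega) (hU _) (hE _) (hE _) hne h6

/-- `3` is not a square modulo certain prime numbers. -/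
theorem nsq_of {l : ℕ} (hl : l.Prime)
    (h : (l % 4 = 1 ∧ l % 3 = 2) ∨ (l % 4 = 3 ∧ l % 3 = 1)) : ¬ IsSquare ((3 : ℕ) : ZMod l) := by
  have := Fact.mk hl
  have h3p : Fact (Nat.Prime 3) := ⟨Nat.prime_three⟩
  intro hsq
  rcases h with ⟨h4, h5⟩ | ⟨h4, h5⟩
  · have h7 := (ZMod.exists_sq_eq_prime_iff_of_mod_four_eq_one (p := l) (q := 3) h4
      (by norm_num)).1 hsq
    have h9 : ((l : ℕ) : ZMod 3) = 2 := by
      have : ((l : ℕ) : ZMod 3) = ((2 : ℕ) : ZMod 3) := by
        rw [ZMod.natCast_eq_natCast_iff]
        exact h5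
      rw [this]
      rfl
    rw [h9] at h7
    exact nsq3 h7
  · have h7 := (ZMod.exists_sq_eq_prime_iff_of_mod_four_eq_three (p := l) (q := 3) h4
      (by norm_num) (by omega)).1 hsq
    have h9 : ((l : ℕ) : ZMod 3) = 1 := by
      have : ((l : ℕ) : ZMod 3) = ((1 : ℕ) : ZMod 3) := by
        rw [ZMod.natCast_eq_natCast_iff]
        exact h5
      rw [this]
      rfl
    exact h7 (by rw [h9]; exact ⟨1, by norm_num⟩)

/-- The case `l ∣ s` of the second family. -/
theorem no_root {l n t α : ℕ} (hl : l.Prime) (ht : (t : ZMod l) ≠ 0)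
    (hs : (t : ZMod l) ^ (4 * n) = 3 * (α : ZMod l) ^ 4) (h3 : ¬ IsSquare ((3 : ℕ) : ZMod l)) :
    False := by
  have := Fact.mk hl
  have hα : (α : ZMod l) ≠ 0 := by
    intro h0
    rw [h0] at hs
    have h1 : (t : ZMod l) ^ (4 * n) = 0 := by rw [hs]; ring
    exact ht (pow_eq_zero_iff (M₀ := ZMod l) (n := 4 * n) (by rintro h2; rw [h2, pow_zero] at h1; exact one_ne_zero h1) |>.1 h1)
  apply h3
  refine ⟨((t : ZMod l) ^ n) ^ 2 * ((α : ZMod l) ^ 2)⁻¹, ?_⟩
  push_cast
  have h1 : ((t : ZMod l) ^ n) ^ 4 = 3 * (α : ZMod l) ^ 4 := by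
    rw [← hs, ← pow_mul, mul_comm]
  field_simp
  linear_combination -h1

/-- The two equations of the second family in `ZMod l`. -/
theorem eqB {l n t s α β B' : ℕ} (h4 : t ^ (4 * n) + 3 * β ^ 4 = 4 * α ^ 4)
    (h5 : 2 * s ^ (4 * n) + α ^ 4 = 3 * β ^ 4) (h6 : B' ^ n = t ^ (4 * n) + 4 * s ^ (4 * n)) :
    (B' : ZMod l) ^ n = (t : ZMod l) ^ (4 * n) + 4 * (s : ZMod l) ^ (4 * n) ∧
      (t : ZMod l) ^ (4 * n) + 2 * (s : ZMod l) ^ (4 * n) = 3 * (α : ZMod l) ^ 4 := by
  have e3 : t ^ (4 * n) + 2 * s ^ (4 * n) = 3 * α ^ 4 := by omega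
  constructor
  · exact_mod_cast congrArg (Nat.cast : ℕ → ZMod l) h6
  · exact_mod_cast congrArg (Nat.cast : ℕ → ZMod l) e3

/-- The second family, the auxiliary prime number `6 n + 1`. -/
theorem NB_six {n : ℕ} (hn : 1008 < n) (hp : (6 * n + 1).Prime) (h2n : n % 2 = 1) :
    NB n := by
  have := Fact.mk hp
  have B := @big (6 * n + 1) hp 6000 (by omega)
  intro a b A B₀ Z h1 h2
  obtain ⟨t, s, α, β, B', h3, h4, h5, h6⟩ := h1.famB (by omega) h2
  obtain ⟨z6, z3⟩ := eqB (l := 6 * n + 1) h4 h5 h6
  have hE : ∀ x : ZMod (6 * n + 1), x ^ (4 * n) = 0 ∧ x = 0 ∨ (x ^ (4 * n)) ^ 3 = 1 ∧ x ≠ 0 := by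
    intro x
    by_cases hx : x = 0
    · left
      exact ⟨by rw [hx, zero_pow (by omega)], hx⟩
    · right
      rw [← pow_mul]
      exact ⟨fer hx (k := 2) (by omega), hx⟩
  have hB : ((B' : ZMod (6 * n + 1)) ^ n) = 0 ∨ ((B' : ZMod (6 * n + 1)) ^ n) ^ 6 = 1 := by
    by_cases hx : (B' : ZMod (6 * n + 1)) = 0
    · left
      rw [hx, zero_pow (by omega)]
    · right
      rw [← pow_mul]
      exact fer hx (k := 1) (by omega)
  rw [z6] at hB
  rcases hE (t : ZMod (6 * n + 1)) with ⟨ht, ht0⟩ | ⟨ht, ht0⟩ <;>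
  rcases hE (s : ZMod (6 * n + 1)) with ⟨hs, hs0⟩ | ⟨hs, hs0⟩
  · exact cop_z hp h3 ⟨ht0, hs0⟩
  · rw [ht] at hB
    generalize (s : ZMod (6 * n + 1)) ^ (4 * n) = S at hB hs
    rcases hB with h7 | h7
    · refine B [64] (by decide) (c := 64) (by norm_num) ?_
      push_cast
      have h8 : 4 * S = 0 := by linear_combination h7
      linear_combination (16 * S ^ 2) * h8 - 64 * hs
    · refine B [63, 65] (by decide) (c := 4095) (by norm_num) ?_
      push_cast
      linear_combination h7 - 4096 * (S ^ 3 + 1) * hs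
  · rw [hs] at z3
    exact no_root (n := n) (α := α) hp ht0 (by linear_combination z3) (nsq_of hp (by omega))
  · generalize (t : ZMod (6 * n + 1)) ^ (4 * n) = T at hB ht
    generalize (s : ZMod (6 * n + 1)) ^ (4 * n) = S at hB hs
    -- divide by `T`
    have hw : (T ^ 2 * S) ^ 3 = 1 := by
      calc (T ^ 2 * S) ^ 3 = (T ^ 3) ^ 2 * S ^ 3 := by ring
        _ = 1 := by rw [ht, hs, one_pow, one_mul]
    have hD : 1 + 4 * (T ^ 2 * S) = 0 ∨ (1 + 4 * (T ^ 2 * S)) ^ 6 = 1 := by
      have e : 1 + 4 * (T ^ 2 * S) = T ^ 2 * (T + 4 * S) := by linear_combination -ht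
      rw [e]
      rcases hB with h7 | h7
      · left
        rw [h7, mul_zero]
      · right
        rw [mul_pow, h7, mul_one]
        calc (T ^ 2) ^ 6 = (T ^ 3) ^ 4 := by ring
          _ = 1 := by rw [ht, one_pow]
    generalize T ^ 2 * S = w at hw hD
    rcases mu3' hw with hw1 | hw1
    · rw [hw1] at hD
      rcases hD with h7 | h7
      · exact B [5] (by decide) (c := 5) (by norm_num) (by push_cast; linear_combination h7)
      · exact B [72, 217] (by decide) (c := 15624) (by norm_num)
          (by push_cast; linear_combination h7)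
    · rcases hD with h7 | h7
      · refine B [13] (by decide) (c := 13) (by norm_num) ?_
        push_cast
        linear_combination (1 + 4 * w ^ 2) * h7 - (16 * w - 12) * hw1
      · have e2 : (1 + 4 * w) ^ 2 = -15 - 8 * w := by linear_combination 16 * hw1
        have e6 : (1 + 4 * w) ^ 6 = -1007 - 2520 * w := by
          calc (1 + 4 * w) ^ 6 = ((1 + 4 * w) ^ 2) ^ 3 := by ring
            _ = (-15 - 8 * w) ^ 3 := by rw [e2]
            _ = -1007 - 2520 * w := by linear_combination (-512 * w - 2368) * hw1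
        rw [e6] at h7
        have h8 : (504 : ZMod (6 * n + 1)) * (2 + 5 * w) = 0 := by linear_combination -h7
        rcases mul_eq_zero.1 h8 with h9 | h9
        · exact B [504] (by decide) (c := 504) (by norm_num) (by push_cast; exact h9)
        · refine B [19] (by decide) (c := 19) (by norm_num) ?_
          push_cast
          linear_combination (2 + 5 * w ^ 2) * h9 - (25 * w - 15) * hw1

theorem mu2 {l : ℕ} [Fact l.Prime] {x : ZMod l} (hx : x ^ 2 = 1) : x = 1 ∨ x = -1 := by
  have h : (x - 1) * (x + 1) = 0 := by linear_combination hx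
  rcases mul_eq_zero.1 h with h | h
  · exact Or.inl (sub_eq_zero.1 h)
  · exact Or.inr (eq_neg_of_add_eq_zero_left h)

theorem mu4 {l : ℕ} [Fact l.Prime] {x : ZMod l} (hx : x ^ 4 = 1) :
    x = 1 ∨ x = -1 ∨ x ^ 2 = -1 := by
  have h : (x ^ 2 - 1) * (x ^ 2 + 1) = 0 := by linear_combination hx
  rcases mul_eq_zero.1 h with h | h
  · rcases mu2 (x := x) (by linear_combination h) with h1 | h1
    · exact Or.inl h1
    · exact Or.inr (Or.inl h1)
  · exact Or.inr (Or.inr (eq_neg_of_add_eq_zero_left h))

theorem comb8 {l : ℕ} (hl : l.Prime) (hM : 8000 < l) {U E F : ZMod l}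
    (hU : U = 0 ∨ U = 1 ∨ U = -1 ∨ U ^ 2 = -1) (hE : E = 0 ∨ E = 1 ∨ E = -1)
    (hF : F = 0 ∨ F = 1 ∨ F = -1) (hne : ¬ (E = 0 ∧ F = 0)) (h : 108 * U = E + 27 * F) :
    False := by
  have := Fact.mk hl
  have B := @big l hl 8000 hM
  rcases hE with rfl | rfl | rfl <;> rcases hF with rfl | rfl | rfl
  · exact hne ⟨rfl, rfl⟩
  · rcases hU with rfl | rfl | rfl | hU
    · exact B [27] (by decide) (c := 27) (by norm_num) (by push_cast; linear_combination -h)
    · exact B [81] (by decide) (c := 81) (by norm_num) (by push_cast; linear_combination h)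
    · exact B [135] (by decide) (c := 135) (by norm_num) (by push_cast; linear_combination -h)
    · exact B [729, 17] (by decide) (c := 12393) (by norm_num)
        (by push_cast; linear_combination -(108 * U + 27) * h + 11664 * hU)
  · rcases hU with rfl | rfl | rfl | hU
    · exact B [27] (by decide) (c := 27) (by norm_num) (by push_cast; linear_combination h)
    · exact B [135] (by decide) (c := 135) (by norm_num) (by push_cast; linear_combination h)
    · exact B [81] (by decide) (c := 81) (by norm_num) (by push_cast; linear_combination -h)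
    · exact B [729, 17] (by decide) (c := 12393) (by norm_num)
        (by push_cast; linear_combination -(108 * U - 27) * h + 11664 * hU)
  · rcases hU with rfl | rfl | rfl | hU
    · exact B [1] (by decide) (c := 1) (by norm_num) (by push_cast; linear_combination -h)
    · exact B [107] (by decide) (c := 107) (by norm_num) (by push_cast; linear_combination h)
    · exact B [109] (by decide) (c := 109) (by norm_num) (by push_cast; linear_combination -h)
    · exact B [5, 2333] (by decide) (c := 11665) (by norm_num)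
        (by push_cast; linear_combination -(108 * U + 1) * h + 11664 * hU)
  · rcases hU with rfl | rfl | rfl | hU
    · exact B [28] (by decide) (c := 28) (by norm_num) (by push_cast; linear_combination -h)
    · exact B [80] (by decide) (c := 80) (by norm_num) (by push_cast; linear_combination h)
    · exact B [136] (by decide) (c := 136) (by norm_num) (by push_cast; linear_combination -h)
    · exact B [32, 389] (by decide) (c := 12448) (by norm_num)
        (by push_cast; linear_combination -(108 * U + 28) * h + 11664 * hU)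
  · rcases hU with rfl | rfl | rfl | hU
    · exact B [26] (by decide) (c := 26) (by norm_num) (by push_cast; linear_combination h)
    · exact B [134] (by decide) (c := 134) (by norm_num) (by push_cast; linear_combination h)
    · exact B [82] (by decide) (c := 82) (by norm_num) (by push_cast; linear_combination -h)
    · exact B [20, 617] (by decide) (c := 12340) (by norm_num)
        (by push_cast; linear_combination -(108 * U - 26) * h + 11664 * hU)
  · rcases hU with rfl | rfl | rfl | hU
    · exact B [1] (by decide) (c := 1) (by norm_num) (by push_cast; linear_combination h)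
    · exact B [109] (by decide) (c := 109) (by norm_num) (by push_cast; linear_combination h)
    · exact B [107] (by decide) (c := 107) (by norm_num) (by push_cast; linear_combination -h)
    · exact B [5, 2333] (by decide) (c := 11665) (by norm_num)
        (by push_cast; linear_combination -(108 * U - 1) * h + 11664 * hU)
  · rcases hU with rfl | rfl | rfl | hU
    · exact B [26] (by decide) (c := 26) (by norm_num) (by push_cast; linear_combination -h)
    · exact B [82] (by decide) (c := 82) (by norm_num) (by push_cast; linear_combination h)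
    · exact B [134] (by decide) (c := 134) (by norm_num) (by push_cast; linear_combination -h)
    · exact B [20, 617] (by decide) (c := 12340) (by norm_num)
        (by push_cast; linear_combination -(108 * U + 26) * h + 11664 * hU)
  · rcases hU with rfl | rfl | rfl | hU
    · exact B [28] (by decide) (c := 28) (by norm_num) (by push_cast; linear_combination h)
    · exact B [136] (by decide) (c := 136) (by norm_num) (by push_cast; linear_combination h)
    · exact B [80] (by decide) (c := 80) (by norm_num) (by push_cast; linear_combination -h)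
    · exact B [32, 389] (by decide) (c := 12448) (by norm_num)
        (by push_cast; linear_combination -(108 * U - 28) * h + 11664 * hU)

/-- The first family, the auxiliary prime number `8 n + 1`. -/
theorem NA_eight {n : ℕ} (hn : 1008 < n) (hp : (8 * n + 1).Prime) : NA n := by
  obtain ⟨m, rfl⟩ : ∃ m, n = m + 1 := ⟨n - 1, by omega⟩
  have := Fact.mk hp
  intro a b A B Y h1 h2
  obtain ⟨e, f, u, h3, h5⟩ := h1.famA h2
  have h6 := eqA' (l := 8 * (m + 1) + 1) h5
  have hE : ∀ x : ZMod (8 * (m + 1) + 1), x ^ (4 * (m + 1)) = 0 ∨ x ^ (4 * (m + 1)) = 1 ∨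
      x ^ (4 * (m + 1)) = -1 := by
    intro x
    by_cases hx : x = 0
    · left
      rw [hx, zero_pow (by omega)]
    · right
      refine mu2 ?_
      rw [← pow_mul]
      exact fer hx (k := 1) (by omega)
  have hU : ∀ x : ZMod (8 * (m + 1) + 1), x ^ (2 * (m + 1)) = 0 ∨ x ^ (2 * (m + 1)) = 1 ∨
      x ^ (2 * (m + 1)) = -1 ∨ (x ^ (2 * (m + 1))) ^ 2 = -1 := by
    intro x
    by_cases hx : x = 0
    · left
      rw [hx, zero_pow (by omega)]
    · right
      refine mu4 ?_
      rw [← pow_mul]
      exact fer hx (k := 1) (by omega)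
  have hne : ¬ ((((3 * e : ℕ) : ZMod (8 * (m + 1) + 1))) ^ (4 * (m + 1)) = 0 ∧
      (f : ZMod (8 * (m + 1) + 1)) ^ (4 * (m + 1)) = 0) := by
    rintro ⟨h7, h8⟩
    have h9 := pow_eq_zero_iff (by omega) |>.1 h7
    push_cast at h9
    rcases mul_eq_zero.1 h9 with h10 | h10
    · exact three_ne hp (by omega) h10
    · exact cop_z hp h3 ⟨h10, pow_eq_zero_iff (by omega) |>.1 h8⟩
  exact comb8 hp (by omega) (hU _) (hE _) (hE _) hne h6

/-- The second family, the auxiliary prime number `8 n + 1`. -/
theorem NB_eight {n : ℕ} (hn : 1008 < n) (hp : (8 * n + 1).Prime) (h3n : n % 3 ≠ 0) : NB n := by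
  have := Fact.mk hp
  have B := @big (8 * n + 1) hp 8000 (by omega)
  intro a b A B₀ Z h1 h2
  obtain ⟨t, s, α, β, B', h3, h4, h5, h6⟩ := h1.famB (by omega) h2
  obtain ⟨z6, z3⟩ := eqB (l := 8 * n + 1) h4 h5 h6
  have hE : ∀ x : ZMod (8 * n + 1), x ^ (4 * n) = 0 ∧ x = 0 ∨ x ^ (4 * n) = 1 ∧ x ≠ 0 ∨
      x ^ (4 * n) = -1 ∧ x ≠ 0 := by
    intro x
    by_cases hx : x = 0
    · left
      exact ⟨by rw [hx, zero_pow (by omega)], hx⟩
    · right
      have h7 : (x ^ (4 * n)) ^ 2 = 1 := by
        rw [← pow_mul]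
        exact fer hx (k := 1) (by omega)
      rcases mu2 h7 with h8 | h8
      · exact Or.inl ⟨h8, hx⟩
      · exact Or.inr ⟨h8, hx⟩
  have hB : ((B' : ZMod (8 * n + 1)) ^ n) = 0 ∨ ((B' : ZMod (8 * n + 1)) ^ n) ^ 8 = 1 := by
    by_cases hx : (B' : ZMod (8 * n + 1)) = 0
    · left
      rw [hx, zero_pow (by omega)]
    · right
      rw [← pow_mul]
      exact fer hx (k := 1) (by omega)
  rw [z6] at hB
  have h8n : (8 * n + 1) % 4 = 1 ∧ (8 * n + 1) % 3 = 2 := by
    have h9 : (8 * n + 1) % 3 ≠ 0 := by
      intro h0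
      have := (Nat.prime_dvd_prime_iff_eq Nat.prime_three hp).1 (Nat.dvd_of_mod_eq_zero h0)
      omega
    omega
  rcases hE (s : ZMod (8 * n + 1)) with ⟨hs, hs0⟩ | ⟨hs, hs0⟩ | ⟨hs, hs0⟩
  · rw [hs] at z3
    have ht0 : (t : ZMod (8 * n + 1)) ≠ 0 := fun h0 => cop_z hp h3 ⟨h0, hs0⟩
    exact no_root (n := n) (α := α) hp ht0 (by linear_combination z3) (nsq_of hp (Or.inl h8n))
  · rw [hs] at hB
    rcases hE (t : ZMod (8 * n + 1)) with ⟨ht, -⟩ | ⟨ht, -⟩ | ⟨ht, -⟩
    · rw [ht] at hB
      rcases hB with h7 | h7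
      · exact B [4] (by decide) (c := 4) (by norm_num) (by push_cast; linear_combination h7)
      · exact B [15, 17, 257] (by decide) (c := 65535) (by norm_num)
          (by push_cast; linear_combination h7)
    · rw [ht] at hB
      rcases hB with h7 | h7
      · exact B [5] (by decide) (c := 5) (by norm_num) (by push_cast; linear_combination h7)
      · exact B [96, 13, 313] (by decide) (c := 390624) (by norm_num)
          (by push_cast; linear_combination h7)
    · rw [ht] at hB
      rcases hB with h7 | h7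
      · exact B [3] (by decide) (c := 3) (by norm_num) (by push_cast; linear_combination h7)
      · exact B [6560] (by decide) (c := 6560) (by norm_num)
          (by push_cast; linear_combination h7)
  · rw [hs] at hB
    rcases hE (t : ZMod (8 * n + 1)) with ⟨ht, -⟩ | ⟨ht, -⟩ | ⟨ht, -⟩
    · rw [ht] at hB
      rcases hB with h7 | h7
      · exact B [4] (by decide) (c := 4) (by norm_num) (by push_cast; linear_combination -h7)
      · exact B [15, 17, 257] (by decide) (c := 65535) (by norm_num)
          (by push_cast; linear_combination h7)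
    · rw [ht] at hB
      rcases hB with h7 | h7
      · exact B [3] (by decide) (c := 3) (by norm_num) (by push_cast; linear_combination -h7)
      · exact B [6560] (by decide) (c := 6560) (by norm_num)
          (by push_cast; linear_combination h7)
    · rw [ht] at hB
      rcases hB with h7 | h7
      · exact B [5] (by decide) (c := 5) (by norm_num) (by push_cast; linear_combination -h7)
      · exact B [96, 13, 313] (by decide) (c := 390624) (by norm_num)
          (by push_cast; linear_combination h7)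

end GF2
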