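import Pool.Agent.H.MP_81d9be_nt.FamAB

/-!
# MP_81d9be_nt: auxiliary prime numbers
-/

set_option autoImplicit false

namespace GF2

/-- The product `3 a A` is not a power with exponent `n`. -/
def NA (n : ℕ) : Prop := ∀ a b A B Y : ℕ, DS a b A B → 3 * a * A = Y ^ n → False

/-- The product `b B` is not a power with exponent `n`. -/
def NB (n : ℕ) : Prop := ∀ a b A B Z : ℕ, DS a b A B → b * B = Z ^ n → False

theorem NA.dvd {n m : ℕ} (h : NA n) (hnm : n ∣ m) : NA m := by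
  obtain ⟨k, rfl⟩ := hnm
  intro a b A B Y h1 h2
  refine h a b A B (Y ^ k) h1 ?_
  rw [h2, ← pow_mul, mul_comm]

theorem NB.dvd {n m : ℕ} (h : NB n) (hnm : n ∣ m) : NB m := by
  obtain ⟨k, rfl⟩ := hnm
  intro a b A B Z h1 h2
  refine h a b A B (Z ^ k) h1 ?_
  rw [h2, ← pow_mul, mul_comm]

theorem NA2 : NA 2 := fun _ _ _ _ _ h hy => bg h.ha h.hb h.hb3 h.hc h.h1 h.h2 hy

/-! ### Iteration -/

/-- Membership. -/
def memb (x : ℕ) : List ℕ → Bool
  | [] => false
  | y :: L => Nat.beq x y || memb x L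

theorem memb_spec {x : ℕ} {L : List ℕ} : memb x L = true ↔ x ∈ L := by
  induction L with
  | nil => simp [memb]
  | cons y L ih => rw [memb, Bool.or_eq_true, ih, Nat.beq_eq, List.mem_cons]

/-- All elements of a list. -/
def allL (f : ℕ → Bool) : List ℕ → Bool
  | [] => true
  | y :: L => f y && allL f L

theorem allL_spec {f : ℕ → Bool} {L : List ℕ} (h : allL f L = true) : ∀ y ∈ L, f y = true := by
  induction L with
  | nil => simp
  | cons y L ih =>
    rw [allL, Bool.and_eq_true] at h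
    intro z hz
    rcases List.mem_cons.1 hz with h1 | h1
    · rw [h1]
      exact h.1
    · exact ih h.2 z h1

/-- Strictly increasing lists. -/
def inc : List ℕ → Bool
  | [] => true
  | x :: L => allL (fun y => Nat.blt x y) L && inc L

theorem inc_spec {L : List ℕ} (h : inc L = true) : L.Nodup := by
  induction L with
  | nil => exact List.nodup_nil
  | cons x L ih =>
    rw [inc, Bool.and_eq_true] at h
    rw [List.nodup_cons]
    refine ⟨fun hx => ?_, ih h.2⟩
    have h1 := allL_spec h.1 x hx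
    rw [Nat.blt_eq] at h1
    exact lt_irrefl _ h1

/-- The list consists of `k` different `k`-th roots of `1` modulo `l`. -/
def rts (l k : ℕ) (L : List ℕ) : Bool :=
  Nat.beq L.length k && (allL (fun g => Nat.blt g l && Nat.beq (Nat.mod (Nat.pow g k) l) 1) L &&
    inc L)

theorem rts_spec {l k : ℕ} (hl : l.Prime) (hk : 0 < k) {L : List ℕ} (h : rts l k L = true)
    {g : ℕ} (hg : g < l) (h1 : g ^ k % l = 1) : g ∈ L := by
  classical
  have := Fact.mk hl
  rw [rts, Bool.and_eq_true, Bool.and_eq_true, Nat.beq_eq] at h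
  obtain ⟨hlen, hroot', hinc⟩ := h
  have hnd := inc_spec hinc
  have hroot : ∀ x ∈ L, x < l ∧ x ^ k % l = 1 := by
    intro x hx
    have h2 := allL_spec hroot' x hx
    rw [Bool.and_eq_true, Nat.blt_eq, Nat.beq_eq] at h2
    exact h2
  have cast1 : ∀ x : ℕ, x ^ k % l = 1 → (x : ZMod l) ^ k = 1 := by
    intro x hx
    have h2 : x ^ k ≡ 1 [MOD l] := by
      show x ^ k % l = 1 % l
      rw [hx, Nat.mod_eq_of_lt hl.one_lt]
    have h3 := (ZMod.natCast_eq_natCast_iff (x ^ k) 1 l).2 h2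
    exact_mod_cast h3
  have inj : ∀ x y : ℕ, x < l → y < l → (x : ZMod l) = (y : ZMod l) → x = y := by
    intro x y hx hy e
    exact Nat.ModEq.eq_of_lt_of_lt ((ZMod.natCast_eq_natCast_iff x y l).1 e) hx hy
  have hS : (L.toFinset.image (fun x : ℕ => (x : ZMod l))).card = k := by
    rw [Finset.card_image_of_injOn, List.toFinset_card_of_nodup hnd, hlen]
    intro x hx y hy e
    exact inj x y (hroot x (List.mem_toFinset.1 hx)).1 (hroot y (List.mem_toFinset.1 hy)).1 e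
  have hsub : L.toFinset.image (fun x : ℕ => (x : ZMod l)) ⊆
      (Polynomial.nthRoots k (1 : ZMod l)).toFinset := by
    intro z hz
    obtain ⟨x, hx, rfl⟩ := Finset.mem_image.1 hz
    rw [Multiset.mem_toFinset, Polynomial.mem_nthRoots hk]
    exact cast1 x (hroot x (List.mem_toFinset.1 hx)).2
  have hcard : (Polynomial.nthRoots k (1 : ZMod l)).toFinset.card ≤ k :=
    (Multiset.toFinset_card_le _).trans (Polynomial.card_nthRoots k 1)
  have heq := Finset.eq_of_subset_of_card_le hsub (hcard.trans hS.ge)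
  have hgS : (g : ZMod l) ∈ L.toFinset.image (fun x : ℕ => (x : ZMod l)) := by
    rw [heq, Multiset.mem_toFinset, Polynomial.mem_nthRoots hk]
    exact cast1 g h1
  obtain ⟨x, hx, hx'⟩ := Finset.mem_image.1 hgS
  have hxL := List.mem_toFinset.1 hx
  rw [← inj x g (hroot x hxL).1 hg hx']
  exact hxL

theorem fermat {l x : ℕ} (hl : l.Prime) (hx : ¬ l ∣ x) : x ^ (l - 1) % l = 1 := by
  have h1 : x ^ (l - 1) ≡ 1 [MOD l] := by
    have := Fact.mk hl
    rw [← ZMod.natCast_eq_natCast_iff]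
    push_cast
    refine ZMod.pow_card_sub_one_eq_one ?_
    rw [Ne, ZMod.natCast_eq_zero_iff]
    exact hx
  have h2 : x ^ (l - 1) % l = 1 % l := h1
  rw [h2, Nat.mod_eq_of_lt hl.one_lt]

/-- The residue of a power with exponent `n`. -/
theorem res_mem {l n k x : ℕ} {L : List ℕ} (hl : l.Prime) (hn : n ≠ 0) (hk : l = k * n + 1)
    (hL : rts l k L = true) : x ^ n % l ∈ 0 :: L ∧ (x ^ n % l = 0 → l ∣ x) := by
  have hk0 : 0 < k := by
    rcases Nat.eq_zero_or_pos k with h0 | h0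
    · exfalso
      rw [h0, zero_mul, zero_add] at hk
      exact hl.one_lt.ne' hk
    · exact h0
  constructor
  · by_cases h : l ∣ x
    · have h1 : x ^ n % l = 0 := Nat.mod_eq_zero_of_dvd (dvd_pow h hn)
      rw [h1]
      exact List.mem_cons_self
    · refine List.mem_cons_of_mem _ (rts_spec hl hk0 hL (Nat.mod_lt _ hl.pos) ?_)
      rw [← Nat.pow_mod, ← pow_mul]
      have h1 := fermat hl h
      have h2 : l - 1 = n * k := by
        rw [hk, mul_comm]
        omega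
      rwa [h2] at h1
  · intro h
    exact hl.dvd_of_dvd_pow (Nat.dvd_of_mod_eq_zero h)

/-- The lists contain the squares and the fourth powers. -/
def p24 (l : ℕ) (L L2 L4 : List ℕ) : Bool :=
  allL (fun g => memb (Nat.mod (Nat.pow g 2) l) L2 && memb (Nat.mod (Nat.pow g 4) l) L4) L

theorem res2 {l n k x : ℕ} {L L2 L4 : List ℕ} (hl : l.Prime) (hn : n ≠ 0)
    (hk : l = k * n + 1) (hL : rts l k L = true) (h24 : p24 l L L2 L4 = true) :
    x ^ (2 * n) % l ∈ 0 :: L2 ∧ x ^ (4 * n) % l ∈ 0 :: L4 := by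
  obtain ⟨h1, h2⟩ := res_mem (x := x) hl hn hk hL
  have e2 : x ^ (2 * n) % l = (x ^ n % l) ^ 2 % l := by
    rw [← Nat.pow_mod, ← pow_mul, mul_comm]
  have e4 : x ^ (4 * n) % l = (x ^ n % l) ^ 4 % l := by
    rw [← Nat.pow_mod, ← pow_mul, mul_comm]
  rw [e2, e4]
  rcases List.mem_cons.1 h1 with h3 | h3
  · rw [h3]
    simp
  · have h4 := allL_spec h24 _ h3
    rw [Bool.and_eq_true, memb_spec, memb_spec] at h4
    exact ⟨List.mem_cons_of_mem _ h4.1, List.mem_cons_of_mem _ h4.2⟩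

theorem dvd_of_res {l x n : ℕ} (hl : l.Prime) (h : x ^ (4 * n) % l = 0) : l ∣ x :=
  hl.dvd_of_dvd_pow (Nat.dvd_of_mod_eq_zero h)

/-! ### The first family -/

/-- The check for the first family. -/
def chkA (l k c : ℕ) (L L2 L4 : List ℕ) : Bool :=
  rts l k L && (p24 l L L2 L4 && allL (fun U => allL (fun E => allL (fun F =>
    (Nat.beq E 0 && Nat.beq F 0) ||
      not (Nat.beq (Nat.mod (Nat.mul 4 U) l) (Nat.mod (Nat.add (Nat.mul c E) F) l)))
      (0 :: L4)) (0 :: L4)) (0 :: L2))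

theorem chkA_spec {l m k c : ℕ} {L L2 L4 : List ℕ} (hl : l.Prime) (hk : l = k * (m + 1) + 1)
    (hc : 3 ^ (4 * m + 1) % l = c) (h : chkA l k c L L2 L4 = true) : NA (m + 1) := by
  rw [chkA, Bool.and_eq_true, Bool.and_eq_true] at h
  obtain ⟨hL, h24, h⟩ := h
  intro a b A B Y h1 h2
  obtain ⟨e, f, u, h3, h4⟩ := h1.famA h2
  obtain ⟨mu, -⟩ := res2 (x := u) hl (Nat.succ_ne_zero m) hk hL h24
  obtain ⟨-, me⟩ := res2 (x := e) hl (Nat.succ_ne_zero m) hk hL h24
  obtain ⟨-, mf⟩ := res2 (x := f) hl (Nat.succ_ne_zero m) hk hL h24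
  have h5 := allL_spec (allL_spec (allL_spec h _ mu) _ me) _ mf
  rw [Bool.or_eq_true] at h5
  rcases h5 with h5 | h5
  · rw [Bool.and_eq_true, Nat.beq_eq, Nat.beq_eq] at h5
    exact cop_no h3 hl (dvd_of_res hl h5.1) (dvd_of_res hl h5.2)
  · rw [Bool.not_eq_true', ← Bool.not_eq_true, Nat.beq_eq] at h5
    apply h5
    have hc' : c ≡ 3 ^ (4 * m + 1) [MOD l] := by
      rw [← hc]
      exact Nat.mod_modEq _ _
    have h6 : 4 * (u ^ (2 * (m + 1)) % l) ≡
        c * (e ^ (4 * (m + 1)) % l) + (f ^ (4 * (m + 1)) % l) [MOD l] := by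
      refine ((Nat.ModEq.refl 4).mul (Nat.mod_modEq _ _)).trans ?_
      rw [h4]
      exact ((hc'.mul (Nat.mod_modEq _ _)).add (Nat.mod_modEq _ _)).symm
    exact h6

/-! ### The second family -/

/-- The check for the second family. -/
def chkB (l k d c3 c9 : ℕ) (L L2 L4 : List ℕ) : Bool :=
  rts l k L && (p24 l L L2 L4 && allL (fun T => allL (fun S =>
    (Nat.beq T 0 && Nat.beq S 0) ||
      (not (memb (Nat.mod (Nat.add T (Nat.mul 4 S)) l) (0 :: L)) ||
      ((not (Nat.beq (Nat.mod (Nat.add T (Nat.mul 2 S)) l) 0) &&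
        not (Nat.beq (Nat.mod (Nat.pow
          (Nat.mod (Nat.add T (Nat.mul 2 S)) l) d) l) c3)) ||
      (not (Nat.beq (Nat.mod (Nat.add T (Nat.mul 8 S)) l) 0) &&
        not (Nat.beq (Nat.mod (Nat.pow
          (Nat.mod (Nat.add T (Nat.mul 8 S)) l) d) l) c9)))))
      (0 :: L4)) (0 :: L4))

theorem res4 {l d c x v r : ℕ} (hl : l.Prime) (hd : l - 1 ∣ 4 * d) (hr : r ^ d % l = c)
    (hv : v ≡ r * x ^ 4 [MOD l]) : v % l = 0 ∨ (v % l) ^ d % l = c := by
  by_cases h : l ∣ x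
  · left
    have h1 : r * x ^ 4 ≡ 0 [MOD l] :=
      (Nat.modEq_zero_iff_dvd).2 (Dvd.dvd.mul_left (dvd_pow h (by norm_num)) _)
    exact (hv.trans h1)
  · right
    rw [← Nat.pow_mod, ← hr]
    have h1 : x ^ (4 * d) ≡ 1 [MOD l] := by
      obtain ⟨j, hj⟩ := hd
      rw [hj, pow_mul]
      have h2 : x ^ (l - 1) ≡ 1 [MOD l] := by
        have h3 := fermat hl h
        show x ^ (l - 1) % l = 1 % l
        rw [h3, Nat.mod_eq_of_lt hl.one_lt]
      simpa using h2.pow j
    have h2 : v ^ d ≡ r ^ d * 1 [MOD l] := by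
      refine (hv.pow d).trans ?_
      rw [mul_pow, ← pow_mul]
      exact (Nat.ModEq.refl _).mul h1
    rw [mul_one] at h2
    exact h2

theorem chkB_spec {l n k d c3 c9 : ℕ} {L L2 L4 : List ℕ} (hl : l.Prime) (hn : n ≠ 0)
    (hk : l = k * n + 1) (hd : l - 1 ∣ 4 * d) (hc3 : 3 ^ d % l = c3) (hc9 : 9 ^ d % l = c9)
    (h : chkB l k d c3 c9 L L2 L4 = true) : NB n := by
  rw [chkB, Bool.and_eq_true, Bool.and_eq_true] at h
  obtain ⟨hL, h24, h⟩ := h
  intro a b A B Z h1 h2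
  obtain ⟨t, s, α, β, B', h3, h4, h5, h6⟩ := h1.famB hn h2
  obtain ⟨-, mt⟩ := res2 (x := t) hl hn hk hL h24
  obtain ⟨-, ms⟩ := res2 (x := s) hl hn hk hL h24
  obtain ⟨mB, -⟩ := res_mem (x := B') hl hn hk hL
  have e3 : 3 * α ^ 4 = t ^ (4 * n) + 2 * s ^ (4 * n) := by omega
  have e9 : 9 * β ^ 4 = t ^ (4 * n) + 8 * s ^ (4 * n) := by omega
  have q : ∀ r : ℕ, t ^ (4 * n) % l + r * (s ^ (4 * n) % l) ≡
      t ^ (4 * n) + r * s ^ (4 * n) [MOD l] := fun r =>
    (Nat.mod_modEq _ _).add ((Nat.ModEq.refl r).mul (Nat.mod_modEq _ _))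
  have hB : (t ^ (4 * n) % l + 4 * (s ^ (4 * n) % l)) % l ∈ 0 :: L := by
    have e1 : (t ^ (4 * n) % l + 4 * (s ^ (4 * n) % l)) % l = B' ^ n % l := by
      rw [h6]
      exact q 4
    rw [e1]
    exact mB
  have r3 := res4 (x := α) (r := 3) (v := t ^ (4 * n) % l + 2 * (s ^ (4 * n) % l)) hl hd hc3
    (by rw [e3]; exact q 2)
  have r9 := res4 (x := β) (r := 9) (v := t ^ (4 * n) % l + 8 * (s ^ (4 * n) % l)) hl hd hc9
    (by rw [e9]; exact q 8)
  have h7 := allL_spec (allL_spec h _ mt) _ ms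
  rw [Bool.or_eq_true, Bool.or_eq_true, Bool.or_eq_true, Bool.and_eq_true, Bool.and_eq_true,
    Bool.and_eq_true, Bool.not_eq_true', Bool.not_eq_true', Bool.not_eq_true',
    Bool.not_eq_true', Bool.not_eq_true', ← Bool.not_eq_true, ← Bool.not_eq_true,
    ← Bool.not_eq_true, ← Bool.not_eq_true, ← Bool.not_eq_true, memb_spec, Nat.beq_eq,
    Nat.beq_eq, Nat.beq_eq, Nat.beq_eq, Nat.beq_eq, Nat.beq_eq] at h7
  rcases h7 with h7 | h7 | h7 | h7
  · exact cop_no h3 hl (dvd_of_res hl h7.1) (dvd_of_res hl h7.2)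
  · exact h7 hB
  · rcases r3 with h8 | h8
    · exact h7.1 h8
    · exact h7.2 h8
  · rcases r9 with h8 | h8
    · exact h7.1 h8
    · exact h7.2 h8

end GF2
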