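import Pool.Agent.H.MP_81d9be_nt.F1

/-!
# MP_81d9be_nt: `X ^ 4 + 6 Y ^ 4 = Z ^ 2` and the system `a ^ 4 - 6 b ^ 4`, `a ^ 4 - 54 b ^ 4` squares
-/

set_option autoImplicit false

namespace GF2

theorem pp2 : IsPrimePow 2 := Nat.prime_two.isPrimePow
theorem pp8 : IsPrimePow 8 := by
  have h : (8 : ℕ) = 2 ^ 3 := by norm_num
  rw [h]
  exact Nat.prime_two.isPrimePow.pow (by norm_num)
theorem pp32 : IsPrimePow 32 := by
  have h : (32 : ℕ) = 2 ^ 5 := by norm_num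
  rw [h]
  exact Nat.prime_two.isPrimePow.pow (by norm_num)
theorem pp27 : IsPrimePow 27 := by
  have h : (27 : ℕ) = 3 ^ 3 := by norm_num
  rw [h]
  exact pp3.pow (by norm_num)

theorem fo3' (n : ℕ) : n ^ 4 % 3 = 0 ∧ n % 3 = 0 ∨ n ^ 4 % 3 = 1 ∧ n % 3 ≠ 0 := by
  have h1 : n % 3 < 3 := Nat.mod_lt _ (by norm_num)
  rw [Nat.pow_mod]
  interval_cases n % 3 <;> simp

theorem fo8 (n : ℕ) : n ^ 4 % 16 = 0 ∧ n % 2 = 0 ∨ n ^ 4 % 16 = 1 ∧ n % 2 = 1 := by
  have h1 : n % 16 < 16 := Nat.mod_lt _ (by norm_num)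
  have h2 : n % 2 = n % 16 % 2 := by omega
  rw [Nat.pow_mod, h2]
  interval_cases n % 16 <;> simp

/-- a prime dividing both contradicts coprimality -/
theorem cop_no {a b l : ℕ} (h : Nat.Coprime a b) (hl : l.Prime) (ha : l ∣ a) (hb : l ∣ b) :
    False := by
  have := Nat.dvd_gcd ha hb
  rw [h] at this
  exact hl.one_lt.ne' (Nat.dvd_one.1 this)

theorem ne3_of_cop {a b : ℕ} (h : Nat.Coprime a b) (ha : 3 ∣ a) : b % 3 ≠ 0 := fun h0 =>
  cop_no h Nat.prime_three ha (Nat.dvd_of_mod_eq_zero h0)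

theorem odd_of_cop {a b : ℕ} (h : Nat.Coprime a b) (ha : 2 ∣ a) : b % 2 = 1 := by
  by_contra h0
  exact cop_no h Nat.prime_two ha (by omega)

theorem odd_of_pow {u n : ℕ} (hn : n ≠ 0) (h : u ^ n % 2 = 1) : u % 2 = 1 := by
  by_contra h0
  have h1 : 2 ∣ u := by omega
  have h2 : 2 ∣ u ^ n := dvd_pow h1 hn
  omega

theorem n3_of_pow {u n : ℕ} (hn : n ≠ 0) (h : u ^ n % 3 ≠ 0) : u % 3 ≠ 0 := by
  intro h0
  have h1 : 3 ∣ u := by omega
  have h2 : 3 ∣ u ^ n := dvd_pow h1 hn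
  omega

theorem dvd3 {l : ℕ} (hl : l.Prime) {k : ℕ} (h : l ∣ 3 ^ k) : l = 3 :=
  (Nat.prime_dvd_prime_iff_eq hl Nat.prime_three).1 (hl.dvd_of_dvd_pow h)

theorem dvd2 {l : ℕ} (hl : l.Prime) {k : ℕ} (h : l ∣ 2 ^ k) : l = 2 :=
  (Nat.prime_dvd_prime_iff_eq hl Nat.prime_two).1 (hl.dvd_of_dvd_pow h)

theorem r6 : ∀ Y X Z : ℕ, Nat.Coprime X Y → X ^ 4 + 6 * Y ^ 4 = Z ^ 2 → Y = 0 := by
  intro Y
  induction Y using Nat.strong_induction_on with
  | _ Y ih =>
  intro X Z hc h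
  by_contra hY0
  have hXo : X % 2 = 1 := by
    by_contra h0
    have h1 := fo8 X
    have h2 := fo8 Y
    have h3 := sq8 Z
    have h4 : Y % 2 = 1 := odd_of_cop hc (by omega)
    omega
  have hX4 := fo16 hXo
  have hX3 : X % 3 ≠ 0 := by
    intro h0
    have h1 : Y % 3 ≠ 0 := ne3_of_cop hc (by omega)
    obtain ⟨x, rfl⟩ : ∃ x, X = 3 * x := ⟨X / 3, by omega⟩
    have hZ : 3 ∣ Z := by
      refine Nat.prime_three.dvd_of_dvd_pow (n := 2) ?_
      rw [← h]
      exact ⟨27 * x ^ 4 + 2 * Y ^ 4, by ring⟩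
    obtain ⟨z, rfl⟩ := hZ
    have h2 : 27 * x ^ 4 + 2 * Y ^ 4 = 3 * z ^ 2 := by nlinarith
    have h3 := fo3' Y
    omega
  have hY2 : Y % 2 = 0 := by
    by_contra h0
    have h1 := fo16 (n := Y) (by omega)
    have h2 := sq8 Z
    omega
  obtain ⟨y, rfl⟩ : ∃ y, Y = 2 * y := ⟨Y / 2, by omega⟩
  have hy0 : 0 < y := by omega
  have hZo : Z % 2 = 1 := by
    have e : (2 * y) ^ 4 = 16 * y ^ 4 := by ring
    have h1 : Z ^ 2 % 2 = 1 := by omega
    exact odd_of_pow two_ne_zero h1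
  have hXy : Nat.Coprime X y := Nat.Coprime.coprime_dvd_right ⟨2, by ring⟩ hc
  have hX2o : X ^ 2 % 8 = 1 := sq8o hXo
  have hlt : X ^ 2 < Z := by
    refine lt_of_pow_lt_pow_left₀ 2 (Nat.zero_le _) ?_
    have h1 : 0 < (2 * y) ^ 4 := by positivity
    have h2 : (X ^ 2) ^ 2 = X ^ 4 := by ring
    omega
  obtain ⟨r, hr0, rfl⟩ : ∃ r, 0 < r ∧ Z = X ^ 2 + 2 * r := ⟨(Z - X ^ 2) / 2, by omega, by omega⟩
  have h1 : (X ^ 2 + r) * r = 3 * (8 * y ^ 4) := by nlinarith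
  have hcr : Nat.Coprime (X ^ 2 + r) r := by
    rw [Nat.coprime_add_self_left]
    refine Nat.Coprime.pow_left 2 ?_
    by_contra hng
    obtain ⟨l, hl, h2, h3⟩ := Nat.Prime.not_coprime_iff_dvd.1 hng
    have h4 : l ∣ 3 * (8 * y ^ 4) := by
      rw [← h1]
      exact Dvd.dvd.mul_left h3 _
    rcases (Nat.Prime.dvd_mul hl).1 h4 with h5 | h5
    · have h6 : l = 3 := dvd3 hl (k := 1) (by simpa using h5)
      subst h6
      omega
    · rcases (Nat.Prime.dvd_mul hl).1 h5 with h6 | h6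
      · have h7 : l = 2 := dvd2 hl (k := 3) (by simpa using h6)
        subst h7
        omega
      · exact cop_no hXy hl h2 (hl.dvd_of_dvd_pow h6)
  have hX23 : X ^ 2 % 3 = 1 := by
    rcases sq3 X with h2 | h2
    · omega
    · exact h2.1
  rcases spl2 pp3 pp8 hcr h1 with ⟨u, v, h2, h3⟩ | ⟨u, v, h2, h3⟩ | ⟨u, v, h2, h3⟩ |
    ⟨u, v, h2, h3⟩
  · have h4 := fo3' v
    omega
  · have hu : u % 2 = 1 := by
      have h5 : (3 * u ^ 4) % 2 = 1 := by omega
      have h6 : u ^ 4 % 2 = 1 := by omega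
      exact odd_of_pow (by norm_num) h6
    have h4 := fo16 hu
    omega
  · have hv : v % 2 = 1 := by
      have h5 : (3 * v ^ 4) % 2 = 1 := by omega
      have h6 : v ^ 4 % 2 = 1 := by omega
      exact odd_of_pow (by norm_num) h6
    have h4 := fo16 hv
    omega
  · -- `u ^ 4 = X ^ 2 + 24 v ^ 4`
    have h4 : u ^ 4 = X ^ 2 + 24 * v ^ 4 := by omega
    have huo : u % 2 = 1 := by
      have h5 : u ^ 4 % 2 = 1 := by omega
      exact odd_of_pow (by norm_num) h5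
    have huv : u * v = y := by
      have h5 : (u * v) ^ 4 = y ^ 4 := by
        rw [h2, h3] at h1
        nlinarith
      exact (Nat.pow_left_injective (n := 4) (by norm_num)) h5
    have hv0 : 0 < v := by
      rcases Nat.eq_zero_or_pos v with h0 | h0
      · subst h0
        omega
      · exact h0
    have hu0 : 0 < u := by omega
    have hvy : v ≤ y := by
      rw [← huv]
      exact Nat.le_mul_of_pos_left v hu0
    have hlt2 : X < u ^ 2 := by
      refine lt_of_pow_lt_pow_left₀ 2 (Nat.zero_le _) ?_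
      have h5 : 0 < v ^ 4 := by positivity
      have h6 : (u ^ 2) ^ 2 = u ^ 4 := by ring
      omega
    have hu2 := sq8o huo
    obtain ⟨r', hr'0, hr'⟩ : ∃ r', 0 < r' ∧ u ^ 2 = X + 2 * r' :=
      ⟨(u ^ 2 - X) / 2, by omega, by omega⟩
    have h5 : (X + r') * r' = 3 * (2 * v ^ 4) := by
      have h6 : (X + 2 * r') ^ 2 = X ^ 2 + 24 * v ^ 4 := by
        rw [← hr', ← h4]
        ring
      nlinarith
    have hcr' : Nat.Coprime (X + r') r' := by
      rw [Nat.coprime_add_self_left]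
      by_contra hng
      obtain ⟨l, hl, h6, h7⟩ := Nat.Prime.not_coprime_iff_dvd.1 hng
      have h8 : l ∣ u ^ 2 := by
        rw [hr']
        exact dvd_add h6 (Dvd.dvd.mul_left h7 2)
      have h9 : l ∣ u := hl.dvd_of_dvd_pow h8
      have h10 : l ∣ X ^ 2 + r := by
        rw [h2]
        exact dvd_pow h9 (by norm_num)
      have h11 : l ∣ r := (Nat.dvd_add_right (dvd_pow h6 two_ne_zero)).1 h10
      exact cop_no hcr hl h10 h11
    have hnew : ∀ m n : ℕ, Nat.Coprime n m → n ^ 4 + 6 * m ^ 4 = u ^ 2 → m * n = v → False := by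
      intro m n hmn h6 h7
      have hm : m ≤ v := by
        rcases Nat.eq_zero_or_pos n with h0 | h0
        · subst h0
          omega
        · rw [← h7]
          exact Nat.le_mul_of_pos_right m h0
      have h8 := ih m (by omega) n u hmn h6
      subst h8
      omega
    rcases spl2 pp3 pp2 hcr' h5 with ⟨m, n, h6, h7⟩ | ⟨m, n, h6, h7⟩ | ⟨m, n, h6, h7⟩ |
      ⟨m, n, h6, h7⟩
    · refine hnew m n ?_ (by omega) ?_
      · rw [h6, h7] at hcr'
        have h8 : Nat.Coprime (m ^ 4) (n ^ 4) :=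
          Nat.Coprime.coprime_dvd_left ⟨6, by ring⟩ hcr'
        exact ((Nat.coprime_pow_left_iff (by norm_num) _ _).1
          ((Nat.coprime_pow_right_iff (by norm_num) _ _).1 h8)).symm
      · have h8 : (m * n) ^ 4 = v ^ 4 := by
          rw [h6, h7] at h5
          nlinarith
        exact (Nat.pow_left_injective (n := 4) (by norm_num)) h8
    · -- `u ^ 2 = 3 m ^ 4 + 2 n ^ 4`
      have h8 := sq3 u
      have h9 := fo3' n
      have h10 : n % 3 ≠ 0 := by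
        intro h0
        rw [h6, h7] at hcr'
        exact cop_no hcr' Nat.prime_three ⟨m ^ 4, rfl⟩
          (Dvd.dvd.mul_left (dvd_pow (Nat.dvd_of_mod_eq_zero h0) (by norm_num)) 2)
      omega
    · have h8 := sq3 u
      have h9 := fo3' m
      have h10 : m % 3 ≠ 0 := by
        intro h0
        rw [h6, h7] at hcr'
        exact cop_no hcr' Nat.prime_three
          (Dvd.dvd.mul_left (dvd_pow (Nat.dvd_of_mod_eq_zero h0) (by norm_num)) 2) ⟨n ^ 4, rfl⟩
      omega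
    · refine hnew n m ?_ (by omega) ?_
      · rw [h6, h7] at hcr'
        have h8 : Nat.Coprime (m ^ 4) (n ^ 4) :=
          Nat.Coprime.coprime_dvd_right ⟨6, by ring⟩ hcr'
        exact (Nat.coprime_pow_left_iff (by norm_num) _ _).1
          ((Nat.coprime_pow_right_iff (by norm_num) _ _).1 h8)
      · have h8 : (n * m) ^ 4 = v ^ 4 := by
          rw [h6, h7] at h5
          nlinarith
        exact (Nat.pow_left_injective (n := 4) (by norm_num)) h8

theorem fin6 {δ γ α : ℕ} (hδ : δ % 2 = 1) (hγ : γ % 2 = 1) (hδ3 : δ % 3 ≠ 0)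
    (hc : Nat.Coprime α δ) (h : δ ^ 4 = γ ^ 4 + 24 * α ^ 4) : α = 0 := by
  by_contra hα
  have hα0 : 0 < α := Nat.pos_of_ne_zero hα
  have hcγ : Nat.Coprime γ δ := by
    by_contra hng
    obtain ⟨l, hl, h1, h2⟩ := Nat.Prime.not_coprime_iff_dvd.1 hng
    have h3 : l ∣ 24 * α ^ 4 := by
      have h4 : l ∣ γ ^ 4 + 24 * α ^ 4 := by
        rw [← h]
        exact dvd_pow h2 (by norm_num)
      exact (Nat.dvd_add_right (dvd_pow h1 (by norm_num))).1 h4
    have e24 : 24 * α ^ 4 = 3 * (8 * α ^ 4) := by ring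
    rw [e24] at h3
    rcases (Nat.Prime.dvd_mul hl).1 h3 with h5 | h5
    · have h6 : l = 3 := dvd3 hl (k := 1) (by simpa using h5)
      subst h6
      omega
    · rcases (Nat.Prime.dvd_mul hl).1 h5 with h6 | h6
      · have h7 : l = 2 := dvd2 hl (k := 3) (by simpa using h6)
        subst h7
        omega
      · exact cop_no hc hl (hl.dvd_of_dvd_pow h6) h2
  have h1 := sq8o hδ
  have h2 := sq8o hγ
  have hlt : γ ^ 2 < δ ^ 2 := by
    refine lt_of_pow_lt_pow_left₀ 2 (Nat.zero_le _) ?_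
    have h3 : 0 < α ^ 4 := by positivity
    have h4 : (γ ^ 2) ^ 2 = γ ^ 4 := by ring
    have h5 : (δ ^ 2) ^ 2 = δ ^ 4 := by ring
    omega
  obtain ⟨n, hn0, hn⟩ : ∃ n, 0 < n ∧ δ ^ 2 = γ ^ 2 + 2 * n :=
    ⟨(δ ^ 2 - γ ^ 2) / 2, by omega, by omega⟩
  have h3 : (γ ^ 2 + n) * n = 3 * (2 * α ^ 4) := by
    have h4 : (γ ^ 2 + 2 * n) ^ 2 = γ ^ 4 + 24 * α ^ 4 := by
      rw [← hn, ← h]
      ring
    nlinarith
  have hcn : Nat.Coprime (γ ^ 2 + n) n := by
    rw [Nat.coprime_add_self_left]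
    refine Nat.Coprime.pow_left 2 ?_
    by_contra hng
    obtain ⟨l, hl, h4, h5⟩ := Nat.Prime.not_coprime_iff_dvd.1 hng
    have h6 : l ∣ δ ^ 2 := by
      rw [hn]
      exact dvd_add (dvd_pow h4 two_ne_zero) (Dvd.dvd.mul_left h5 2)
    exact cop_no hcγ hl h4 (hl.dvd_of_dvd_pow h6)
  have hδ2 : δ ^ 2 % 3 = 1 := by
    rcases sq3 δ with h4 | h4
    · omega
    · exact h4.1
  have hγ2 := sq3 γ
  have hm2 : (γ ^ 2 + n) % 2 = 1 := by omega
  have hm3 : (γ ^ 2 + n) % 3 ≠ 0 := by omega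
  rcases spl2 pp3 pp2 hcn h3 with ⟨u, v, h4, h5⟩ | ⟨u, v, h4, h5⟩ | ⟨u, v, h4, h5⟩ |
    ⟨u, v, h4, h5⟩
  · omega
  · omega
  · omega
  · have h6 : u ^ 4 + 6 * v ^ 4 = δ ^ 2 := by omega
    have h7 : Nat.Coprime u v := by
      rw [h4, h5] at hcn
      have h8 : Nat.Coprime (u ^ 4) (v ^ 4) :=
        Nat.Coprime.coprime_dvd_right ⟨6, by ring⟩ hcn
      exact (Nat.coprime_pow_left_iff (by norm_num) _ _).1
        ((Nat.coprime_pow_right_iff (by norm_num) _ _).1 h8)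
    have h8 := r6 v u δ h7 h6
    subst h8
    omega

end GF2
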