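import Pool.Agent.H.MP_81d9be_nt.Eis
import Mathlib.NumberTheory.Zsqrtd.Basic

/-!
# MP_81d9be_nt: the ring `ℤ[√2]` and `Y ^ 2 - 2 Z ^ 2 = X ^ 3`
-/

set_option autoImplicit false

namespace GF2

theorem rt_norm (z : ℤ√2) : z.norm = z.re ^ 2 - 2 * z.im ^ 2 := by
  rw [Zsqrtd.norm_def]
  ring

theorem two_nsq (n : ℤ) : (2 : ℤ) ≠ n * n := by
  intro h
  have h1 : n ≤ 1 := by nlinarith
  have h2 : -1 ≤ n := by nlinarith
  interval_cases n <;> omega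

theorem rt_norm_eq_zero {z : ℤ√2} (h : z.norm = 0) : z = 0 :=
  (Zsqrtd.norm_eq_zero two_nsq z).1 h

theorem rt_domain : IsDomain (ℤ√2) := by
  have : NoZeroDivisors (ℤ√2) := ⟨fun {a b} h => by
    have h1 : a.norm * b.norm = 0 := by
      rw [← Zsqrtd.norm_mul, h]
      exact Zsqrtd.norm_zero
    rcases mul_eq_zero.1 h1 with h2 | h2
    · exact Or.inl (rt_norm_eq_zero h2)
    · exact Or.inr (rt_norm_eq_zero h2)⟩
  exact NoZeroDivisors.to_isDomain (ℤ√2)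

theorem rt_round (a n : ℤ) (hn : n ≠ 0) : ∃ q : ℤ, 4 * (a - n * q) ^ 2 ≤ n ^ 2 := by
  have key : ∀ m : ℤ, 0 < m → ∃ q : ℤ, 4 * (a - m * q) ^ 2 ≤ m ^ 2 := by
    intro m hm
    refine ⟨(2 * a + m) / (2 * m), ?_⟩
    have h1 := Int.mul_ediv_add_emod (2 * a + m) (2 * m)
    have h2 := Int.emod_nonneg (2 * a + m) (show (2 * m : ℤ) ≠ 0 by omega)
    have h3 := Int.emod_lt_of_pos (2 * a + m) (show (0 : ℤ) < 2 * m by omega)
    set q := (2 * a + m) / (2 * m) with hq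
    set r := (2 * a + m) % (2 * m) with hr
    have h4 : 2 * (a - m * q) = r - m := by linarith
    have h5 : 4 * (a - m * q) ^ 2 = (r - m) ^ 2 := by rw [← h4]; ring
    rw [h5]
    nlinarith
  rcases lt_or_gt_of_ne hn with h | h
  · obtain ⟨q, hq⟩ := key (-n) (by omega)
    refine ⟨-q, ?_⟩
    have e1 : a - n * -q = a - -n * q := by ring
    rw [e1]
    have e2 : (-n) ^ 2 = n ^ 2 := by ring
    rwa [e2] at hq
  · exact key n h

theorem rt_div (x y : ℤ√2) (hy : y ≠ 0) :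
    ∃ q : ℤ√2, (x - q * y).norm.natAbs < y.norm.natAbs := by
  have hn : y.norm ≠ 0 := fun h => hy (rt_norm_eq_zero h)
  obtain ⟨q1, h1⟩ := rt_round (x * star y).re y.norm hn
  obtain ⟨q2, h2⟩ := rt_round (x * star y).im y.norm hn
  refine ⟨⟨q1, q2⟩, ?_⟩
  have h5 : (x - ⟨q1, q2⟩ * y) * star y =
      ⟨(x * star y).re - y.norm * q1, (x * star y).im - y.norm * q2⟩ := by
    have h6 : y * star y = ((y.norm : ℤ) : ℤ√2) := (Zsqrtd.norm_eq_mul_conj y).symm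
    have h7 : (x - ⟨q1, q2⟩ * y) * star y = x * star y - ⟨q1, q2⟩ * (y * star y) := by ring
    rw [h7, h6]
    ext
    · simp only [Zsqrtd.re_sub, Zsqrtd.re_mul, Zsqrtd.re_intCast, Zsqrtd.im_intCast]
      ring
    · simp only [Zsqrtd.im_sub, Zsqrtd.im_mul, Zsqrtd.re_intCast, Zsqrtd.im_intCast]
      ring
  set R := (x * star y).re - y.norm * q1 with hR
  set I := (x * star y).im - y.norm * q2 with hI
  have h9 : (x - ⟨q1, q2⟩ * y).norm * y.norm = R ^ 2 - 2 * I ^ 2 := by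
    have e1 : (x - ⟨q1, q2⟩ * y).norm * y.norm = ((x - ⟨q1, q2⟩ * y) * star y).norm := by
      rw [Zsqrtd.norm_mul, Zsqrtd.norm_conj]
    rw [e1, h5, rt_norm]
  have h10 : |(x - ⟨q1, q2⟩ * y).norm * y.norm| < y.norm ^ 2 := by
    rw [h9, abs_lt]
    have p1 : 0 < y.norm ^ 2 := by positivity
    constructor <;> nlinarith [sq_nonneg R, sq_nonneg I]
  have h11 : |(x - ⟨q1, q2⟩ * y).norm| < |y.norm| := by
    rw [abs_mul, ← sq_abs y.norm] at h10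
    have p1 : 0 < |y.norm| := abs_pos.2 hn
    nlinarith
  have := Int.natCast_natAbs (x - ⟨q1, q2⟩ * y).norm
  have := Int.natCast_natAbs y.norm
  omega

theorem rt_pid : IsPrincipalIdealRing (ℤ√2) := by
  refine ⟨fun I => ?_⟩
  by_cases hI : I = ⊥
  · rw [hI]
    exact ⟨⟨0, by simp⟩⟩
  · obtain ⟨b, hbI, hb0⟩ := Submodule.exists_mem_ne_zero_of_ne_bot hI
    have hex : ∃ n : ℕ, ∃ z ∈ I, z ≠ 0 ∧ z.norm.natAbs = n := ⟨_, b, hbI, hb0, rfl⟩
    classical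
    obtain ⟨z, hzI, hz0, hz⟩ := Nat.find_spec hex
    refine ⟨⟨z, ?_⟩⟩
    refine le_antisymm (fun x hx => ?_) ?_
    · obtain ⟨q, hq⟩ := rt_div x z hz0
      have hxq : x - q * z ∈ I := I.sub_mem hx (I.mul_mem_left q hzI)
      have h0 : x - q * z = 0 := by
        by_contra h0
        have h1 := Nat.find_min' hex ⟨x - q * z, hxq, h0, rfl⟩
        omega
      rw [sub_eq_zero.1 h0]
      exact Ideal.mul_mem_left _ q (Ideal.mem_span_singleton_self z)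
    · rw [Submodule.span_singleton_le_iff_mem]
      exact hzI

/-- Units modulo cubes. -/
theorem rt_unit : ∀ n : ℕ, ∀ c d : ℤ, d.natAbs = n → (c ^ 2 - 2 * d ^ 2 = 1 ∨
    c ^ 2 - 2 * d ^ 2 = -1) →
    ∃ j : ℕ, j < 3 ∧ ∃ v : ℤ√2, (⟨c, d⟩ : ℤ√2) = (⟨1, 1⟩ : ℤ√2) ^ j * v ^ 3 := by
  intro n
  induction n using Nat.strong_induction_on with
  | _ n ih =>
  intro c d hd h
  by_cases hd0 : d = 0
  · refine ⟨0, by norm_num, ⟨c, 0⟩, ?_⟩
    rw [hd0] at h ⊢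
    have hc : c ^ 2 = 1 := by
      rcases h with h | h
      · linarith
      · nlinarith [sq_nonneg c]
    rw [pow_zero, one_mul]
    ext
    · simp [pow_succ]
      linear_combination -c * hc
    · simp [pow_succ]
  have hd2 : 1 ≤ d ^ 2 := by
    have : 0 < d ^ 2 := by positivity
    omega
  have hc0 : c ≠ 0 := by
    rintro rfl
    omega
  rcases lt_or_gt_of_ne (mul_ne_zero hc0 hd0) with hneg | hpos
  · -- `c d < 0`
    have hlt : (c + d).natAbs < n := by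
      rw [← hd]
      have h1 : (c + d) ^ 2 < d ^ 2 := by
        have h2 : c ^ 2 < 4 * d ^ 2 := by rcases h with h | h <;> nlinarith
        have h3 : |c| < 2 * |d| := by
          have : |c| ^ 2 < (2 * |d|) ^ 2 := by rw [mul_pow, sq_abs, sq_abs]; linarith
          exact lt_of_pow_lt_pow_left₀ 2 (by positivity) this
        have h4 : c ^ 2 < 2 * (-(c * d)) := by
          have h5 : -(c * d) = |c| * |d| := by rw [← abs_mul, abs_of_neg hneg]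
          rw [h5, ← sq_abs c]
          have h6 : 0 < |c| := abs_pos.2 hc0
          nlinarith
        nlinarith
      exact Int.natAbs_lt_iff_sq_lt.2 h1
    obtain ⟨j, hj, v, hv⟩ := ih _ hlt (c + 2 * d) (c + d) rfl (by
      rcases h with h | h
      · right
        linear_combination -h
      · left
        linear_combination -h)
    have e1 : (⟨c, d⟩ : ℤ√2) = ⟨-1, 1⟩ * ⟨c + 2 * d, c + d⟩ := by
      ext
      · simp
        ring
      · simp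
        ring
    have e2 : (⟨-1, 1⟩ : ℤ√2) * ⟨1, 1⟩ = 1 := by
      ext <;> simp
    rw [e1, hv]
    rcases Nat.eq_zero_or_pos j with hj0 | hj0
    · refine ⟨2, by norm_num, ⟨-1, 1⟩ * v, ?_⟩
      rw [hj0]
      linear_combination (-((⟨-1, 1⟩ : ℤ√2) * v ^ 3) * ((⟨-1, 1⟩ : ℤ√2) * ⟨1, 1⟩ + 1)) * e2
    · obtain ⟨i, rfl⟩ : ∃ i, j = i + 1 := ⟨j - 1, by omega⟩
      refine ⟨i, by omega, v, ?_⟩
      rw [pow_succ]
      linear_combination ((⟨1, 1⟩ : ℤ√2) ^ i * v ^ 3) * e2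
  · -- `0 < c d`
    have hlt : (c - d).natAbs < n := by
      rw [← hd]
      have h1 : (c - d) ^ 2 < d ^ 2 := by
        have h2 : c ^ 2 < 4 * d ^ 2 := by rcases h with h | h <;> nlinarith
        have h3 : |c| < 2 * |d| := by
          have : |c| ^ 2 < (2 * |d|) ^ 2 := by rw [mul_pow, sq_abs, sq_abs]; linarith
          exact lt_of_pow_lt_pow_left₀ 2 (by positivity) this
        have h4 : c ^ 2 < 2 * (c * d) := by
          have h5 : c * d = |c| * |d| := by rw [← abs_mul, abs_of_pos hpos]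
          rw [h5, ← sq_abs c]
          have h6 : 0 < |c| := abs_pos.2 hc0
          nlinarith
        nlinarith
      exact Int.natAbs_lt_iff_sq_lt.2 h1
    obtain ⟨j, hj, v, hv⟩ := ih _ hlt (2 * d - c) (c - d) rfl (by
      rcases h with h | h
      · right
        linear_combination -h
      · left
        linear_combination -h)
    have e1 : (⟨c, d⟩ : ℤ√2) = ⟨1, 1⟩ * ⟨2 * d - c, c - d⟩ := by
      ext
      · simp
        ring
      · simp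
        ring
    rw [e1, hv]
    by_cases hj2 : j = 2
    · refine ⟨0, by norm_num, ⟨1, 1⟩ * v, ?_⟩
      rw [hj2]
      ring
    · refine ⟨j + 1, by omega, v, ?_⟩
      ring

theorem rt_cube (p q : ℤ) : (⟨p, q⟩ : ℤ√2) ^ 3 =
    ⟨p ^ 3 + 6 * p * q ^ 2, 3 * p ^ 2 * q + 2 * q ^ 3⟩ := by
  ext
  · simp [pow_succ]
    ring
  · simp [pow_succ]
    ring

/-- `Y ^ 2 - 2 Z ^ 2 = X ^ 3` with `Y`, `Z` coprime and `X` odd. -/
theorem cubeR2 {Y Z X : ℤ} (hc : IsCoprime Y Z) (hX : X % 2 = 1) (h : Y ^ 2 - 2 * Z ^ 2 = X ^ 3) :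
    ∃ p q P Q : ℤ, P = p ^ 3 + 6 * p * q ^ 2 ∧ Q = 3 * p ^ 2 * q + 2 * q ^ 3 ∧
      ((Y = P ∧ Z = Q) ∨ (Y = P + 2 * Q ∧ Z = P + Q) ∨ (Y = 3 * P + 4 * Q ∧ Z = 2 * P + 3 * Q)) := by
  have := rt_domain
  have := rt_pid
  have h4 : IsCoprime (4 : ℤ) (X ^ 3) := by
    refine IsCoprime.pow_right ?_
    have e4 : (4 : ℤ) = 2 ^ 2 := by norm_num
    rw [e4]
    refine IsCoprime.pow_left ?_
    rw [Int.prime_two.coprime_iff_not_dvd]
    omega
  obtain ⟨m, l, hml⟩ := h4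
  obtain ⟨r, s, hrs⟩ := hc
  have hθ : (⟨0, 1⟩ : ℤ√2) * ⟨0, 1⟩ = 2 := by
    ext <;> simp
  have hA : (⟨Y, Z⟩ : ℤ√2) = (Y : ℤ√2) + (Z : ℤ√2) * ⟨0, 1⟩ := by
    ext <;> simp
  have hB : (⟨Y, -Z⟩ : ℤ√2) = (Y : ℤ√2) - (Z : ℤ√2) * ⟨0, 1⟩ := by
    ext <;> simp
  have hrs' : (r : ℤ√2) * Y + (s : ℤ√2) * Z = 1 := by exact_mod_cast hrs
  have hml' : (m : ℤ√2) * 4 + (l : ℤ√2) * (X : ℤ√2) ^ 3 = 1 := by exact_mod_cast hml
  have h' : (Y : ℤ√2) ^ 2 - 2 * (Z : ℤ√2) ^ 2 = (X : ℤ√2) ^ 3 := by exact_mod_cast h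
  have hmul : (⟨Y, Z⟩ : ℤ√2) * ⟨Y, -Z⟩ = (X : ℤ√2) ^ 3 := by
    rw [hA, hB]
    linear_combination h' - (Z : ℤ√2) ^ 2 * hθ
  have hcop : IsCoprime (⟨Y, Z⟩ : ℤ√2) ⟨Y, -Z⟩ := by
    refine ⟨2 * r * m + s * m * ⟨0, 1⟩ + l * ⟨Y, -Z⟩, 2 * r * m - s * m * ⟨0, 1⟩, ?_⟩
    rw [hA, hB]
    linear_combination (l : ℤ√2) * (h' - (Z : ℤ√2) ^ 2 * hθ) + hml' + 4 * (m : ℤ√2) * hrs' +
      2 * (s : ℤ√2) * (m : ℤ√2) * (Z : ℤ√2) * hθ
  obtain ⟨g, w, hg⟩ := exists_associated_pow_of_mul_eq_pow' hcop hmul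
  have hw : IsUnit (w : ℤ√2) := w.isUnit
  obtain ⟨c, d, hcd⟩ : ∃ c d : ℤ, (w : ℤ√2) = ⟨c, d⟩ := ⟨_, _, rfl⟩
  have hw2 := Zsqrtd.norm_eq_one_iff.2 hw
  rw [rt_norm, hcd] at hw2
  dsimp only at hw2
  obtain ⟨j, hj, v, hv⟩ := rt_unit _ c d rfl (by omega)
  obtain ⟨p, q, hpq⟩ : ∃ p q : ℤ, g * v = ⟨p, q⟩ := ⟨(g * v).re, (g * v).im, rfl⟩
  have hg2 : (⟨Y, Z⟩ : ℤ√2) = (⟨1, 1⟩ : ℤ√2) ^ j *
      ⟨p ^ 3 + 6 * p * q ^ 2, 3 * p ^ 2 * q + 2 * q ^ 3⟩ := by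
    rw [← rt_cube, ← hpq, ← hg, hcd, hv]
    ring
  refine ⟨p, q, _, _, rfl, rfl, ?_⟩
  have k1 := congrArg Zsqrtd.re hg2
  have k2 := congrArg Zsqrtd.im hg2
  interval_cases j
  · left
    simp at k1 k2
    exact ⟨by linear_combination k1, by linear_combination k2⟩
  · right; left
    simp at k1 k2
    exact ⟨by linear_combination k1, by linear_combination k2⟩
  · right; right
    simp [pow_succ] at k1 k2
    exact ⟨by linear_combination k1, by linear_combination k2⟩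

end GF2
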