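import Pool.Agent.H.MP_81d9be_nt.Ap4
import Pool.Agent.H.MP_81d9be_nt.Fam
import Mathlib.NumberTheory.FLT.Three

/-!
# MP_81d9be_nt: the equations `X ^ 2 + Y ^ 4 = 2 Z ^ 6` and `Y ^ 4 - X ^ 2 = ± 2 Z ^ 6`
-/

set_option autoImplicit false

namespace GF2

theorem six_odd {X Y : ℤ} (hc : IsCoprime X Y) (h : (X + Y) % 2 = 0) : X % 2 = 1 ∧ Y % 2 = 1 := by
  rcases Int.emod_two_eq_zero_or_one X with hx | hx
  · exfalso
    have hy : Y % 2 = 0 := by omega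
    obtain ⟨a, b, hab⟩ := hc
    have h2 : (2 : ℤ) ∣ a * X + b * Y :=
      dvd_add (Dvd.dvd.mul_left (Int.dvd_of_emod_eq_zero hx) a)
        (Dvd.dvd.mul_left (Int.dvd_of_emod_eq_zero hy) b)
    rw [hab] at h2
    omega
  · exact ⟨hx, by omega⟩

/-- The two factors are coprime. -/
theorem six_nat {u v c d z : ℕ} (hcd : Nat.Coprime c d) (h1 : u * v = c * d) (hz : c ^ 2 + d ^ 2 = z ^ 2)
    (huz : ∀ l : ℕ, l ∣ u → l ∣ v → l ∣ z) :
    Nat.Coprime u v := by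
  by_contra hng
  obtain ⟨l, hl, h3, h4⟩ := Nat.Prime.not_coprime_iff_dvd.1 hng
  have h5 : l ∣ z := huz l h3 h4
  have h6 : l ∣ c * d := by
    rw [← h1]
    exact Dvd.dvd.mul_right h3 v
  have h7 : l ∣ c ^ 2 + d ^ 2 := by
    rw [hz]
    exact dvd_pow h5 (by norm_num)
  have h8 : l ∣ c ∧ l ∣ d := by
    rcases (Nat.Prime.dvd_mul hl).1 h6 with h8 | h8
    · refine ⟨h8, ?_⟩
      have h9 : l ∣ d ^ 2 := (Nat.dvd_add_right (dvd_pow h8 (by norm_num))).1 h7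
      exact hl.dvd_of_dvd_pow h9
    · refine ⟨?_, h8⟩
      have h9 : l ∣ c ^ 2 := (Nat.dvd_add_left (dvd_pow h8 (by norm_num))).1 h7
      exact hl.dvd_of_dvd_pow h9
  exact Nat.not_coprime_of_dvd_of_dvd hl.one_lt h8.1 h8.2 hcd

/-- `c ^ 2 + d ^ 2` and `c ^ 2 + d ^ 2 - 4 c d` are not both squares unless `c d = 0`. -/
theorem six_A {c d z s : ℤ} (hcd : IsCoprime c d) (hz : c ^ 2 + d ^ 2 = z ^ 2)
    (hs : z ^ 2 - 4 * (c * d) = s ^ 2) (hzo : z % 2 = 1) : c * d = 0 := by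
  by_contra h0
  have hc0 : c ≠ 0 := fun h => h0 (by rw [h]; ring)
  have hd0 : d ≠ 0 := fun h => h0 (by rw [h]; ring)
  have hso : s % 2 = 1 := by
    rcases Int.emod_two_eq_zero_or_one s with h | h
    · exfalso
      obtain ⟨t, rfl⟩ : ∃ t, s = 2 * t := ⟨s / 2, by omega⟩
      have h1 : z ^ 2 % 8 = 1 := sq8zo hzo
      have h2 : (2 * t) ^ 2 = 4 * t ^ 2 := by ring
      omega
    · exact h
  obtain ⟨C, hC⟩ : ∃ C : ℕ, C = c.natAbs := ⟨_, rfl⟩
  obtain ⟨D, hD⟩ : ∃ D : ℕ, D = d.natAbs := ⟨_, rfl⟩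
  obtain ⟨Z, hZ⟩ : ∃ Z : ℕ, Z = z.natAbs := ⟨_, rfl⟩
  obtain ⟨S, hS⟩ : ∃ S : ℕ, S = s.natAbs := ⟨_, rfl⟩
  have hC0 : 0 < C := by rw [hC]; exact Int.natAbs_pos.2 hc0
  have hD0 : 0 < D := by rw [hD]; exact Int.natAbs_pos.2 hd0
  have hCD : Nat.Coprime C D := by
    rw [hC, hD]
    exact Int.isCoprime_iff_gcd_eq_one.1 hcd
  have qC : (C : ℤ) ^ 2 = c ^ 2 := by rw [hC, Int.natAbs_sq]
  have qD : (D : ℤ) ^ 2 = d ^ 2 := by rw [hD, Int.natAbs_sq]
  have qZ : (Z : ℤ) ^ 2 = z ^ 2 := by rw [hZ, Int.natAbs_sq]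
  have qS : (S : ℤ) ^ 2 = s ^ 2 := by rw [hS, Int.natAbs_sq]
  have oZ : Z % 2 = 1 := by omega
  have oS : S % 2 = 1 := by omega
  have e1 : C ^ 2 + D ^ 2 = Z ^ 2 := by
    have : (C : ℤ) ^ 2 + D ^ 2 = Z ^ 2 := by rw [qC, qD, qZ, hz]
    exact_mod_cast this
  rcases lt_or_gt_of_ne h0 with hneg | hpos
  · have hp : (C : ℤ) * D = -(c * d) := by
      have h1 : ((C : ℤ) * D) = |c * d| := by
        rw [hC, hD, abs_mul, Int.natCast_natAbs, Int.natCast_natAbs]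
      rw [h1, abs_of_neg hneg]
    have e2 : (S : ℤ) ^ 2 = Z ^ 2 + 4 * (C * D) := by
      rw [qS, qZ, hp]
      linear_combination -hs
    have e3 : S ^ 2 = Z ^ 2 + 4 * (C * D) := by exact_mod_cast e2
    have hlt : Z < S := by
      have : 0 < C * D := Nat.mul_pos hC0 hD0
      nlinarith
    obtain ⟨u, hu⟩ : ∃ u, S + Z = 2 * u := ⟨(S + Z) / 2, by omega⟩
    obtain ⟨v, hv⟩ : ∃ v, S = Z + 2 * v := ⟨(S - Z) / 2, by omega⟩
    have f1 : u = Z + v := by omega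
    have f2 : S = Z + 2 * v := hv
    have h3 : u * v = C * D := by
      rw [f2] at e3
      rw [f1]
      nlinarith
    have hv0 : 0 < v := by omega
    have hu0 : 0 < u := by omega
    have h4 : Nat.Coprime u v := six_nat hCD h3 e1 (by
      intro l h5 h6
      rw [f1] at h5
      exact (Nat.dvd_add_left h6).1 h5)
    refine ap_uv hC0 hD0 hu0 hv0 hCD h4 h3.symm ?_
    rw [e1, f1]
    ring
  · have hp : (C : ℤ) * D = c * d := by
      have h1 : ((C : ℤ) * D) = |c * d| := by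
        rw [hC, hD, abs_mul, Int.natCast_natAbs, Int.natCast_natAbs]
      rw [h1, abs_of_pos hpos]
    have e2 : (Z : ℤ) ^ 2 = S ^ 2 + 4 * (C * D) := by
      rw [qS, qZ, hp]
      linear_combination hs
    have e3 : Z ^ 2 = S ^ 2 + 4 * (C * D) := by exact_mod_cast e2
    have hlt : S < Z := by
      have : 0 < C * D := Nat.mul_pos hC0 hD0
      nlinarith
    obtain ⟨v, hv⟩ : ∃ v, Z = S + 2 * v := ⟨(Z - S) / 2, by omega⟩
    obtain ⟨u, hu⟩ : ∃ u, u = S + v := ⟨_, rfl⟩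
    have f1 : Z = u + v := by omega
    have h3 : u * v = C * D := by
      rw [hv] at e3
      rw [hu]
      nlinarith
    have hv0 : 0 < v := by omega
    have hu0 : 0 < u := by omega
    have h4 : Nat.Coprime u v := six_nat hCD h3 e1 (by
      intro l h5 h6
      rw [f1]
      exact dvd_add h5 h6)
    refine ap_uv hu0 hv0 hC0 hD0 h4 hCD h3 ?_
    rw [e1, f1, ← h3]
    ring

/-- `X ^ 2 + Y ^ 4 = 2 Z ^ 6` with `X`, `Y` coprime. -/
theorem S1 {X y z : ℤ} (hc : IsCoprime X y) (h : X ^ 2 + y ^ 4 = 2 * z ^ 6) :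
    X ^ 2 = 1 ∧ y ^ 2 = 1 ∧ z ^ 2 = 1 := by
  obtain ⟨hX, hy⟩ : X % 2 = 1 ∧ y % 2 = 1 := by
    refine six_odd hc ?_
    have h1 : (X ^ 2 + y ^ 4) % 2 = 0 := by omega
    rcases Int.emod_two_eq_zero_or_one X with hx | hx <;>
      rcases Int.emod_two_eq_zero_or_one y with hy | hy <;>
      simp [Int.mul_emod, Int.add_emod, hx, hy, pow_succ] at h1 ⊢
  have oX := sq8zo hX
  have oy := sq8zo hy
  have oy4 := mod16 hy
  have hz : z % 2 = 1 := by
    by_contra hf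
    obtain ⟨c, rfl⟩ : ∃ c, z = 2 * c := ⟨z / 2, by omega⟩
    have k1 : (2 * c) ^ 6 = 64 * c ^ 6 := by ring
    omega
  have oz := sq8zo hz
  obtain ⟨A, hA⟩ : ∃ A, X + y ^ 2 = 2 * A := ⟨(X + y ^ 2) / 2, by omega⟩
  obtain ⟨B, hB⟩ : ∃ B, X - y ^ 2 = 2 * B := ⟨(X - y ^ 2) / 2, by omega⟩
  have e1 : X = A + B := by omega
  have e2 : y ^ 2 = A - B := by omega
  have hAB : IsCoprime A B := by
    obtain ⟨c, d, hcd⟩ : IsCoprime X (y ^ 2) := hc.pow_right
    rw [e2, e1] at hcd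
    exact ⟨c + d, c - d, by linear_combination hcd⟩
  have h1 : A ^ 2 + B ^ 2 = (z ^ 2) ^ 3 := by
    have : 2 * (A ^ 2 + B ^ 2) = 2 * (z ^ 2) ^ 3 := by
      linear_combination h - (X + A + B) * e1 - (y ^ 2 + A - B) * e2
    omega
  obtain ⟨p, q, hp, hq⟩ := gauss_cube hAB (by omega) h1
  have hpq : IsCoprime p q := by
    have k1 : A = p * (p ^ 2 - 3 * q ^ 2) := by rw [hp]; ring
    have k2 : B = q * (3 * p ^ 2 - q ^ 2) := by rw [hq]; ring
    rw [k1, k2] at hAB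
    exact hAB.of_mul_left_left.of_mul_right_left
  have hn : p ^ 2 + q ^ 2 = z ^ 2 := by
    have k1 : (p ^ 2 + q ^ 2) ^ 3 = (z ^ 2) ^ 3 := by
      rw [← h1, hp, hq]
      ring
    exact (Odd.strictMono_pow (by decide : Odd 3)).injective k1
  have hpar : (p + q) % 2 = 1 ∧ (p * q) % 2 = 0 := by
    have k1 : (p ^ 2 + q ^ 2) % 2 = 1 := by omega
    rcases Int.emod_two_eq_zero_or_one p with hx | hx <;>
      rcases Int.emod_two_eq_zero_or_one q with hy | hy <;>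
      simp [Int.mul_emod, Int.add_emod, hx, hy, pow_succ] at k1 ⊢
  obtain ⟨hpar1, hpar2⟩ := hpar
  have e3 : (p + q) * (z ^ 2 - 4 * (p * q)) = y ^ 2 := by
    rw [e2, hp, hq, ← hn]
    ring
  have cs : IsCoprime (p + q) (p * q) := by
    have k1 : IsCoprime (p + q) p := by
      have := hpq.symm.add_mul_left_left 1
      rwa [mul_one, add_comm] at this
    have k2 : IsCoprime (p + q) q := by
      have := hpq.add_mul_left_left 1
      rwa [mul_one] at this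
    exact k1.mul_right k2
  have c2 : IsCoprime (p + q) 2 := by
    obtain ⟨t, ht⟩ : ∃ t, p + q = 2 * t + 1 := ⟨(p + q) / 2, by omega⟩
    exact ⟨1, -t, by rw [ht]; ring⟩
  have g8 : (z ^ 2 - 4 * (p * q)) % 8 = 1 := by omega
  by_cases h3 : (3 : ℤ) ∣ p + q
  · exfalso
    obtain ⟨l, hl⟩ := h3
    obtain ⟨y', rfl⟩ : (3 : ℤ) ∣ y := by
      have k1 : (3 : ℤ) ∣ y ^ 2 := ⟨l * (z ^ 2 - 4 * (p * q)), by rw [← e3, hl]; ring⟩
      exact Int.prime_three.dvd_of_dvd_pow k1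
    have hg : z ^ 2 - 4 * (p * q) = 3 * (3 * l ^ 2 - 2 * (p * q)) := by
      rw [← hn]
      linear_combination (p + q + 3 * l) * hl
    have e4 : l * (3 * l ^ 2 - 2 * (p * q)) = y' ^ 2 := by
      rw [hg, hl] at e3
      have : 9 * (l * (3 * l ^ 2 - 2 * (p * q))) = 9 * y' ^ 2 := by linear_combination e3
      omega
    rw [hl] at cs c2
    have cl1 : IsCoprime l (p * q) := cs.of_mul_left_right
    have cl2 : IsCoprime l 2 := c2.of_mul_left_right
    have cl : IsCoprime l (3 * l ^ 2 - 2 * (p * q)) := by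
      have k1 : IsCoprime l (-(2 * (p * q))) := (cl2.mul_right cl1).neg_right
      have k2 := k1.add_mul_left_right (3 * l)
      have k3 : -(2 * (p * q)) + l * (3 * l) = 3 * l ^ 2 - 2 * (p * q) := by ring
      rwa [k3] at k2
    obtain ⟨s, hs⟩ := Int.sq_of_isCoprime cl.symm (by rw [mul_comm]; exact e4)
    have := sq8z s
    omega
  · have c3 : IsCoprime (p + q) 3 := by
      have := (Int.prime_three.coprime_iff_not_dvd).2 h3
      exact this.symm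
    have cg : IsCoprime (p + q) (z ^ 2 - 4 * (p * q)) := by
      have k1 : IsCoprime (p + q) (-(2 * 3 * (p * q))) := ((c2.mul_right c3).mul_right cs).neg_right
      have k2 := k1.add_mul_left_right (p + q)
      have k3 : -(2 * 3 * (p * q)) + (p + q) * (p + q) = z ^ 2 - 4 * (p * q) := by
        rw [← hn]
        ring
      rwa [k3] at k2
    obtain ⟨s, hs⟩ := Int.sq_of_isCoprime cg.symm (by rw [mul_comm]; exact e3)
    have k8 := sq8z s
    have hs' : z ^ 2 - 4 * (p * q) = s ^ 2 := by omega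
    have k0 : p * q = 0 := six_A hpq hn hs' hz
    have hz1 : z ^ 2 = 1 := by
      rcases mul_eq_zero.1 k0 with hp0 | hq0
      · rw [hp0] at hpq hn
        have k1 : IsUnit q := isCoprime_zero_left.1 hpq
        have k2 : q ^ 2 = 1 := by
          rcases Int.isUnit_iff.1 k1 with k | k <;> rw [k] <;> norm_num
        rw [← hn, k2]
        norm_num
      · rw [hq0] at hpq hn
        have k1 : IsUnit p := isCoprime_zero_right.1 hpq
        have k2 : p ^ 2 = 1 := by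
          rcases Int.isUnit_iff.1 k1 with k | k <;> rw [k] <;> norm_num
        rw [← hn, k2]
        norm_num
    have k1 : X ^ 2 + (y ^ 2) ^ 2 = 2 := by
      have : (2 : ℤ) * z ^ 6 = 2 := by
        have : z ^ 6 = (z ^ 2) ^ 3 := by ring
        rw [this, hz1]
        norm_num
      rw [← this, ← h]
      ring
    have hX1 : 0 < X ^ 2 := by
      have : 0 ≤ X ^ 2 := sq_nonneg X
      omega
    have hy1 : 0 < y ^ 2 := by
      have : 0 ≤ y ^ 2 := sq_nonneg y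
      omega
    have hy2 : y ^ 2 = 1 := by nlinarith
    refine ⟨?_, hy2, hz1⟩
    rw [hy2] at k1
    linarith

/-- The descent to Fermat's theorem for exponent `3`. -/
theorem S2aux {m n Y w ε : ℤ} (hε : ε = 1 ∨ ε = -1) (hc : IsCoprime m n) (hm : m % 2 = 0)
    (h1 : m + n = Y ^ 2) (h2 : m * n = 32 * (ε * w ^ 6)) : w = 0 := by
  by_contra hw
  have hn : n % 2 = 1 := by
    rcases Int.emod_two_eq_zero_or_one n with hx | hx
    · exfalso
      have := (six_odd hc (by omega)).1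
      omega
    · exact hx
  have hY : Y % 2 = 1 := by
    have k1 : Y ^ 2 % 2 = 1 := by omega
    rcases Int.emod_two_eq_zero_or_one Y with hx | hx
    · simp [Int.mul_emod, hx, pow_succ] at k1
    · exact hx
  have oY := sq8zo hY
  have hc2 : IsCoprime (2 * m) n := by
    refine IsCoprime.mul_left ?_ hc
    obtain ⟨t, ht⟩ : ∃ t, n = 2 * t + 1 := ⟨n / 2, by omega⟩
    exact ⟨-t, 1, by rw [ht]; ring⟩
  have h3 : (2 * m).natAbs * n.natAbs = (2 * w).natAbs ^ 6 := by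
    rw [← Int.natAbs_mul, ← Int.natAbs_pow]
    have k1 : 2 * m * n = ε * (2 * w) ^ 6 := by linear_combination 2 * h2
    rw [k1, Int.natAbs_mul]
    rcases hε with rfl | rfl <;> simp
  obtain ⟨⟨κ, hκ⟩, ⟨ν, hν⟩⟩ := pw (Int.isCoprime_iff_gcd_eq_one.1 hc2) h3
  have oν : ν % 2 = 1 := by
    rcases Nat.even_or_odd ν with hx | hx
    · exfalso
      obtain ⟨t, rfl⟩ := hx
      have : (t + t) ^ 6 = 2 * (32 * t ^ 6) := by ring
      omega
    · exact Nat.odd_iff.1 hx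
  obtain ⟨μ, rfl⟩ : ∃ μ, κ = 2 * μ := by
    have k1 : κ ^ 6 % 2 = 0 := by omega
    have k2 : 2 ∣ κ := Nat.prime_two.dvd_of_dvd_pow (Nat.dvd_of_mod_eq_zero k1)
    exact k2
  have hμ : m.natAbs = 32 * μ ^ 6 := by
    have k1 : (2 * μ) ^ 6 = 64 * μ ^ 6 := by ring
    omega
  have ν8 : ν ^ 6 % 8 = 1 := by
    have k1 := sq8o oν
    have k2 : ν ^ 6 = ν ^ 2 * ν ^ 2 * ν ^ 2 := by ring
    rw [k2]
    simp [Nat.mul_mod, k1]
  have hn1 : n = (ν : ℤ) ^ 6 := by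
    have k1 : ((n.natAbs : ℕ) : ℤ) = (ν : ℤ) ^ 6 := by exact_mod_cast hν
    have k2 : n = n.natAbs ∨ n = -n.natAbs := Int.natAbs_eq n
    have k3 : m = m.natAbs ∨ m = -m.natAbs := Int.natAbs_eq m
    have k4 : ((ν : ℤ) ^ 6) % 8 = 1 := by exact_mod_cast ν8
    omega
  obtain ⟨δ, hδ, hm1⟩ : ∃ δ : ℤ, (δ = 1 ∨ δ = -1) ∧ m = δ * (32 * (μ : ℤ) ^ 6) := by
    have k1 : ((m.natAbs : ℕ) : ℤ) = 32 * (μ : ℤ) ^ 6 := by exact_mod_cast hμ
    rcases Int.natAbs_eq m with k | k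
    · exact ⟨1, Or.inl rfl, by rw [k, k1]; ring⟩
    · exact ⟨-1, Or.inr rfl, by rw [k, k1]; ring⟩
  have oν3 : ((ν : ℤ) ^ 3) % 2 = 1 := by
    have k0 : (ν : ℤ) % 2 = 1 := by exact_mod_cast oν
    simp [Int.mul_emod, k0, pow_succ]
  obtain ⟨j, hj⟩ : ∃ j, Y - (ν : ℤ) ^ 3 = 2 * j := ⟨(Y - (ν : ℤ) ^ 3) / 2, by omega⟩
  obtain ⟨k, hk⟩ : ∃ k, Y + (ν : ℤ) ^ 3 = 2 * k := ⟨(Y + (ν : ℤ) ^ 3) / 2, by omega⟩
  have hjk : j * k = (δ * (2 * (μ : ℤ) ^ 2)) ^ 3 := by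
    have k1 : 4 * (j * k) = 4 * (δ * (2 * (μ : ℤ) ^ 2)) ^ 3 := by
      have k2 : δ ^ 3 = δ := by rcases hδ with rfl | rfl <;> norm_num
      have k3 : (δ * (2 * (μ : ℤ) ^ 2)) ^ 3 = δ * (8 * (μ : ℤ) ^ 6) := by
        rw [mul_pow, k2]
        ring
      rw [k3]
      have k4 : 4 * (j * k) = (2 * j) * (2 * k) := by ring
      rw [k4, ← hj, ← hk]
      linear_combination -h1 + hm1 + hn1
    omega
  have hYν : IsCoprime Y (ν : ℤ) := by
    have k1 : IsCoprime (m + n) n := by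
      have := hc.add_mul_left_left 1
      rwa [mul_one] at this
    rw [h1, hn1] at k1
    exact (IsCoprime.pow_iff (by norm_num) (by norm_num)).1 k1
  have hcjk : IsCoprime j k := by
    obtain ⟨a, b, hab⟩ : IsCoprime Y ((ν : ℤ) ^ 3) := hYν.pow_right
    have k1 : Y = j + k := by omega
    have k2 : (ν : ℤ) ^ 3 = k - j := by omega
    rw [k2, k1] at hab
    exact ⟨a - b, a + b, by linear_combination hab⟩
  obtain ⟨J, hJ⟩ := cube_of hcjk hjk
  obtain ⟨K, hK⟩ := cube_of hcjk.symm (by rw [mul_comm]; exact hjk)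
  have hflt : J ^ 3 + (ν : ℤ) ^ 3 = K ^ 3 := by
    rw [← hJ, ← hK]
    omega
  have hμ0 : (μ : ℤ) ≠ 0 := by
    intro k0
    rw [k0] at hm1
    have k1 : m = 0 := by rw [hm1]; ring
    rw [k1] at h2
    have k2 : ε * w ^ 6 = 0 := by omega
    rcases mul_eq_zero.1 k2 with k3 | k3
    · rcases hε with rfl | rfl <;> norm_num at k3
    · exact hw (pow_eq_zero_iff (by norm_num) |>.1 k3)
  have hδ0 : δ ≠ 0 := by rcases hδ with rfl | rfl <;> norm_num
  have hjk0 : j * k ≠ 0 := by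
    rw [hjk]
    exact pow_ne_zero 3 (mul_ne_zero hδ0 (mul_ne_zero two_ne_zero (pow_ne_zero 2 hμ0)))
  have hJ0 : J ≠ 0 := by
    rintro rfl
    exact hjk0 (by rw [hJ]; ring)
  have hK0 : K ≠ 0 := by
    rintro rfl
    exact hjk0 (by rw [hK]; ring)
  have hν0 : (ν : ℤ) ≠ 0 := by
    intro k0
    rw [k0] at oν3
    norm_num at oν3
  exact (fermatLastTheoremFor_iff_int.1 fermatLastTheoremThree) J ν K hJ0 hν0 hK0 hflt

/-- `Y ^ 4 - X ^ 2 = ± 2 z ^ 6` with `X`, `Y` coprime has only the solutions with `z = 0`. -/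
theorem S2 {X Y z ε : ℤ} (hε : ε = 1 ∨ ε = -1) (hc : IsCoprime X Y)
    (h : Y ^ 4 - X ^ 2 = 2 * (ε * z ^ 6)) : z = 0 := by
  obtain ⟨hX, hY⟩ : X % 2 = 1 ∧ Y % 2 = 1 := by
    refine six_odd hc ?_
    have h1 : (Y ^ 4 - X ^ 2) % 2 = 0 := by omega
    rcases Int.emod_two_eq_zero_or_one X with hx | hx <;>
      rcases Int.emod_two_eq_zero_or_one Y with hy | hy <;>
      simp [Int.mul_emod, Int.add_emod, Int.sub_emod, hx, hy, pow_succ] at h1 ⊢
  have oX := sq8zo hX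
  have oY := sq8zo hY
  have oY4 := mod16 hY
  obtain ⟨w, rfl⟩ : ∃ w, z = 2 * w := by
    have k1 : (ε * z ^ 6) % 2 = 0 := by omega
    have k2 : z ^ 6 % 2 = 0 := by
      rcases hε with rfl | rfl <;> omega
    have k3 : (2 : ℤ) ∣ z := Int.prime_two.dvd_of_dvd_pow (Int.dvd_of_emod_eq_zero k2)
    exact k3
  obtain ⟨m, hm⟩ : ∃ m, Y ^ 2 - X = 2 * m := ⟨(Y ^ 2 - X) / 2, by omega⟩
  obtain ⟨n, hn⟩ : ∃ n, Y ^ 2 + X = 2 * n := ⟨(Y ^ 2 + X) / 2, by omega⟩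
  have e1 : m + n = Y ^ 2 := by omega
  have e2 : X = n - m := by omega
  have e3 : m * n = 32 * (ε * w ^ 6) := by
    have k1 : 4 * (m * n) = 4 * (32 * (ε * w ^ 6)) := by
      have k4 : 4 * (m * n) = (2 * m) * (2 * n) := by ring
      rw [k4, ← hm, ← hn]
      linear_combination h
    omega
  have hmn : IsCoprime m n := by
    obtain ⟨a, b, hab⟩ : IsCoprime X (Y ^ 2) := hc.pow_right
    rw [← e1, e2] at hab
    exact ⟨b - a, b + a, by linear_combination hab⟩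
  have hw : w = 0 := by
    rcases Int.emod_two_eq_zero_or_one m with hx | hx
    · exact S2aux hε hmn hx e1 e3
    · have hn2 : n % 2 = 0 := by omega
      exact S2aux hε hmn.symm hn2 (by rw [add_comm]; exact e1) (by rw [mul_comm]; exact e3)
  rw [hw]
  ring

/-- `u ^ (4 i) + v ^ (2 j) = 2 w ^ (6 k)`. -/
theorem famP {u v w i j k : ℕ} (hi : 0 < i) (hj : 0 < j) (hk : 0 < k)
    (h : u ^ (4 * i) + v ^ (2 * j) = 2 * w ^ (6 * k))
    (hg : ∀ l : ℕ, l.Prime → l ∣ u → l ∣ v → l ∣ w → False) :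
    u = 1 ∧ v = 1 ∧ w = 1 := by
  have hz : (u : ℤ) ^ (4 * i) + (v : ℤ) ^ (2 * j) = 2 * (w : ℤ) ^ (6 * k) := by exact_mod_cast h
  have hc : Nat.Coprime u v := by
    refine cop_aux (m := 2) (ε := 1) (i := 2 * i) (j := j) (k := 6 * k) (by norm_num) (by omega)
      hj ?_ hg
    rw [one_mul, ← hz, show 2 * (2 * i) = 4 * i by ring]
  have hc2 : IsCoprime ((v : ℤ) ^ j) ((u : ℤ) ^ i) := (Nat.isCoprime_iff_coprime.2 hc.symm).pow
  have h2 : ((v : ℤ) ^ j) ^ 2 + ((u : ℤ) ^ i) ^ 4 = 2 * ((w : ℤ) ^ k) ^ 6 := by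
    rw [← pow_mul, ← pow_mul, ← pow_mul, mul_comm i 4, mul_comm j 2, mul_comm k 6, ← hz]
    ring
  obtain ⟨h3, h4, h5⟩ := S1 hc2 h2
  refine ⟨?_, ?_, ?_⟩
  · have h6 : (u ^ i) ^ 2 = 1 := by exact_mod_cast h4
    exact pone (by omega) (pone (by norm_num) h6)
  · have h6 : (v ^ j) ^ 2 = 1 := by exact_mod_cast h3
    exact pone (by omega) (pone (by norm_num) h6)
  · have h6 : (w ^ k) ^ 2 = 1 := by exact_mod_cast h5
    exact pone (by omega) (pone (by norm_num) h6)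

/-- `u ^ (4 i) - v ^ (2 j) = ± 2 w ^ (6 k)`. -/
theorem famM {u v w i j k : ℕ} (hi : 0 < i) (hj : 0 < j) (hw : 0 < w) {ε : ℤ}
    (hε : ε = 1 ∨ ε = -1)
    (h : (u : ℤ) ^ (4 * i) - (v : ℤ) ^ (2 * j) = 2 * (ε * (w : ℤ) ^ (6 * k)))
    (hg : ∀ l : ℕ, l.Prime → l ∣ u → l ∣ v → l ∣ w → False) : False := by
  have hc : Nat.Coprime u v := by
    rcases hε with rfl | rfl
    · refine cop_aux (m := 2) (ε := -1) (i := 2 * i) (j := j) (k := 6 * k) (by norm_num)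
        (by omega) hj ?_ hg
      rw [← mul_assoc]
      linear_combination h
    · refine (cop_aux (m := 2) (ε := -1) (i := j) (j := 2 * i) (k := 6 * k) (by norm_num)
        hj (by omega) ?_ (fun l h1 h2 h3 h4 => hg l h1 h3 h2 h4)).symm
      rw [← mul_assoc 2 2 i]
      linear_combination -h
  have hc2 : IsCoprime ((v : ℤ) ^ j) ((u : ℤ) ^ i) := (Nat.isCoprime_iff_coprime.2 hc.symm).pow
  have h2 : ((u : ℤ) ^ i) ^ 4 - ((v : ℤ) ^ j) ^ 2 = 2 * (ε * ((w : ℤ) ^ k) ^ 6) := by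
    rw [← pow_mul, ← pow_mul, ← pow_mul, mul_comm i 4, mul_comm j 2, mul_comm k 6]
    exact h
  have hw0 : ((w : ℤ) ^ k) ≠ 0 := by positivity
  exact hw0 (S2 hε hc2 h2)

end GF2
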