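import Pool.Agent.H.MP_81d9be_nt.TT

/-!
# MP_81d9be_nt: `y ^ 4 + 2 z ^ 6 = x ^ 3` and `y ^ 4 + 2 z ^ 8 = x ^ 3`, end
-/

set_option autoImplicit false

namespace GF2

theorem zcop {P Q : ℤ} (hPQ : IsCoprime P Q) (h3 : Q % 3 ≠ 0) :
    IsCoprime Q (3 * P ^ 2 - 2 * Q ^ 2) := by
  have e : 3 * P ^ 2 - 2 * Q ^ 2 = 3 * P ^ 2 + Q * (-2 * Q) := by ring
  rw [e]
  exact IsCoprime.add_mul_left_right (IsCoprime.mul_right (cop3 h3) hPQ.symm.pow_right) _

theorem fourth16 (e : ℕ) : (e : ℤ) ^ 4 % 16 = 0 ∨ (e : ℤ) ^ 4 % 16 = 1 := by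
  have h := fo8 e
  have h1 : ((e ^ 4 : ℕ) : ℤ) = (e : ℤ) ^ 4 := by push_cast; rfl
  omega

theorem fourth3 (e : ℕ) : (e : ℤ) ^ 4 % 3 = 0 ∨ (e : ℤ) ^ 4 % 3 = 1 := by
  have h := fo3' e
  have h1 : ((e ^ 4 : ℕ) : ℤ) = (e : ℤ) ^ 4 := by push_cast; rfl
  omega

theorem z13 : ∀ x : ZMod 13, x ^ 6 = 0 ∧ x = 0 ∨ x ^ 6 = 1 ∨ x ^ 6 = 12 := by decide

theorem c13 : ∀ x : ZMod 13, x ^ 3 = 0 ∨ x ^ 3 = 1 ∨ x ^ 3 = 5 ∨ x ^ 3 = 8 ∨ x ^ 3 = 12 := by decide

theorem m13 {s t B : ℤ}
    (h : 3 * (3 * (32 * s ^ 6) + t ^ 6) ^ 2 - 128 * (s ^ 6 * t ^ 6) = B ^ 3) :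
    (13 : ℤ) ∣ s ∧ (13 : ℤ) ∣ t := by
  have h1 : (3 : ZMod 13) * (3 * (32 * (s : ZMod 13) ^ 6) + (t : ZMod 13) ^ 6) ^ 2 -
      128 * ((s : ZMod 13) ^ 6 * (t : ZMod 13) ^ 6) = (B : ZMod 13) ^ 3 := by
    exact_mod_cast congrArg (Int.cast : ℤ → ZMod 13) h
  have e1 : ∀ x : ℤ, (x : ZMod 13) = 0 → (13 : ℤ) ∣ x := fun x hx => by
    have := (ZMod.intCast_zmod_eq_zero_iff_dvd x 13).1 hx
    exact_mod_cast this
  rcases z13 (s : ZMod 13) with ⟨hs, hs'⟩ | hs | hs <;>
  rcases z13 (t : ZMod 13) with ⟨ht, ht'⟩ | ht | ht <;>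
  rw [hs, ht] at h1 <;>
  rcases c13 (B : ZMod 13) with hB | hB | hB | hB | hB <;>
  rw [hB] at h1 <;>
  first
    | exact ⟨e1 s hs', e1 t ht'⟩
    | exact absurd h1 (by decide)

theorem T24 {x y z : ℤ} (hc : IsCoprime y z) (h : y ^ 4 + 2 * z ^ 8 = x ^ 3) : z = 0 := by
  obtain ⟨P, Q, hPQ, hP, hy, hz⟩ := start (y := y) (Z := z ^ 4) (x := x) hc.pow_right
    (by rw [← h]; ring)
  by_cases hQ0 : Q = 0
  · rw [hQ0, zero_mul] at hz
    exact pow_eq_zero_iff (by norm_num) |>.1 hz.symm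
  have hP8 := sq8zo hP
  by_cases h3 : Q % 3 = 0
  · obtain ⟨q, rfl⟩ : ∃ q, Q = 3 * q := ⟨Q / 3, by omega⟩
    have hP3 : P % 3 ≠ 0 := by
      intro h0
      have h1 : IsUnit (3 : ℤ) := hPQ.isUnit_of_dvd' (Int.dvd_of_emod_eq_zero h0) ⟨q, rfl⟩
      rw [Int.isUnit_iff] at h1
      omega
    have hP9 := sq3z hP3
    obtain ⟨z', rfl⟩ : (3 : ℤ) ∣ z := by
      refine Int.prime_three.dvd_of_dvd_pow (n := 4) ⟨q * (3 * P ^ 2 - 2 * (3 * q) ^ 2), ?_⟩
      rw [← hz]
      ring
    have h4 : q * (P ^ 2 - 6 * q ^ 2) = 9 * z' ^ 4 := by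
      have : 9 * (q * (P ^ 2 - 6 * q ^ 2)) = 9 * (9 * z' ^ 4) := by linear_combination hz
      omega
    have h5 : IsCoprime (9 : ℤ) (P ^ 2 - 6 * q ^ 2) := by
      have e9 : (9 : ℤ) = 3 ^ 2 := by norm_num
      rw [e9]
      refine IsCoprime.pow_left ?_
      rw [Int.prime_three.coprime_iff_not_dvd]
      omega
    obtain ⟨q', rfl⟩ : (9 : ℤ) ∣ q := h5.dvd_of_dvd_mul_right ⟨z' ^ 4, h4⟩
    have h6 : q' * (P ^ 2 - 486 * q' ^ 2) = z' ^ 4 := by
      have : 9 * (q' * (P ^ 2 - 486 * q' ^ 2)) = 9 * z' ^ 4 := by linear_combination h4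
      omega
    have hPq : IsCoprime P q' :=
      IsCoprime.of_mul_right_right (IsCoprime.of_mul_right_right hPQ)
    have h7 : IsCoprime q' (P ^ 2 - 486 * q' ^ 2) := by
      have e : P ^ 2 - 486 * q' ^ 2 = P ^ 2 + q' * (-486 * q') := by ring
      rw [e]
      exact IsCoprime.add_mul_left_right hPq.symm.pow_right _
    obtain ⟨d, hd⟩ := fourth_of h7 h6
    obtain ⟨e, he⟩ := fourth_of h7.symm (by rw [mul_comm]; exact h6)
    have he1 : P ^ 2 - 486 * q' ^ 2 = (e : ℤ) ^ 4 := by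
      rcases he with h8 | h8
      · exact h8
      · exfalso
        have := fourth3 e
        omega
    have hq2 : q' ^ 2 = (d : ℤ) ^ 8 := by
      rcases hd with h8 | h8 <;> rw [h8] <;> ring
    rcases ypart hPQ hP hy with ⟨-, a, A, ha, hA⟩ | ⟨h8, -⟩
    · have k1 : a.natAbs ^ 4 = 6 * (3 * d ^ 2) ^ 4 + (e ^ 2) ^ 2 := by
        zify
        rw [Even.pow_abs (by decide)]
        rw [ha] at he1
        linear_combination he1 + 486 * hq2
      have k2 : a.natAbs ^ 4 = 54 * (3 * d ^ 2) ^ 4 + A.natAbs ^ 2 := by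
        zify
        rw [Even.pow_abs (by decide), sq_abs]
        rw [ha] at hA
        linear_combination hA + 4374 * hq2
      have hao : a % 2 = 1 := by
        by_contra h0
        obtain ⟨c, rfl⟩ : ∃ c, a = 2 * c := ⟨a / 2, by omega⟩
        have : (2 * c) ^ 2 = 4 * c ^ 2 := by ring
        omega
      have ha3 : a % 3 ≠ 0 := by
        intro h0
        obtain ⟨c, rfl⟩ : ∃ c, a = 3 * c := ⟨a / 3, by omega⟩
        have : (3 * c) ^ 2 = 3 * (3 * c ^ 2) := by ring
        omega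
      have haq : IsCoprime a q' := by
        rw [ha] at hPq
        exact (IsCoprime.pow_left_iff two_pos).1 hPq
      have had : Nat.Coprime a.natAbs (3 * d ^ 2) := by
        refine Nat.Coprime.mul_right ?_ (Nat.Coprime.pow_right 2 ?_)
        · exact Int.isCoprime_iff_nat_coprime.1 (cop3 ha3)
        · have h9 : IsCoprime a ((d : ℤ) ^ 4) := by
            rcases hd with h8 | h8
            · rwa [h8] at haq
            · rw [h8] at haq
              exact (IsCoprime.neg_right_iff _ _).1 haq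
          have h10 : IsCoprime a (d : ℤ) := (IsCoprime.pow_right_iff (by norm_num)).1 h9
          have h11 := Int.isCoprime_iff_nat_coprime.1 h10
          rwa [Int.natAbs_natCast] at h11
      have k3 := ad (by omega) (by omega) had k1 k2
      have k4 : d = 0 := by
        have : d ^ 2 = 0 := by omega
        exact pow_eq_zero_iff two_ne_zero |>.1 this
      have k5 : q' = 0 := by
        rw [k4] at hq2
        have : q' ^ 2 = 0 := by rw [hq2]; norm_num
        exact pow_eq_zero_iff two_ne_zero |>.1 this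
      exact absurd (by rw [k5]; norm_num) hQ0
    · exact absurd h8 hP3
  · obtain ⟨d, hd⟩ := fourth_of (zcop hPQ h3) hz
    obtain ⟨e, he⟩ := fourth_of (zcop hPQ h3).symm (by rw [mul_comm]; exact hz)
    have he16 := fourth16 e
    have hQo : Q % 2 = 1 := by
      by_contra h0
      obtain ⟨c, rfl⟩ : ∃ c, Q = 2 * c := ⟨Q / 2, by omega⟩
      have e1 : (2 * c) ^ 2 = 4 * c ^ 2 := by ring
      rcases he with h8 | h8 <;> omega
    have hQ8 := sq8zo hQo
    exfalso
    rcases ypart hPQ hP hy with ⟨-, a, A, ha, hA⟩ | ⟨-, a, A, ha, hA⟩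
    · have := sq8z A
      omega
    · have hq2 : Q ^ 2 = (d : ℤ) ^ 8 := by
        rcases hd with h8 | h8 <;> rw [h8] <;> ring
      have hao : a % 2 = 1 := by
        by_contra h0
        obtain ⟨c, rfl⟩ : ∃ c, a = 2 * c := ⟨a / 2, by omega⟩
        have : (2 * c) ^ 2 = 4 * c ^ 2 := by ring
        omega
      have ha16 := mod16 hao
      have hQ16 : Q ^ 2 % 16 = 1 := by
        rw [hq2]
        have e1 : (d : ℤ) ^ 8 = (d : ℤ) ^ 4 * (d : ℤ) ^ 4 := by ring
        have hd16 := fourth16 d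
        rw [e1]
        rcases hd16 with h9 | h9
        · exfalso
          have : ((d : ℤ) ^ 4 * (d : ℤ) ^ 4) % 16 = 0 := by
            rw [Int.mul_emod, h9]
            norm_num
          omega
        · rw [Int.mul_emod, h9]
          norm_num
      have hP2 : P ^ 2 = 9 * a ^ 4 := by rw [ha]; ring
      rcases he with h8 | h8 <;> omega

theorem T23 {x y z : ℤ} (hc : IsCoprime y z) (h : y ^ 4 + 2 * z ^ 6 = x ^ 3) : z = 0 := by
  obtain ⟨P, Q, hPQ, hP, hy, hz⟩ := start (y := y) (Z := z ^ 3) (x := x) hc.pow_right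
    (by rw [← h]; ring)
  by_cases hQ0 : Q = 0
  · rw [hQ0, zero_mul] at hz
    exact pow_eq_zero_iff (by norm_num) |>.1 hz.symm
  have hP8 := sq8zo hP
  by_cases h3 : Q % 3 = 0
  · obtain ⟨q, rfl⟩ : ∃ q, Q = 3 * q := ⟨Q / 3, by omega⟩
    have hP3 : P % 3 ≠ 0 := by
      intro h0
      have h1 : IsUnit (3 : ℤ) := hPQ.isUnit_of_dvd' (Int.dvd_of_emod_eq_zero h0) ⟨q, rfl⟩
      rw [Int.isUnit_iff] at h1
      omega
    have hP9 := sq3z hP3
    obtain ⟨z', rfl⟩ : (3 : ℤ) ∣ z := by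
      refine Int.prime_three.dvd_of_dvd_pow (n := 3) ⟨q * (3 * P ^ 2 - 2 * (3 * q) ^ 2), ?_⟩
      rw [← hz]
      ring
    have h4 : q * (P ^ 2 - 6 * q ^ 2) = 3 * z' ^ 3 := by
      have : 9 * (q * (P ^ 2 - 6 * q ^ 2)) = 9 * (3 * z' ^ 3) := by linear_combination hz
      omega
    have h5 : IsCoprime (3 : ℤ) (P ^ 2 - 6 * q ^ 2) := by
      rw [Int.prime_three.coprime_iff_not_dvd]
      omega
    obtain ⟨q', rfl⟩ : (3 : ℤ) ∣ q := h5.dvd_of_dvd_mul_right ⟨z' ^ 3, h4⟩
    have h6 : q' * (P ^ 2 - 54 * q' ^ 2) = z' ^ 3 := by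
      have : 3 * (q' * (P ^ 2 - 54 * q' ^ 2)) = 3 * z' ^ 3 := by linear_combination h4
      omega
    have hPq : IsCoprime P q' :=
      IsCoprime.of_mul_right_right (IsCoprime.of_mul_right_right hPQ)
    have h7 : IsCoprime q' (P ^ 2 - 54 * q' ^ 2) := by
      have e : P ^ 2 - 54 * q' ^ 2 = P ^ 2 + q' * (-54 * q') := by ring
      rw [e]
      exact IsCoprime.add_mul_left_right hPq.symm.pow_right _
    obtain ⟨b, hb⟩ := cube_of h7 h6
    obtain ⟨B, hB⟩ := cube_of h7.symm (by rw [mul_comm]; exact h6)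
    have hb0 : b ≠ 0 := by
      rintro rfl
      apply hQ0
      rw [hb]
      norm_num
    rcases ypart hPQ hP hy with ⟨-, a, A, ha, hA⟩ | ⟨h8, -⟩
    · have hao : a % 2 = 1 := by
        by_contra h0
        obtain ⟨c, rfl⟩ : ∃ c, a = 2 * c := ⟨a / 2, by omega⟩
        have : (2 * c) ^ 2 = 4 * c ^ 2 := by ring
        omega
      have ha3 : a % 3 ≠ 0 := by
        intro h0
        obtain ⟨c, rfl⟩ : ∃ c, a = 3 * c := ⟨a / 3, by omega⟩
        have : (3 * c) ^ 2 = 3 * (3 * c ^ 2) := by ring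
        omega
      have hab : IsCoprime a b := by
        rw [ha, hb] at hPq
        exact (IsCoprime.pow_left_iff two_pos).1 ((IsCoprime.pow_right_iff (by norm_num)).1 hPq)
      have k1 : a ^ 4 - (486 : ℕ) * b ^ (2 * 3) = A ^ 2 := by
        rw [← hA, ha, hb]
        push_cast
        ring
      obtain ⟨s, t, k2, k3, k4⟩ := ext4Z (k := 3) (M := 243) (N := 32) (j := 4) (i := 2)
        (K := 486) (by norm_num) (by norm_num) (by norm_num) (by norm_num) hao ha3 hab hb0
        (by norm_num) (by norm_num) k1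
      norm_num at k2
      have hb6 : b ^ 6 = 64 * (s ^ 6 * t ^ 6) := by
        have e1 : b ^ 6 = ((b.natAbs : ℕ) : ℤ) ^ 6 := by
          rw [Int.natCast_natAbs, Even.pow_abs (by decide)]
        rw [e1, k3]
        push_cast
        rw [mul_pow, Even.pow_abs (by decide)]
        ring
      have hst0 : s * t ≠ 0 := by
        intro h0
        rw [h0] at k3
        simp at k3
        exact hb0 k3
      -- `U ^ 2 + 3 V ^ 2 = B ^ 3`
      have k5 : (t ^ 6 - 7776 * s ^ 6) ^ 2 + 3 * (96 * (s ^ 3 * t ^ 3)) ^ 2 = B ^ 3 := by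
        rw [← hB, ha, hb]
        linear_combination (-(a ^ 2 + 7776 * s ^ 6 + t ^ 6)) * k2 + 54 * hb6
      have ha8 := sq8zo hao
      have ha9 := sq3z ha3
      have ht2 : t % 2 = 1 := by
        by_contra h0
        obtain ⟨c, rfl⟩ : ∃ c, t = 2 * c := ⟨t / 2, by omega⟩
        have : (2 * c) ^ 6 = 64 * c ^ 6 := by ring
        omega
      have ht3 : t % 3 ≠ 0 := by
        intro h0
        obtain ⟨c, rfl⟩ : ∃ c, t = 3 * c := ⟨t / 3, by omega⟩
        have : (3 * c) ^ 6 = 729 * c ^ 6 := by ring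
        omega
      have cst : IsCoprime s t := by
        have e1 : IsCoprime s (a ^ 2 + s * (-7776 * s ^ 5)) :=
          IsCoprime.add_mul_left_right k4.symm.pow_right _
        have e2 : a ^ 2 + s * (-7776 * s ^ 5) = t ^ 6 := by linear_combination k2
        rw [e2] at e1
        exact (IsCoprime.pow_right_iff (by norm_num)).1 e1
      have c2 : IsCoprime t 2 := cop2 ht2
      have c3 : IsCoprime t 3 := cop3 ht3
      have hUs : IsCoprime (t ^ 6 - 7776 * s ^ 6) s := by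
        have e1 : IsCoprime s (t ^ 6 + s * (-7776 * s ^ 5)) :=
          IsCoprime.add_mul_left_right cst.pow_right _
        have e2 : t ^ 6 + s * (-7776 * s ^ 5) = t ^ 6 - 7776 * s ^ 6 := by ring
        rw [e2] at e1
        exact e1.symm
      have hUt : IsCoprime (t ^ 6 - 7776 * s ^ 6) t := by
        have e0 : IsCoprime t (-(2 ^ 5 * 3 ^ 5 * s ^ 6)) :=
          (IsCoprime.mul_right (IsCoprime.mul_right c2.pow_right c3.pow_right)
            cst.symm.pow_right).neg_right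
        have e1 : IsCoprime t (-(2 ^ 5 * 3 ^ 5 * s ^ 6) + t * t ^ 5) :=
          IsCoprime.add_mul_left_right e0 _
        have e2 : -(2 ^ 5 * 3 ^ 5 * s ^ 6) + t * t ^ 5 = t ^ 6 - 7776 * s ^ 6 := by ring
        rw [e2] at e1
        exact e1.symm
      have hU2 : IsCoprime (t ^ 6 - 7776 * s ^ 6) 2 := by
        have e1 : IsCoprime 2 (t ^ 6 + 2 * (-3888 * s ^ 6)) :=
          IsCoprime.add_mul_left_right c2.symm.pow_right _
        have e2 : t ^ 6 + 2 * (-3888 * s ^ 6) = t ^ 6 - 7776 * s ^ 6 := by ring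
        rw [e2] at e1
        exact e1.symm
      have hU3 : IsCoprime (t ^ 6 - 7776 * s ^ 6) 3 := by
        have e1 : IsCoprime 3 (t ^ 6 + 3 * (-2592 * s ^ 6)) :=
          IsCoprime.add_mul_left_right c3.symm.pow_right _
        have e2 : t ^ 6 + 3 * (-2592 * s ^ 6) = t ^ 6 - 7776 * s ^ 6 := by ring
        rw [e2] at e1
        exact e1.symm
      have hUV : IsCoprime (t ^ 6 - 7776 * s ^ 6) (96 * (s ^ 3 * t ^ 3)) := by
        have e1 : (96 : ℤ) = 2 ^ 5 * 3 := by norm_num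
        rw [e1]
        exact IsCoprime.mul_right (IsCoprime.mul_right hU2.pow_right hU3)
          (IsCoprime.mul_right hUs.pow_right hUt.pow_right)
      have hBo : B % 2 = 1 := by
        by_contra h0
        obtain ⟨c, rfl⟩ : ∃ c, B = 2 * c := ⟨B / 2, by omega⟩
        have e1 : (2 * c) ^ 3 = 8 * c ^ 3 := by ring
        omega
      obtain ⟨c, d, m1, m2⟩ := cube3 hUV hBo k5
      have hcd := cop_cd hUV m1 m2
      have m3 : c * d * (c - d) = (4 * (s * t)) ^ 3 := by
        have : 3 * (c * d * (c - d)) = 3 * (4 * (s * t)) ^ 3 := by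
          rw [← m1]
          ring
        omega
      have hcd1 : IsCoprime c (c - d) := by
        have e1 : IsCoprime c (-d + c * 1) := IsCoprime.add_mul_left_right hcd.neg_right 1
        have e2 : -d + c * 1 = c - d := by ring
        rwa [e2] at e1
      have hcd2 : IsCoprime d (c - d) := by
        have e1 : IsCoprime d (c + d * (-1)) := IsCoprime.add_mul_left_right hcd.symm (-1)
        have e2 : c + d * (-1) = c - d := by ring
        rwa [e2] at e1
      obtain ⟨γ, hγ⟩ : ∃ γ, c = γ ^ 3 :=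
        cube_of (b := d * (c - d)) (c := 4 * (s * t)) (IsCoprime.mul_right hcd hcd1)
          (by rw [← m3]; ring)
      obtain ⟨δ, hδ⟩ : ∃ δ, d = δ ^ 3 :=
        cube_of (b := c * (c - d)) (c := 4 * (s * t)) (IsCoprime.mul_right hcd.symm hcd2)
          (by rw [← m3]; ring)
      obtain ⟨ε, hε⟩ : ∃ ε, c - d = ε ^ 3 :=
        cube_of (b := c * d) (c := 4 * (s * t)) (IsCoprime.mul_right hcd1.symm hcd2.symm)
          (by rw [← m3]; ring)
      exfalso
      have hne : c * d * (c - d) ≠ 0 := by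
        rw [m3]
        exact pow_ne_zero 3 (mul_ne_zero (by norm_num) hst0)
      have hγ0 : γ ≠ 0 := by
        rintro rfl
        apply hne
        rw [hγ]
        ring
      have hδ0 : δ ≠ 0 := by
        rintro rfl
        apply hne
        rw [hδ]
        ring
      have hε0 : ε ≠ 0 := by
        rintro rfl
        apply hne
        rw [hε]
        ring
      exact (fermatLastTheoremFor_iff_int.1 fermatLastTheoremThree) δ ε γ hδ0 hε0 hγ0
        (by rw [← hδ, ← hε, ← hγ]; ring)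
    · exact absurd h8 hP3
  · obtain ⟨b, hb⟩ := cube_of (zcop hPQ h3) hz
    obtain ⟨B, hB⟩ := cube_of (zcop hPQ h3).symm (by rw [mul_comm]; exact hz)
    have hb0 : b ≠ 0 := by
      rintro rfl
      apply hQ0
      rw [hb]
      norm_num
    have hb3 : b % 3 ≠ 0 := by
      intro h0
      obtain ⟨c, rfl⟩ : ∃ c, b = 3 * c := ⟨b / 3, by omega⟩
      have : (3 * c) ^ 3 = 3 * (9 * c ^ 3) := by ring
      omega
    have hb9 := sixth9 hb3
    have hB9 := cube9 B
    have hQ2 : Q ^ 2 = b ^ 6 := by rw [hb]; ring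
    exfalso
    rcases ypart hPQ hP hy with ⟨hP3, a, A, ha, hA⟩ | ⟨-, a, A, ha, hA⟩
    · have hao : a % 2 = 1 := by
        by_contra h0
        obtain ⟨c, rfl⟩ : ∃ c, a = 2 * c := ⟨a / 2, by omega⟩
        have : (2 * c) ^ 2 = 4 * c ^ 2 := by ring
        omega
      have ha3 : a % 3 ≠ 0 := by
        intro h0
        obtain ⟨c, rfl⟩ : ∃ c, a = 3 * c := ⟨a / 3, by omega⟩
        have : (3 * c) ^ 2 = 3 * (3 * c ^ 2) := by ring
        omega
      have hab : IsCoprime a b := by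
        rw [ha, hb] at hPQ
        exact (IsCoprime.pow_left_iff two_pos).1 ((IsCoprime.pow_right_iff (by norm_num)).1 hPQ)
      have k1 : a ^ 4 - (6 : ℕ) * b ^ (2 * 3) = A ^ 2 := by
        rw [← hA, ha, hb]
        push_cast
        ring
      obtain ⟨s, t, k2, k3, k4⟩ := ext4Z (k := 3) (M := 3) (N := 32) (j := 0) (i := 2)
        (K := 6) (by norm_num) (by norm_num) (by norm_num) (by norm_num) hao ha3 hab hb0
        (by norm_num) (by norm_num) k1
      norm_num at k2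
      have hb6 : b ^ 6 = 64 * (s ^ 6 * t ^ 6) := by
        have e1 : b ^ 6 = ((b.natAbs : ℕ) : ℤ) ^ 6 := by
          rw [Int.natCast_natAbs, Even.pow_abs (by decide)]
        rw [e1, k3]
        push_cast
        rw [mul_pow, Even.pow_abs (by decide)]
        ring
      have k5 : 3 * (3 * (32 * s ^ 6) + t ^ 6) ^ 2 - 128 * (s ^ 6 * t ^ 6) = B ^ 3 := by
        rw [← hB, hQ2, ha, hb6, ← k2]
        ring
      obtain ⟨hs', ht'⟩ := m13 k5
      have h13 : (13 : ℤ) ∣ a := by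
        have h14 : (13 : ℤ) ∣ a ^ 2 := by
          rw [k2]
          exact dvd_add (Dvd.dvd.mul_left (Dvd.dvd.mul_left (dvd_pow hs' (by norm_num)) _) _)
            (dvd_pow ht' (by norm_num))
        have p13 : Prime (13 : ℤ) := Nat.prime_iff_prime_int.1 (by norm_num)
        exact p13.dvd_of_dvd_pow h14
      have h15 : IsUnit (13 : ℤ) := k4.isUnit_of_dvd' h13 hs'
      rw [Int.isUnit_iff] at h15
      omega
    · have hP2 : P ^ 2 = 9 * a ^ 4 := by rw [ha]; ring
      omega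

end GF2
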