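import Pool.Agent.H.MP_81d9be_nt.Eis

/-!
# MP_81d9be_nt: the ring `ℤ[√-2]` and `Y ^ 2 + 2 Z ^ 2 = X ^ 3`
-/

set_option autoImplicit false

namespace GF2

/-- The ring `ℤ[√-2]`. -/
abbrev Sqt : Type := QuadraticAlgebra ℤ (-2) 0

theorem sqt_norm (z : Sqt) : z.norm = z.re ^ 2 + 2 * z.im ^ 2 := by
  rw [QuadraticAlgebra.norm_def]
  ring

theorem sqt_norm_nonneg (z : Sqt) : 0 ≤ z.norm := by
  rw [sqt_norm]
  positivity

theorem sqt_norm_eq_zero {z : Sqt} (h : z.norm = 0) : z = 0 := by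
  rw [sqt_norm] at h
  have h1 : z.re ^ 2 ≤ 0 := by nlinarith [sq_nonneg z.im]
  have h2 : z.im ^ 2 ≤ 0 := by nlinarith [sq_nonneg z.re]
  have h3 : z.re = 0 := by
    have := sq_nonneg z.re
    exact pow_eq_zero_iff two_ne_zero |>.1 (le_antisymm h1 this)
  have h4 : z.im = 0 := by
    have := sq_nonneg z.im
    exact pow_eq_zero_iff two_ne_zero |>.1 (le_antisymm h2 this)
  ext
  · exact h3
  · exact h4

theorem sqt_domain : IsDomain Sqt := by
  have : NoZeroDivisors Sqt := ⟨fun {a b} h => by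
    have h1 : a.norm * b.norm = 0 := by
      rw [← map_mul, h]
      exact QuadraticAlgebra.norm_zero
    rcases mul_eq_zero.1 h1 with h2 | h2
    · exact Or.inl (sqt_norm_eq_zero h2)
    · exact Or.inr (sqt_norm_eq_zero h2)⟩
  exact NoZeroDivisors.to_isDomain Sqt

theorem sqt_div (x y : Sqt) (hy : y ≠ 0) : ∃ q : Sqt, (x - q * y).norm < y.norm := by
  have hn : 0 < y.norm := by
    rcases lt_or_eq_of_le (sqt_norm_nonneg y) with h | h
    · exact h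
    · exact absurd (sqt_norm_eq_zero h.symm) hy
  obtain ⟨q1, h1, h2⟩ := round_le (x * star y).re y.norm hn
  obtain ⟨q2, h3, h4⟩ := round_le (x * star y).im y.norm hn
  refine ⟨⟨q1, q2⟩, ?_⟩
  have h5 : (x - ⟨q1, q2⟩ * y) * star y =
      ⟨(x * star y).re - y.norm * q1, (x * star y).im - y.norm * q2⟩ := by
    have h6 : y * star y = (algebraMap ℤ Sqt) y.norm :=
      (QuadraticAlgebra.algebraMap_norm_eq_mul_star y).symm
    have h7 : (x - ⟨q1, q2⟩ * y) * star y = x * star y - ⟨q1, q2⟩ * (y * star y) := by ring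
    rw [h7, h6, QuadraticAlgebra.algebraMap_eq]
    ext <;> simp <;> ring
  have h8 : (x - ⟨q1, q2⟩ * y).norm * y.norm < y.norm * y.norm := by
    have h9 : (x - ⟨q1, q2⟩ * y).norm * y.norm = ((x - ⟨q1, q2⟩ * y) * star y).norm := by
      rw [map_mul, QuadraticAlgebra.norm_star]
    rw [h9, h5, sqt_norm]
    simp only
    nlinarith
  exact lt_of_mul_lt_mul_right h8 hn.le

theorem sqt_pid : IsPrincipalIdealRing Sqt := by
  refine ⟨fun I => ?_⟩
  by_cases hI : I = ⊥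
  · rw [hI]
    exact ⟨⟨0, by simp⟩⟩
  · obtain ⟨b, hbI, hb0⟩ := Submodule.exists_mem_ne_zero_of_ne_bot hI
    have hex : ∃ n : ℕ, ∃ z ∈ I, z ≠ 0 ∧ z.norm = (n : ℤ) :=
      ⟨b.norm.natAbs, b, hbI, hb0, by
        have := sqt_norm_nonneg b
        omega⟩
    classical
    obtain ⟨z, hzI, hz0, hz⟩ := Nat.find_spec hex
    refine ⟨⟨z, ?_⟩⟩
    refine le_antisymm (fun x hx => ?_) ?_
    · obtain ⟨q, hq⟩ := sqt_div x z hz0
      have hxq : x - q * z ∈ I := I.sub_mem hx (I.mul_mem_left q hzI)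
      have h0 : x - q * z = 0 := by
        by_contra h0
        have h1 := Nat.find_min' hex ⟨x - q * z, hxq, h0, by
          have := sqt_norm_nonneg (x - q * z)
          exact (Int.natAbs_of_nonneg this).symm⟩
        have h2 := sqt_norm_nonneg (x - q * z)
        omega
      rw [sub_eq_zero.1 h0]
      exact Ideal.mul_mem_left _ q (Ideal.mem_span_singleton_self z)
    · rw [Submodule.span_singleton_le_iff_mem]
      exact hzI

theorem sqt_unit {w : Sqt} (h : IsUnit w) : w = ⟨1, 0⟩ ∨ w = ⟨-1, 0⟩ := by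
  have h1 : IsUnit w.norm := h.map QuadraticAlgebra.norm
  have h2 : w.norm = 1 := by
    rcases Int.isUnit_iff.1 h1 with h | h
    · exact h
    · have := sqt_norm_nonneg w
      omega
  rw [sqt_norm] at h2
  obtain ⟨a, b⟩ := w
  simp only at h2
  have ha : a ^ 2 ≤ 1 := by nlinarith [sq_nonneg b]
  have hb : b ^ 2 ≤ 1 := by nlinarith [sq_nonneg a, sq_nonneg b]
  obtain ⟨ha1, ha2⟩ : -1 ≤ a ∧ a ≤ 1 := abs_le.1 ((sq_le_one_iff_abs_le_one _).1 ha)
  obtain ⟨hb1, hb2⟩ : -1 ≤ b ∧ b ≤ 1 := abs_le.1 ((sq_le_one_iff_abs_le_one _).1 hb)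
  interval_cases a <;> interval_cases b <;> simp_all

theorem cube2 {Y Z X : ℤ} (hc : IsCoprime Y Z) (hX : X % 2 = 1) (h : Y ^ 2 + 2 * Z ^ 2 = X ^ 3) :
    ∃ P Q : ℤ, Y = P ^ 3 - 6 * P * Q ^ 2 ∧ Z = 3 * P ^ 2 * Q - 2 * Q ^ 3 := by
  have := sqt_domain
  have := sqt_pid
  have h4 : IsCoprime (4 : ℤ) (X ^ 3) := by
    refine IsCoprime.pow_right ?_
    have e4 : (4 : ℤ) = 2 ^ 2 := by norm_num
    rw [e4]
    refine IsCoprime.pow_left ?_
    rw [Int.prime_two.coprime_iff_not_dvd]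
    omega
  obtain ⟨m, l, hml⟩ := h4
  obtain ⟨r, s, hrs⟩ := hc
  have hθ : (⟨0, 1⟩ : Sqt) * ⟨0, 1⟩ = -2 := by
    ext <;> simp [QuadraticAlgebra.re_ofNat, QuadraticAlgebra.im_ofNat]
  have hA : (⟨Y, Z⟩ : Sqt) = (Y : Sqt) + (Z : Sqt) * ⟨0, 1⟩ := by
    ext <;> simp
  have hB : (⟨Y, -Z⟩ : Sqt) = (Y : Sqt) - (Z : Sqt) * ⟨0, 1⟩ := by
    ext <;> simp
  have hrs' : (r : Sqt) * Y + (s : Sqt) * Z = 1 := by exact_mod_cast hrs
  have hml' : (m : Sqt) * 4 + (l : Sqt) * (X : Sqt) ^ 3 = 1 := by exact_mod_cast hml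
  have h' : (Y : Sqt) ^ 2 + 2 * (Z : Sqt) ^ 2 = (X : Sqt) ^ 3 := by exact_mod_cast h
  have hmul : (⟨Y, Z⟩ : Sqt) * ⟨Y, -Z⟩ = (X : Sqt) ^ 3 := by
    rw [hA, hB]
    linear_combination h' - (Z : Sqt) ^ 2 * hθ
  have hcop : IsCoprime (⟨Y, Z⟩ : Sqt) ⟨Y, -Z⟩ := by
    refine ⟨2 * r * m - s * m * ⟨0, 1⟩ + l * ⟨Y, -Z⟩, 2 * r * m + s * m * ⟨0, 1⟩, ?_⟩
    rw [hA, hB]
    linear_combination (l : Sqt) * (h' - (Z : Sqt) ^ 2 * hθ) + hml' + 4 * (m : Sqt) * hrs' -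
      2 * (s : Sqt) * (m : Sqt) * (Z : Sqt) * hθ
  obtain ⟨g, w, hg⟩ := exists_associated_pow_of_mul_eq_pow' hcop hmul
  have hw := sqt_unit w.isUnit
  obtain ⟨c, d⟩ := g
  have hg3 : (⟨c, d⟩ : Sqt) ^ 3 = ⟨c ^ 3 - 6 * c * d ^ 2, 3 * c ^ 2 * d - 2 * d ^ 3⟩ := by
    ext
    · simp [pow_succ]
      ring
    · simp [pow_succ]
      ring
  rw [hg3] at hg
  rcases hw with h | h
  all_goals
    rw [h] at hg
    have k1 := congrArg QuadraticAlgebra.re hg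
    have k2 := congrArg QuadraticAlgebra.im hg
    simp only [QuadraticAlgebra.re_mul, QuadraticAlgebra.im_mul] at k1 k2
  · exact ⟨c, d, by linarith, by linarith⟩
  · exact ⟨-c, -d, by linear_combination -k1, by linear_combination -k2⟩

end GF2
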