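import Pool.Agent.H.MP_81d9be_nt.Sys
import Pool.Agent.H.MP_81d9be_nt.Sqt
import Pool.Agent.H.MP_81d9be_nt.E2

/-!
# MP_81d9be_nt: `y ^ 4 + 2 z ^ 6 = x ^ 3` and `y ^ 4 + 2 z ^ 8 = x ^ 3`
-/

set_option autoImplicit false

namespace GF2

theorem sq3z {n : ℤ} (h : n % 3 ≠ 0) : n ^ 2 % 3 = 1 := by
  have h1 : n % 3 = 1 ∨ n % 3 = 2 := by omega
  rcases h1 with h | h <;> simp [sq, Int.mul_emod, h]

theorem sq3z' (n : ℤ) : n ^ 2 % 3 = 0 ∨ n ^ 2 % 3 = 1 := by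
  have h1 : n % 3 = 0 ∨ n % 3 = 1 ∨ n % 3 = 2 := by omega
  rcases h1 with h | h | h <;> simp [sq, Int.mul_emod, h]

theorem cop3 {n : ℤ} (h : n % 3 ≠ 0) : IsCoprime n 3 := by
  refine IsCoprime.symm ?_
  rw [Int.prime_three.coprime_iff_not_dvd]
  omega

theorem cop2 {n : ℤ} (h : n % 2 = 1) : IsCoprime n 2 := by
  refine IsCoprime.symm ?_
  rw [Int.prime_two.coprime_iff_not_dvd]
  omega

theorem fourth_of {a b c : ℤ} (h : IsCoprime a b) (e : a * b = c ^ 4) :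
    ∃ d : ℕ, a = (d : ℤ) ^ 4 ∨ a = -(d : ℤ) ^ 4 := by
  have h1 : a.natAbs * b.natAbs = c.natAbs ^ 4 := by
    rw [← Int.natAbs_mul, e, Int.natAbs_pow]
  obtain ⟨⟨d, hd⟩, -⟩ := pw (Int.isCoprime_iff_nat_coprime.1 h) h1
  refine ⟨d, ?_⟩
  have h2 : ((a.natAbs : ℕ) : ℤ) = (d : ℤ) ^ 4 := by exact_mod_cast hd
  omega

theorem ypart {P Q y : ℤ} (hc : IsCoprime P Q) (hP : P % 2 = 1)
    (h : P * (P ^ 2 - 6 * Q ^ 2) = y ^ 2) :
    (P % 3 ≠ 0 ∧ ∃ a A, P = a ^ 2 ∧ P ^ 2 - 6 * Q ^ 2 = A ^ 2) ∨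
    (P % 3 = 0 ∧ ∃ a A, P = 3 * a ^ 2 ∧ 3 * a ^ 4 - 2 * Q ^ 2 = A ^ 2) := by
  have key : ∀ {R S w : ℤ}, IsCoprime R S → S % 2 = 1 → S % 3 = 1 → R * S = w ^ 2 → R ≠ 0 →
      (∃ a, R = a ^ 2) ∧ ∃ A, S = A ^ 2 := by
    intro R S w h1 h2 h3 h4 h5
    obtain ⟨A, hA⟩ : ∃ A, S = A ^ 2 := by
      obtain ⟨A, hA⟩ := Int.sq_of_isCoprime h1.symm (by rw [mul_comm]; exact h4)
      rcases hA with h6 | h6
      · exact ⟨A, h6⟩
      · exfalso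
        have := sq3z' A
        omega
    refine ⟨?_, A, hA⟩
    obtain ⟨a, ha⟩ := Int.sq_of_isCoprime h1 h4
    rcases ha with h6 | h6
    · exact ⟨a, h6⟩
    · exfalso
      have hA0 : A ≠ 0 := by
        rintro rfl
        omega
      have ha0 : a ≠ 0 := by
        rintro rfl
        apply h5
        rw [h6]
        norm_num
      have h7 : 0 < a ^ 2 * A ^ 2 := by positivity
      have h8 : R * S = -(a ^ 2 * A ^ 2) := by rw [h6, hA]; ring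
      have h9 : 0 ≤ w ^ 2 := sq_nonneg w
      omega
  have hP0 : P ≠ 0 := by
    rintro rfl
    omega
  by_cases h3 : P % 3 = 0
  · right
    refine ⟨h3, ?_⟩
    obtain ⟨p, rfl⟩ : ∃ p, P = 3 * p := ⟨P / 3, by omega⟩
    have hc3 : IsCoprime 3 Q := IsCoprime.of_mul_left_left hc
    have hpQ : IsCoprime p Q := IsCoprime.of_mul_left_right hc
    have hQ3 : Q % 3 ≠ 0 := by
      intro h0
      have h3' : IsUnit (3 : ℤ) := hc3.isUnit_of_dvd' (dvd_refl 3) (Int.dvd_of_emod_eq_zero h0)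
      rw [Int.isUnit_iff] at h3'
      omega
    have hpo : p % 2 = 1 := by omega
    obtain ⟨y', rfl⟩ : (3 : ℤ) ∣ y := by
      refine Int.prime_three.dvd_of_dvd_pow (n := 2) ⟨p * ((3 * p) ^ 2 - 6 * Q ^ 2), ?_⟩
      rw [← h]
      ring
    have h4 : p * (3 * p ^ 2 - 2 * Q ^ 2) = y' ^ 2 := by
      have : 9 * (p * (3 * p ^ 2 - 2 * Q ^ 2)) = 9 * y' ^ 2 := by linear_combination h
      omega
    have hcp : IsCoprime p (3 * p ^ 2 - 2 * Q ^ 2) := by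
      have e : 3 * p ^ 2 - 2 * Q ^ 2 = (-2) * Q ^ 2 + p * (3 * p) := by ring
      rw [e]
      exact IsCoprime.add_mul_left_right
        (IsCoprime.mul_right (cop2 hpo).neg_right hpQ.pow_right) _
    have hQ9 := sq3z hQ3
    have hp2 := sq8zo hpo
    obtain ⟨⟨a, ha⟩, ⟨A, hA⟩⟩ := key hcp (by omega) (by omega) h4 (by omega)
    refine ⟨a, A, by rw [ha], ?_⟩
    rw [← hA, ha]
    ring
  · left
    refine ⟨h3, ?_⟩
    have hcp : IsCoprime P (P ^ 2 - 6 * Q ^ 2) := by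
      have e : P ^ 2 - 6 * Q ^ 2 = (-2) * 3 * Q ^ 2 + P * P := by ring
      rw [e]
      exact IsCoprime.add_mul_left_right
        (IsCoprime.mul_right (IsCoprime.mul_right (cop2 hP).neg_right (cop3 h3))
          hc.pow_right) _
    have hP3 := sq3z h3
    have hp2 := sq8zo hP
    obtain ⟨⟨a, ha⟩, ⟨A, hA⟩⟩ := key hcp (by omega) (by omega) h hP0
    exact ⟨a, A, ha, hA⟩

/-- From `Y ^ 2 + 2 Z ^ 2 = x ^ 3`. -/
theorem start {y Z x : ℤ} (hc : IsCoprime y Z) (h : y ^ 4 + 2 * Z ^ 2 = x ^ 3) :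
    ∃ P Q : ℤ, IsCoprime P Q ∧ P % 2 = 1 ∧ P * (P ^ 2 - 6 * Q ^ 2) = y ^ 2 ∧
      Q * (3 * P ^ 2 - 2 * Q ^ 2) = Z := by
  have hx : x % 2 = 1 := by
    by_contra h0
    obtain ⟨x', rfl⟩ : ∃ x', x = 2 * x' := ⟨x / 2, by omega⟩
    have e1 : (2 * x') ^ 3 = 8 * x' ^ 3 := by ring
    have hy : y % 2 = 0 := by
      by_contra h1
      have := mod16 (a := y) (by omega)
      omega
    obtain ⟨y', rfl⟩ : ∃ y', y = 2 * y' := ⟨y / 2, by omega⟩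
    have e2 : (2 * y') ^ 4 = 16 * y' ^ 4 := by ring
    have hZ : Z % 2 = 0 := by
      by_contra h1
      have := sq8zo (a := Z) (by omega)
      omega
    have h2 : IsUnit (2 : ℤ) :=
      hc.isUnit_of_dvd' ⟨y', rfl⟩ (Int.dvd_of_emod_eq_zero hZ)
    rw [Int.isUnit_iff] at h2
    omega
  have hc2 : IsCoprime (y ^ 2) Z := hc.pow_left
  obtain ⟨P, Q, h1, h2⟩ := cube2 (Y := y ^ 2) (Z := Z) (X := x) hc2 hx (by rw [← h]; ring)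
  have h1' : P * (P ^ 2 - 6 * Q ^ 2) = y ^ 2 := by rw [h1]; ring
  have h2' : Q * (3 * P ^ 2 - 2 * Q ^ 2) = Z := by rw [h2]; ring
  refine ⟨P, Q, ?_, ?_, h1', h2'⟩
  · rw [← h1', ← h2'] at hc2
    exact IsCoprime.of_mul_left_left (IsCoprime.of_mul_right_left hc2)
  · by_contra h0
    obtain ⟨p, hp⟩ : ∃ p, P = 2 * p := ⟨P / 2, by omega⟩
    have hy : y % 2 = 0 := by
      have h3 : (2 : ℤ) ∣ y ^ 2 := ⟨p * (P ^ 2 - 6 * Q ^ 2), by rw [← h1', hp]; ring⟩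
      have := Int.prime_two.dvd_of_dvd_pow h3
      omega
    obtain ⟨y', rfl⟩ : ∃ y', y = 2 * y' := ⟨y / 2, by omega⟩
    have e2 : (2 * y') ^ 4 = 2 * (8 * y' ^ 4) := by ring
    have hx3 : x ^ 3 % 2 = 0 := by omega
    have h4 : (2 : ℤ) ∣ x := Int.prime_two.dvd_of_dvd_pow (Int.dvd_of_emod_eq_zero hx3)
    omega

theorem cube9 (B : ℤ) : B ^ 3 % 9 = 0 ∨ B ^ 3 % 9 = 1 ∨ B ^ 3 % 9 = 8 := by
  have h : B % 9 = 0 ∨ B % 9 = 1 ∨ B % 9 = 2 ∨ B % 9 = 3 ∨ B % 9 = 4 ∨ B % 9 = 5 ∨ B % 9 = 6 ∨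
    B % 9 = 7 ∨ B % 9 = 8 := by omega
  rcases h with h | h | h | h | h | h | h | h | h <;> simp [pow_succ, Int.mul_emod, h]

theorem sixth9 {b : ℤ} (hb : b % 3 ≠ 0) : b ^ 6 % 9 = 1 := by
  have h : b % 9 = 1 ∨ b % 9 = 2 ∨ b % 9 = 4 ∨ b % 9 = 5 ∨ b % 9 = 7 ∨ b % 9 = 8 := by omega
  rcases h with h | h | h | h | h | h <;> simp [pow_succ, Int.mul_emod, h]

theorem sixth13 (b : ℤ) : b ^ 6 % 13 = 0 ∧ b % 13 = 0 ∨ b ^ 6 % 13 = 1 ∨ b ^ 6 % 13 = 12 := by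
  have h : b % 13 = 0 ∨ b % 13 = 1 ∨ b % 13 = 2 ∨ b % 13 = 3 ∨ b % 13 = 4 ∨ b % 13 = 5 ∨
    b % 13 = 6 ∨ b % 13 = 7 ∨ b % 13 = 8 ∨ b % 13 = 9 ∨ b % 13 = 10 ∨ b % 13 = 11 ∨
    b % 13 = 12 := by omega
  rcases h with h | h | h | h | h | h | h | h | h | h | h | h | h <;>
    simp [pow_succ, Int.mul_emod, h]

theorem cube13 (b : ℤ) : b ^ 3 % 13 = 0 ∨ b ^ 3 % 13 = 1 ∨ b ^ 3 % 13 = 5 ∨ b ^ 3 % 13 = 8 ∨
    b ^ 3 % 13 = 12 := by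
  have h : b % 13 = 0 ∨ b % 13 = 1 ∨ b % 13 = 2 ∨ b % 13 = 3 ∨ b % 13 = 4 ∨ b % 13 = 5 ∨
    b % 13 = 6 ∨ b % 13 = 7 ∨ b % 13 = 8 ∨ b % 13 = 9 ∨ b % 13 = 10 ∨ b % 13 = 11 ∨
    b % 13 = 12 := by omega
  rcases h with h | h | h | h | h | h | h | h | h | h | h | h | h <;>
    simp [pow_succ, Int.mul_emod, h]

/-- The extraction of `ext4` over the integers. -/
theorem ext4Z {a A b : ℤ} {k M N j i K : ℕ} (hk : k ≠ 0) (hM : M = 3 ^ (j + 1))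
    (hN : N = 2 ^ (i + 3)) (hM8 : M % 8 = 3) (ha : a % 2 = 1) (ha3 : a % 3 ≠ 0)
    (hc : IsCoprime a b) (hb0 : b ≠ 0) (hK : K * 2 ^ (2 * k) = 4 * (M * N)) (hKo : K % 4 = 2)
    (h : a ^ 4 - K * b ^ (2 * k) = A ^ 2) :
    ∃ s t : ℤ, a ^ 2 = M * (N * s ^ (2 * k)) + t ^ (2 * k) ∧ b.natAbs = 2 * (s * t).natAbs ∧
      IsCoprime a s := by
  have hb2 : b % 2 = 0 := by
    by_contra h0
    have h1 := mod16 ha
    have h2 := sq8z A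
    have h3 : (b ^ (2 * k)) % 8 = 1 := by
      rw [mul_comm, pow_mul]
      refine sq8zo ?_
      have h4 : b % 2 = 1 := by omega
      rw [Int.emod_emod_of_dvd (b ^ k) (dvd_refl 2) |>.symm]
      have h5 : Odd b := Int.odd_iff.2 h4
      have h6 : Odd (b ^ k) := h5.pow
      rw [Int.odd_iff] at h6
      omega
    have h4 : ((K : ℤ) * b ^ (2 * k)) % 8 = (K : ℤ) % 8 := by
      rw [Int.mul_emod, h3, mul_one]
      omega
    have h5 : (K : ℤ) % 4 = 2 := by exact_mod_cast hKo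
    have h6 : (A ^ 2) % 8 = (1 - (K : ℤ)) % 8 := by omega
    omega
  obtain ⟨c, rfl⟩ : ∃ c, b = 2 * c := ⟨b / 2, by omega⟩
  have hac : IsCoprime a c := IsCoprime.of_mul_right_right hc
  have h1 : a.natAbs ^ 4 = 4 * (M * (N * c.natAbs ^ (2 * k))) + A.natAbs ^ 2 := by
    zify
    have e1 : |a| ^ 4 = a ^ 4 := Even.pow_abs (by decide) a
    have e2 : |c| ^ (2 * k) = c ^ (2 * k) := Even.pow_abs (even_two_mul k) c
    have e3 : (K : ℤ) * 2 ^ (2 * k) = 4 * ((M : ℤ) * (N : ℤ)) := by exact_mod_cast hK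
    rw [e1, e2, sq_abs]
    have e4 : (K : ℤ) * (2 * c) ^ (2 * k) = 4 * ((M : ℤ) * ((N : ℤ) * c ^ (2 * k))) := by
      rw [mul_pow]
      linear_combination c ^ (2 * k) * e3
    linear_combination h + e4
  obtain ⟨s, t, h2, h3⟩ := ext4 hk hM hN hM8 (a := a.natAbs) (by omega) (by omega)
    (Int.isCoprime_iff_nat_coprime.1 hac) (by omega) h1
  refine ⟨(s : ℤ), (t : ℤ), ?_, ?_, ?_⟩
  · have h4 : ((a.natAbs : ℕ) : ℤ) ^ 2 = (M : ℤ) * ((N : ℤ) * (s : ℤ) ^ (2 * k)) +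
        (t : ℤ) ^ (2 * k) := by exact_mod_cast h2
    rw [← h4, Int.natCast_natAbs, sq_abs]
  · rw [Int.natAbs_mul, ← Nat.cast_mul, Int.natAbs_natCast, h3]
    rfl
  · have h4 : Nat.Coprime a.natAbs s :=
      Nat.Coprime.coprime_dvd_right ⟨t, by rw [h3]⟩ (Int.isCoprime_iff_nat_coprime.1 hac)
    rw [Int.isCoprime_iff_nat_coprime, Int.natAbs_natCast]
    exact h4

end GF2
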