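import Pool.Agent.H.MP_81d9be_nt.Six
import Pool.Agent.H.MP_81d9be_nt.TT
import Pool.Agent.H.MP_81d9be_nt.T2

/-!
# MP_81d9be_nt: the equations `x ^ 6 - y ^ 2 = 2 z ^ 4` and `x ^ 6 - y ^ 4 = 2 z ^ 2`
-/

set_option autoImplicit false

namespace GF2

/-- `P ^ 2 - 6 Q ^ 2` and `P ^ 2 + 2 Q ^ 2` are not both squares unless `Q = 0`. -/
theorem sys62 : ∀ Q P A x : ℕ, Nat.Coprime P Q → P ^ 2 = 6 * Q ^ 2 + A ^ 2 →
    P ^ 2 + 2 * Q ^ 2 = x ^ 2 → Q = 0 := by
  intro Q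
  induction Q using Nat.strong_induction_on with
  | _ Q ih =>
  intro P A x hc h1 h2
  by_contra hQ
  have hPo : P % 2 = 1 := by
    by_contra h0
    have h3 : Q % 2 = 1 := by
      by_contra h4
      exact cop_not2 hc (by omega) (by omega)
    have h4 := sq8o h3
    have h5 := sq8 P
    have h6 := sq8 x
    have h7 : P ^ 2 % 2 = 0 := by
      obtain ⟨t, rfl⟩ : ∃ t, P = 2 * t := ⟨P / 2, by omega⟩
      have : (2 * t) ^ 2 = 2 * (2 * t ^ 2) := by ring
      omega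
    omega
  have hP8 := sq8o hPo
  have hQe : Q % 2 = 0 := by
    by_contra h0
    have h4 := sq8o (n := Q) (by omega)
    have h5 := sq8 A
    omega
  obtain ⟨q, rfl⟩ : ∃ q, Q = 2 * q := ⟨Q / 2, by omega⟩
  have hq0 : 0 < q := by omega
  have hcq : Nat.Coprime P q := Nat.Coprime.coprime_dvd_right ⟨2, by ring⟩ hc
  have q2 : (2 * q) ^ 2 = 4 * q ^ 2 := by ring
  rw [q2] at h1 h2
  have hq2 : 0 < q ^ 2 := by positivity
  have odd_of_sq : ∀ n : ℕ, n ^ 2 % 2 = 1 → n % 2 = 1 := by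
    intro n hn
    by_contra h0
    obtain ⟨t, rfl⟩ : ∃ t, n = 2 * t := ⟨n / 2, by omega⟩
    have : (2 * t) ^ 2 = 2 * (2 * t ^ 2) := by ring
    omega
  have hxo : x % 2 = 1 := odd_of_sq x (by omega)
  have hAo : A % 2 = 1 := odd_of_sq A (by omega)
  have hPx : P < x := by nlinarith
  have hAP : A < P := by nlinarith
  obtain ⟨m, hm⟩ : ∃ m, x = P + 2 * m := ⟨(x - P) / 2, by omega⟩
  obtain ⟨n, hn⟩ : ∃ n, P = A + 2 * n := ⟨(P - A) / 2, by omega⟩
  have hm0 : 0 < m := by omega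
  have hn0 : 0 < n := by omega
  have e1 : m * (P + m) = 2 * q ^ 2 := by
    rw [hm] at h2
    nlinarith
  have e2 : n * (A + n) = 2 * (3 * q ^ 2) := by
    rw [hn] at h1
    nlinarith
  have cm : Nat.Coprime m (P + m) := by
    by_contra hng
    obtain ⟨l, hl, h3, h4⟩ := Nat.Prime.not_coprime_iff_dvd.1 hng
    have h5 : l ∣ P := (Nat.dvd_add_left h3).1 h4
    have h6 : l ∣ 2 * q ^ 2 := by rw [← e1]; exact Dvd.dvd.mul_right h3 _
    rcases (Nat.Prime.dvd_mul hl).1 h6 with h7 | h7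
    · have h8 : l = 2 := (Nat.prime_dvd_prime_iff_eq hl Nat.prime_two).1 h7
      rw [h8] at h5
      omega
    · exact cop_no hcq hl h5 (hl.dvd_of_dvd_pow h7)
  have cn : Nat.Coprime n (A + n) := by
    by_contra hng
    obtain ⟨l, hl, h3, h4⟩ := Nat.Prime.not_coprime_iff_dvd.1 hng
    have h5 : l ∣ P := by
      have : P = n + (A + n) := by omega
      rw [this]
      exact dvd_add h3 h4
    have h6 : l * l ∣ 6 * q ^ 2 := by
      have : 6 * q ^ 2 = n * (A + n) := by rw [e2]; ring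
      rw [this]
      exact mul_dvd_mul h3 h4
    have h8 : Nat.Coprime (l * l) (q ^ 2) := by
      have h9 : Nat.Coprime l q := Nat.Coprime.coprime_dvd_left h5 hcq
      have h10 : Nat.Coprime (l * l) q := Nat.Coprime.mul_left h9 h9
      exact Nat.Coprime.pow_right 2 h10
    have h9 : l * l ∣ 6 := h8.dvd_of_dvd_mul_right h6
    have h10 : l * l ≤ 6 := Nat.le_of_dvd (by norm_num) h9
    have h11 : l = 2 := by
      have := hl.two_le
      nlinarith
    rw [h11] at h9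
    omega
  obtain ⟨f, g, hfg, hX⟩ : ∃ f g, f * g = q ∧ (P + 2 * f ^ 2 = g ^ 2 ∨ P + g ^ 2 = 2 * f ^ 2) := by
    rcases spl pp2 cm e1 with ⟨f, g, h3, h4⟩ | ⟨g, f, h3, h4⟩
    · refine ⟨f, g, ?_, Or.inl (by omega)⟩
      have : (f * g) ^ 2 = q ^ 2 := by
        have : 2 * (f * g) ^ 2 = 2 * q ^ 2 := by rw [← e1, h4, h3]; ring
        omega
      exact Nat.pow_left_injective (by norm_num : 2 ≠ 0) this
    · refine ⟨f, g, ?_, Or.inr (by omega)⟩
      have : (f * g) ^ 2 = q ^ 2 := by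
        have : 2 * (f * g) ^ 2 = 2 * q ^ 2 := by rw [← e1, h4, h3]; ring
        omega
      exact Nat.pow_left_injective (by norm_num : 2 ≠ 0) this
  obtain ⟨h, k, hhk, hY⟩ : ∃ h k, h * k = q ∧ (P = h ^ 2 + 6 * k ^ 2 ∨ P = 2 * h ^ 2 + 3 * k ^ 2) := by
    have fin : ∀ h k, n * (A + n) = 6 * (h * k) ^ 2 → h * k = q := by
      intro h k h3
      have : (h * k) ^ 2 = q ^ 2 := by omega
      exact Nat.pow_left_injective (by norm_num : 2 ≠ 0) this
    rcases spl2 pp2 pp3 cn e2 with ⟨k, h, h3, h4⟩ | ⟨h, k, h3, h4⟩ | ⟨k, h, h3, h4⟩ | ⟨h, k, h3, h4⟩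
    · exact ⟨h, k, fin _ _ (by rw [h4, h3]; ring), Or.inl (by omega)⟩
    · exact ⟨h, k, fin _ _ (by rw [h4, h3]; ring), Or.inr (by omega)⟩
    · exact ⟨h, k, fin _ _ (by rw [h4, h3]; ring), Or.inr (by omega)⟩
    · exact ⟨h, k, fin _ _ (by rw [h4, h3]; ring), Or.inl (by omega)⟩
  have sf := sq8 f
  have sh := sq8 h
  have sk := sq8 k
  have hgo : g % 2 = 1 := by
    refine odd_of_sq g ?_
    rcases hX with h3 | h3 <;> omega
  have sg := sq8o hgo
  rcases hY with hY | hY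
  swap
  · exfalso
    have hko : k % 2 = 1 := odd_of_sq k (by omega)
    have := sq8o hko
    rcases hX with h3 | h3 <;> omega
  have hho : h % 2 = 1 := odd_of_sq h (by omega)
  have sho := sq8o hho
  have par : f % 2 = k % 2 := by
    have h3 : (f * g) % 2 = (h * k) % 2 := by rw [hfg, hhk]
    rw [Nat.mul_mod, hgo, Nat.mul_mod h k, hho] at h3
    omega
  rcases hX with hX | hX
  swap
  · exfalso
    rcases Nat.mod_two_eq_zero_or_one f with h3 | h3
    · have h4 : k % 2 = 0 := by omega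
      obtain ⟨t, rfl⟩ : ∃ t, f = 2 * t := ⟨f / 2, by omega⟩
      obtain ⟨s, rfl⟩ : ∃ s, k = 2 * s := ⟨k / 2, by omega⟩
      have : (2 * t) ^ 2 = 4 * t ^ 2 := by ring
      have : (2 * s) ^ 2 = 4 * s ^ 2 := by ring
      omega
    · have h4 := sq8o h3
      have h5 := sq8o (n := k) (by omega)
      omega
  -- the main case
  have hf0 : 0 < f := by
    rcases Nat.eq_zero_or_pos f with h0 | h0
    · rw [h0, zero_mul] at hfg
      omega
    · exact h0
  obtain ⟨β, α, δ, γ, e3, e4, e5, e6, hcop⟩ : ∃ β α δ γ : ℕ, f = α * β ∧ g = γ * δ ∧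
      h = α * γ ∧ k = β * δ ∧ Nat.Coprime β γ := by
    obtain ⟨e, f', g', h', e3, e4, e5, e6, hcop⟩ := ap_four hf0 (hfg.trans hhk.symm)
    exact ⟨h', f', g', e, e3, e4, by rw [e5, mul_comm], by rw [e6, mul_comm], hcop⟩
  have cfg : Nat.Coprime f g := by
    by_contra hng
    obtain ⟨l, hl, h3, h4⟩ := Nat.Prime.not_coprime_iff_dvd.1 hng
    have h5 : l ∣ P := by
      have h6 : l ∣ P + 2 * f ^ 2 := by rw [hX]; exact dvd_pow h4 (by norm_num)
      exact (Nat.dvd_add_left (Dvd.dvd.mul_left (dvd_pow h3 (by norm_num)) 2)).1 h6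
    exact cop_no hcq hl h5 (by rw [← hfg]; exact Dvd.dvd.mul_right h3 g)
  have hαδ : Nat.Coprime α δ := by
    rw [e3, e4] at cfg
    exact (cfg.coprime_dvd_left ⟨β, rfl⟩).coprime_dvd_right ⟨γ, by ring⟩
  have key : ((δ : ℤ) ^ 2) * (γ ^ 2 - 6 * β ^ 2) = α ^ 2 * (γ ^ 2 + 2 * β ^ 2) := by
    have h3 : h ^ 2 + 6 * k ^ 2 + 2 * f ^ 2 = g ^ 2 := by rw [← hY]; exact hX
    rw [e3, e4, e5, e6] at h3
    have h4 : ((α : ℤ) * γ) ^ 2 + 6 * (β * δ) ^ 2 + 2 * (α * β) ^ 2 = (γ * δ) ^ 2 := by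
      exact_mod_cast h3
    linear_combination -h4
  have cZ : IsCoprime ((δ : ℤ) ^ 2) ((α : ℤ) ^ 2) :=
    (Nat.isCoprime_iff_coprime.2 hαδ.symm).pow
  obtain ⟨c, hc1⟩ : ((δ : ℤ) ^ 2) ∣ γ ^ 2 + 2 * β ^ 2 :=
    cZ.dvd_of_dvd_mul_left ⟨γ ^ 2 - 6 * β ^ 2, by rw [← key]⟩
  have hγo : γ % 2 = 1 := by
    by_contra h0
    rw [e5] at hho
    have : (α * γ) % 2 = 0 := by rw [Nat.mul_mod, show γ % 2 = 0 by omega]; simp
    omega
  have hδ0 : (δ : ℤ) ^ 2 ≠ 0 := by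
    intro h0
    have h3 : δ = 0 := by
      have : (δ : ℤ) = 0 := pow_eq_zero_iff two_ne_zero |>.1 h0
      exact_mod_cast this
    rw [h3, mul_zero] at e4
    omega
  have hc2 : (γ : ℤ) ^ 2 - 6 * β ^ 2 = c * α ^ 2 := by
    have : ((δ : ℤ) ^ 2) * (γ ^ 2 - 6 * β ^ 2) = δ ^ 2 * (c * α ^ 2) := by
      rw [key, hc1]
      ring
    exact mul_left_cancel₀ hδ0 this
  have hcodd : c % 2 = 1 := by
    rcases Int.emod_two_eq_zero_or_one c with h0 | h0
    · exfalso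
      obtain ⟨t, rfl⟩ : ∃ t, c = 2 * t := ⟨c / 2, by omega⟩
      have h3 : ((γ ^ 2 : ℕ) : ℤ) + 2 * ((β ^ 2 : ℕ) : ℤ) = 2 * ((δ : ℤ) ^ 2 * t) := by
        push_cast
        rw [hc1]
        ring
      have h4 := sq8o hγo
      omega
    · exact h0
  have hcpos : 0 < c := by
    have h3 : 0 < (δ : ℤ) ^ 2 * c := by
      rw [← hc1]
      have h4 : (0 : ℤ) < γ := by
        have : 0 < γ := by omega
        exact_mod_cast this
      positivity
    have h4 : 0 < (δ : ℤ) ^ 2 := by positivity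
    exact (mul_pos_iff_of_pos_left h4).1 h3
  have hc1' : c = 1 := by
    have d1 : c ∣ 8 * (β : ℤ) ^ 2 := by
      refine ⟨δ ^ 2 - α ^ 2, ?_⟩
      linear_combination hc1 - hc2
    have d2 : c ∣ 8 * (γ : ℤ) ^ 2 := by
      refine ⟨2 * α ^ 2 + 6 * δ ^ 2, ?_⟩
      linear_combination 2 * hc2 + 6 * hc1
    have d3 : IsCoprime ((β : ℤ) ^ 2) ((γ : ℤ) ^ 2) :=
      (Nat.isCoprime_iff_coprime.2 hcop).pow
    have d4 : c ∣ 8 := by
      obtain ⟨a, b, hab⟩ := d3
      have : (8 : ℤ) = a * (8 * (β : ℤ) ^ 2) + b * (8 * (γ : ℤ) ^ 2) := by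
        linear_combination -8 * hab
      rw [this]
      exact dvd_add (Dvd.dvd.mul_left d1 a) (Dvd.dvd.mul_left d2 b)
    have d5 : IsCoprime c 2 := cop2 hcodd
    have d6 : c ∣ 1 := by
      have d7 : IsCoprime c ((2 : ℤ) ^ 3) := d5.pow_right
      have d8 : c ∣ (2 : ℤ) ^ 3 := by norm_num; exact d4
      exact (IsCoprime.isUnit_of_dvd d7 d8).dvd
    exact Int.eq_one_of_dvd_one hcpos.le d6
  rw [hc1', mul_one] at hc1
  rw [hc1', one_mul] at hc2
  have hα0 : 0 < α := by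
    rcases Nat.eq_zero_or_pos α with h0 | h0
    · rw [h0, zero_mul] at e3
      omega
    · exact h0
  have hβ0 : 0 < β := by
    rcases Nat.eq_zero_or_pos β with h0 | h0
    · rw [h0, mul_zero] at e3
      omega
    · exact h0
  have hg0 : 0 < g := by omega
  have hlt : β < 2 * q := by
    have h3 : β ≤ f := by
      rw [e3]
      exact Nat.le_mul_of_pos_left β hα0
    have h4 : f ≤ q := by
      rw [← hfg]
      exact Nat.le_mul_of_pos_right f hg0
    omega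
  have hβ := ih β hlt γ α δ hcop.symm
    (by
      have : (γ : ℤ) ^ 2 = 6 * β ^ 2 + α ^ 2 := by linear_combination hc2
      exact_mod_cast this)
    (by exact_mod_cast hc1)
  omega

/-- `x ^ 6 - y ^ 4 = 2 z ^ 2` with `y`, `z` coprime. -/
theorem S8 {x y z : ℤ} (hc : IsCoprime y z) (h : y ^ 4 + 2 * z ^ 2 = x ^ 6) : z = 0 := by
  obtain ⟨P, Q, hPQ, hP, hy, hz⟩ := start (y := y) (Z := z) (x := x ^ 2) hc (by rw [h]; ring)
  have hx : P ^ 2 + 2 * Q ^ 2 = x ^ 2 := by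
    have k1 : (P ^ 2 + 2 * Q ^ 2) ^ 3 = (x ^ 2) ^ 3 := by
      have : (x ^ 2) ^ 3 = (y ^ 2) ^ 2 + 2 * z ^ 2 := by linear_combination -h
      rw [this, ← hy, ← hz]
      ring
    exact (Odd.strictMono_pow (by decide : Odd 3)).injective k1
  have hP8 := sq8zo hP
  rcases ypart hPQ hP hy with ⟨-, a, A, ha, hA⟩ | ⟨-, a, A, ha, hA⟩
  · have hQ : Q.natAbs = 0 := by
      refine sys62 Q.natAbs P.natAbs A.natAbs x.natAbs (Int.isCoprime_iff_nat_coprime.1 hPQ) ?_ ?_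
      · have : ((P.natAbs : ℕ) : ℤ) ^ 2 = 6 * ((Q.natAbs : ℕ) : ℤ) ^ 2 +
            ((A.natAbs : ℕ) : ℤ) ^ 2 := by
          rw [Int.natAbs_sq, Int.natAbs_sq, Int.natAbs_sq, ← hA]
          ring
        exact_mod_cast this
      · have : ((P.natAbs : ℕ) : ℤ) ^ 2 + 2 * ((Q.natAbs : ℕ) : ℤ) ^ 2 =
            ((x.natAbs : ℕ) : ℤ) ^ 2 := by
          rw [Int.natAbs_sq, Int.natAbs_sq, Int.natAbs_sq, ← hx]
        exact_mod_cast this
    have hQ0 : Q = 0 := Int.natAbs_eq_zero.1 hQ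
    rw [← hz, hQ0]
    ring
  · exfalso
    have hao : a % 2 = 1 := by
      rcases Int.emod_two_eq_zero_or_one a with h0 | h0
      · exfalso
        obtain ⟨t, rfl⟩ : ∃ t, a = 2 * t := ⟨a / 2, by omega⟩
        have : (2 * t) ^ 2 = 2 * (2 * t ^ 2) := by ring
        omega
      · exact h0
    have ha4 := mod16 hao
    have sA := sq8z A
    have sx := sq8z x
    rcases Int.emod_two_eq_zero_or_one Q with h0 | h0
    · obtain ⟨t, rfl⟩ : ∃ t, Q = 2 * t := ⟨Q / 2, by omega⟩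
      have : (2 * t) ^ 2 = 4 * t ^ 2 := by ring
      omega
    · have := sq8zo h0
      omega

/-- `α ^ 4 - 24 δ ^ 4` is not a square unless `δ = 0`. -/
theorem r24 {α δ γ : ℕ} (ha : α % 2 = 1) (ha3 : α % 3 ≠ 0) (hc : Nat.Coprime α δ)
    (h : α ^ 4 = 24 * δ ^ 4 + γ ^ 2) : δ = 0 := by
  by_contra hδ
  have hδ4 : 0 < δ ^ 4 := by positivity
  have α4 : α ^ 4 = (α ^ 2) ^ 2 := by ring
  have sα := sq8o ha
  have hγ : γ % 2 = 1 := by
    by_contra h0
    obtain ⟨t, rfl⟩ : ∃ t, γ = 2 * t := ⟨γ / 2, by omega⟩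
    have k1 : (2 * t) ^ 2 = 2 * (2 * t ^ 2) := by ring
    have k2 := fo16 ha
    omega
  have hlt : γ < α ^ 2 := by nlinarith
  obtain ⟨m, hm⟩ : ∃ m, α ^ 2 = γ + 2 * m := ⟨(α ^ 2 - γ) / 2, by omega⟩
  have hm0 : 0 < m := by omega
  have e1 : m * (γ + m) = 2 * (3 * δ ^ 4) := by
    rw [α4, hm] at h
    nlinarith
  have cm : Nat.Coprime m (γ + m) := by
    by_contra hng
    obtain ⟨l, hl, h3, h4⟩ := Nat.Prime.not_coprime_iff_dvd.1 hng
    have h5 : l ∣ α := by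
      have h6 : l ∣ α ^ 2 := by
        have : α ^ 2 = m + (γ + m) := by omega
        rw [this]
        exact dvd_add h3 h4
      exact hl.dvd_of_dvd_pow h6
    have h6 : l ∣ 2 * (3 * δ ^ 4) := by rw [← e1]; exact Dvd.dvd.mul_right h3 _
    rcases (Nat.Prime.dvd_mul hl).1 h6 with h7 | h7
    · have h8 : l = 2 := (Nat.prime_dvd_prime_iff_eq hl Nat.prime_two).1 h7
      rw [h8] at h5
      omega
    · rcases (Nat.Prime.dvd_mul hl).1 h7 with h8 | h8
      · have h9 : l = 3 := (Nat.prime_dvd_prime_iff_eq hl Nat.prime_three).1 h8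
        rw [h9] at h5
        omega
      · exact cop_no hc hl h5 (hl.dvd_of_dvd_pow h8)
  obtain ⟨s, t, hst, hY⟩ : ∃ s t, s * t = δ ∧
      (α ^ 2 = s ^ 4 + 6 * t ^ 4 ∨ α ^ 2 = 2 * s ^ 4 + 3 * t ^ 4) := by
    have fin : ∀ s t, m * (γ + m) = 6 * (s * t) ^ 4 → s * t = δ := by
      intro s t h3
      have : (s * t) ^ 4 = δ ^ 4 := by omega
      exact Nat.pow_left_injective (by norm_num : 4 ≠ 0) this
    rcases spl2 pp2 pp3 cm e1 with ⟨k, h, h3, h4⟩ | ⟨h, k, h3, h4⟩ | ⟨k, h, h3, h4⟩ | ⟨h, k, h3, h4⟩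
    · exact ⟨h, k, fin _ _ (by rw [h4, h3]; ring), Or.inl (by omega)⟩
    · exact ⟨h, k, fin _ _ (by rw [h4, h3]; ring), Or.inr (by omega)⟩
    · exact ⟨h, k, fin _ _ (by rw [h4, h3]; ring), Or.inr (by omega)⟩
    · exact ⟨h, k, fin _ _ (by rw [h4, h3]; ring), Or.inl (by omega)⟩
  have ha2 : α ^ 2 % 3 = 1 := by
    rcases sq3 α with h3 | h3
    · exact absurd h3.2 ha3
    · exact h3.1
  rcases hY with hY | hY
  · have cst : Nat.Coprime s t := by
      by_contra hng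
      obtain ⟨l, hl, h3, h4⟩ := Nat.Prime.not_coprime_iff_dvd.1 hng
      have h5 : l ∣ α := by
        have h6 : l ∣ α ^ 2 := by
          rw [hY]
          exact dvd_add (dvd_pow h3 (by norm_num))
            (Dvd.dvd.mul_left (dvd_pow h4 (by norm_num)) 6)
        exact hl.dvd_of_dvd_pow h6
      exact cop_no hc hl h5 (by rw [← hst]; exact Dvd.dvd.mul_right h3 t)
    have ht := r6 t s α cst hY.symm
    rw [ht, mul_zero] at hst
    omega
  · have h3 := fo3' s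
    omega

/-- `b ^ 4 + 8 a ^ 4` is not a cube unless `a = 0`. -/
theorem r8 {a b x : ℤ} (hb : b % 2 = 1) (hc : IsCoprime b a) (h : b ^ 4 + 8 * a ^ 4 = x ^ 3) :
    a = 0 := by
  by_contra ha
  have hc' : IsCoprime b (2 * a ^ 2) := (cop2 hb).mul_right hc.pow_right
  obtain ⟨P, Q, hPQ, hP, hy, hz⟩ := start (y := b) (Z := 2 * a ^ 2) (x := x) hc'
    (by rw [← h]; ring)
  have hP8 := sq8zo hP
  have sQ := sq8z Q
  rcases ypart hPQ hP hy with ⟨h3, a1, A, ha1, hA⟩ | ⟨h3, a1, A, ha1, hA⟩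
  · have sA := sq8z A
    have hQe : Q % 2 = 0 := by
      rcases Int.emod_two_eq_zero_or_one Q with h0 | h0
      · exact h0
      · exfalso
        have := sq8zo h0
        omega
    by_cases hQ3 : Q % 3 = 0
    · obtain ⟨t, rfl⟩ : ∃ t, Q = 6 * t := ⟨Q / 6, by omega⟩
      have e1 : 9 * (t * (P ^ 2 - 24 * t ^ 2)) = a ^ 2 := by
        have : 2 * (9 * (t * (P ^ 2 - 24 * t ^ 2))) = 2 * a ^ 2 := by linear_combination hz
        omega
      obtain ⟨a', rfl⟩ : (3 : ℤ) ∣ a := by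
        refine Int.prime_three.dvd_of_dvd_pow (n := 2) ⟨3 * (t * (P ^ 2 - 24 * t ^ 2)), ?_⟩
        rw [← e1]
        ring
      have e2 : t * (P ^ 2 - 24 * t ^ 2) = a' ^ 2 := by
        have : 9 * (t * (P ^ 2 - 24 * t ^ 2)) = 9 * a' ^ 2 := by rw [e1]; ring
        omega
      have ct : IsCoprime t P := (hPQ.of_mul_right_right).symm
      have ct2 : IsCoprime t (P ^ 2 - 24 * t ^ 2) := by
        have e : P ^ 2 - 24 * t ^ 2 = P ^ 2 + t * (-24 * t) := by ring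
        rw [e]
        exact IsCoprime.add_mul_left_right ct.pow_right _
      have ha'0 : a' ≠ 0 := by
        rintro rfl
        exact ha (by ring)
      obtain ⟨γ, hγ⟩ : ∃ γ, P ^ 2 - 24 * t ^ 2 = γ ^ 2 := by
        obtain ⟨γ, hγ⟩ := Int.sq_of_isCoprime ct2.symm (by rw [mul_comm]; exact e2)
        rcases hγ with h4 | h4
        · exact ⟨γ, h4⟩
        · exfalso
          have := sq8z γ
          have : (24 * t ^ 2) % 8 = 0 := by omega
          omega
      obtain ⟨δ, hδ⟩ : ∃ δ, t = δ ^ 2 := by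
        obtain ⟨δ, hδ⟩ := Int.sq_of_isCoprime ct2 e2
        rcases hδ with h4 | h4
        · exact ⟨δ, h4⟩
        · exfalso
          rw [hγ, h4] at e2
          have h5 : 0 < a' ^ 2 := by positivity
          have h6 : 0 ≤ δ ^ 2 * γ ^ 2 := by positivity
          have h7 : -δ ^ 2 * γ ^ 2 = -(δ ^ 2 * γ ^ 2) := by ring
          omega
      have hlast : δ.natAbs = 0 := by
        refine r24 (α := a1.natAbs) (δ := δ.natAbs) (γ := γ.natAbs) ?_ ?_ ?_ ?_
        · have : a1 % 2 = 1 := by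
            rcases Int.emod_two_eq_zero_or_one a1 with h0 | h0
            · exfalso
              obtain ⟨s, rfl⟩ : ∃ s, a1 = 2 * s := ⟨a1 / 2, by omega⟩
              have : (2 * s) ^ 2 = 2 * (2 * s ^ 2) := by ring
              omega
            · exact h0
          omega
        · intro h0
          have h4 : (3 : ℤ) ∣ a1 := by omega
          have h5 : (3 : ℤ) ∣ P := by
            rw [ha1]
            exact dvd_pow h4 (by norm_num)
          omega
        · refine Int.isCoprime_iff_nat_coprime.1 ?_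
          rw [ha1, hδ] at ct
          exact ((IsCoprime.pow_iff (by norm_num) (by norm_num)).1 ct).symm
        · have k1 : ((a1.natAbs : ℕ) : ℤ) ^ 4 = 24 * ((δ.natAbs : ℕ) : ℤ) ^ 4 +
              ((γ.natAbs : ℕ) : ℤ) ^ 2 := by
            have p1 : ((a1.natAbs : ℕ) : ℤ) ^ 4 = (a1 ^ 2) ^ 2 := by
              rw [← Int.natAbs_sq a1]
              ring
            have p2 : ((δ.natAbs : ℕ) : ℤ) ^ 4 = (δ ^ 2) ^ 2 := by
              rw [← Int.natAbs_sq δ]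
              ring
            rw [p1, p2, Int.natAbs_sq, ← ha1, ← hδ, ← hγ]
            ring
          exact_mod_cast k1
      have hδ0 : δ = 0 := Int.natAbs_eq_zero.1 hlast
      rw [hδ, hδ0] at e2
      apply ha'0
      have h4 : a' ^ 2 = 0 := by rw [← e2]; ring
      exact pow_eq_zero_iff two_ne_zero |>.1 h4
    · have cQ := zcop hPQ hQ3
      obtain ⟨q, rfl⟩ : ∃ q, Q = 2 * q := ⟨Q / 2, by omega⟩
      have e1 : q * (3 * P ^ 2 - 2 * (2 * q) ^ 2) = a ^ 2 := by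
        have : 2 * (q * (3 * P ^ 2 - 2 * (2 * q) ^ 2)) = 2 * a ^ 2 := by linear_combination hz
        omega
      have cq : IsCoprime q (3 * P ^ 2 - 2 * (2 * q) ^ 2) := cQ.of_mul_left_right
      obtain ⟨γ, hγ⟩ := Int.sq_of_isCoprime cq.symm (by rw [mul_comm]; exact e1)
      have sγ := sq8z γ
      have : (2 * q) ^ 2 = 4 * q ^ 2 := by ring
      omega
  · have hao : a1 % 2 = 1 := by
      rcases Int.emod_two_eq_zero_or_one a1 with h0 | h0
      · exfalso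
        obtain ⟨t, rfl⟩ : ∃ t, a1 = 2 * t := ⟨a1 / 2, by omega⟩
        have : (2 * t) ^ 2 = 2 * (2 * t ^ 2) := by ring
        omega
      · exact h0
    have ha4 := mod16 hao
    have sA := sq8z A
    rcases Int.emod_two_eq_zero_or_one Q with h0 | h0
    · obtain ⟨t, rfl⟩ : ∃ t, Q = 2 * t := ⟨Q / 2, by omega⟩
      have : (2 * t) ^ 2 = 4 * t ^ 2 := by ring
      omega
    · have h4 : (Q * (3 * P ^ 2 - 2 * Q ^ 2)) % 2 = 1 := by
        have h5 : (3 * P ^ 2 - 2 * Q ^ 2) % 2 = 1 := by omega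
        rw [Int.mul_emod, h0, h5]
        norm_num
      omega

/-- `x ^ 6 - y ^ 2 = 2 z ^ 4` with `x`, `y` coprime: the descent. -/
theorem S4aux {m n w x : ℤ} (hc : IsCoprime m n) (hm : m % 2 = 0)
    (h1 : m + n = x ^ 3) (h2 : m * n = 8 * w ^ 4) : w = 0 := by
  by_contra hw
  have hn : n % 2 = 1 := by
    rcases Int.emod_two_eq_zero_or_one n with hx | hx
    · exfalso
      have := (six_odd hc (by omega)).1
      omega
    · exact hx
  have hn8 : IsCoprime (8 : ℤ) n := by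
    have : IsCoprime ((2 : ℤ) ^ 3) n := (cop2 hn).symm.pow_left
    norm_num at this
    exact this
  obtain ⟨m', rfl⟩ : (8 : ℤ) ∣ m := hn8.dvd_of_dvd_mul_right ⟨w ^ 4, h2⟩
  have h3 : m' * n = w ^ 4 := by
    have : 8 * (m' * n) = 8 * w ^ 4 := by linear_combination h2
    omega
  have hc' : IsCoprime m' n := hc.of_mul_left_right
  obtain ⟨a, ha⟩ := fourth_of hc' h3
  obtain ⟨b, hb⟩ := fourth_of hc'.symm (by rw [mul_comm]; exact h3)
  have hw4 : 0 < w ^ 4 := by positivity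
  have hbo : (b : ℤ) % 2 = 1 := by
    rcases Int.emod_two_eq_zero_or_one (b : ℤ) with h0 | h0
    · exfalso
      obtain ⟨t, ht⟩ : ∃ t, (b : ℤ) = 2 * t := ⟨(b : ℤ) / 2, by omega⟩
      have k1 : (b : ℤ) ^ 4 = 2 * (8 * t ^ 4) := by rw [ht]; ring
      rcases hb with h4 | h4 <;> omega
    · exact h0
  have hab : IsCoprime (b : ℤ) (a : ℤ) := by
    rcases ha with ha | ha <;> rcases hb with hb | hb
    · rw [ha, hb] at hc'
      exact ((IsCoprime.pow_iff (by norm_num) (by norm_num)).1 hc').symm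
    · rw [ha, hb] at hc'
      exact ((IsCoprime.pow_iff (by norm_num) (by norm_num)).1
        ((IsCoprime.neg_right_iff _ _).1 hc')).symm
    · rw [ha, hb] at hc'
      exact ((IsCoprime.pow_iff (by norm_num) (by norm_num)).1
        ((IsCoprime.neg_left_iff _ _).1 hc')).symm
    · rw [ha, hb] at hc'
      exact ((IsCoprime.pow_iff (by norm_num) (by norm_num)).1
        ((IsCoprime.neg_left_iff _ _).1 ((IsCoprime.neg_right_iff _ _).1 hc'))).symm
  have ha4 : 0 ≤ (a : ℤ) ^ 4 := by positivity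
  have hb4 : 0 ≤ (b : ℤ) ^ 4 := by positivity
  have fin : ∀ X : ℤ, (b : ℤ) ^ 4 + 8 * (a : ℤ) ^ 4 = X ^ 3 → False := by
    intro X hX
    have k0 : (a : ℤ) = 0 := r8 hbo hab hX
    have k1 : m' = 0 := by rcases ha with h4 | h4 <;> rw [h4, k0] <;> norm_num
    rw [k1, zero_mul] at h3
    omega
  rcases ha with ha | ha <;> rcases hb with hb | hb
  · exact fin x (by rw [← h1, ha, hb]; ring)
  · have k1 : m' * n = -((a : ℤ) ^ 4 * (b : ℤ) ^ 4) := by rw [ha, hb]; ring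
    have k2 : 0 ≤ (a : ℤ) ^ 4 * (b : ℤ) ^ 4 := by positivity
    omega
  · have k1 : m' * n = -((a : ℤ) ^ 4 * (b : ℤ) ^ 4) := by rw [ha, hb]; ring
    have k2 : 0 ≤ (a : ℤ) ^ 4 * (b : ℤ) ^ 4 := by positivity
    omega
  · refine fin (-x) ?_
    have : (-x) ^ 3 = -(x ^ 3) := by ring
    rw [this, ← h1, ha, hb]
    ring

/-- `x ^ 6 - y ^ 2 = 2 z ^ 4` with `x`, `y` coprime has only the solutions with `z = 0`. -/
theorem S5 {x y z : ℤ} (hc : IsCoprime x y) (h : x ^ 6 - y ^ 2 = 2 * z ^ 4) : z = 0 := by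
  obtain ⟨hx, hy⟩ : x % 2 = 1 ∧ y % 2 = 1 := by
    refine six_odd hc ?_
    have h1 : (x ^ 6 - y ^ 2) % 2 = 0 := by omega
    rcases Int.emod_two_eq_zero_or_one x with hx | hx <;>
      rcases Int.emod_two_eq_zero_or_one y with hy | hy <;>
      simp [Int.mul_emod, Int.add_emod, Int.sub_emod, hx, hy, pow_succ] at h1 ⊢
  have hx3 : x ^ 3 % 2 = 1 := by simp [Int.mul_emod, hx, pow_succ]
  have ox := sq8zo hx3
  have oy := sq8zo hy
  have x6 : x ^ 6 = (x ^ 3) ^ 2 := by ring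
  obtain ⟨w, rfl⟩ : ∃ w, z = 2 * w := by
    have k2 : z ^ 4 % 2 = 0 := by omega
    have k3 : (2 : ℤ) ∣ z := Int.prime_two.dvd_of_dvd_pow (Int.dvd_of_emod_eq_zero k2)
    exact k3
  obtain ⟨m, hm⟩ : ∃ m, x ^ 3 - y = 2 * m := ⟨(x ^ 3 - y) / 2, by omega⟩
  obtain ⟨n, hn⟩ : ∃ n, x ^ 3 + y = 2 * n := ⟨(x ^ 3 + y) / 2, by omega⟩
  have e1 : m + n = x ^ 3 := by omega
  have e2 : y = n - m := by omega
  have e3 : m * n = 8 * w ^ 4 := by
    have k1 : 4 * (m * n) = 4 * (8 * w ^ 4) := by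
      have k4 : 4 * (m * n) = (2 * m) * (2 * n) := by ring
      rw [k4, ← hm, ← hn]
      linear_combination h
    omega
  have hmn : IsCoprime m n := by
    obtain ⟨a, b, hab⟩ : IsCoprime (x ^ 3) y := hc.pow_left
    rw [← e1, e2] at hab
    exact ⟨a - b, a + b, by linear_combination hab⟩
  have hw : w = 0 := by
    rcases Int.emod_two_eq_zero_or_one m with hx | hx
    · exact S4aux hmn hx e1 e3
    · have hn2 : n % 2 = 0 := by omega
      exact S4aux hmn.symm hn2 (by rw [add_comm]; exact e1) (by rw [mul_comm]; exact e3)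
  rw [hw]
  ring

/-- `2 u ^ (4 i) + v ^ (2 j) = w ^ (6 k)`. -/
theorem fam4 {u v w i j k : ℕ} (hj : 0 < j) (hk : 0 < k) (hu : 0 < u)
    (h : 2 * u ^ (4 * i) + v ^ (2 * j) = w ^ (6 * k))
    (hg : ∀ l : ℕ, l.Prime → l ∣ u → l ∣ v → l ∣ w → False) : False := by
  have hz : 2 * (u : ℤ) ^ (4 * i) + (v : ℤ) ^ (2 * j) = (w : ℤ) ^ (6 * k) := by exact_mod_cast h
  have hc : Nat.Coprime w v := by
    refine cop_aux (m := 2) (ε := -1) (i := 3 * k) (j := j) (k := 4 * i) (w := u) (by norm_num)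
      (by omega) hj ?_ (fun l h1 h2 h3 h4 => hg l h1 h4 h3 h2)
    rw [show 2 * (3 * k) = 6 * k by ring]
    linear_combination -hz
  have hc2 : IsCoprime ((w : ℤ) ^ k) ((v : ℤ) ^ j) := (Nat.isCoprime_iff_coprime.2 hc).pow
  have h2 : ((w : ℤ) ^ k) ^ 6 - ((v : ℤ) ^ j) ^ 2 = 2 * ((u : ℤ) ^ i) ^ 4 := by
    rw [← pow_mul, ← pow_mul, ← pow_mul, mul_comm i 4, mul_comm j 2, mul_comm k 6]
    linear_combination -hz
  have hu0 : ((u : ℤ) ^ i) ≠ 0 := by positivity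
  exact hu0 (S5 hc2 h2)

/-- `2 u ^ (2 i) + v ^ (4 j) = w ^ (6 k)`. -/
theorem fam2 {u v w i j k : ℕ} (hi : 0 < i) (hj : 0 < j) (hu : 0 < u)
    (h : 2 * u ^ (2 * i) + v ^ (4 * j) = w ^ (6 * k))
    (hg : ∀ l : ℕ, l.Prime → l ∣ u → l ∣ v → l ∣ w → False) : False := by
  have hz : 2 * (u : ℤ) ^ (2 * i) + (v : ℤ) ^ (4 * j) = (w : ℤ) ^ (6 * k) := by exact_mod_cast h
  have hc : Nat.Coprime v u := by
    by_contra hng
    obtain ⟨l, hl, h1, h2⟩ := Nat.Prime.not_coprime_iff_dvd.1 hng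
    have h3 : l ∣ w ^ (6 * k) := by
      rw [← h]
      exact dvd_add (Dvd.dvd.mul_left (dvd_pow h2 (by omega)) 2) (dvd_pow h1 (by omega))
    exact hg l hl h2 h1 (hl.dvd_of_dvd_pow h3)
  have hc2 : IsCoprime ((v : ℤ) ^ j) ((u : ℤ) ^ i) := (Nat.isCoprime_iff_coprime.2 hc).pow
  have h2 : ((v : ℤ) ^ j) ^ 4 + 2 * ((u : ℤ) ^ i) ^ 2 = ((w : ℤ) ^ k) ^ 6 := by
    rw [← pow_mul, ← pow_mul, ← pow_mul, mul_comm i 2, mul_comm j 4, mul_comm k 6]
    linear_combination hz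
  have hu0 : ((u : ℤ) ^ i) ≠ 0 := by positivity
  exact hu0 (S8 hc2 h2)

end GF2
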