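import Pool.Agent.H.MP_81d9be_nt.Six2
import Pool.Agent.H.MP_81d9be_nt.Rt2

/-!
# MP_81d9be_nt: the equation `y ^ 4 - x ^ 6 = 2 z ^ 4`
-/

set_option autoImplicit false

namespace GF2

theorem odd_of_even_sum {a : ℤ} (h : a ^ 2 % 2 = 1) : a % 2 = 1 := by
  rcases Int.emod_two_eq_zero_or_one a with h0 | h0
  · exfalso
    obtain ⟨t, rfl⟩ : ∃ t, a = 2 * t := ⟨a / 2, by omega⟩
    have : (2 * t) ^ 2 = 2 * (2 * t ^ 2) := by ring
    omega
  · exact h0

/-- `B ^ 4 - A ^ 4 = 6 D ^ 4`. -/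
theorem r6diff {A B D : ℕ} (hA : A % 2 = 1) (hB : B % 2 = 1) (hc : Nat.Coprime A D)
    (h : B ^ 4 = A ^ 4 + 6 * D ^ 4) : D = 0 := by
  by_contra hD
  have hD4 : 0 < D ^ 4 := by positivity
  have hAB : Nat.Coprime A B := by
    by_contra hng
    obtain ⟨l, hl, h3, h4⟩ := Nat.Prime.not_coprime_iff_dvd.1 hng
    have h5 : l ^ 4 ∣ 6 * D ^ 4 := by
      have h6 : l ^ 4 ∣ A ^ 4 + 6 * D ^ 4 := by rw [← h]; exact pow_dvd_pow_of_dvd h4 4
      exact (Nat.dvd_add_right (pow_dvd_pow_of_dvd h3 4)).1 h6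
    have h6 : Nat.Coprime (l ^ 4) (D ^ 4) := by
      have h7 : Nat.Coprime l D := Nat.Coprime.coprime_dvd_left h3 hc
      exact Nat.Coprime.pow 4 4 h7
    have h7 : l ^ 4 ∣ 6 := h6.dvd_of_dvd_mul_right h5
    have h8 : l ^ 4 ≤ 6 := Nat.le_of_dvd (by norm_num) h7
    have h9 : 2 ^ 4 ≤ l ^ 4 := Nat.pow_le_pow_left hl.two_le 4
    omega
  have sA := sq8o hA
  have sB := sq8o hB
  have eA : A ^ 4 = (A ^ 2) ^ 2 := by ring
  have eB : B ^ 4 = (B ^ 2) ^ 2 := by ring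
  have hlt : A ^ 2 < B ^ 2 := by nlinarith
  obtain ⟨h1, e1⟩ : ∃ h1, A ^ 2 + B ^ 2 = 2 * h1 := ⟨(A ^ 2 + B ^ 2) / 2, by omega⟩
  obtain ⟨h2, e2⟩ : ∃ h2, B ^ 2 = A ^ 2 + 8 * h2 := ⟨(B ^ 2 - A ^ 2) / 8, by omega⟩
  have e3 : 8 * (h1 * h2) = 3 * D ^ 4 := by
    have : 16 * (h1 * h2) = 6 * D ^ 4 := by
      have k1 : 16 * (h1 * h2) = (2 * h1) * (8 * h2) := by ring
      have k2 : (A ^ 2 + B ^ 2) * (8 * h2) = B ^ 4 - A ^ 4 := by
        rw [eA, eB, e2]
        have : (A ^ 2 + 8 * h2) ^ 2 = (A ^ 2) ^ 2 + (A ^ 2 + (A ^ 2 + 8 * h2)) * (8 * h2) := by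
          ring
        omega
      rw [k1, ← e1, k2]
      omega
    omega
  have hDe : D % 2 = 0 := by
    by_contra h0
    have := fo16 (n := D) (by omega)
    omega
  obtain ⟨d, rfl⟩ : ∃ d, D = 2 * d := ⟨D / 2, by omega⟩
  have e4 : h1 * h2 = 2 * (3 * d ^ 4) := by
    have : (2 * d) ^ 4 = 16 * d ^ 4 := by ring
    omega
  have hh1o : h1 % 2 = 1 := by omega
  have hcop : Nat.Coprime h1 h2 := by
    by_contra hng
    obtain ⟨l, hl, h3, h4⟩ := Nat.Prime.not_coprime_iff_dvd.1 hng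
    have h5 : l ≠ 2 := by
      rintro rfl
      omega
    have h6 : l ∣ 2 * A ^ 2 := by
      have h7 : l ∣ 2 * A ^ 2 + 8 * h2 := ⟨2 * (h1 / l), by
        obtain ⟨t, ht⟩ := h3
        have : h1 / l = t := by rw [ht]; exact Nat.mul_div_cancel_left t hl.pos
        rw [this]
        have : 2 * A ^ 2 + 8 * h2 = 2 * h1 := by omega
        rw [this, ht]
        ring⟩
      exact (Nat.dvd_add_left (Dvd.dvd.mul_left h4 8)).1 h7
    have h7 : l ∣ A ^ 2 := by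
      rcases (Nat.Prime.dvd_mul hl).1 h6 with h8 | h8
      · exact absurd ((Nat.prime_dvd_prime_iff_eq hl Nat.prime_two).1 h8) h5
      · exact h8
    have h8 : l ∣ B ^ 2 := by
      rw [e2]
      exact dvd_add h7 (Dvd.dvd.mul_left h4 8)
    exact cop_no hAB hl (hl.dvd_of_dvd_pow h7) (hl.dvd_of_dvd_pow h8)
  have h3 : h1 % 3 ≠ 0 := by
    intro h0
    have k1 : (A ^ 2 + B ^ 2) % 3 = 0 := by omega
    rcases sq3 A with ⟨k2, k3⟩ | ⟨k2, k3⟩ <;> rcases sq3 B with ⟨k4, k5⟩ | ⟨k4, k5⟩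
    · exact cop_not3 hAB k3 k5
    · omega
    · omega
    · omega
  rcases spl2 pp2 pp3 hcop e4 with ⟨s, t, k1, k2⟩ | ⟨s, t, k1, k2⟩ | ⟨s, t, k1, k2⟩ | ⟨s, t, k1, k2⟩
  · omega
  · omega
  · omega
  · have hs : s % 2 = 1 := odd_of_pow (n := 4) (by norm_num) (by omega)
    have hs3 : s % 3 ≠ 0 := n3_of_pow (n := 4) (by norm_num) (by omega)
    have hst : Nat.Coprime s t := by
      by_contra hng
      obtain ⟨l, hl, k3, k4⟩ := Nat.Prime.not_coprime_iff_dvd.1 hng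
      exact cop_no hcop hl (by rw [k1]; exact dvd_pow k3 (by norm_num))
        (by rw [k2]; exact Dvd.dvd.mul_left (Dvd.dvd.mul_left (dvd_pow k4 (by norm_num)) 3) 2)
    have ht : t = 0 := r24 hs hs3 hst (γ := A) (by omega)
    rw [ht] at k2
    omega

/-- The last system. -/
theorem t2_fin {M Δ Γ B : ℕ} (hM : M % 2 = 1) (hM3 : M % 3 ≠ 0) (hc : Nat.Coprime M Δ)
    (hΔ : Δ % 2 = 0) (h1 : Γ ^ 2 = M ^ 4 + 24 * Δ ^ 4) (h2 : B ^ 2 = M ^ 4 + 216 * Δ ^ 4) :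
    Δ = 0 := by
  by_contra hΔ0
  have hΔ4 : 0 < Δ ^ 4 := by positivity
  have M4 : M ^ 4 = (M ^ 2) ^ 2 := by ring
  have sM := sq8o hM
  have fM := fo16 hM
  have M3 : M ^ 2 % 3 = 1 := by
    rcases sq3 M with h3 | h3
    · exact absurd h3.2 hM3
    · exact h3.1
  have step : ∀ (N G : ℕ), IsPrimePow N → N % 3 = 0 → N % 8 = 3 → G ^ 2 = M ^ 4 + 8 * N * Δ ^ 4 →
      ∃ s t, s * t = Δ ∧ M ^ 2 + 2 * N * t ^ 4 = s ^ 4 := by
    intro N G hN hN3 hN8 hG
    have hGo : G % 2 = 1 := by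
      refine odd_of_pow (n := 2) (by norm_num) ?_
      rw [hG]
      have : 8 * N * Δ ^ 4 = 2 * (4 * (N * Δ ^ 4)) := by ring
      omega
    have hN0 : 0 < N := hN.pos
    have hND : 0 < N * Δ ^ 4 := Nat.mul_pos hN0 hΔ4
    have hlt : M ^ 2 < G := by
      have : 8 * N * Δ ^ 4 = 8 * (N * Δ ^ 4) := by ring
      nlinarith
    obtain ⟨a, ha⟩ : ∃ a, G = M ^ 2 + 2 * a := ⟨(G - M ^ 2) / 2, by omega⟩
    have ha0 : 0 < a := by omega
    have e1 : a * (M ^ 2 + a) = 2 * (N * Δ ^ 4) := by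
      rw [M4, ha] at hG
      nlinarith
    have ca : Nat.Coprime a (M ^ 2 + a) := by
      by_contra hng
      obtain ⟨l, hl, h3, h4⟩ := Nat.Prime.not_coprime_iff_dvd.1 hng
      have h5 : l ∣ M := hl.dvd_of_dvd_pow ((Nat.dvd_add_left h3).1 h4)
      have h6 : l ∣ 2 * (N * Δ ^ 4) := by rw [← e1]; exact Dvd.dvd.mul_right h3 _
      rcases (Nat.Prime.dvd_mul hl).1 h6 with h7 | h7
      · have h8 : l = 2 := (Nat.prime_dvd_prime_iff_eq hl Nat.prime_two).1 h7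
        rw [h8] at h5
        omega
      · rcases (Nat.Prime.dvd_mul hl).1 h7 with h8 | h8
        · have h9 : l = 3 := by
            obtain ⟨p, k, hp, hk, hpk⟩ := hN
            have h10 : p = 3 := by
              have : 3 ∣ p ^ k := by rw [hpk]; exact Nat.dvd_of_mod_eq_zero hN3
              have := Nat.prime_three.dvd_of_dvd_pow this
              exact ((Nat.prime_dvd_prime_iff_eq Nat.prime_three hp.nat_prime).1 this).symm
            rw [← hpk, h10] at h8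
            exact (Nat.prime_dvd_prime_iff_eq hl Nat.prime_three).1 (hl.dvd_of_dvd_pow h8)
          rw [h9] at h5
          omega
        · exact cop_no hc hl h5 (hl.dvd_of_dvd_pow h8)
    have fin : ∀ s t, a * (M ^ 2 + a) = 2 * (N * (s * t) ^ 4) → s * t = Δ := by
      intro s t h3
      have h4 : N * (s * t) ^ 4 = N * Δ ^ 4 := by omega
      have h5 : (s * t) ^ 4 = Δ ^ 4 := Nat.eq_of_mul_eq_mul_left hN0 h4
      exact Nat.pow_left_injective (by norm_num : 4 ≠ 0) h5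
    rcases spl2 pp2 hN ca e1 with ⟨t, s, h3, h4⟩ | ⟨s, t, h3, h4⟩ | ⟨s, t, h3, h4⟩ | ⟨s, t, h3, h4⟩
    · refine ⟨s, t, fin s t (by rw [h4, h3]; ring), ?_⟩
      have : 2 * N * t ^ 4 = 2 * (N * t ^ 4) := by ring
      omega
    · exfalso
      have hst := fin s t (by rw [h4, h3]; ring)
      have h5 : M ^ 2 + 2 * s ^ 4 = N * t ^ 4 := by omega
      have h6 : (N * t ^ 4) % 2 = 1 := by omega
      have ht : t % 2 = 1 := by
        refine odd_of_pow (n := 4) (by norm_num) ?_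
        rcases Nat.mod_two_eq_zero_or_one (t ^ 4) with h7 | h7
        · rw [Nat.mul_mod, h7, mul_zero] at h6
          omega
        · exact h7
      have hs : s % 2 = 0 := by
        have h7 : (s * t) % 2 = 0 := by rw [hst]; exact hΔ
        rw [Nat.mul_mod, ht, mul_one, Nat.mod_mod] at h7
        exact h7
      obtain ⟨s', rfl⟩ : ∃ s', s = 2 * s' := ⟨s / 2, by omega⟩
      have h8 : (2 * s') ^ 4 = 16 * s' ^ 4 := by ring
      have h9 : (N * t ^ 4) % 8 = 3 := by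
        have h10 := fo16 ht
        have h11 : t ^ 4 % 8 = 1 := by omega
        rw [Nat.mul_mod, hN8, h11]
      omega
    · exfalso
      have h5 : M ^ 2 + N * s ^ 4 = 2 * t ^ 4 := by omega
      have h6 : (N * s ^ 4) % 3 = 0 := by rw [Nat.mul_mod, hN3, zero_mul, Nat.zero_mod]
      have h7 := fo3' t
      omega
    · exfalso
      have h5 : M ^ 2 + s ^ 4 = 2 * (N * t ^ 4) := by omega
      have h6 : (N * t ^ 4) % 3 = 0 := by rw [Nat.mul_mod, hN3, zero_mul, Nat.zero_mod]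
      have h7 := fo3' s
      omega
  obtain ⟨s, t, hst, e1⟩ := step 3 Γ pp3 (by norm_num) (by norm_num) (by rw [h1])
  obtain ⟨s1, t1, hst1, e2⟩ := step 27 B pp27 (by norm_num) (by norm_num) (by rw [h2])
  norm_num at e1 e2
  have hs0 : 0 < s := by
    rcases Nat.eq_zero_or_pos s with h0 | h0
    · rw [h0, zero_mul] at hst
      omega
    · exact h0
  obtain ⟨c, a, d, b, f1, f2, f3, f4, hbc⟩ := ap_four hs0 (hst.trans hst1.symm)
  -- s = a b, t = c d, s1 = c a, t1 = d b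
  have hso : s % 2 = 1 := odd_of_pow (n := 4) (by norm_num) (by omega)
  have hs1o : s1 % 2 = 1 := odd_of_pow (n := 4) (by norm_num) (by omega)
  have hs3 : s % 3 ≠ 0 := n3_of_pow (n := 4) (by norm_num) (by omega)
  have hs13 : s1 % 3 ≠ 0 := n3_of_pow (n := 4) (by norm_num) (by omega)
  have hao : a % 2 = 1 := by
    by_contra h0
    have h3 : a % 2 = 0 := by omega
    rw [f1, Nat.mul_mod, h3, zero_mul] at hso
    omega
  have hbo : b % 2 = 1 := by
    by_contra h0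
    have h3 : b % 2 = 0 := by omega
    rw [f1, Nat.mul_mod, h3, mul_zero] at hso
    omega
  have hco : c % 2 = 1 := by
    by_contra h0
    have h3 : c % 2 = 0 := by omega
    rw [f3, Nat.mul_mod, h3, zero_mul] at hs1o
    omega
  have ha3 : a % 3 ≠ 0 := by
    intro h3
    rw [f1, Nat.mul_mod, h3, zero_mul] at hs3
    omega
  have hc3 : c % 3 ≠ 0 := by
    intro h3
    rw [f3, Nat.mul_mod, h3, zero_mul] at hs13
    omega
  have cst : Nat.Coprime s t := by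
    by_contra hng
    obtain ⟨l, hl, h3, h4⟩ := Nat.Prime.not_coprime_iff_dvd.1 hng
    have h5 : l ∣ M ^ 2 := by
      have h6 : l ∣ M ^ 2 + 6 * t ^ 4 := by rw [e1]; exact dvd_pow h3 (by norm_num)
      exact (Nat.dvd_add_left (Dvd.dvd.mul_left (dvd_pow h4 (by norm_num)) 6)).1 h6
    exact cop_no hc hl (hl.dvd_of_dvd_pow h5) (by rw [← hst]; exact Dvd.dvd.mul_right h3 t)
  have cad : Nat.Coprime a d := by
    rw [f1, f2] at cst
    exact (cst.coprime_dvd_left ⟨b, rfl⟩).coprime_dvd_right ⟨c, by ring⟩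
  have key : ((a : ℤ) ^ 4) * (b ^ 4 - c ^ 4) = 6 * d ^ 4 * (c ^ 4 - 9 * b ^ 4) := by
    have k1 : (M : ℤ) ^ 2 + 6 * ((c : ℤ) * d) ^ 4 = ((a : ℤ) * b) ^ 4 := by
      rw [f1, f2] at e1
      exact_mod_cast e1
    have k2 : (M : ℤ) ^ 2 + 54 * ((d : ℤ) * b) ^ 4 = ((c : ℤ) * a) ^ 4 := by
      rw [f3, f4] at e2
      exact_mod_cast e2
    linear_combination k2 - k1
  have za : IsCoprime ((a : ℤ) ^ 4) (6 * (d : ℤ) ^ 4) := by
    have z1 : IsCoprime (a : ℤ) (d : ℤ) := Nat.isCoprime_iff_coprime.2 cad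
    have z2 : IsCoprime (a : ℤ) 2 := cop2 (by omega)
    have z3 : IsCoprime (a : ℤ) 3 := cop3 (by omega)
    have z6 : IsCoprime (a : ℤ) 6 := by
      have := z2.mul_right z3
      norm_num at this
      exact this
    exact (z6.mul_right z1.pow_right).pow_left
  obtain ⟨ρ, hρ⟩ : ((a : ℤ) ^ 4) ∣ c ^ 4 - 9 * b ^ 4 :=
    za.dvd_of_dvd_mul_left ⟨b ^ 4 - c ^ 4, by rw [← key]⟩
  have ha4 : ((a : ℤ) ^ 4) ≠ 0 := by
    have : (0 : ℤ) < a := by omega
    positivity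
  have hρ2 : (b : ℤ) ^ 4 - c ^ 4 = 6 * d ^ 4 * ρ := by
    have : ((a : ℤ) ^ 4) * (b ^ 4 - c ^ 4) = a ^ 4 * (6 * d ^ 4 * ρ) := by
      rw [key, hρ]
      ring
    exact mul_left_cancel₀ ha4 this
  have hρ8 : ρ ∣ 8 := by
    have d1 : ρ ∣ 8 * (b : ℤ) ^ 4 := ⟨-(a ^ 4 + 6 * d ^ 4), by linear_combination -hρ - hρ2⟩
    have d2 : ρ ∣ 8 * (c : ℤ) ^ 4 := ⟨-(a ^ 4 + 54 * d ^ 4), by linear_combination -hρ - 9 * hρ2⟩
    obtain ⟨u, v, huv⟩ : IsCoprime ((b : ℤ) ^ 4) ((c : ℤ) ^ 4) :=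
      (Nat.isCoprime_iff_coprime.2 hbc).pow
    have : (8 : ℤ) = u * (8 * (b : ℤ) ^ 4) + v * (8 * (c : ℤ) ^ 4) := by
      linear_combination -8 * huv
    rw [this]
    exact dvd_add (Dvd.dvd.mul_left d1 u) (Dvd.dvd.mul_left d2 v)
  have m16a : (a : ℤ) ^ 4 % 16 = 1 := mod16 (by omega)
  have m16b : (b : ℤ) ^ 4 % 16 = 1 := mod16 (by omega)
  have m16c : (c : ℤ) ^ 4 % 16 = 1 := mod16 (by omega)
  have m3a : (a : ℤ) ^ 4 % 3 = 1 := by
    have := fo3 ha3
    exact_mod_cast this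
  have m3c : (c : ℤ) ^ 4 % 3 = 1 := by
    have := fo3 hc3
    exact_mod_cast this
  have hρm : ρ % 16 = 8 := by
    have k1 : ((a : ℤ) ^ 4 * ρ) % 16 = 8 := by omega
    rw [Int.mul_emod, m16a, one_mul, Int.emod_emod] at k1
    exact k1
  have hρ3 : ρ % 3 = 1 := by
    have k1 : ((a : ℤ) ^ 4 * ρ) % 3 = 1 := by omega
    rw [Int.mul_emod, m3a, one_mul, Int.emod_emod] at k1
    exact k1
  have hρv : ρ = -8 := by
    have k1 : ρ ≤ 8 := Int.le_of_dvd (by norm_num) hρ8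
    have k2 : -8 ≤ ρ := by
      have := Int.le_of_dvd (by norm_num) ((neg_dvd).2 hρ8)
      omega
    omega
  rw [hρv] at hρ hρ2
  have hd : d = 0 := by
    refine r6diff hao hbo cad ?_
    have : (b : ℤ) ^ 4 = a ^ 4 + 6 * d ^ 4 := by
      have : (8 : ℤ) * b ^ 4 = 8 * (a ^ 4 + 6 * d ^ 4) := by linear_combination -hρ - hρ2
      omega
    exact_mod_cast this
  rw [f2, hd, mul_zero] at hst
  rw [mul_zero] at hst
  omega

/-- `3 ∣ α`. -/
theorem t2_three {α β x y : ℤ} (hc : IsCoprime β α) (hβ : β % 2 = 1)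
    (h1 : β ^ 4 + 8 * α ^ 4 = y ^ 2) (h2 : β ^ 4 - 8 * α ^ 4 = x ^ 3) : (3 : ℤ) ∣ α := by
  by_contra h3
  have hβ4 := mod16 hβ
  have hy : y % 2 = 1 := odd_of_even_sum (by omega)
  have hyα : IsCoprime y α := by
    have k1 : IsCoprime (β ^ 4) α := hc.pow_left
    have k2 : IsCoprime (y ^ 2) α := by
      rw [← h1]
      have e : β ^ 4 + 8 * α ^ 4 = β ^ 4 + α * (8 * α ^ 3) := by ring
      rw [e]
      exact IsCoprime.add_mul_left_left k1 _
    exact (IsCoprime.pow_left_iff (by norm_num)).1 k2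
  have hcf : IsCoprime (y - 4 * α ^ 2) (y + 4 * α ^ 2) := by
    have k1 : IsCoprime (y - 4 * α ^ 2) (2 ^ 3 * α ^ 2) := by
      refine IsCoprime.mul_right (cop2 (by omega)).pow_right ?_
      have e : y - 4 * α ^ 2 = y + α * (-(4 * α)) := by ring
      rw [e]
      exact (IsCoprime.add_mul_left_left hyα _).pow_right
    have e : y + 4 * α ^ 2 = 2 ^ 3 * α ^ 2 + (y - 4 * α ^ 2) * 1 := by ring
    rw [e]
    exact IsCoprime.add_mul_left_right k1 _
  have hprod : (y - 4 * α ^ 2) * (y + 4 * α ^ 2) = x ^ 3 := by linear_combination -h1 + h2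
  obtain ⟨s, hs⟩ := cube_of hcf hprod
  obtain ⟨r, hr⟩ := cube_of hcf.symm (by rw [mul_comm]; exact hprod)
  have e1 : r ^ 3 - s ^ 3 = 8 * α ^ 2 := by rw [← hr, ← hs]; ring
  have hrs : IsCoprime s r := by
    rw [hs, hr] at hcf
    exact (IsCoprime.pow_iff (by norm_num) (by norm_num)).1 hcf
  have hso : s % 2 = 1 := by
    rcases Int.emod_two_eq_zero_or_one s with h0 | h0
    · exfalso
      have k1 : s ^ 3 % 2 = 0 := by simp [pow_succ, Int.mul_emod, h0]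
      omega
    · exact h0
  have hro : r % 2 = 1 := by
    rcases Int.emod_two_eq_zero_or_one r with h0 | h0
    · exfalso
      have k1 : r ^ 3 % 2 = 0 := by simp [pow_succ, Int.mul_emod, h0]
      omega
    · exact h0
  obtain ⟨D, rfl⟩ : ∃ D, r = s + D := ⟨r - s, by ring⟩
  have e2 : D * (3 * s ^ 2 + 3 * s * D + D ^ 2) = 8 * α ^ 2 := by
    rw [← e1]
    ring
  have hsD : IsCoprime D s := by
    obtain ⟨u, v, huv⟩ := hrs
    exact ⟨v, u + v, by linear_combination huv⟩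
  have hD3 : ¬ (3 : ℤ) ∣ D := by
    intro h4
    have h5 : (3 : ℤ) ∣ 8 * α ^ 2 := by
      rw [← e2]
      exact Dvd.dvd.mul_right h4 _
    have h6 : (3 : ℤ) ∣ α ^ 2 := by
      rcases Int.prime_three.dvd_mul.1 h5 with h7 | h7
      · omega
      · exact h7
    exact h3 (Int.prime_three.dvd_of_dvd_pow h6)
  have cD3 : IsCoprime D 3 := ((Int.prime_three.coprime_iff_not_dvd).2 hD3).symm
  have cDT : IsCoprime D (3 * s ^ 2 + 3 * s * D + D ^ 2) := by
    have e : 3 * s ^ 2 + 3 * s * D + D ^ 2 = 3 * s ^ 2 + D * (3 * s + D) := by ring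
    rw [e]
    exact IsCoprime.add_mul_left_right (cD3.mul_right hsD.pow_right) _
  have hDe : D % 2 = 0 := by omega
  have so := sq8zo hso
  have hTo : (3 * s ^ 2 + 3 * s * D + D ^ 2) % 2 = 1 := by
    obtain ⟨t, rfl⟩ : ∃ t, D = 2 * t := ⟨D / 2, by omega⟩
    have k1 : 3 * s ^ 2 + 3 * s * (2 * t) + (2 * t) ^ 2 = 3 * s ^ 2 + 2 * (3 * s * t + 2 * t ^ 2) := by
      ring
    omega
  obtain ⟨κ, rfl⟩ : (8 : ℤ) ∣ D := by
    have k1 : IsCoprime (8 : ℤ) (3 * s ^ 2 + 3 * s * D + D ^ 2) := by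
      have : IsCoprime ((2 : ℤ) ^ 3) (3 * s ^ 2 + 3 * s * D + D ^ 2) := (cop2 hTo).symm.pow_left
      norm_num at this
      exact this
    exact k1.dvd_of_dvd_mul_right ⟨α ^ 2, e2⟩
  have e3 : κ * (3 * s ^ 2 + 3 * s * (8 * κ) + (8 * κ) ^ 2) = α ^ 2 := by
    have : 8 * (κ * (3 * s ^ 2 + 3 * s * (8 * κ) + (8 * κ) ^ 2)) = 8 * α ^ 2 := by
      rw [← e2]
      ring
    omega
  have cκ : IsCoprime κ (3 * s ^ 2 + 3 * s * (8 * κ) + (8 * κ) ^ 2) := cDT.of_mul_left_right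
  obtain ⟨ν, hν⟩ := Int.sq_of_isCoprime cκ.symm (by rw [mul_comm]; exact e3)
  have k1 : 3 * s ^ 2 + 3 * s * (8 * κ) + (8 * κ) ^ 2 = 3 * s ^ 2 + 8 * (3 * s * κ + 8 * κ ^ 2) := by
    ring
  have k2 := sq8z ν
  omega

/-- `2 ∣ α`. -/
theorem t2_two {α β y : ℤ} (hc : IsCoprime β α) (hβ : β % 2 = 1) (h3 : (3 : ℤ) ∣ α)
    (h1 : β ^ 4 + 8 * α ^ 4 = y ^ 2) : α % 2 = 0 := by
  by_contra hα
  have hαo : α % 2 = 1 := by omega
  obtain ⟨b, hb⟩ : ∃ b : ℕ, b = β.natAbs := ⟨_, rfl⟩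
  obtain ⟨a, ha⟩ : ∃ a : ℕ, a = α.natAbs := ⟨_, rfl⟩
  obtain ⟨Y, hY⟩ : ∃ Y : ℕ, Y = y.natAbs := ⟨_, rfl⟩
  have e1 : b ^ 4 + 8 * a ^ 4 = Y ^ 2 := by
    have k1 : (b : ℤ) ^ 4 = β ^ 4 := by
      have : (b : ℤ) ^ 2 = β ^ 2 := by rw [hb, Int.natAbs_sq]
      linear_combination ((b : ℤ) ^ 2 + β ^ 2) * this
    have k2 : (a : ℤ) ^ 4 = α ^ 4 := by
      have : (a : ℤ) ^ 2 = α ^ 2 := by rw [ha, Int.natAbs_sq]
      linear_combination ((a : ℤ) ^ 2 + α ^ 2) * this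
    have k3 : (Y : ℤ) ^ 2 = y ^ 2 := by rw [hY, Int.natAbs_sq]
    have : (b : ℤ) ^ 4 + 8 * (a : ℤ) ^ 4 = (Y : ℤ) ^ 2 := by rw [k1, k2, k3, h1]
    exact_mod_cast this
  have hbo : b % 2 = 1 := by omega
  have hao : a % 2 = 1 := by omega
  have ha3 : a % 3 = 0 := by omega
  have hba : Nat.Coprime b a := by
    rw [ha, hb]
    exact Int.isCoprime_iff_nat_coprime.1 hc
  have hYo : Y % 2 = 1 := odd_of_pow (n := 2) (by norm_num) (by
    have := fo16 hbo
    omega)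
  have hlt : b ^ 2 < Y := by
    have k1 : b ^ 4 = (b ^ 2) ^ 2 := by ring
    have k2 : 0 < a ^ 4 := by
      have : 0 < a := by omega
      positivity
    nlinarith
  have sb := sq8o hbo
  obtain ⟨m, hm⟩ : ∃ m, Y = b ^ 2 + 2 * m := ⟨(Y - b ^ 2) / 2, by omega⟩
  have e2 : m * (b ^ 2 + m) = 2 * a ^ 4 := by
    rw [hm] at e1
    nlinarith
  have cm : Nat.Coprime m (b ^ 2 + m) := by
    by_contra hng
    obtain ⟨l, hl, h4, h5⟩ := Nat.Prime.not_coprime_iff_dvd.1 hng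
    have h6 : l ∣ b := hl.dvd_of_dvd_pow ((Nat.dvd_add_left h4).1 h5)
    have h7 : l ∣ 2 * a ^ 4 := by rw [← e2]; exact Dvd.dvd.mul_right h4 _
    rcases (Nat.Prime.dvd_mul hl).1 h7 with h8 | h8
    · have h9 : l = 2 := (Nat.prime_dvd_prime_iff_eq hl Nat.prime_two).1 h8
      rw [h9] at h6
      omega
    · exact cop_no hba hl h6 (hl.dvd_of_dvd_pow h8)
  rcases spl pp2 cm e2 with ⟨c, d, h4, h5⟩ | ⟨d, c, h4, h5⟩
  · -- m = 2 c ^ 4, b ^ 2 + m = d ^ 4
    have h6 : (c * d) ^ 4 = a ^ 4 := by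
      have : 2 * (c * d) ^ 4 = 2 * a ^ 4 := by rw [← e2, h5, h4]; ring
      omega
    have h7 : c * d = a := Nat.pow_left_injective (by norm_num : 4 ≠ 0) h6
    have h8 : c % 2 = 1 := by
      by_contra h0
      have h9 : c % 2 = 0 := by omega
      rw [← h7, Nat.mul_mod, h9, zero_mul] at hao
      omega
    have h9 : d % 2 = 1 := by
      by_contra h0
      have h9 : d % 2 = 0 := by omega
      rw [← h7, Nat.mul_mod, h9, mul_zero] at hao
      omega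
    have h10 := fo16 h8
    have h11 := fo16 h9
    omega
  · -- m = d ^ 4, b ^ 2 + m = 2 c ^ 4
    have h6 : (c * d) ^ 4 = a ^ 4 := by
      have : 2 * (c * d) ^ 4 = 2 * a ^ 4 := by rw [← e2, h5, h4]; ring
      omega
    have h7 : c * d = a := Nat.pow_left_injective (by norm_num : 4 ≠ 0) h6
    have h8 : c % 3 = 0 ∨ d % 3 = 0 := by
      have : 3 ∣ c * d := by rw [h7]; exact Nat.dvd_of_mod_eq_zero ha3
      rcases (Nat.Prime.dvd_mul Nat.prime_three).1 this with h9 | h9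
      · left; omega
      · right; omega
    have hcd : c % 3 = 0 → d % 3 = 0 → False := by
      intro h9 h10
      have h11 : 3 ∣ m := by rw [h4]; exact dvd_pow (Nat.dvd_of_mod_eq_zero h10) (by norm_num)
      have h12 : 3 ∣ b ^ 2 + m := by
        rw [h5]
        exact Dvd.dvd.mul_left (dvd_pow (Nat.dvd_of_mod_eq_zero h9) (by norm_num)) 2
      exact cop_no cm Nat.prime_three h11 h12
    have h13 := fo3' c
    have h14 := fo3' d
    have h15 := sq3 b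
    rcases h8 with h8 | h8
    · have h16 : d % 3 ≠ 0 := fun h0 => hcd h8 h0
      omega
    · have h16 : c % 3 ≠ 0 := fun h0 => hcd h0 h8
      omega

theorem z9a : ∀ p q : ZMod 9, (p ^ 3 + 6 * p * q ^ 2) + (3 * p ^ 2 * q + 2 * q ^ 3) = 0 →
    3 * p = 0 ∧ 3 * q = 0 := by decide

theorem z9b : ∀ p q : ZMod 9, 2 * (p ^ 3 + 6 * p * q ^ 2) + 3 * (3 * p ^ 2 * q + 2 * q ^ 3) = 0 →
    3 * p = 0 ∧ 3 * q = 0 := by decide

theorem z9c {p : ℤ} (h : (3 : ZMod 9) * (p : ZMod 9) = 0) : (3 : ℤ) ∣ p := by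
  have h1 : ((3 * p : ℤ) : ZMod 9) = 0 := by
    push_cast
    exact h
  have h2 : (9 : ℤ) ∣ 3 * p := by
    have := (ZMod.intCast_zmod_eq_zero_iff_dvd (3 * p) 9).1 h1
    exact_mod_cast this
  omega

/-- `β ^ 4 + 8 α ^ 4` a square and `β ^ 4 - 8 α ^ 4` a cube. -/
theorem t2_core {α β x y : ℤ} (hc : IsCoprime β α) (hβ : β % 2 = 1)
    (h1 : β ^ 4 + 8 * α ^ 4 = y ^ 2) (h2 : β ^ 4 - 8 * α ^ 4 = x ^ 3) : α = 0 := by
  by_contra hα
  have h3 := t2_three hc hβ h1 h2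
  have h4 := t2_two hc hβ h3 h1
  have hβ3 : ¬ (3 : ℤ) ∣ β := by
    intro h5
    have h6 : IsUnit (3 : ℤ) := hc.isUnit_of_dvd' h5 h3
    rw [Int.isUnit_iff] at h6
    omega
  have hβ4 := mod16 hβ
  have hx : x % 2 = 1 := by
    rcases Int.emod_two_eq_zero_or_one x with h0 | h0
    · exfalso
      have k1 : x ^ 3 % 2 = 0 := by simp [pow_succ, Int.mul_emod, h0]
      omega
    · exact h0
  have hc2 : IsCoprime (β ^ 2) (2 * α ^ 2) :=
    ((cop2 hβ).mul_right hc.pow_right).pow_left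
  obtain ⟨α', hα'⟩ := h3
  have hα2 : α ^ 2 = 9 * α' ^ 2 := by rw [hα']; ring
  have hβ2 : ¬ (3 : ℤ) ∣ β ^ 2 := fun h5 => hβ3 (Int.prime_three.dvd_of_dvd_pow h5)
  obtain ⟨p, q, P, Q, hP, hQ, hcase⟩ := cubeR2 hc2 hx (by rw [← h2]; ring)
  have no3 : (3 : ℤ) ∣ p → (3 : ℤ) ∣ q → (3 : ℤ) ∣ P ∧ (3 : ℤ) ∣ Q := by
    rintro ⟨p', rfl⟩ ⟨q', rfl⟩
    exact ⟨⟨9 * p' ^ 3 + 54 * p' * q' ^ 2, by rw [hP]; ring⟩,
      ⟨27 * p' ^ 2 * q' + 18 * q' ^ 3, by rw [hQ]; ring⟩⟩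
  rcases hcase with ⟨e1, e2⟩ | ⟨e1, e2⟩ | ⟨e1, e2⟩
  · -- the main case
    have e1' : p * (p ^ 2 + 6 * q ^ 2) = β ^ 2 := by rw [e1, hP]; ring
    have e2' : q * (3 * p ^ 2 + 2 * q ^ 2) = 2 * α ^ 2 := by rw [e2, hQ]; ring
    have hpq : IsCoprime p q := by
      rw [← e1', ← e2'] at hc2
      exact hc2.of_mul_left_left.of_mul_right_left
    have hpo : p % 2 = 1 := by
      rcases Int.emod_two_eq_zero_or_one p with h0 | h0
      · exfalso
        have k1 : (p * (p ^ 2 + 6 * q ^ 2)) % 2 = 0 := by rw [Int.mul_emod, h0]; simp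
        have k2 := sq8zo hβ
        omega
      · exact h0
    have hp3 : ¬ (3 : ℤ) ∣ p := by
      intro h0
      apply hβ2
      rw [← e1']
      exact Dvd.dvd.mul_right h0 _
    have hp0 : 0 < p := by
      have k1 : 0 < p * (p ^ 2 + 6 * q ^ 2) := by
        rw [e1']
        have : β ≠ 0 := by
          rintro rfl
          omega
        positivity
      have k2 : 0 < p ^ 2 + 6 * q ^ 2 := by
        have : p ≠ 0 := by
          rintro rfl
          omega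
        positivity
      exact (mul_pos_iff_of_pos_right k2).1 k1
    have hq0 : 0 < q := by
      have k1 : 0 < q * (3 * p ^ 2 + 2 * q ^ 2) := by
        rw [e2']
        positivity
      have k2 : 0 < 3 * p ^ 2 + 2 * q ^ 2 := by positivity
      exact (mul_pos_iff_of_pos_right k2).1 k1
    have cp : IsCoprime p (p ^ 2 + 6 * q ^ 2) := by
      have e : p ^ 2 + 6 * q ^ 2 = 2 * 3 * q ^ 2 + p * p := by ring
      rw [e]
      refine IsCoprime.add_mul_left_right ?_ _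
      exact ((cop2 hpo).mul_right ((Int.prime_three.coprime_iff_not_dvd).2 hp3).symm).mul_right
        hpq.pow_right
    obtain ⟨m, hm⟩ : ∃ m, p = m ^ 2 := by
      obtain ⟨m, hm⟩ := Int.sq_of_isCoprime cp e1'
      rcases hm with h5 | h5
      · exact ⟨m, h5⟩
      · exfalso
        have := sq_nonneg m
        omega
    obtain ⟨B, hB⟩ : ∃ B, p ^ 2 + 6 * q ^ 2 = B ^ 2 := by
      obtain ⟨B, hB⟩ := Int.sq_of_isCoprime cp.symm (by rw [mul_comm]; exact e1')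
      rcases hB with h5 | h5
      · exact ⟨B, h5⟩
      · exfalso
        have := sq_nonneg B
        have : 0 < p ^ 2 := by positivity
        have : 0 ≤ q ^ 2 := by positivity
        omega
    have sp := sq8zo hpo
    have sB := sq8z B
    have hqe : q % 2 = 0 := by
      rcases Int.emod_two_eq_zero_or_one q with h0 | h0
      · exact h0
      · exfalso
        have := sq8zo h0
        omega
    have hq3 : (3 : ℤ) ∣ q := by
      have k1 : (3 : ℤ) ∣ q * (3 * p ^ 2 + 2 * q ^ 2) := by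
        rw [e2', hα2]
        exact ⟨6 * α' ^ 2, by ring⟩
      rcases Int.prime_three.dvd_mul.1 k1 with k2 | k2
      · exact k2
      · have k3 : (3 : ℤ) ∣ q ^ 2 := by omega
        exact Int.prime_three.dvd_of_dvd_pow k3
    obtain ⟨t, rfl⟩ : ∃ t, q = 6 * t := ⟨q / 6, by omega⟩
    have e3 : t * (p ^ 2 + 24 * t ^ 2) = α' ^ 2 := by
      have : 18 * (t * (p ^ 2 + 24 * t ^ 2)) = 18 * α' ^ 2 := by
        rw [hα2] at e2'
        linear_combination e2'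
      omega
    have ct : IsCoprime t p := hpq.of_mul_right_right.symm
    have ct2 : IsCoprime t (p ^ 2 + 24 * t ^ 2) := by
      have e : p ^ 2 + 24 * t ^ 2 = p ^ 2 + t * (24 * t) := by ring
      rw [e]
      exact IsCoprime.add_mul_left_right ct.pow_right _
    obtain ⟨δ, hδ⟩ : ∃ δ, t = δ ^ 2 := by
      obtain ⟨m, hm⟩ := Int.sq_of_isCoprime ct2 e3
      rcases hm with h5 | h5
      · exact ⟨m, h5⟩
      · exfalso
        have := sq_nonneg m
        omega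
    obtain ⟨γ, hγ⟩ : ∃ γ, p ^ 2 + 24 * t ^ 2 = γ ^ 2 := by
      obtain ⟨B, hB⟩ := Int.sq_of_isCoprime ct2.symm (by rw [mul_comm]; exact e3)
      rcases hB with h5 | h5
      · exact ⟨B, h5⟩
      · exfalso
        have := sq_nonneg B
        have : 0 < p ^ 2 := by positivity
        have : 0 ≤ t ^ 2 := by positivity
        omega
    have hte : t % 2 = 0 := by
      have k1 : α' % 2 = 0 := by omega
      obtain ⟨u, hu⟩ : ∃ u, α' = 2 * u := ⟨α' / 2, by omega⟩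
      have k2 : α' ^ 2 = 2 * (2 * u ^ 2) := by rw [hu]; ring
      have k3 : (t * (p ^ 2 + 24 * t ^ 2)) % 2 = 0 := by omega
      have k4 : (p ^ 2 + 24 * t ^ 2) % 2 = 1 := by omega
      rw [Int.mul_emod, k4, mul_one, Int.emod_emod] at k3
      exact k3
    have hδe : δ % 2 = 0 := by
      rcases Int.emod_two_eq_zero_or_one δ with h0 | h0
      · exact h0
      · exfalso
        have := sq8zo h0
        omega
    have hmo : m % 2 = 1 := odd_of_even_sum (by omega)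
    have hm3 : ¬ (3 : ℤ) ∣ m := by
      intro h0
      apply hp3
      rw [hm]
      exact dvd_pow h0 (by norm_num)
    have n1 : ((m.natAbs : ℕ) : ℤ) ^ 4 = p ^ 2 := by
      rw [hm, ← Int.natAbs_sq m]
      ring
    have n2 : ((δ.natAbs : ℕ) : ℤ) ^ 4 = t ^ 2 := by
      rw [hδ, ← Int.natAbs_sq δ]
      ring
    have hlast : δ.natAbs = 0 := by
      refine t2_fin (M := m.natAbs) (Δ := δ.natAbs) (Γ := γ.natAbs) (B := B.natAbs) ?_ ?_ ?_ ?_
        ?_ ?_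
      · omega
      · omega
      · refine Int.isCoprime_iff_nat_coprime.1 ?_
        rw [hm, hδ] at ct
        exact ((IsCoprime.pow_iff (by norm_num) (by norm_num)).1 ct).symm
      · omega
      · have : ((γ.natAbs : ℕ) : ℤ) ^ 2 = ((m.natAbs : ℕ) : ℤ) ^ 4 +
            24 * ((δ.natAbs : ℕ) : ℤ) ^ 4 := by
          rw [n1, n2, Int.natAbs_sq, hγ]
        exact_mod_cast this
      · have : ((B.natAbs : ℕ) : ℤ) ^ 2 = ((m.natAbs : ℕ) : ℤ) ^ 4 +
            216 * ((δ.natAbs : ℕ) : ℤ) ^ 4 := by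
          rw [n1, n2, Int.natAbs_sq, ← hB]
          ring
        exact_mod_cast this
    have hδ0 : δ = 0 := Int.natAbs_eq_zero.1 hlast
    rw [hδ, hδ0] at hq0
    norm_num at hq0
  · have k1 : ((p : ZMod 9) ^ 3 + 6 * (p : ZMod 9) * (q : ZMod 9) ^ 2) +
        (3 * (p : ZMod 9) ^ 2 * (q : ZMod 9) + 2 * (q : ZMod 9) ^ 3) = 0 := by
      have k2 : P + Q = 9 * (2 * α' ^ 2) := by rw [← e2, hα2]; ring
      have k3 : ((P + Q : ℤ) : ZMod 9) = 0 := by
        rw [k2]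
        push_cast
        have : (9 : ZMod 9) = 0 := by decide
        rw [this, zero_mul]
      rw [hP, hQ] at k3
      push_cast at k3
      exact k3
    obtain ⟨k2, k3⟩ := z9a _ _ k1
    obtain ⟨k4, k5⟩ := no3 (z9c k2) (z9c k3)
    apply hβ2
    rw [e1]
    exact dvd_add k4 (Dvd.dvd.mul_left k5 2)
  · have k1 : 2 * ((p : ZMod 9) ^ 3 + 6 * (p : ZMod 9) * (q : ZMod 9) ^ 2) +
        3 * (3 * (p : ZMod 9) ^ 2 * (q : ZMod 9) + 2 * (q : ZMod 9) ^ 3) = 0 := by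
      have k2 : 2 * P + 3 * Q = 9 * (2 * α' ^ 2) := by rw [← e2, hα2]; ring
      have k3 : ((2 * P + 3 * Q : ℤ) : ZMod 9) = 0 := by
        rw [k2]
        push_cast
        have : (9 : ZMod 9) = 0 := by decide
        rw [this, zero_mul]
      rw [hP, hQ] at k3
      push_cast at k3
      exact k3
    obtain ⟨k2, k3⟩ := z9b _ _ k1
    obtain ⟨k4, k5⟩ := no3 (z9c k2) (z9c k3)
    apply hβ2
    rw [e1]
    exact dvd_add (Dvd.dvd.mul_left k4 3) (Dvd.dvd.mul_left k5 4)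

theorem S6aux {m n w X Y : ℤ} (hc : IsCoprime m n) (hm : m % 2 = 0)
    (h1 : m + n = Y ^ 2) (h2 : m * n = 8 * w ^ 4) (h0 : n - m = X ^ 3) : w = 0 := by
  by_contra hw
  have hn : n % 2 = 1 := by
    rcases Int.emod_two_eq_zero_or_one n with hx | hx
    · exfalso
      have := (six_odd hc (by omega)).1
      omega
    · exact hx
  have hn8 : IsCoprime (8 : ℤ) n := by
    have : IsCoprime ((2 : ℤ) ^ 3) n := (cop2 hn).symm.pow_left
    norm_num at this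
    exact this
  obtain ⟨m', rfl⟩ : (8 : ℤ) ∣ m := hn8.dvd_of_dvd_mul_right ⟨w ^ 4, h2⟩
  have h3 : m' * n = w ^ 4 := by
    have : 8 * (m' * n) = 8 * w ^ 4 := by linear_combination h2
    omega
  have hc' : IsCoprime m' n := hc.of_mul_left_right
  obtain ⟨a, ha⟩ := fourth_of hc' h3
  obtain ⟨b, hb⟩ := fourth_of hc'.symm (by rw [mul_comm]; exact h3)
  have hw4 : 0 < w ^ 4 := by positivity
  have ha4 : 0 ≤ (a : ℤ) ^ 4 := by positivity
  have hb4 : 0 ≤ (b : ℤ) ^ 4 := by positivity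
  have hY2 := sq_nonneg Y
  rcases ha with ha | ha <;> rcases hb with hb | hb
  · have hbo : (b : ℤ) % 2 = 1 := by
      rcases Int.emod_two_eq_zero_or_one (b : ℤ) with h4 | h4
      · exfalso
        obtain ⟨t, ht⟩ : ∃ t, (b : ℤ) = 2 * t := ⟨(b : ℤ) / 2, by omega⟩
        have k1 : (b : ℤ) ^ 4 = 2 * (8 * t ^ 4) := by rw [ht]; ring
        omega
      · exact h4
    have hab : IsCoprime (b : ℤ) (a : ℤ) := by
      rw [ha, hb] at hc'
      exact ((IsCoprime.pow_iff (by norm_num) (by norm_num)).1 hc').symm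
    have k0 : (a : ℤ) = 0 := t2_core hab hbo (y := Y) (x := X)
      (by rw [← h1, ha, hb]; ring) (by rw [← h0, ha, hb])
    rw [ha, k0] at h3
    norm_num at h3
    omega
  · have k1 : m' * n = -((a : ℤ) ^ 4 * (b : ℤ) ^ 4) := by rw [ha, hb]; ring
    have k2 : 0 ≤ (a : ℤ) ^ 4 * (b : ℤ) ^ 4 := by positivity
    omega
  · have k1 : m' * n = -((a : ℤ) ^ 4 * (b : ℤ) ^ 4) := by rw [ha, hb]; ring
    have k2 : 0 ≤ (a : ℤ) ^ 4 * (b : ℤ) ^ 4 := by positivity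
    omega
  · omega

/-- `y ^ 4 - x ^ 6 = 2 z ^ 4` with `x`, `y` coprime has only the solutions with `z = 0`. -/
theorem S6 {x y z : ℤ} (hc : IsCoprime x y) (h : y ^ 4 - x ^ 6 = 2 * z ^ 4) : z = 0 := by
  obtain ⟨hx, hy⟩ : x % 2 = 1 ∧ y % 2 = 1 := by
    refine six_odd hc ?_
    have h1 : (y ^ 4 - x ^ 6) % 2 = 0 := by omega
    rcases Int.emod_two_eq_zero_or_one x with hx | hx <;>
      rcases Int.emod_two_eq_zero_or_one y with hy | hy <;>
      simp [Int.mul_emod, Int.add_emod, Int.sub_emod, hx, hy, pow_succ] at h1 ⊢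
  have hx3 : x ^ 3 % 2 = 1 := by simp [Int.mul_emod, hx, pow_succ]
  have ox := sq8zo hx3
  have oy := sq8zo hy
  have oy4 := mod16 hy
  have x6 : x ^ 6 = (x ^ 3) ^ 2 := by ring
  obtain ⟨w, rfl⟩ : ∃ w, z = 2 * w := by
    have k2 : z ^ 4 % 2 = 0 := by omega
    have k3 : (2 : ℤ) ∣ z := Int.prime_two.dvd_of_dvd_pow (Int.dvd_of_emod_eq_zero k2)
    exact k3
  obtain ⟨m, hm⟩ : ∃ m, y ^ 2 - x ^ 3 = 2 * m := ⟨(y ^ 2 - x ^ 3) / 2, by omega⟩
  obtain ⟨n, hn⟩ : ∃ n, y ^ 2 + x ^ 3 = 2 * n := ⟨(y ^ 2 + x ^ 3) / 2, by omega⟩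
  have e1 : m + n = y ^ 2 := by omega
  have e2 : x ^ 3 = n - m := by omega
  have e3 : m * n = 8 * w ^ 4 := by
    have k1 : 4 * (m * n) = 4 * (8 * w ^ 4) := by
      have k4 : 4 * (m * n) = (2 * m) * (2 * n) := by ring
      rw [k4, ← hm, ← hn]
      linear_combination h
    omega
  have hmn : IsCoprime m n := by
    obtain ⟨a, b, hab⟩ : IsCoprime (x ^ 3) (y ^ 2) := hc.pow
    rw [← e1, e2] at hab
    exact ⟨b - a, a + b, by linear_combination hab⟩
  have hw : w = 0 := by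
    rcases Int.emod_two_eq_zero_or_one m with h4 | h4
    · exact S6aux hmn h4 e1 e3 e2.symm
    · have hn2 : n % 2 = 0 := by omega
      exact S6aux (X := -x) hmn.symm hn2 (by rw [add_comm]; exact e1)
        (by rw [mul_comm]; exact e3) (by
          have : (-x) ^ 3 = -(x ^ 3) := by ring
          rw [this, e2]
          ring)
  rw [hw]
  ring

/-- `2 u ^ (4 i) + v ^ (6 j) = w ^ (4 k)`. -/
theorem fam6 {u v w i j k : ℕ} (hj : 0 < j) (hk : 0 < k) (hu : 0 < u)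
    (h : 2 * u ^ (4 * i) + v ^ (6 * j) = w ^ (4 * k))
    (hg : ∀ l : ℕ, l.Prime → l ∣ u → l ∣ v → l ∣ w → False) : False := by
  have hz : 2 * (u : ℤ) ^ (4 * i) + (v : ℤ) ^ (6 * j) = (w : ℤ) ^ (4 * k) := by exact_mod_cast h
  have hc : Nat.Coprime w v := by
    refine cop_aux (m := 2) (ε := -1) (i := 2 * k) (j := 3 * j) (k := 4 * i) (w := u) (by norm_num)
      (by omega) (by omega) ?_ (fun l h1 h2 h3 h4 => hg l h1 h4 h3 h2)
    rw [show 2 * (2 * k) = 4 * k by ring, show 2 * (3 * j) = 6 * j by ring]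
    linear_combination -hz
  have hc2 : IsCoprime ((v : ℤ) ^ j) ((w : ℤ) ^ k) := (Nat.isCoprime_iff_coprime.2 hc.symm).pow
  have h2 : ((w : ℤ) ^ k) ^ 4 - ((v : ℤ) ^ j) ^ 6 = 2 * ((u : ℤ) ^ i) ^ 4 := by
    rw [← pow_mul, ← pow_mul, ← pow_mul, mul_comm i 4, mul_comm j 6, mul_comm k 4]
    linear_combination -hz
  have hu0 : ((u : ℤ) ^ i) ≠ 0 := by positivity
  exact hu0 (S6 hc2 h2)

end GF2
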