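import Pool.Agent.H.MP_81d9be_nt.R6

/-!
# MP_81d9be_nt: the system `a ^ 4 - 6 b ^ 4 = B ^ 2`, `a ^ 4 - 54 b ^ 4 = A ^ 2`
-/

set_option autoImplicit false

namespace GF2

theorem ext4 {a A c k M N j i : ℕ} (hk : k ≠ 0) (hM : M = 3 ^ (j + 1)) (hN : N = 2 ^ (i + 3))
    (hM8 : M % 8 = 3) (ha : a % 2 = 1) (ha3 : a % 3 ≠ 0) (hc : Nat.Coprime a c) (hc0 : 0 < c)
    (h : a ^ 4 = 4 * (M * (N * c ^ (2 * k))) + A ^ 2) :
    ∃ s t, a ^ 2 = M * (N * s ^ (2 * k)) + t ^ (2 * k) ∧ s * t = c := by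
  have hMp : IsPrimePow M := by
    rw [hM]
    exact pp3.pow (by omega)
  have hNp : IsPrimePow N := by
    rw [hN]
    exact Nat.prime_two.isPrimePow.pow (by omega)
  have hM0 : 0 < M := hMp.pos
  have hN0 : 0 < N := hNp.pos
  have hN8 : N % 8 = 0 := by
    rw [hN, pow_add]
    omega
  have hA : A % 2 = 1 := by
    have h1 := fo16 ha
    by_contra h0
    have h2 := sq16e (n := A) (by omega)
    omega
  have hA8 := sq8o hA
  have ha8 := sq8o ha
  have hlt : A < a ^ 2 := by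
    refine lt_of_pow_lt_pow_left₀ 2 (Nat.zero_le _) ?_
    have h1 : 0 < 4 * (M * (N * c ^ (2 * k))) := by positivity
    have h2 : (a ^ 2) ^ 2 = a ^ 4 := by ring
    omega
  obtain ⟨r, hr0, hr⟩ : ∃ r, 0 < r ∧ a ^ 2 = A + 2 * r :=
    ⟨(a ^ 2 - A) / 2, by omega, by omega⟩
  have h1 : (A + r) * r = M * (N * c ^ (2 * k)) := by
    have h2 : (A + 2 * r) ^ 2 = 4 * (M * (N * c ^ (2 * k))) + A ^ 2 := by
      rw [← hr, ← h]
      ring
    nlinarith
  have hcr : Nat.Coprime (A + r) r := by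
    rw [Nat.coprime_add_self_left]
    by_contra hng
    obtain ⟨l, hl, h2, h3⟩ := Nat.Prime.not_coprime_iff_dvd.1 hng
    have h4 : l ∣ a := by
      refine hl.dvd_of_dvd_pow (n := 2) ?_
      rw [hr]
      exact dvd_add h2 (Dvd.dvd.mul_left h3 2)
    have h5 : l ∣ M * (N * c ^ (2 * k)) := by
      rw [← h1]
      exact Dvd.dvd.mul_left h3 _
    rcases (Nat.Prime.dvd_mul hl).1 h5 with h6 | h6
    · rw [hM] at h6
      have := dvd3 hl h6
      subst this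
      omega
    · rcases (Nat.Prime.dvd_mul hl).1 h6 with h7 | h7
      · rw [hN] at h7
        have := dvd2 hl h7
        subst this
        omega
      · exact cop_no hc hl h4 (hl.dvd_of_dvd_pow h7)
  have hprod : ∀ s t : ℕ, M * (N * s ^ (2 * k)) * t ^ (2 * k) = M * (N * c ^ (2 * k)) →
      s * t = c := by
    intro s t h2
    have h3 : M * (N * (s * t) ^ (2 * k)) = M * (N * c ^ (2 * k)) := by
      rw [← h2, mul_pow]
      ring
    have h4 : (s * t) ^ (2 * k) = c ^ (2 * k) :=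
      Nat.eq_of_mul_eq_mul_left hN0 (Nat.eq_of_mul_eq_mul_left hM0 h3)
    exact (Nat.pow_left_injective (n := 2 * k) (by omega)) h4
  have hbad : ∀ u v : ℕ, Nat.Coprime (M * u ^ (2 * k)) (N * v ^ (2 * k)) →
      a ^ 2 = M * u ^ (2 * k) + N * v ^ (2 * k) → False := by
    intro u v h2 h3
    have h4 : 2 ∣ N * v ^ (2 * k) := Dvd.dvd.mul_right (by omega) _
    have h5 := odd_of_cop h2.symm h4
    have hu : u % 2 = 1 := by
      by_contra h0
      have h6 : 2 ∣ u ^ (2 * k) := dvd_pow (by omega) (by omega)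
      have h7 : 2 ∣ M * u ^ (2 * k) := Dvd.dvd.mul_left h6 _
      omega
    have h6 : u ^ (2 * k) % 8 = 1 := by
      rw [mul_comm, pow_mul]
      refine sq8o ?_
      have : u ^ k % 2 = 1 := by
        rw [Nat.pow_mod, hu]
        simp
      exact this
    have h7 : (M * u ^ (2 * k)) % 8 = 3 := by
      rw [Nat.mul_mod, h6, hM8]
    have h8 : (N * v ^ (2 * k)) % 8 = 0 := by
      rw [Nat.mul_mod, hN8]
      simp
    omega
  rcases spl2 hMp hNp hcr h1 with ⟨u, v, h2, h3⟩ | ⟨u, v, h2, h3⟩ | ⟨u, v, h2, h3⟩ |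
    ⟨u, v, h2, h3⟩
  · exact ⟨u, v, by omega, hprod u v (by rw [← h2, ← h3, h1])⟩
  · exfalso
    refine hbad u v ?_ (by omega)
    rw [h2, h3] at hcr
    exact hcr
  · exfalso
    refine hbad v u ?_ (by omega)
    rw [h2, h3] at hcr
    exact hcr.symm
  · exact ⟨v, u, by omega, hprod v u (by rw [← h2, ← h3, mul_comm, h1])⟩

theorem ad {a b A B : ℕ} (ha : a % 2 = 1) (ha3 : a % 3 ≠ 0) (hc : Nat.Coprime a b)
    (h1 : a ^ 4 = 6 * b ^ 4 + B ^ 2) (h2 : a ^ 4 = 54 * b ^ 4 + A ^ 2) : b = 0 := by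
  by_contra hb
  have ha16 := fo16 ha
  have hb2 : b % 2 = 0 := by
    by_contra h0
    have h3 := fo16 (n := b) (by omega)
    have h4 := sq8 B
    omega
  obtain ⟨c, rfl⟩ : ∃ c, b = 2 * c := ⟨b / 2, by omega⟩
  have hc0 : 0 < c := by omega
  have hac : Nat.Coprime a c := Nat.Coprime.coprime_dvd_right ⟨2, by ring⟩ hc
  obtain ⟨s, t, e1, e2⟩ := ext4 (k := 2) (M := 3) (N := 8) (j := 0) (i := 0) (c := c) (A := B)
    (by norm_num) (by norm_num) (by norm_num) (by norm_num) ha ha3 hac hc0 (by rw [h1]; ring)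
  obtain ⟨σ, τ, e3, e4⟩ := ext4 (k := 2) (M := 27) (N := 8) (j := 2) (i := 0) (c := c) (A := A)
    (by norm_num) (by norm_num) (by norm_num) (by norm_num) ha ha3 hac hc0 (by rw [h2]; ring)
  norm_num at e1 e3
  have hsc : Nat.Coprime a s := Nat.Coprime.coprime_dvd_right ⟨t, by rw [e2]⟩ hac
  have htc : Nat.Coprime a t := Nat.Coprime.coprime_dvd_right ⟨s, by rw [← e2, mul_comm]⟩ hac
  have hs0 : 0 < s := by
    rcases Nat.eq_zero_or_pos s with h0 | h0
    · subst h0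
      omega
    · exact h0
  have ht0 : 0 < t := by
    rcases Nat.eq_zero_or_pos t with h0 | h0
    · subst h0
      omega
    · exact h0
  have hσ0 : 0 < σ := by
    rcases Nat.eq_zero_or_pos σ with h0 | h0
    · subst h0
      omega
    · exact h0
  have ha8 := sq8o ha
  have hto : t % 2 = 1 := by
    have h3 := fo8 t
    omega
  have hτo : τ % 2 = 1 := by
    have h3 := fo8 τ
    omega
  have ha23 : a ^ 2 % 3 = 1 := by
    rcases sq3 a with h3 | h3
    · omega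
    · exact h3.1
  have ht3 : t % 3 ≠ 0 := by
    rcases fo3' t with h3 | h3
    · omega
    · exact h3.2
  have hst : Nat.Coprime s t := by
    by_contra hng
    obtain ⟨l, hl, h3, h4⟩ := Nat.Prime.not_coprime_iff_dvd.1 hng
    have h5 : l ∣ a ^ 2 := by
      rw [e1]
      exact dvd_add (Dvd.dvd.mul_left (Dvd.dvd.mul_left (dvd_pow h3 (by norm_num)) _) _)
        (dvd_pow h4 (by norm_num))
    exact cop_no hsc hl (hl.dvd_of_dvd_pow h5) h3
  -- four numbers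
  obtain ⟨β, γ, hβγ, f1, f2⟩ := Nat.exists_coprime s σ
  set α := Nat.gcd s σ with hα
  have hα0 : 0 < α := Nat.gcd_pos_of_pos_left _ hs0
  have hγ0 : 0 < γ := by
    rcases Nat.eq_zero_or_pos γ with h0 | h0
    · rw [h0] at f2
      omega
    · exact h0
  have h4 : β * t = γ * τ := by
    have : α * (β * t) = α * (γ * τ) := by
      calc α * (β * t) = β * α * t := by ring
        _ = s * t := by rw [← f1]
        _ = σ * τ := by rw [e2, e4]
        _ = γ * α * τ := by rw [← f2]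
        _ = α * (γ * τ) := by ring
    exact Nat.eq_of_mul_eq_mul_left hα0 this
  obtain ⟨δ, rfl⟩ : γ ∣ t := hβγ.symm.dvd_of_dvd_mul_left ⟨τ, h4⟩
  have h5 : τ = β * δ := by
    have : γ * τ = γ * (β * δ) := by rw [← h4]; ring
    exact Nat.eq_of_mul_eq_mul_left hγ0 this
  have hγo : γ % 2 = 1 := by
    by_contra h0
    have h6 : 2 ∣ γ * δ := Dvd.dvd.mul_right (by omega) _
    omega
  have hδo : δ % 2 = 1 := by
    by_contra h0
    have h6 : 2 ∣ γ * δ := Dvd.dvd.mul_left (by omega) _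
    omega
  have hβo : β % 2 = 1 := by
    by_contra h0
    have h6 : 2 ∣ β * δ := Dvd.dvd.mul_right (by omega) _
    omega
  have hδ3 : δ % 3 ≠ 0 := by
    intro h0
    have h6 : 3 ∣ γ * δ := Dvd.dvd.mul_left (by omega) _
    omega
  have hαδ : Nat.Coprime α δ :=
    Nat.Coprime.coprime_dvd_left ⟨β, by rw [f1]; ring⟩
      (Nat.Coprime.coprime_dvd_right ⟨γ, by ring⟩ hst)
  have h6 : 24 * (α : ℤ) ^ 4 * ((β : ℤ) ^ 4 - 9 * (γ : ℤ) ^ 4) =
      (δ : ℤ) ^ 4 * ((β : ℤ) ^ 4 - (γ : ℤ) ^ 4) := by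
    have k1 : (3 : ℤ) * (8 * (s : ℤ) ^ 4) + ((γ * δ : ℕ) : ℤ) ^ 4 =
        27 * (8 * (σ : ℤ) ^ 4) + (τ : ℤ) ^ 4 := by
      exact_mod_cast e1.symm.trans e3
    rw [f1, f2, h5] at k1
    push_cast at k1
    linear_combination k1
  have c1 : IsCoprime ((δ : ℤ) ^ 4) (24 * (α : ℤ) ^ 4) := by
    refine IsCoprime.mul_right ?_ (IsCoprime.pow (Nat.isCoprime_iff_coprime.2 hαδ.symm))
    have c2 : IsCoprime (δ : ℤ) (24 : ℤ) := by
      have c3 : Nat.Coprime δ 24 := by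
        have e24 : (24 : ℕ) = 2 ^ 3 * 3 := by norm_num
        rw [e24]
        refine Nat.Coprime.mul_right (Nat.Coprime.pow_right 3 ?_) ?_
        · rw [Nat.coprime_two_right]
          exact Nat.odd_iff.2 hδo
        · refine Nat.Coprime.symm ?_
          rw [Nat.prime_three.coprime_iff_not_dvd]
          omega
      exact_mod_cast Nat.isCoprime_iff_coprime.2 c3
    exact c2.pow_left
  obtain ⟨k, hk⟩ : (δ : ℤ) ^ 4 ∣ (β : ℤ) ^ 4 - 9 * (γ : ℤ) ^ 4 :=
    c1.dvd_of_dvd_mul_left ⟨_, h6⟩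
  have hδz : (δ : ℤ) ^ 4 ≠ 0 := by
    have : δ ≠ 0 := by omega
    positivity
  have hk2 : (β : ℤ) ^ 4 - (γ : ℤ) ^ 4 = 24 * k * (α : ℤ) ^ 4 := by
    have : (δ : ℤ) ^ 4 * ((β : ℤ) ^ 4 - (γ : ℤ) ^ 4) =
        (δ : ℤ) ^ 4 * (24 * k * (α : ℤ) ^ 4) := by
      rw [← h6, hk]
      ring
    exact mul_left_cancel₀ hδz this
  have hk3 : k ∣ 8 := by
    obtain ⟨x, y, hxy⟩ : IsCoprime ((β : ℤ) ^ 4) ((γ : ℤ) ^ 4) :=
      IsCoprime.pow (Nat.isCoprime_iff_coprime.2 hβγ)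
    refine ⟨x * (216 * (α : ℤ) ^ 4 - (δ : ℤ) ^ 4) + y * (24 * (α : ℤ) ^ 4 - (δ : ℤ) ^ 4), ?_⟩
    linear_combination -8 * hxy + x * (9 * hk2 - hk) + y * (hk2 - hk)
  have o1 : ((β : ℤ) ^ 4) % 16 = 1 := by exact_mod_cast fo16 hβo
  have o2 : ((γ : ℤ) ^ 4) % 16 = 1 := by exact_mod_cast fo16 hγo
  have o3 : ((δ : ℤ) ^ 4) % 16 = 1 := by exact_mod_cast fo16 hδo
  have hkm : k % 16 = 8 := by
    have k1 : ((δ : ℤ) ^ 4 * k) % 16 = k % 16 := by
      rw [Int.mul_emod, o3, one_mul]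
      omega
    omega
  have k1 : k ≤ 8 := Int.le_of_dvd (by norm_num) hk3
  have k2 : -8 ≤ k := by
    have := Int.le_of_dvd (by norm_num) ((neg_dvd).2 hk3)
    omega
  have hk8 : k = 8 ∨ k = -8 := by omega
  rcases hk8 with rfl | rfl
  · -- `γ ^ 4 + δ ^ 4 = 24 α ^ 4`
    have h7 : γ ^ 4 + δ ^ 4 = 24 * α ^ 4 := by
      zify
      linarith
    have h8 := fo3' γ
    have h9 := fo3' δ
    omega
  · have h7 : δ ^ 4 = γ ^ 4 + 24 * α ^ 4 := by
      zify
      linarith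
    have h8 := fin6 hδo hγo hδ3 hαδ h7
    omega

end GF2
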