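import Pool.Agent.H.MP_81d9be_nt.BG

/-!
# MP_81d9be_nt: `y ^ 8 + 2 z ^ 4 = x ^ 3`
-/

set_option autoImplicit false

namespace GF2

theorem T84 {x y z : ℤ} (hc : IsCoprime y z) (h : y ^ 8 + 2 * z ^ 4 = x ^ 3) : z = 0 := by
  obtain ⟨P, Q, hPQ, hP, hy, hz⟩ := start (y := y ^ 2) (Z := z ^ 2) (x := x)
    (hc.pow_left.pow_right) (by rw [← h]; ring)
  by_cases hQ0 : Q = 0
  · rw [hQ0, zero_mul] at hz
    exact pow_eq_zero_iff (by norm_num) |>.1 hz.symm
  have hP8 := sq8zo hP
  by_cases h3 : Q % 3 = 0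
  · obtain ⟨q, rfl⟩ : ∃ q, Q = 3 * q := ⟨Q / 3, by omega⟩
    have hP3 : P % 3 ≠ 0 := by
      intro h0
      have h1 : IsUnit (3 : ℤ) := hPQ.isUnit_of_dvd' (Int.dvd_of_emod_eq_zero h0) ⟨q, rfl⟩
      rw [Int.isUnit_iff] at h1
      omega
    have hP9 := sq3z hP3
    obtain ⟨z', rfl⟩ : (3 : ℤ) ∣ z := by
      refine Int.prime_three.dvd_of_dvd_pow (n := 2) ⟨q * (3 * P ^ 2 - 2 * (3 * q) ^ 2), ?_⟩
      rw [← hz]
      ring
    have h4 : q * (P ^ 2 - 6 * q ^ 2) = z' ^ 2 := by
      have : 9 * (q * (P ^ 2 - 6 * q ^ 2)) = 9 * z' ^ 2 := by linear_combination hz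
      omega
    have hPq : IsCoprime P q := IsCoprime.of_mul_right_right hPQ
    have h7 : IsCoprime q (P ^ 2 - 6 * q ^ 2) := by
      have e : P ^ 2 - 6 * q ^ 2 = P ^ 2 + q * (-6 * q) := by ring
      rw [e]
      exact IsCoprime.add_mul_left_right hPq.symm.pow_right _
    obtain ⟨b, hb⟩ := Int.sq_of_isCoprime h7 h4
    obtain ⟨B, hB⟩ := Int.sq_of_isCoprime h7.symm (by rw [mul_comm]; exact h4)
    have hB1 : P ^ 2 - 6 * q ^ 2 = B ^ 2 := by
      rcases hB with h8 | h8
      · exact h8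
      · exfalso
        have := sq3z' B
        omega
    have hq2 : q ^ 2 = b ^ 4 := by
      rcases hb with h8 | h8 <;> rw [h8] <;> ring
    rcases ypart hPQ hP hy with ⟨-, a, A, ha, hA⟩ | ⟨h8, -⟩
    · have k1 : a.natAbs ^ 4 = 6 * b.natAbs ^ 4 + B.natAbs ^ 2 := by
        zify
        rw [Even.pow_abs (by decide), Even.pow_abs (by decide), sq_abs]
        rw [ha] at hB1
        linear_combination hB1 + 6 * hq2
      have k2 : a.natAbs ^ 4 = 54 * b.natAbs ^ 4 + A.natAbs ^ 2 := by
        zify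
        rw [Even.pow_abs (by decide), Even.pow_abs (by decide), sq_abs]
        rw [ha] at hA
        linear_combination hA + 54 * hq2
      have hao : a % 2 = 1 := by
        by_contra h0
        obtain ⟨c, rfl⟩ : ∃ c, a = 2 * c := ⟨a / 2, by omega⟩
        have : (2 * c) ^ 2 = 4 * c ^ 2 := by ring
        omega
      have ha3 : a % 3 ≠ 0 := by
        intro h0
        obtain ⟨c, rfl⟩ : ∃ c, a = 3 * c := ⟨a / 3, by omega⟩
        have : (3 * c) ^ 2 = 3 * (3 * c ^ 2) := by ring
        omega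
      have haq : IsCoprime a q := by
        rw [ha] at hPq
        exact (IsCoprime.pow_left_iff two_pos).1 hPq
      have hab : IsCoprime a b := by
        have h9 : IsCoprime a (b ^ 2) := by
          rcases hb with h8 | h8
          · rwa [h8] at haq
          · rw [h8] at haq
            exact (IsCoprime.neg_right_iff _ _).1 haq
        exact (IsCoprime.pow_right_iff two_pos).1 h9
      have k3 := ad (by omega) (by omega) (Int.isCoprime_iff_nat_coprime.1 hab) k1 k2
      have k4 : b = 0 := Int.natAbs_eq_zero.1 k3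
      have k5 : q = 0 := by
        rw [k4] at hq2
        have : q ^ 2 = 0 := by rw [hq2]; norm_num
        exact pow_eq_zero_iff two_ne_zero |>.1 this
      exact absurd (by rw [k5]; norm_num) hQ0
    · exact absurd h8 hP3
  · exfalso
    obtain ⟨b, hb⟩ := Int.sq_of_isCoprime (zcop hPQ h3) hz
    obtain ⟨B, hB⟩ := Int.sq_of_isCoprime (zcop hPQ h3).symm (by rw [mul_comm]; exact hz)
    have hB8 := sq8z B
    have hQ8' := sq8z Q
    have hQ2 : Q ^ 2 % 8 = 1 ∧ 3 * P ^ 2 - 2 * Q ^ 2 = B ^ 2 := by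
      rcases hB with h8 | h8 <;> constructor <;> omega
    obtain ⟨hQ8, hB1⟩ := hQ2
    have hQo : Q % 2 = 1 := by
      by_contra h0
      obtain ⟨c, rfl⟩ : ∃ c, Q = 2 * c := ⟨Q / 2, by omega⟩
      have e1 : (2 * c) ^ 2 = 4 * c ^ 2 := by ring
      omega
    have hq2 : Q ^ 2 = b ^ 4 := by
      rcases hb with h8 | h8 <;> rw [h8] <;> ring
    have hbo : b % 2 = 1 := by
      by_contra h0
      obtain ⟨c, rfl⟩ : ∃ c, b = 2 * c := ⟨b / 2, by omega⟩
      have e1 : (2 * c) ^ 4 = 2 * (8 * c ^ 4) := by ring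
      omega
    have hb3 : b % 3 ≠ 0 := by
      intro h0
      obtain ⟨c, rfl⟩ : ∃ c, b = 3 * c := ⟨b / 3, by omega⟩
      have e1 : (3 * c) ^ 2 = 3 * (3 * c ^ 2) := by ring
      rcases hb with h8 | h8 <;> omega
    rcases ypart hPQ hP hy with ⟨-, a, A, ha, hA⟩ | ⟨-, a, A, ha, hA⟩
    · have := sq8z A
      omega
    · have hao : a % 2 = 1 := by
        by_contra h0
        obtain ⟨c, rfl⟩ : ∃ c, a = 2 * c := ⟨a / 2, by omega⟩
        have : (2 * c) ^ 2 = 4 * c ^ 2 := by ring
        omega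
      have hab : IsCoprime a b := by
        have h8 : IsCoprime a Q := by
          rw [ha] at hPQ
          exact (IsCoprime.pow_left_iff two_pos).1 (IsCoprime.of_mul_left_right hPQ)
        have h9 : IsCoprime a (b ^ 2) := by
          rcases hb with h10 | h10
          · rwa [h10] at h8
          · rw [h10] at h8
            exact (IsCoprime.neg_right_iff _ _).1 h8
        exact (IsCoprime.pow_right_iff two_pos).1 h9
      have k1 : 3 * a.natAbs ^ 4 = 2 * b.natAbs ^ 4 + A.natAbs ^ 2 := by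
        zify
        rw [Even.pow_abs (by decide), Even.pow_abs (by decide), sq_abs]
        linear_combination hA + 2 * hq2
      have k2 : 27 * a.natAbs ^ 4 = 2 * b.natAbs ^ 4 + B.natAbs ^ 2 := by
        zify
        rw [Even.pow_abs (by decide), Even.pow_abs (by decide), sq_abs]
        rw [ha] at hB1
        linear_combination hB1 + 2 * hq2
      have k3 : 3 * a.natAbs * A.natAbs = y.natAbs ^ 2 := by
        have h10 : (3 * a.natAbs * A.natAbs) ^ 2 = (y.natAbs ^ 2) ^ 2 := by
          zify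
          have e1 : (3 * |a| * |A|) ^ 2 = 9 * (|a| ^ 2 * |A| ^ 2) := by ring
          rw [e1, sq_abs, sq_abs, sq_abs, ← hy, ha]
          linear_combination (-9 * a ^ 2) * hA
        exact (Nat.pow_left_injective two_ne_zero) h10
      exact bg (by omega) (by omega) (by omega) (Int.isCoprime_iff_nat_coprime.1 hab) k1 k2 k3

end GF2
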