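import Pool.Agent.H.MP_81d9be_nt.CkA1
import Pool.Agent.H.MP_81d9be_nt.CkA2
import Pool.Agent.H.MP_81d9be_nt.CkA3
import Pool.Agent.H.MP_81d9be_nt.CkB1
import Pool.Agent.H.MP_81d9be_nt.CkB2
import Pool.Agent.H.MP_81d9be_nt.CkB3
import Pool.Agent.H.MP_81d9be_nt.Gen2

/-!
# MP_81d9be_nt: all exponents with a small prime factor
-/

set_option autoImplicit false

namespace GF2

/-- The prime numbers below `1000`. -/
def PL : List ℕ :=
  [2, 3, 5, 7, 11, 13, 17, 19, 23, 29, 31, 37, 41, 43, 47, 53, 59, 61, 67, 71, 73, 79, 83, 89,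
    97, 101, 103, 107, 109, 113, 127, 131, 137, 139, 149, 151, 157, 163, 167, 173, 179, 181, 191,
    193, 197, 199, 211, 223, 227, 229, 233, 239, 241, 251, 257, 263, 269, 271, 277, 281, 283,
    293, 307, 311, 313, 317, 331, 337, 347, 349, 353, 359, 367, 373, 379, 383, 389, 397, 401,
    409, 419, 421, 431, 433, 439, 443, 449, 457, 461, 463, 467, 479, 487, 491, 499, 503, 509,
    521, 523, 541, 547, 557, 563, 569, 571, 577, 587, 593, 599, 601, 607, 613, 617, 619, 631,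
    641, 643, 647, 653, 659, 661, 673, 677, 683, 691, 701, 709, 719, 727, 733, 739, 743, 751,
    757, 761, 769, 773, 787, 797, 809, 811, 821, 823, 827, 829, 839, 853, 857, 859, 863, 877,
    881, 883, 887, 907, 911, 919, 929, 937, 941, 947, 953, 967, 971, 977, 983, 991, 997]

theorem PL_eq : PL =
    [2, 3, 5, 7, 11, 13, 17, 19, 23, 29] ++ ([31, 37, 41, 43, 47, 53, 59, 61, 67, 71] ++ ([73,
    79, 83, 89, 97, 101, 103, 107, 109, 113] ++ ([127, 131, 137, 139, 149, 151, 157, 163, 167,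
    173] ++ ([179, 181, 191, 193, 197, 199, 211, 223, 227, 229] ++ ([233, 239, 241, 251, 257,
    263, 269, 271, 277, 281] ++ ([283, 293, 307, 311, 313, 317, 331, 337, 347, 349] ++ ([353,
    359, 367, 373, 379, 383, 389, 397] ++ ([401, 409, 419, 421, 431, 433, 439, 443, 449, 457] ++
    ([461, 463, 467, 479, 487, 491, 499, 503, 509, 521] ++ ([523, 541, 547, 557, 563, 569, 571,
    577, 587, 593] ++ ([599, 601, 607, 613, 617, 619, 631, 641, 643, 647] ++ ([653, 659, 661,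
    673, 677, 683, 691] ++ ([701, 709, 719, 727, 733, 739, 743, 751, 757, 761] ++ ([769, 773,
    787, 797, 809, 811, 821, 823, 827, 829] ++ ([839, 853, 857, 859, 863, 877, 881, 883, 887,
    907] ++ ([911, 919, 929, 937, 941, 947, 953, 967, 971, 977] ++ ([983, 991,
    997]))))))))))))))))) := by
  decide +kernel

theorem PL_A : ∀ p ∈ PL, NA p := by
  rw [PL_eq]
  exact
    List.forall_mem_append.2 ⟨CkA1_0, List.forall_mem_append.2 ⟨CkA1_1, List.forall_mem_append.2
      ⟨CkA1_2, List.forall_mem_append.2 ⟨CkA1_3, List.forall_mem_append.2 ⟨CkA1_4,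
      List.forall_mem_append.2 ⟨CkA1_5, List.forall_mem_append.2 ⟨CkA1_6,
      List.forall_mem_append.2 ⟨CkA1_7, List.forall_mem_append.2 ⟨CkA2_0,
      List.forall_mem_append.2 ⟨CkA2_1, List.forall_mem_append.2 ⟨CkA2_2,
      List.forall_mem_append.2 ⟨CkA2_3, List.forall_mem_append.2 ⟨CkA2_4,
      List.forall_mem_append.2 ⟨CkA3_0, List.forall_mem_append.2 ⟨CkA3_1,
      List.forall_mem_append.2 ⟨CkA3_2, List.forall_mem_append.2 ⟨CkA3_3, CkA3_4⟩⟩⟩⟩⟩⟩⟩⟩⟩⟩⟩⟩⟩⟩⟩⟩⟩

theorem PL_B : ∀ p ∈ PL, NB p := by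
  rw [PL_eq]
  exact
    List.forall_mem_append.2 ⟨CkB1_0, List.forall_mem_append.2 ⟨CkB1_1, List.forall_mem_append.2
      ⟨CkB1_2, List.forall_mem_append.2 ⟨CkB1_3, List.forall_mem_append.2 ⟨CkB1_4,
      List.forall_mem_append.2 ⟨CkB1_5, List.forall_mem_append.2 ⟨CkB1_6,
      List.forall_mem_append.2 ⟨CkB1_7, List.forall_mem_append.2 ⟨CkB2_0,
      List.forall_mem_append.2 ⟨CkB2_1, List.forall_mem_append.2 ⟨CkB2_2,
      List.forall_mem_append.2 ⟨CkB2_3, List.forall_mem_append.2 ⟨CkB2_4,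
      List.forall_mem_append.2 ⟨CkB3_0, List.forall_mem_append.2 ⟨CkB3_1,
      List.forall_mem_append.2 ⟨CkB3_2, List.forall_mem_append.2 ⟨CkB3_3, CkB3_4⟩⟩⟩⟩⟩⟩⟩⟩⟩⟩⟩⟩⟩⟩⟩⟩⟩

/-- Some element of the list divides `s`. -/
def anyD (s : ℕ) : List ℕ → Bool
  | [] => false
  | p :: L => Nat.beq (Nat.mod s p) 0 || anyD s L

theorem anyD_spec {s : ℕ} {L : List ℕ} (h : anyD s L = true) : ∃ p ∈ L, p ∣ s := by
  induction L with
  | nil => exact absurd h (by simp [anyD])
  | cons p L ih =>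
    rw [anyD, Bool.or_eq_true, Nat.beq_eq] at h
    rcases h with h | h
    · exact ⟨p, List.mem_cons_self, Nat.dvd_of_mod_eq_zero h⟩
    · obtain ⟨p', h1, h2⟩ := ih h
      exact ⟨p', List.mem_cons_of_mem _ h1, h2⟩

/-- Some element of the list divides `s`, for all `2 ≤ s < n + 2`. -/
def allR (L : List ℕ) : ℕ → Bool
  | 0 => true
  | n + 1 => anyD (n + 2) L && allR L n

theorem allR_spec {L : List ℕ} {n : ℕ} (h : allR L n = true) :
    ∀ s, 2 ≤ s → s < n + 2 → ∃ p ∈ L, p ∣ s := by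
  induction n with
  | zero => intro s h1 h2; omega
  | succ n ih =>
    rw [allR, Bool.and_eq_true] at h
    intro s h1 h2
    rcases Nat.lt_or_ge s (n + 2) with h3 | h3
    · exact ih h.2 s h1 h3
    · have h4 : s = n + 2 := by omega
      rw [h4]
      exact anyD_spec h.1

theorem PL_dvd {s : ℕ} (h2 : 2 ≤ s) (h : s ≤ 1008) : ∃ p ∈ PL, p ∣ s :=
  allR_spec (L := PL) (n := 1007) (by decide +kernel) s h2 (by omega)

/-- The exponents for which both families are settled. -/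
theorem NA_good {s : ℕ} (h2 : 2 ≤ s) (h : s ≤ 1008 ∨ (2 * s + 1).Prime ∨ (4 * s + 1).Prime ∨
    (6 * s + 1).Prime ∨ (8 * s + 1).Prime) : NA s := by
  by_cases h3 : s ≤ 1008
  · obtain ⟨p, h4, h5⟩ := PL_dvd h2 h3
    exact (PL_A p h4).dvd h5
  · rcases h with h | h | h | h | h
    · exact absurd h h3
    · exact NA_two (by omega) h (by omega) (by omega) (by omega)
    · exact NA_four h2 h (by omega) (by omega)
    · by_cases h4 : s % 3 = 0
      · exact NA3.dvd (Nat.dvd_of_mod_eq_zero h4)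
      · exact NA_six (by omega) h h4
    · exact NA_eight (by omega) h

theorem NB_good {s : ℕ} (h2 : 2 ≤ s) (h : s ≤ 1008 ∨ (4 * s + 1).Prime ∨ (6 * s + 1).Prime ∨
    (8 * s + 1).Prime) : NB s := by
  by_cases h3 : s ≤ 1008
  · obtain ⟨p, h4, h5⟩ := PL_dvd h2 h3
    exact (PL_B p h4).dvd h5
  · by_cases h4 : s % 3 = 0
    · exact NB3.dvd (Nat.dvd_of_mod_eq_zero h4)
    · rcases h with h | h | h | h
      · exact absurd h h3
      · exact NB_four h2 h h4 (by omega)
      · by_cases h5 : s % 2 = 0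
        · exact NB2.dvd (Nat.dvd_of_mod_eq_zero h5)
        · exact NB_six (by omega) h (by omega)
      · exact NB_eight (by omega) h h4

end GF2
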