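import Mathlib

/-!
# MP_81d9be_nt, elementary tools: coprime products that are powers up to prime powers
-/

set_option autoImplicit false

namespace GF2

theorem pw {a b c k : ℕ} (h : Nat.Coprime a b) (e : a * b = c ^ k) :
    (∃ d, a = d ^ k) ∧ ∃ d, b = d ^ k := by
  have h1 : IsUnit (gcd a b) := by
    rw [Nat.isUnit_iff]
    exact h
  have h2 : IsUnit (gcd b a) := by
    rw [Nat.isUnit_iff]
    exact h.symm
  exact ⟨exists_eq_pow_of_mul_eq_pow h1 e, exists_eq_pow_of_mul_eq_pow h2 ((mul_comm b a).trans e)⟩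

theorem spl {A B e k M : ℕ} (hM : IsPrimePow M) (h : Nat.Coprime A B)
    (he : A * B = M * e ^ k) :
    (∃ s t, A = M * s ^ k ∧ B = t ^ k) ∨ (∃ s t, A = s ^ k ∧ B = M * t ^ k) := by
  have hM0 : 0 < M := hM.pos
  rcases (h.isPrimePow_dvd_mul hM).1 ⟨e ^ k, he⟩ with ⟨A', rfl⟩ | ⟨B', rfl⟩
  · left
    have h1 : A' * B = e ^ k := by
      rw [mul_assoc] at he
      exact Nat.eq_of_mul_eq_mul_left hM0 he
    obtain ⟨⟨s, rfl⟩, ⟨t, rfl⟩⟩ := pw (Nat.Coprime.coprime_dvd_left ⟨M, mul_comm _ _⟩ h) h1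
    exact ⟨s, t, rfl, rfl⟩
  · right
    have h1 : A * B' = e ^ k := by
      rw [mul_left_comm] at he
      exact Nat.eq_of_mul_eq_mul_left hM0 he
    obtain ⟨⟨s, rfl⟩, ⟨t, rfl⟩⟩ := pw (Nat.Coprime.coprime_dvd_right ⟨M, mul_comm _ _⟩ h) h1
    exact ⟨s, t, rfl, rfl⟩

theorem spl2 {A B e k M N : ℕ} (hM : IsPrimePow M) (hN : IsPrimePow N) (h : Nat.Coprime A B)
    (he : A * B = M * (N * e ^ k)) :
    (∃ s t, A = M * (N * s ^ k) ∧ B = t ^ k) ∨ (∃ s t, A = M * s ^ k ∧ B = N * t ^ k) ∨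
    (∃ s t, A = N * s ^ k ∧ B = M * t ^ k) ∨ (∃ s t, A = s ^ k ∧ B = M * (N * t ^ k)) := by
  have hM0 : 0 < M := hM.pos
  rcases (h.isPrimePow_dvd_mul hM).1 ⟨N * e ^ k, he⟩ with ⟨A', rfl⟩ | ⟨B', rfl⟩
  · have h1 : A' * B = N * e ^ k := by
      rw [mul_assoc] at he
      exact Nat.eq_of_mul_eq_mul_left hM0 he
    rcases spl hN (Nat.Coprime.coprime_dvd_left ⟨M, mul_comm _ _⟩ h) h1 with
      ⟨s, t, rfl, rfl⟩ | ⟨s, t, rfl, rfl⟩
    · exact Or.inl ⟨s, t, rfl, rfl⟩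
    · exact Or.inr (Or.inl ⟨s, t, rfl, rfl⟩)
  · have h1 : A * B' = N * e ^ k := by
      rw [mul_left_comm] at he
      exact Nat.eq_of_mul_eq_mul_left hM0 he
    rcases spl hN (Nat.Coprime.coprime_dvd_right ⟨M, mul_comm _ _⟩ h) h1 with
      ⟨s, t, rfl, rfl⟩ | ⟨s, t, rfl, rfl⟩
    · exact Or.inr (Or.inr (Or.inl ⟨s, t, rfl, rfl⟩))
    · exact Or.inr (Or.inr (Or.inr ⟨s, t, rfl, rfl⟩))

theorem sq8 (n : ℕ) : n ^ 2 % 8 = 0 ∨ n ^ 2 % 8 = 1 ∨ n ^ 2 % 8 = 4 := by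
  have h : n % 8 < 8 := Nat.mod_lt _ (by norm_num)
  rw [Nat.pow_mod]
  interval_cases n % 8 <;> simp

theorem sq8o {n : ℕ} (h : n % 2 = 1) : n ^ 2 % 8 = 1 := by
  have h1 : n % 8 < 8 := Nat.mod_lt _ (by norm_num)
  have h2 : n % 8 % 2 = 1 := by omega
  rw [Nat.pow_mod]
  interval_cases n % 8 <;> simp_all

theorem sq16e {n : ℕ} (h : n % 2 = 0) : n ^ 2 % 16 = 0 ∨ n ^ 2 % 16 = 4 := by
  have h1 : n % 16 < 16 := Nat.mod_lt _ (by norm_num)
  have h2 : n % 16 % 2 = 0 := by omega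
  rw [Nat.pow_mod]
  interval_cases n % 16 <;> simp_all

theorem fo16 {n : ℕ} (h : n % 2 = 1) : n ^ 4 % 16 = 1 := by
  have h1 : n % 16 < 16 := Nat.mod_lt _ (by norm_num)
  have h2 : n % 16 % 2 = 1 := by omega
  rw [Nat.pow_mod]
  interval_cases n % 16 <;> simp_all

theorem ei16 {n : ℕ} (h : n % 2 = 1) : n ^ 8 % 16 = 1 := by
  have h1 : n % 16 < 16 := Nat.mod_lt _ (by norm_num)
  have h2 : n % 16 % 2 = 1 := by omega
  rw [Nat.pow_mod]
  interval_cases n % 16 <;> simp_all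

theorem sq3 (n : ℕ) : n ^ 2 % 3 = 0 ∧ n % 3 = 0 ∨ n ^ 2 % 3 = 1 ∧ n % 3 ≠ 0 := by
  have h1 : n % 3 < 3 := Nat.mod_lt _ (by norm_num)
  rw [Nat.pow_mod]
  interval_cases n % 3 <;> simp

theorem fo3 {n : ℕ} (h : n % 3 ≠ 0) : n ^ 4 % 3 = 1 := by
  have h1 : n % 3 < 3 := Nat.mod_lt _ (by norm_num)
  rw [Nat.pow_mod]
  interval_cases n % 3 <;> simp_all

theorem ei3 (n : ℕ) : n ^ 8 % 3 = 0 ∧ n % 3 = 0 ∨ n ^ 8 % 3 = 1 ∧ n % 3 ≠ 0 := by
  have h1 : n % 3 < 3 := Nat.mod_lt _ (by norm_num)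
  rw [Nat.pow_mod]
  interval_cases n % 3 <;> simp

theorem cop_not3 {a b : ℕ} (h : Nat.Coprime a b) (ha : a % 3 = 0) (hb : b % 3 = 0) : False := by
  have := Nat.dvd_gcd (Nat.dvd_of_mod_eq_zero ha) (Nat.dvd_of_mod_eq_zero hb)
  rw [h] at this
  omega

theorem cop_not2 {a b : ℕ} (h : Nat.Coprime a b) (ha : a % 2 = 0) (hb : b % 2 = 0) : False := by
  have := Nat.dvd_gcd (Nat.dvd_of_mod_eq_zero ha) (Nat.dvd_of_mod_eq_zero hb)
  rw [h] at this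
  omega

/-- Primitive Pythagorean triples with odd first leg. -/
theorem pyth {m n b : ℕ} (h : m ^ 2 + n ^ 2 = b ^ 2) (hc : Nat.Coprime m n) (hm : m % 2 = 1)
    (hn : 0 < n) : ∃ v w : ℕ, 0 < v ∧ 0 < w ∧ Nat.Coprime (v + w) v ∧ w % 2 = 1 ∧
      m = (2 * v + w) * w ∧ n = 2 * (v + w) * v ∧ b = (v + w) ^ 2 + v ^ 2 := by
  have hb : 0 < b := by
    rcases Nat.eq_zero_or_pos b with h0 | h0
    · subst h0
      have : 0 < n ^ 2 := by positivity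
      omega
    · exact h0
  have h1 : PythagoreanTriple (m : ℤ) (n : ℤ) (b : ℤ) := by
    unfold PythagoreanTriple
    have : (m : ℤ) ^ 2 + (n : ℤ) ^ 2 = (b : ℤ) ^ 2 := by exact_mod_cast h
    linear_combination this
  have h2 : Int.gcd (m : ℤ) (n : ℤ) = 1 := by
    rw [Int.gcd_natCast_natCast]
    exact hc
  obtain ⟨U, V, e1, e2, e3, e4, e5, e6⟩ := h1.coprime_classification' h2 (by omega) (by omega)
  have hU : 0 < U := by
    rcases eq_or_lt_of_le e6 with h0 | h0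
    · rw [← h0] at e2
      simp at e2
      omega
    · exact h0
  have hV : 0 < V := by
    by_contra hcon
    have : 2 * U * V ≤ 0 := by
      have : U * V ≤ 0 := mul_nonpos_of_nonneg_of_nonpos hU.le (not_lt.1 hcon)
      linarith
    omega
  have hUV : V < U := by
    by_contra hcon
    have h5 : U ^ 2 ≤ V ^ 2 := pow_le_pow_left₀ hU.le (not_lt.1 hcon) 2
    have h6 : (0 : ℤ) < m := by omega
    omega
  obtain ⟨v, rfl⟩ := Int.eq_ofNat_of_zero_le hV.le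
  obtain ⟨w, hw⟩ := Int.eq_ofNat_of_zero_le (sub_nonneg.2 hUV.le)
  have hU' : U = (v : ℤ) + (w : ℤ) := by omega
  subst hU'
  refine ⟨v, w, by omega, by omega, ?_, by omega, ?_, ?_, ?_⟩
  · have : Int.gcd ((v : ℤ) + (w : ℤ)) (v : ℤ) = 1 := e4
    rw [← Nat.cast_add, Int.gcd_natCast_natCast] at this
    exact this
  · zify
    rw [e1]
    ring
  · zify
    rw [e2]
  · zify
    rw [e3]

end GF2
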